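import Pool.Agent.SawF.Num2

/-!
SAWF N3: definitions for the iteration over scales.
-/

set_option autoImplicit false

open Finset

namespace SawNu.SF


/-- multiplicity constant -/
noncomputable def Kc (N : ℕ) (d : ℝ) : ℝ := 1000 * ((Nat.log 2 N : ℝ) + 1) * (N : ℝ) ^ d

/-- tail over long words -/
noncomputable def TL (N : ℕ) (δ : ℝ) : ℝ :=
  ∑' q : ℕ, if N < q then ((q : ℝ) + 1) ^ 2 * Real.exp (-(δ * q)) else 0

/-- error terms -/
noncomputable def Err (N p : ℕ) (δ : ℝ) : ℝ :=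
  2 * ((N : ℝ) + 1) ^ 5 / ((N : ℝ) + 1) ^ p + TL N δ

/-- right side of the recursion at one scale -/
noncomputable def Rhs (N p : ℕ) (d δ T y : ℝ) (L : ℝ) : ℝ :=
  5 * Kc N d ^ 2 * y ^ 2 + 6 * T * Err N p δ + 6 * T ^ 4 * Real.exp (-(L / 1440))

end SawNu.SF
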