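import Pool.Agent.SawF.SecA

/-!
SAWF W1c: decoding.
-/

set_option autoImplicit false

open Classical

namespace SawNu.SF

open SawNu.SB Pool.Agent.Lib.SAW

variable {C : CL} {p E B R G G' : List Pt}

namespace SecC_aux

lemma ht_app (a b : List Pt) : ht (a ++ b) = ht a + ht b := by
  simp only [ht, List.sum_append, Prod.snd_add]

lemma ps_right_snd (a b : List Pt) (i : ℕ) : (ps (a ++ b) (a.length + i)).2 = ht a + (ps b i).2 := by
  rw [ps_append_right, Prod.snd_add]

lemma ps_len_snd (a : List Pt) : (ps a a.length).2 = ht a := by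
  rw [ps_length]

lemma ps_left_snd (a b : List Pt) : (ps (a ++ b) a.length).2 = ht a := by
  rw [ps_append_left le_rfl, ps_len_snd]

/-- levels of a bridge are nonnegative -/
lemma ps_nonneg {a : List Pt} (ha : Brc C a) {i : ℕ} (hi : i ≤ a.length) : 0 ≤ (ps a i).2 := by
  rcases Nat.eq_zero_or_pos i with h | h
  · rw [h, ps_zero]
    rfl
  · exact (ha.up i h hi).le

lemma len_p (h : Sec C p E B R) : p.length = E.length + (B.length + R.length) := by
  rw [h.eq, List.length_append, List.length_append, List.length_map]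

/-- the last piece -/
lemma exists_last {l : List Pt} (h : Brc C l) (hl : l ≠ []) :
    ∃ t, t < l.length ∧ CutT l t ∧ Brc C (l.take t) ∧ Irr C (l.drop t) := by
  have hpos : 0 < l.length := List.length_pos_iff.mpr hl
  let s : Finset ℕ := (Finset.range l.length).filter (CutT l)
  have hs : s.Nonempty := ⟨0, Finset.mem_filter.2 ⟨Finset.mem_range.2 hpos, h.cut_zero⟩⟩
  obtain ⟨h1, h2⟩ := Finset.mem_filter.1 (s.max'_mem hs)
  rw [Finset.mem_range] at h1
  have hb1 := h.take_cut h2
  have hb2 := h.drop_cut h2
  refine ⟨s.max' hs, h1, h2, hb1, hb2, ?_, ?_⟩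
  · intro h3
    have h4 := congrArg List.length h3
    rw [List.length_drop, List.length_nil] at h4
    omega
  · intro i hi1 hi2 hi3
    rw [List.length_drop] at hi2
    have hlen : (l.take (s.max' hs)).length = s.max' hs := by
      rw [List.length_take]
      exact min_eq_left h1.le
    have h5 := (cut_append_right hb1 hb2 (t := i) (by rw [List.length_drop]; omega)).2 hi3
    rw [hlen, List.take_append_drop] at h5
    have h6 := s.le_max' (s.max' hs + i) (Finset.mem_filter.2 ⟨Finset.mem_range.2 (by omega), h5⟩)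
    omega

end SecC_aux

open SecC_aux

/-- decoding of the lower end: `|G|` is the last cut time at a level below `x' = 2 j1 - j2` -/
theorem decode_low (hp : Irr C p) (h : Sec C p E B R) (hG : Brc C G) (hG' : Brc C G') :
    CutT (unfG G E B R G') G.length ∧
      (ps (unfG G E B R G') G.length).2 < ht G + ht E - ht B ∧
      ∀ t, CutT (unfG G E B R G') t →
        (ps (unfG G E B R G') t).2 < ht G + ht E - ht B → t ≤ G.length := by
  have hRG : Brc C (R ++ G') := h.bR.append hG'
  have hBR : Brc C (B ++ (R ++ G')) := h.bB.append hRG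
  have hEB : Brc C (E ++ (B ++ (R ++ G'))) := h.bE.append hBR
  have hx0 := h.hx0
  have hB := h.hB
  refine ⟨cut_junction hG hEB, ?_, ?_⟩
  · unfold unfG
    rw [ps_left_snd]
    omega
  · intro t ht1 ht2
    by_contra hlt
    rw [not_le] at hlt
    obtain ⟨i, rfl⟩ := Nat.exists_eq_add_of_le hlt.le
    unfold unfG at ht1 ht2
    have hle := ht1.le
    rw [List.length_append] at hle
    have hi : i ≤ (E ++ (B ++ (R ++ G'))).length := by omega
    have h1 := (cut_append_right hG hEB hi).1 ht1
    rw [ps_right_snd] at ht2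
    rcases le_or_gt i E.length with h2 | h2
    · have h3 := (cut_append_left h.bE hBR h2).1 h1
      have h4 := h.noE i h3 (by omega)
      rw [ps_append_left h2] at ht2
      omega
    · obtain ⟨j, rfl⟩ := Nat.exists_eq_add_of_le h2.le
      rw [ps_right_snd] at ht2
      have h3 : 0 ≤ (ps (B ++ (R ++ G')) j).2 := by
        refine ps_nonneg hBR ?_
        rw [List.length_append] at hi
        omega
      omega

/-- decoding of the upper end -/
theorem decode_high (hp : Irr C p) (h : Sec C p E B R) (hG : Brc C G) (hG' : Brc C G') :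
    CutT (unfG G E B R G') (G.length + p.length) ∧
      ht G + ht E + 2 * ht B ≤ (ps (unfG G E B R G') (G.length + p.length)).2 ∧
      ∀ t, CutT (unfG G E B R G') t →
        ht G + ht E + 2 * ht B ≤ (ps (unfG G E B R G') t).2 → G.length + p.length ≤ t := by
  have hGE : Brc C (G ++ (E ++ B)) := hG.append (h.bE.append h.bB)
  have hRG : Brc C (R ++ G') := h.bR.append hG'
  have hGR : Brc C ((G ++ (E ++ B)) ++ R) := hGE.append h.bR
  have hB := h.hB
  have hmp := h.hmp
  have hR := h.hR
  have e1 : unfG G E B R G' = ((G ++ (E ++ B)) ++ R) ++ G' := by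
    unfold unfG
    simp only [List.append_assoc]
  have e2 : unfG G E B R G' = (G ++ (E ++ B)) ++ (R ++ G') := by
    unfold unfG
    simp only [List.append_assoc]
  have l1 : (G ++ (E ++ B)).length = G.length + (E.length + B.length) := by
    rw [List.length_append, List.length_append]
  have l2 : ((G ++ (E ++ B)) ++ R).length = G.length + p.length := by
    rw [List.length_append, l1, len_p h]
    omega
  have l3 : ht (G ++ (E ++ B)) = ht G + (ht E + ht B) := by rw [ht_app, ht_app]
  have hcut : CutT (unfG G E B R G') (G.length + p.length) := by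
    rw [e1, ← l2]
    exact cut_junction hGR hG'
  refine ⟨hcut, ?_, ?_⟩
  · rw [e1, ← l2, ps_left_snd, ht_app, l3]
    omega
  · intro t ht1 ht2
    by_contra hlt
    rw [not_le] at hlt
    rcases le_or_gt t (G ++ (E ++ B)).length with h2 | h2
    · rw [e2, ps_append_left h2] at ht2
      have h3 : (ps (G ++ (E ++ B)) t).2 ≤ ht (G ++ (E ++ B)) := hGE.dn t h2
      omega
    · obtain ⟨i, rfl⟩ := Nat.exists_eq_add_of_le h2.le
      rw [len_p h] at hlt
      rw [e2] at ht1 ht2
      have hi : i < R.length := by omega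
      have h3 := (cut_append_right hGE hRG (by rw [List.length_append]; omega)).1 ht1
      have h4 := (cut_append_left h.bR hG' hi.le).1 h3
      have h5 := h.noR i h4 hi
      rw [ps_right_snd, ps_append_left hi.le] at ht2
      omega

/-- hence the word and the two junctions determine everything -/
theorem unfG_inj {p' E' B' R' H H' : List Pt} (hp : Irr C p) (h : Sec C p E B R)
    (hG : Brc C G) (hG' : Brc C G') (hp' : Irr C p') (h' : Sec C p' E' B' R')
    (hH : Brc C H) (hH' : Brc C H') (heq : unfG G E B R G' = unfG H E' B' R' H')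
    (h1 : G.length + E.length = H.length + E'.length)
    (h2 : G.length + E.length + B.length = H.length + E'.length + B'.length) :
    G = H ∧ p = p' ∧ G' = H' := by
  have lv1 : ∀ {X Y Z U V : List Pt}, (ps (unfG X Y Z U V) (X.length + Y.length)).2 = ht X + ht Y := by
    intro X Y Z U V
    unfold unfG
    rw [ps_right_snd, ps_left_snd]
  have lv2 : ∀ {X Y Z U V : List Pt},
      (ps (unfG X Y Z U V) (X.length + Y.length + Z.length)).2 = ht X + ht Y + ht Z := by
    intro X Y Z U V
    unfold unfG
    rw [add_assoc, ps_right_snd, ps_right_snd, ps_left_snd, add_assoc]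
  have a1 : ht G + ht E = ht H + ht E' := by
    rw [← lv1 (X := G) (Y := E) (Z := B) (U := R) (V := G'), heq, h1, lv1]
  have a2 : ht G + ht E + ht B = ht H + ht E' + ht B' := by
    rw [← lv2 (X := G) (Y := E) (Z := B) (U := R) (V := G'), heq, h2, lv2]
  obtain ⟨b1, b2, b3⟩ := decode_low hp h hG hG'
  obtain ⟨c1, c2, c3⟩ := decode_low hp' h' hH hH'
  obtain ⟨d1, d2, d3⟩ := decode_high hp h hG hG'
  obtain ⟨f1, f2, f3⟩ := decode_high hp' h' hH hH'
  have e1 : G.length = H.length := by
    refine le_antisymm (c3 _ (heq ▸ b1) ?_) (b3 _ (heq ▸ c1) ?_)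
    · rw [← heq]
      omega
    · rw [heq]
      omega
  have e2 : G.length + p.length = H.length + p'.length := by
    refine le_antisymm (d3 _ (heq ▸ f1) ?_) (f3 _ (heq ▸ d1) ?_)
    · rw [heq]
      omega
    · rw [← heq]
      omega
  have lp := len_p h
  have lp' := len_p h'
  unfold unfG at heq
  obtain ⟨g1, heq1⟩ := List.append_inj heq e1
  obtain ⟨g2, heq2⟩ := List.append_inj heq1 (by omega)
  obtain ⟨g3, heq3⟩ := List.append_inj heq2 (by omega)
  obtain ⟨g4, g5⟩ := List.append_inj heq3 (by omega)
  refine ⟨g1, ?_, g5⟩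
  rw [h.eq, h'.eq, g2, g3, g4]

/-- the first piece of `E` and the last piece of `R` are large -/
theorem ends_big (hp : Irr C p) (h : Sec C p E B R) {m : ℕ} (h1 : (m : ℤ) ≤ ht E - ht B)
    (h2 : (m : ℤ) ≤ ht p - ht E) : HasEnds C m (unfG [] E B R []) := by
  have hB := h.hB
  have hx0 := h.hx0
  have hmp := h.hmp
  have hR := h.hR
  have hE0 : E ≠ [] := by
    intro h0
    rw [h0] at hx0
    simp only [ht, List.sum_nil, Prod.snd_zero] at hx0 hB
    omega
  have hR0 : R ≠ [] := by
    intro h0
    rw [h0] at hR
    simp only [ht, List.sum_nil, Prod.snd_zero] at hx0 hB hR hmp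
    omega
  obtain ⟨t, ht0, htl, hc, hI, hD⟩ := exists_first h.bE hE0
  obtain ⟨s, hsl, hcs, hT, hJ⟩ := exists_last h.bR hR0
  have k1 : ht (E.take t) = (ps E t).2 := rfl
  have k2 : ht (R.drop s) = ht R - (ps R s).2 := by
    unfold ht
    rw [sum_drop, Prod.snd_sub]
  have k3 := h.noE t hc ht0
  have k4 := h.noR s hcs hsl
  refine ⟨E.take t, E.drop t ++ (B ++ R.take s), R.drop s, ?_, hI, by omega,
    hD.append (h.bB.append hT), hJ, by omega⟩
  unfold unfG
  rw [List.nil_append, List.append_nil]
  conv_lhs => rw [← List.take_append_drop t E, ← List.take_append_drop s R]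
  simp only [List.append_assoc]

end SawNu.SF
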