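import Pool.Agent.SawF.SecB
import Pool.Agent.SawF.SecC
import Pool.Agent.SawF.Num3

/-!
SAWF W2: candidate sets for the junctions.
-/

set_option autoImplicit false

open Classical

namespace SawNu.SF

open SawNu.SB Pool.Agent.Lib.SAW

variable {C : CL}

/-- candidates, thin sections: windows `[lo, lo + 2^k]`, `lo = H/2 + (a - 3) 2^k` -/
noncomputable def cda (w : List Pt) : Finset ℕ :=
  ((Finset.range (Nat.log 2 w.length + 1) ×ˢ
    (Finset.range 6 ×ˢ (Finset.univ : Finset Bool))).filter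
      (fun y => 3 * 2 ^ y.1 ≤ (ht w).toNat / 2 + y.2.1 * 2 ^ y.1 ∧
        2 ^ y.1 ≤ (ht w).toNat / 2 + y.2.1 * 2 ^ y.1 - 3 * 2 ^ y.1 ∧
        (ht w).toNat / 2 + y.2.1 * 2 ^ y.1 - 3 * 2 ^ y.1 + 2 * 2 ^ y.1 ≤ (ht w).toNat)).biUnion
    (fun y => GW y.2.2 w
      ((((ht w).toNat / 2 + y.2.1 * 2 ^ y.1 - 3 * 2 ^ y.1 : ℕ) : ℤ))
      ((((ht w).toNat / 2 + y.2.1 * 2 ^ y.1 - 3 * 2 ^ y.1 : ℕ) : ℤ) + ((2 ^ y.1 : ℕ) : ℤ)))

/-- indices of the windows -/
def cdbJ (n : ℕ) : Finset (ℕ × Bool) := Finset.Icc 1 n ×ˢ (Finset.univ : Finset Bool)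

lemma mem_cdbJ {n : ℕ} {y : ℕ × Bool} : y ∈ cdbJ n ↔ 1 ≤ y.1 ∧ y.1 ≤ n := by
  rw [cdbJ, Finset.mem_product, Finset.mem_Icc]
  exact ⟨fun h => h.1, fun h => ⟨h, Finset.mem_univ _⟩⟩

lemma card_cdbJ (n : ℕ) : (cdbJ n).card = n * 2 := by
  rw [cdbJ, Finset.card_product, Nat.card_Icc, Finset.card_univ, Fintype.card_bool,
    Nat.add_sub_cancel]

/-- indices of the windows, `1 ≤ a ≤ 100` (irreducible: evaluating this set is expensive) -/
@[irreducible] def cdbI : Finset (ℕ × Bool) := cdbJ 100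

lemma mem_cdbI {y : ℕ × Bool} : y ∈ cdbI ↔ 1 ≤ y.1 ∧ y.1 ≤ 100 := by
  unfold cdbI
  exact mem_cdbJ

lemma card_cdbI : cdbI.card = 200 := by
  unfold cdbI
  exact card_cdbJ 100

/-- candidates, thick sections: windows `[a len, (a+1) len]`, `len = S / 8` -/
noncomputable def cdb (S : ℕ) (w : List Pt) : Finset ℕ :=
  (cdbI.filter
    (fun y => y.1 * (S / 8) + 2 * (S / 8) ≤ (ht w).toNat)).biUnion
    (fun y => GW y.2 w ((y.1 * (S / 8) : ℕ) : ℤ) (((y.1 * (S / 8) : ℕ) : ℤ) + ((S / 8 : ℕ) : ℤ)))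

lemma Cand_ht_le {w : List Pt} (hw : Brc C w) : ht w ≤ (w.length : ℤ) := by
  have h := SawNu.SB.lev_le_time hw.wd (le_refl w.length)
  rw [ps_length] at h
  exact h

lemma Cand_ht_nil : ht ([] : List Pt) = 0 := by simp [ht]

lemma Cand_a {w : List Pt} {τ r : ℕ} (hwl : ht w ≤ (w.length : ℤ)) (h1 : 1 ≤ r)
    (h10 : 10 * (r : ℤ) ≤ ht w) (hc : CutT w τ)
    (hg : RGood w.length (ps w) (ps w τ).2 r τ) (hs : ∃ s, Sg s (ps w) τ)
    (hlo : ht w < 2 * (ps w τ).2 + 2 * r) (hhi : 2 * (ps w τ).2 ≤ ht w + 2 * r) : τ ∈ cda w := by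
  obtain ⟨s, hs⟩ := hs
  obtain ⟨H, hH⟩ : ∃ H : ℕ, (ht w).toNat = H := ⟨_, rfl⟩
  have hH' : (H : ℤ) = ht w := by omega
  obtain ⟨v, hv⟩ : ∃ v : ℕ, (v : ℤ) = (ps w τ).2 :=
    ⟨((ps w τ).2).toNat, Int.toNat_of_nonneg (by omega)⟩
  have hp1 : 2 ^ Nat.log 2 r ≤ r := Nat.pow_log_le_self 2 (by omega)
  have hp2 : r < 2 ^ (Nat.log 2 r + 1) := Nat.lt_pow_succ_log_self (by norm_num) r
  rw [pow_succ] at hp2
  have hp0 : 0 < 2 ^ Nat.log 2 r := by positivity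
  have hj : Nat.log 2 r ≤ Nat.log 2 w.length := Nat.log_mono_right (by omega)
  generalize hk : Nat.log 2 r = k at *
  generalize hp : 2 ^ k = p at *
  obtain ⟨z, hz⟩ : ∃ z : ℕ, z + H / 2 = v + 3 * p := ⟨v + 3 * p - H / 2, by omega⟩
  have ha5 : z / p < 5 := by
    rw [Nat.div_lt_iff_lt_mul hp0]
    omega
  have ha1 : 1 ≤ z / p := by
    rw [Nat.le_div_iff_mul_le hp0]
    omega
  have hd1 : z / p * p ≤ z := Nat.div_mul_le_self z p
  have hd2 : z < z / p * p + p := Nat.lt_div_mul_add hp0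
  have hq1 : 1 * p ≤ z / p * p := Nat.mul_le_mul_right p ha1
  have hq4 : z / p * p ≤ 4 * p := Nat.mul_le_mul_right p (by omega)
  rw [cda, hH, Finset.mem_biUnion]
  refine ⟨(k, (z / p, s)), ?_, ?_⟩
  · rw [Finset.mem_filter, Finset.mem_product, Finset.mem_product, Finset.mem_range,
      Finset.mem_range]
    refine ⟨⟨by simp only; omega, by simp only; omega, Finset.mem_univ _⟩, ?_⟩
    simp only
    rw [hp]
    generalize z / p * p = q at *
    refine ⟨by omega, by omega, by omega⟩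
  · rw [mem_GW]
    simp only
    rw [hp]
    generalize z / p * p = q at *
    refine ⟨hc, ?_, ?_, ?_, hs⟩
    · omega
    · omega
    · apply hg.mono
      omega

lemma Cand_b {S : ℕ} (h16 : 16 ≤ S) {w : List Pt} {τ : ℕ} {r : ℤ} (hr : (S : ℤ) ≤ 8 * r)
    (hc : CutT w τ) (hg : RGood w.length (ps w) (ps w τ).2 r τ) (hs : ∃ s, Sg s (ps w) τ)
    (hlo : r ≤ (ps w τ).2) (h5 : (ps w τ).2 ≤ 5 * (S : ℤ))
    (hhi : (4 : ℤ) * (ps w τ).2 + (S : ℤ) ≤ (4 : ℤ) * ht w) : τ ∈ cdb S w := by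
  obtain ⟨s, hs⟩ := hs
  obtain ⟨v, hv⟩ : ∃ v : ℕ, (v : ℤ) = (ps w τ).2 :=
    ⟨((ps w τ).2).toNat, Int.toNat_of_nonneg (by omega)⟩
  obtain ⟨p, hp⟩ : ∃ p : ℕ, S / 8 = p := ⟨_, rfl⟩
  have hp2 : 2 ≤ p := by omega
  have hp0 : 0 < p := by omega
  have ha1 : 1 ≤ v / p := by
    rw [Nat.le_div_iff_mul_le hp0]
    omega
  have ha5 : v / p < 101 := by
    rw [Nat.div_lt_iff_lt_mul hp0]
    omega
  have hd1 : v / p * p ≤ v := Nat.div_mul_le_self v p
  have hd2 : v < v / p * p + p := Nat.lt_div_mul_add hp0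
  rw [cdb, Finset.mem_biUnion]
  refine ⟨(v / p, s), ?_, ?_⟩
  · rw [Finset.mem_filter, mem_cdbI]
    refine ⟨⟨by simp only; omega, by simp only; omega⟩, ?_⟩
    simp only
    rw [hp]
    generalize v / p * p = q at *
    omega
  · rw [mem_GW]
    simp only
    rw [hp]
    generalize v / p * p = q at *
    refine ⟨hc, ?_, ?_, ?_, hs⟩
    · omega
    · omega
    · apply hg.mono
      omega

/-- thin sections: both junctions are candidates (no bridges attached) -/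
theorem mem_cda (L : RLat) (hS : ∀ b, L.S b = C.S) {p E B R : List Pt} (hp : Irr C p)
    (h : Sec C p E B R) (hr : 8 * ht B < ht p) :
    E.length ∈ cda (unfG [] E B R []) ∧ E.length + B.length ∈ cda (unfG [] E B R []) := by
  obtain ⟨⟨c1, e1, g1, s1⟩, ⟨c2, e2, g2, s2⟩⟩ := junctions L hS hp h Brc.nil Brc.nil
  have hw : Brc C (unfG [] E B R []) := brc_unfG h Brc.nil Brc.nil
  have hH := ht_unfG (G := []) (G' := []) h
  have hwl := Cand_ht_le hw
  simp only [List.length_nil, Cand_ht_nil, zero_add, add_zero] at c1 e1 g1 s1 c2 e2 g2 s2 hH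
  generalize unfG [] E B R [] = w at *
  have b0 := h.hB
  have b1 := h.hx0
  have b2 := h.hx
  have b3 := h.hm
  have b4 := h.hmp
  obtain ⟨r, hr'⟩ : ∃ r : ℕ, (r : ℤ) = ht B := ⟨(ht B).toNat, Int.toNat_of_nonneg (by omega)⟩
  rw [← hr'] at g1 g2
  constructor
  · exact Cand_a (r := r) hwl (by omega) (by omega) c1 (by rw [e1]; exact g1) s1
      (by rw [e1]; omega) (by rw [e1]; omega)
  · exact Cand_a (r := r) hwl (by omega) (by omega) c2 (by rw [e2, ← hr']; exact g2) s2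
      (by rw [e2]; omega) (by rw [e2]; omega)

/-- thick sections: both junctions are candidates -/
theorem mem_cdb (L : RLat) (hS : ∀ b, L.S b = C.S) {S : ℕ} (h16 : 16 ≤ S)
    {p E B R G G' : List Pt} (hp : Irr C p) (h : Sec C p E B R) (hG : Brc C G) (hG' : Brc C G')
    (h1 : (S : ℤ) ≤ ht p) (h2 : ht p < 2 * S) (hr : (S : ℤ) ≤ 8 * ht B) (hGS : ht G ≤ S)
    (hGS' : ht G' ≤ S) :
    G.length + E.length ∈ cdb S (unfG G E B R G') ∧
      G.length + E.length + B.length ∈ cdb S (unfG G E B R G') := by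
  obtain ⟨⟨c1, e1, g1, s1⟩, ⟨c2, e2, g2, s2⟩⟩ := junctions L hS hp h hG hG'
  have hH := ht_unfG (G := G) (G' := G') h
  have q1 := hG.ht_nonneg
  have q2 := hG'.ht_nonneg
  generalize unfG G E B R G' = w at *
  have b0 := h.hB
  have b1 := h.hx0
  have b2 := h.hx
  have b3 := h.hm
  have b4 := h.hmp
  constructor
  · exact Cand_b (r := ht B) h16 hr c1 (by rw [e1]; exact g1) s1
      (by rw [e1]; omega) (by rw [e1]; omega) (by rw [e1]; omega)
  · exact Cand_b (r := ht B) h16 hr c2 (by rw [e2]; exact g2) s2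
      (by rw [e2]; omega) (by rw [e2]; omega) (by rw [e2]; omega)

lemma Cand_win {N : ℕ} {d : ℝ} {w : List Pt} (hb : ¬ badw N N d w) (s : Bool) {lo len : ℕ}
    (h1 : 1 ≤ len) (h2 : len ≤ lo) (h3 : (lo : ℤ) + 2 * len ≤ ht w) (h4 : ht w ≤ N) :
    ((GW s w (lo : ℤ) ((lo : ℤ) + (len : ℤ))).card : ℝ) ≤ (N : ℝ) ^ d := by
  by_contra hc
  push Not at hc
  exact hb ⟨s, lo, len, h1, by omega, h2, by omega, h3, hc⟩

/-- few candidates in words which are not bad. (The prover may change the definitions of `cda` and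
`cdb`; keep the four theorems of this file.) -/
theorem card_cda {N : ℕ} {d : ℝ} (hN : 1 ≤ N) (hd : 0 < d) {w : List Pt} (hw : Brc C w)
    (hlen : w.length ≤ N) (hb : ¬ badw N N d w) : ((cda w).card : ℝ) ≤ Kc N d := by
  have hwl := Cand_ht_le hw
  have hw0 := hw.ht_nonneg
  have hNd : (0 : ℝ) ≤ (N : ℝ) ^ d := by positivity
  have hlog : (Nat.log 2 w.length : ℝ) ≤ (Nat.log 2 N : ℝ) := by
    exact_mod_cast Nat.log_mono_right hlen
  have hlog0 : (0 : ℝ) ≤ (Nat.log 2 w.length : ℝ) := Nat.cast_nonneg _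
  rw [cda]
  refine (Nat.cast_le.mpr Finset.card_biUnion_le).trans ?_
  push_cast
  refine (Finset.sum_le_card_nsmul _ _ ((N : ℝ) ^ d) ?_).trans ?_
  · intro y hy
    rw [Finset.mem_filter] at hy
    obtain ⟨-, h1, h2, h3⟩ := hy
    have hp0 : 1 ≤ 2 ^ y.1 := Nat.one_le_two_pow
    have := Cand_win hb y.2.2 hp0 h2 (by omega) (by omega)
    push_cast at this ⊢
    exact this
  · rw [nsmul_eq_mul, Kc]
    have hcard : (((Finset.range (Nat.log 2 w.length + 1) ×ˢ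
      (Finset.range 6 ×ˢ (Finset.univ : Finset Bool))).filter
      (fun y => 3 * 2 ^ y.1 ≤ (ht w).toNat / 2 + y.2.1 * 2 ^ y.1 ∧
        2 ^ y.1 ≤ (ht w).toNat / 2 + y.2.1 * 2 ^ y.1 - 3 * 2 ^ y.1 ∧
        (ht w).toNat / 2 + y.2.1 * 2 ^ y.1 - 3 * 2 ^ y.1 + 2 * 2 ^ y.1 ≤ (ht w).toNat)).card : ℝ)
        ≤ ((Nat.log 2 w.length : ℝ) + 1) * 12 := by
      have h5 := Finset.card_filter_le (Finset.range (Nat.log 2 w.length + 1) ×ˢ
        (Finset.range 6 ×ˢ (Finset.univ : Finset Bool)))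
        (fun y => 3 * 2 ^ y.1 ≤ (ht w).toNat / 2 + y.2.1 * 2 ^ y.1 ∧
        2 ^ y.1 ≤ (ht w).toNat / 2 + y.2.1 * 2 ^ y.1 - 3 * 2 ^ y.1 ∧
        (ht w).toNat / 2 + y.2.1 * 2 ^ y.1 - 3 * 2 ^ y.1 + 2 * 2 ^ y.1 ≤ (ht w).toNat)
      rw [Finset.card_product, Finset.card_product, Finset.card_range, Finset.card_range,
        Finset.card_univ, Fintype.card_bool] at h5
      calc _ ≤ (((Nat.log 2 w.length + 1) * (6 * 2) : ℕ) : ℝ) := by exact_mod_cast h5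
        _ = _ := by push_cast; ring
    calc _ ≤ ((Nat.log 2 w.length : ℝ) + 1) * 12 * (N : ℝ) ^ d :=
          mul_le_mul_of_nonneg_right hcard hNd
      _ ≤ 1000 * ((Nat.log 2 N : ℝ) + 1) * (N : ℝ) ^ d := by
          refine mul_le_mul_of_nonneg_right ?_ hNd
          nlinarith

theorem card_cdb {N : ℕ} {d : ℝ} (hN : 1 ≤ N) (hd : 0 < d) {S : ℕ} (h16 : 16 ≤ S) {w : List Pt}
    (hw : Brc C w) (hlen : w.length ≤ N) (hb : ¬ badw N N d w) :
    ((cdb S w).card : ℝ) ≤ Kc N d := by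
  have hwl := Cand_ht_le hw
  have hw0 := hw.ht_nonneg
  have hNd : (0 : ℝ) ≤ (N : ℝ) ^ d := by positivity
  have hlog0 : (0 : ℝ) ≤ (Nat.log 2 N : ℝ) := Nat.cast_nonneg _
  obtain ⟨p, hp⟩ : ∃ p : ℕ, S / 8 = p := ⟨_, rfl⟩
  rw [cdb, hp]
  refine (Nat.cast_le.mpr Finset.card_biUnion_le).trans ?_
  push_cast
  refine (Finset.sum_le_card_nsmul _ _ ((N : ℝ) ^ d) ?_).trans ?_
  · intro y hy
    rw [Finset.mem_filter, mem_cdbI] at hy
    obtain ⟨⟨h1, h2⟩, h3⟩ := hy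
    have hq : 1 * p ≤ y.1 * p := Nat.mul_le_mul_right p h1
    have := Cand_win (lo := y.1 * p) (len := p) hb y.2 (by omega) (by omega) (by omega) (by omega)
    push_cast at this ⊢
    exact this
  · rw [nsmul_eq_mul, Kc]
    have hcard : (((cdbI.filter
        (fun y => y.1 * p + 2 * p ≤ (ht w).toNat)).card : ℕ) : ℝ) ≤ 200 := by
      have h5 := Finset.card_filter_le cdbI (fun y => y.1 * p + 2 * p ≤ (ht w).toNat)
      rw [card_cdbI] at h5
      exact_mod_cast h5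
    calc _ ≤ 200 * (N : ℝ) ^ d := mul_le_mul_of_nonneg_right hcard hNd
      _ ≤ 1000 * ((Nat.log 2 N : ℝ) + 1) * (N : ℝ) ^ d := by
          refine mul_le_mul_of_nonneg_right ?_ hNd
          nlinarith

end SawNu.SF
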