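import Pool.Agent.SawF.Num3

/-!
SAWF N3a: iteration over scales (P6 of the plan).
-/

set_option autoImplicit false

open Finset

namespace SawNu.SF


lemma TL_summable (N : ℕ) {δ : ℝ} (hδ : 0 < δ) :
    Summable (fun q : ℕ => if N < q then ((q : ℝ) + 1) ^ 2 * Real.exp (-(δ * q)) else 0) := by
  have h : Summable (fun q : ℕ => ((q : ℝ) + 1) ^ 2 * Real.exp (-(δ * q))) := by
    have h2 := Real.summable_pow_mul_exp_neg_nat_mul 2 hδ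
    have h1 := Real.summable_pow_mul_exp_neg_nat_mul 1 hδ
    have h0 := Real.summable_pow_mul_exp_neg_nat_mul 0 hδ
    refine ((h2.add (h1.mul_left 2)).add h0).congr fun q => ?_
    have e : -(δ * (q : ℝ)) = -δ * q := by ring
    rw [e]
    ring
  refine Summable.of_nonneg_of_le (fun q => ?_) (fun q => ?_) h
  · split_ifs
    · positivity
    · exact le_refl _
  · split_ifs
    · exact le_refl _
    · positivity

lemma TL_nonneg (N : ℕ) (δ : ℝ) : 0 ≤ TL N δ := by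
  unfold TL
  refine tsum_nonneg fun q => ?_
  split_ifs
  · positivity
  · exact le_refl _

namespace Num3a_aux

open Filter Topology

/-- polynomials times a stretched exponential -/
lemma term_small (B : ℝ) :
    ∃ n0 : ℕ, 1 ≤ n0 ∧ ∀ q : ℕ, n0 ≤ q →
      ((q : ℝ) + 1) ^ 2 * Real.exp (-Real.sqrt q) ≤ (q : ℝ) ^ (-B) * (1 / (q : ℝ) ^ 2) := by
  have h1 : Tendsto (fun x : ℝ => x ^ (2 * B + 8) * Real.exp (-1 * x)) atTop (𝓝 0) :=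
    tendsto_rpow_mul_exp_neg_mul_atTop_nhds_zero _ 1 one_pos
  have h2 : Tendsto (fun q : ℕ => Real.sqrt (q : ℝ)) atTop atTop :=
    Real.tendsto_sqrt_atTop.comp tendsto_natCast_atTop_atTop
  have h3 := (h1.comp h2).eventually_le_const (u := 1 / 4) (by norm_num)
  obtain ⟨n1, hn1⟩ := eventually_atTop.1 h3
  refine ⟨max n1 1, le_max_right _ _, fun q hq => ?_⟩
  have hq1 : n1 ≤ q := (le_max_left _ _).trans hq
  have hq2 : 1 ≤ q := (le_max_right _ _).trans hq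
  have hqr : (1 : ℝ) ≤ q := by exact_mod_cast hq2
  have hq0 : (0 : ℝ) < q := by linarith
  have h4 := hn1 q hq1
  simp only [Function.comp_apply, neg_mul, one_mul] at h4
  have h5 : Real.sqrt (q : ℝ) ^ (2 * B + 8) = (q : ℝ) ^ B * (q : ℝ) ^ 4 := by
    rw [Real.sqrt_eq_rpow, ← Real.rpow_mul hq0.le,
      show (1 / 2 : ℝ) * (2 * B + 8) = B + 4 by ring, Real.rpow_add hq0]
    congr 1
    exact_mod_cast Real.rpow_natCast (q : ℝ) 4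
  rw [h5] at h4
  have h6 : ((q : ℝ) + 1) ^ 2 ≤ 4 * (q : ℝ) ^ 2 := by nlinarith
  have h7 : 0 < (q : ℝ) ^ B := Real.rpow_pos_of_pos hq0 B
  rw [Real.rpow_neg hq0.le]
  have h8 : 0 < (q : ℝ) ^ 2 := by positivity
  rw [inv_mul_eq_div, le_div_iff₀ h7, le_div_iff₀ h8]
  have h9 : 0 ≤ Real.exp (-Real.sqrt q) := (Real.exp_pos _).le
  calc ((q : ℝ) + 1) ^ 2 * Real.exp (-Real.sqrt q) * (q : ℝ) ^ B * (q : ℝ) ^ 2
      ≤ 4 * (q : ℝ) ^ 2 * Real.exp (-Real.sqrt q) * (q : ℝ) ^ B * (q : ℝ) ^ 2 := by gcongr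
    _ = 4 * ((q : ℝ) ^ B * (q : ℝ) ^ 4 * Real.exp (-Real.sqrt q)) := by ring
    _ ≤ 4 * (1 / 4) := by gcongr
    _ = 1 := by norm_num

/-- the tail is smaller than any power -/
lemma TL_small (C0 B : ℝ) (hC0 : 0 < C0) (hB : 0 ≤ B) :
    ∃ (K : ℝ) (s1 : ℕ), 0 < K ∧ 1 ≤ s1 ∧ ∀ s : ℕ, s1 ≤ s → ∀ (N : ℕ) (δ : ℝ),
      (s : ℝ) ^ (2 * C0 + 1) ≤ N → (s : ℝ) ^ (-C0) ≤ δ → TL N δ ≤ K * (s : ℝ) ^ (-B) := by
  obtain ⟨n0, hn0, hq⟩ := term_small B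
  have hsum : Summable (fun q : ℕ => 1 / (q : ℝ) ^ 2) := Real.summable_one_div_nat_pow.2 one_lt_two
  have hK0 : 0 ≤ ∑' q : ℕ, 1 / (q : ℝ) ^ 2 := tsum_nonneg fun q => by positivity
  refine ⟨∑' q : ℕ, 1 / (q : ℝ) ^ 2 + 1, n0, by linarith, hn0, fun s hs N δ hN hδ => ?_⟩
  have hs1 : (1 : ℝ) ≤ s := by exact_mod_cast hn0.trans hs
  have hs0 : (0 : ℝ) < s := by linarith
  have hsB : 0 < (s : ℝ) ^ (-B) := Real.rpow_pos_of_pos hs0 _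
  have hδ0 : 0 < δ := lt_of_lt_of_le (Real.rpow_pos_of_pos hs0 _) hδ
  have hterm : ∀ q : ℕ, (if N < q then ((q : ℝ) + 1) ^ 2 * Real.exp (-(δ * q)) else 0) ≤
      (s : ℝ) ^ (-B) * (1 / (q : ℝ) ^ 2) := by
    intro q
    split_ifs with h
    · have h1 : (N : ℝ) ≤ q := by exact_mod_cast h.le
      have h2 : (s : ℝ) ^ (2 * C0 + 1) ≤ q := hN.trans h1
      have h3 : (s : ℝ) ≤ (s : ℝ) ^ (2 * C0 + 1) := by
        conv_lhs => rw [← Real.rpow_one (s : ℝ)]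
        exact Real.rpow_le_rpow_of_exponent_le hs1 (by linarith)
      have h4 : (s : ℝ) ≤ q := h3.trans h2
      have hnq : n0 ≤ q := hs.trans (by exact_mod_cast h4)
      have hq0 : (0 : ℝ) < q := by linarith
      have h5 : Real.sqrt q ≤ δ * q := by
        have h6 : (s : ℝ) ^ C0 ≤ Real.sqrt q := by
          apply Real.le_sqrt_of_sq_le
          refine le_trans ?_ h2
          rw [← Real.rpow_natCast, ← Real.rpow_mul hs0.le]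
          exact Real.rpow_le_rpow_of_exponent_le hs1 (by push_cast; linarith)
        have h7 : 1 ≤ δ * Real.sqrt q := by
          calc (1 : ℝ) = (s : ℝ) ^ (-C0) * (s : ℝ) ^ C0 := by
                rw [← Real.rpow_add hs0]; simp
            _ ≤ δ * Real.sqrt q := by gcongr
        calc Real.sqrt q = 1 * Real.sqrt q := (one_mul _).symm
          _ ≤ δ * Real.sqrt q * Real.sqrt q := by gcongr
          _ = δ * q := by rw [mul_assoc, Real.mul_self_sqrt hq0.le]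
      calc ((q : ℝ) + 1) ^ 2 * Real.exp (-(δ * q))
          ≤ ((q : ℝ) + 1) ^ 2 * Real.exp (-Real.sqrt q) := by gcongr
        _ ≤ (q : ℝ) ^ (-B) * (1 / (q : ℝ) ^ 2) := hq q hnq
        _ ≤ (s : ℝ) ^ (-B) * (1 / (q : ℝ) ^ 2) := by
          exact mul_le_mul_of_nonneg_right
            (Real.rpow_le_rpow_of_nonpos hs0 h4 (by linarith)) (by positivity)
    · positivity
  calc TL N δ ≤ ∑' q : ℕ, (s : ℝ) ^ (-B) * (1 / (q : ℝ) ^ 2) :=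
        (TL_summable N hδ0).tsum_le_tsum hterm (hsum.mul_left _)
    _ = (s : ℝ) ^ (-B) * ∑' q : ℕ, 1 / (q : ℝ) ^ 2 := tsum_mul_left
    _ ≤ (∑' q : ℕ, 1 / (q : ℝ) ^ 2 + 1) * (s : ℝ) ^ (-B) := by nlinarith

/-- eventually `c ≤ s ^ η` -/
lemma ev_const (c η : ℝ) (hη : 0 < η) : ∀ᶠ s : ℕ in atTop, c ≤ (s : ℝ) ^ η :=
  ((tendsto_rpow_atTop hη).comp tendsto_natCast_atTop_atTop).eventually_ge_atTop c

/-- the ceiling of a power is at most the next power -/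
lemma ceil_le (C : ℝ) (hC : 0 ≤ C) {s : ℕ} (hs : 2 ≤ s) :
    ((⌈(s : ℝ) ^ C⌉₊ : ℕ) : ℝ) ≤ (s : ℝ) ^ (C + 1) := by
  have hs2 : (2 : ℝ) ≤ s := by exact_mod_cast hs
  have h1 : (1 : ℝ) ≤ (s : ℝ) ^ C := Real.one_le_rpow (by linarith) hC
  have h2 := (Nat.ceil_lt_add_one (show 0 ≤ (s : ℝ) ^ C by positivity)).le
  rw [Real.rpow_add_one (by positivity)]
  nlinarith

/-- the number of dyadic scales is smaller than any power -/
lemma ev_log (C η : ℝ) (hC : 0 ≤ C) (hη : 0 < η) :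
    ∀ᶠ s : ℕ in atTop, (Nat.log 2 ⌈(s : ℝ) ^ C⌉₊ : ℝ) + 1 ≤ (s : ℝ) ^ η := by
  have h1 : ∀ᶠ x : ℝ in atTop, ‖Real.log x‖ ≤ 1 / (4 * (C + 1)) * ‖x ^ η‖ :=
    (isLittleO_log_rpow_atTop hη).bound (by positivity)
  have h2 : ∀ᶠ s : ℕ in atTop, ‖Real.log (s : ℝ)‖ ≤ 1 / (4 * (C + 1)) * ‖(s : ℝ) ^ η‖ :=
    tendsto_natCast_atTop_atTop.eventually h1
  filter_upwards [h2, ev_const 2 η hη, eventually_ge_atTop 2] with s hs1 hs2 hs3
  have hs : (2 : ℝ) ≤ s := by exact_mod_cast hs3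
  have hs0 : (0 : ℝ) < s := by linarith
  have hlog : 0 ≤ Real.log (s : ℝ) := Real.log_nonneg (by linarith)
  rw [Real.norm_of_nonneg hlog, Real.norm_of_nonneg (Real.rpow_nonneg hs0.le _)] at hs1
  have hc := ceil_le C hC hs3
  have h3 : (1 : ℝ) ≤ ((⌈(s : ℝ) ^ C⌉₊ : ℕ) : ℝ) :=
    (Real.one_le_rpow (by linarith) hC).trans (Nat.le_ceil _)
  have h4 : (Nat.log 2 ⌈(s : ℝ) ^ C⌉₊ : ℝ) * Real.log 2 ≤ Real.log ((⌈(s : ℝ) ^ C⌉₊ : ℕ) : ℝ) := by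
    have h5 : 2 ^ Nat.log 2 ⌈(s : ℝ) ^ C⌉₊ ≤ ⌈(s : ℝ) ^ C⌉₊ :=
      Nat.pow_log_le_self 2 (by
        intro h0
        rw [h0] at h3
        norm_num at h3)
    have h6 : ((2 : ℝ) ^ Nat.log 2 ⌈(s : ℝ) ^ C⌉₊) ≤ ((⌈(s : ℝ) ^ C⌉₊ : ℕ) : ℝ) := by
      exact_mod_cast h5
    have h7 := Real.log_le_log (by positivity) h6
    rw [Real.log_pow] at h7
    exact h7
  have h5 : Real.log ((⌈(s : ℝ) ^ C⌉₊ : ℕ) : ℝ) ≤ (C + 1) * Real.log s := by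
    have h6 := Real.log_le_log (by linarith) hc
    rw [Real.log_rpow hs0] at h6
    exact h6
  have h6 : (1 / 2 : ℝ) < Real.log 2 := by
    have := Real.log_two_gt_d9
    linarith
  have h7 : (0 : ℝ) ≤ (Nat.log 2 ⌈(s : ℝ) ^ C⌉₊ : ℝ) := Nat.cast_nonneg _
  have h8 : (C + 1) * Real.log s ≤ (1 / 4) * (s : ℝ) ^ η := by
    calc (C + 1) * Real.log s ≤ (C + 1) * (1 / (4 * (C + 1)) * (s : ℝ) ^ η) := by gcongr
      _ = (1 / 4) * (s : ℝ) ^ η := by field_simp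
  nlinarith

/-- eventually a power of the logarithmic scale is at most `s` -/
lemma ev_scale (C : ℝ) (J : ℕ) (hC : 0 ≤ C) (hJ : 1 ≤ J) :
    ∀ᶠ s : ℕ in atTop, ⌈C * Real.log s⌉₊ ^ J ≤ s := by
  have hη : (0 : ℝ) < 1 / J := by
    have : (0 : ℝ) < J := by exact_mod_cast hJ
    positivity
  have h1 : ∀ᶠ x : ℝ in atTop, ‖Real.log x‖ ≤ 1 / (2 * (C + 1)) * ‖x ^ (1 / J : ℝ)‖ :=
    (isLittleO_log_rpow_atTop hη).bound (by positivity)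
  have h2 : ∀ᶠ s : ℕ in atTop, ‖Real.log (s : ℝ)‖ ≤ 1 / (2 * (C + 1)) * ‖(s : ℝ) ^ (1 / J : ℝ)‖ :=
    tendsto_natCast_atTop_atTop.eventually h1
  filter_upwards [h2, ev_const 2 _ hη, eventually_ge_atTop 2] with s hs1 hs2 hs3
  have hs : (2 : ℝ) ≤ s := by exact_mod_cast hs3
  have hs0 : (0 : ℝ) < s := by linarith
  have hlog : 0 ≤ Real.log (s : ℝ) := Real.log_nonneg (by linarith)
  rw [Real.norm_of_nonneg hlog, Real.norm_of_nonneg (Real.rpow_nonneg hs0.le _)] at hs1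
  have h3 : ((⌈C * Real.log s⌉₊ : ℕ) : ℝ) ≤ (s : ℝ) ^ (1 / J : ℝ) := by
    have h4 := (Nat.ceil_lt_add_one (show 0 ≤ C * Real.log s by positivity)).le
    have h5 : C * Real.log s ≤ (1 / 2) * (s : ℝ) ^ (1 / J : ℝ) := by
      calc C * Real.log s ≤ (C + 1) * Real.log s := by gcongr; linarith
        _ ≤ (C + 1) * (1 / (2 * (C + 1)) * (s : ℝ) ^ (1 / J : ℝ)) := by gcongr
        _ = (1 / 2) * (s : ℝ) ^ (1 / J : ℝ) := by field_simp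
    linarith
  have h6 : ((⌈C * Real.log s⌉₊ : ℕ) : ℝ) ^ J ≤ s := by
    calc ((⌈C * Real.log s⌉₊ : ℕ) : ℝ) ^ J ≤ ((s : ℝ) ^ (1 / J : ℝ)) ^ J := by gcongr
      _ = s := by
        rw [← Real.rpow_natCast, ← Real.rpow_mul hs0.le, one_div_mul_cancel, Real.rpow_one]
        have : (0 : ℝ) < J := by exact_mod_cast hJ
        exact this.ne'
  exact_mod_cast h6

/-- one step of the iteration -/
lemma step {ε C0 E K : ℝ} (hε : 0 < ε) (hC0 : 0 < C0) (hE : 0 < E) (hK : 0 < K)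
    {s : ℕ} (hs2 : 2 ≤ s) (hbig : 1000 * (1 + K) ≤ s)
    {N p : ℕ} (hN : (s : ℝ) ^ (2 * C0 + 1) ≤ N) (hN2 : (N : ℝ) ≤ (s : ℝ) ^ (2 * C0 + 1 + 1))
    (hp : p = 5 + ⌈C0 + E + 3⌉₊)
    (hl : (Nat.log 2 N : ℝ) + 1 ≤ (s : ℝ) ^ (ε / 64)) (hl1 : (Nat.log 2 N : ℝ) + 1 ≤ s)
    (hu : 10 ^ 7 ≤ (s : ℝ) ^ (ε / 64))
    {d : ℝ} (hd : d = ε / (16 * (2 * C0 + 1 + 1)))
    {L : ℝ} (hL : 1440 * (4 * C0 + E + 3) * Real.log s ≤ L)
    {T δ : ℝ} (hδ : (s : ℝ) ^ (-C0) ≤ δ) (hT1 : 1 ≤ T) (hT : T ≤ 2 / δ)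
    (hTL : TL N δ ≤ K * (s : ℝ) ^ (-(C0 + E + 4)))
    {yv e : ℝ} (hy0 : 0 ≤ yv) (he : ε ≤ e) (heE : e + ε / 2 ≤ E) (hy : yv ≤ (s : ℝ) ^ (-e)) :
    ((Nat.log 2 N : ℝ) + 1) * Rhs N p d δ T yv L + T * TL N δ ≤ (s : ℝ) ^ (-(e + ε / 2)) := by
  have hs : (2 : ℝ) ≤ s := by exact_mod_cast hs2
  have hs0 : (0 : ℝ) < s := by linarith
  have hs1 : (1 : ℝ) ≤ s := by linarith
  set u : ℝ := (s : ℝ) ^ (ε / 64) with hudef
  have hu1 : 1 ≤ u := by linarith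
  have hu0 : 0 < u := by linarith
  set l : ℝ := (Nat.log 2 N : ℝ) + 1 with hldef
  have hl0 : 0 ≤ l := by positivity
  have hupow : ∀ k : ℕ, u ^ k = (s : ℝ) ^ (ε / 64 * k) := by
    intro k
    rw [hudef, ← Real.rpow_natCast, ← Real.rpow_mul hs0.le]
  have hδ0 : 0 < δ := lt_of_lt_of_le (Real.rpow_pos_of_pos hs0 _) hδ
  have hT0 : 0 < T := by linarith
  have hT2 : T ≤ 2 * (s : ℝ) ^ C0 := by
    refine hT.trans ?_
    rw [div_le_iff₀ hδ0]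
    have h1 : (1 : ℝ) = (s : ℝ) ^ C0 * (s : ℝ) ^ (-C0) := by
      rw [← Real.rpow_add hs0]
      simp
    have h2 : 0 < (s : ℝ) ^ C0 := Real.rpow_pos_of_pos hs0 _
    nlinarith [mul_le_mul_of_nonneg_left hδ h2.le]
  -- the quadratic term
  have hNd : (N : ℝ) ^ d ≤ u ^ 4 := by
    rw [hupow 4]
    calc (N : ℝ) ^ d ≤ ((s : ℝ) ^ (2 * C0 + 1 + 1)) ^ d := by
          apply Real.rpow_le_rpow (Nat.cast_nonneg _) hN2
          rw [hd]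
          positivity
      _ = (s : ℝ) ^ (ε / 64 * (4 : ℕ)) := by
          rw [← Real.rpow_mul hs0.le, hd]
          congr 1
          field_simp
          push_cast
          ring
  have hKc : Kc N d ≤ 1000 * u * u ^ 4 := by
    unfold Kc
    have h0 : 0 ≤ (N : ℝ) ^ d := by positivity
    calc 1000 * ((Nat.log 2 N : ℝ) + 1) * (N : ℝ) ^ d = 1000 * l * (N : ℝ) ^ d := by rw [hldef]
      _ ≤ 1000 * u * u ^ 4 := by gcongr
  have hKc0 : 0 ≤ Kc N d := by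
    unfold Kc
    positivity
  have hyε : yv ≤ (s : ℝ) ^ (-ε) :=
    hy.trans (Real.rpow_le_rpow_of_exponent_le hs1 (by linarith))
  have hse : 0 < (s : ℝ) ^ (-e) := Real.rpow_pos_of_pos hs0 _
  have hsE : 0 < (s : ℝ) ^ (-ε) := Real.rpow_pos_of_pos hs0 _
  have hfin : (s : ℝ) ^ (-(e + ε / 2)) = (s : ℝ) ^ (-e) * (s : ℝ) ^ (-(ε / 2)) := by
    rw [← Real.rpow_add hs0]
    congr 1
    ring
  have h32 : u ^ 32 * (s : ℝ) ^ (-ε) = (s : ℝ) ^ (-(ε / 2)) := by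
    rw [hupow 32, ← Real.rpow_add hs0]
    congr 1
    push_cast
    ring
  have hP1 : l * (5 * Kc N d ^ 2 * yv ^ 2) ≤ 1 / 2 * (s : ℝ) ^ (-(e + ε / 2)) := by
    have h1 : yv ^ 2 ≤ (s : ℝ) ^ (-e) * (s : ℝ) ^ (-ε) := by
      rw [sq]
      exact mul_le_mul hy hyε hy0 hse.le
    calc l * (5 * Kc N d ^ 2 * yv ^ 2)
        ≤ u * (5 * (1000 * u * u ^ 4) ^ 2 * ((s : ℝ) ^ (-e) * (s : ℝ) ^ (-ε))) := by gcongr
      _ = 1 / 2 * (10 ^ 7 * u ^ 11) * ((s : ℝ) ^ (-e) * (s : ℝ) ^ (-ε)) := by ring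
      _ ≤ 1 / 2 * (u * u ^ 11) * ((s : ℝ) ^ (-e) * (s : ℝ) ^ (-ε)) := by gcongr
      _ = 1 / 2 * u ^ 12 * ((s : ℝ) ^ (-e) * (s : ℝ) ^ (-ε)) := by ring
      _ ≤ 1 / 2 * u ^ 32 * ((s : ℝ) ^ (-e) * (s : ℝ) ^ (-ε)) := by
          gcongr
          norm_num
      _ = 1 / 2 * (s : ℝ) ^ (-(e + ε / 2)) := by
          rw [hfin, ← h32]
          ring
  -- the errors
  set w : ℝ := (s : ℝ) ^ (-(E + 2)) with hw
  have hw0 : 0 < w := Real.rpow_pos_of_pos hs0 _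
  have hTL0 := TL_nonneg N δ
  have hTL2 : TL N δ ≤ K * (s : ℝ) ^ (-(C0 + E + 3)) := by
    refine hTL.trans ?_
    gcongr
    norm_num
  have hN1 : (s : ℝ) ≤ (N : ℝ) + 1 := by
    have h3 : (s : ℝ) ≤ (s : ℝ) ^ (2 * C0 + 1) := by
      conv_lhs => rw [← Real.rpow_one (s : ℝ)]
      exact Real.rpow_le_rpow_of_exponent_le hs1 (by linarith)
    linarith
  have hpow : ((N : ℝ) + 1) ^ 5 / ((N : ℝ) + 1) ^ p ≤ (s : ℝ) ^ (-(C0 + E + 3)) := by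
    have h0 : (0 : ℝ) < (N : ℝ) + 1 := by positivity
    rw [hp, pow_add, ← div_div, div_self (by positivity), Real.rpow_neg hs0.le, ← one_div]
    refine one_div_le_one_div_of_le (Real.rpow_pos_of_pos hs0 _) ?_
    calc (s : ℝ) ^ (C0 + E + 3) ≤ (s : ℝ) ^ ((⌈C0 + E + 3⌉₊ : ℕ) : ℝ) :=
          Real.rpow_le_rpow_of_exponent_le hs1 (Nat.le_ceil _)
      _ = (s : ℝ) ^ ⌈C0 + E + 3⌉₊ := Real.rpow_natCast _ _
      _ ≤ ((N : ℝ) + 1) ^ ⌈C0 + E + 3⌉₊ := by gcongr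
  have hErr : Err N p δ ≤ (2 + K) * (s : ℝ) ^ (-(C0 + E + 3)) := by
    unfold Err
    rw [mul_div_assoc]
    linarith
  have hErr0 : 0 ≤ Err N p δ := by
    unfold Err
    positivity
  have hmul1 : (s : ℝ) * (s : ℝ) ^ C0 * (s : ℝ) ^ (-(C0 + E + 3)) = w := by
    rw [hw, ← Real.rpow_one_add' hs0.le (by linarith), ← Real.rpow_add hs0]
    congr 1
    ring
  have hsC : 0 < (s : ℝ) ^ (-(C0 + E + 3)) := Real.rpow_pos_of_pos hs0 _
  have hP2 : l * (6 * T * Err N p δ) ≤ 12 * (2 + K) * w := by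
    calc l * (6 * T * Err N p δ)
        ≤ s * (6 * (2 * (s : ℝ) ^ C0) * ((2 + K) * (s : ℝ) ^ (-(C0 + E + 3)))) := by gcongr
      _ = 12 * (2 + K) * ((s : ℝ) * (s : ℝ) ^ C0 * (s : ℝ) ^ (-(C0 + E + 3))) := by ring
      _ = 12 * (2 + K) * w := by rw [hmul1]
  have hexp : Real.exp (-(L / 1440)) ≤ (s : ℝ) ^ (-(4 * C0 + E + 3)) := by
    rw [Real.rpow_def_of_pos hs0]
    apply Real.exp_le_exp.2
    linarith
  have hmul2 : (s : ℝ) * ((s : ℝ) ^ C0) ^ 4 * (s : ℝ) ^ (-(4 * C0 + E + 3)) = w := by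
    rw [← Real.rpow_natCast ((s : ℝ) ^ C0), ← Real.rpow_mul hs0.le, hw,
      ← Real.rpow_one_add' hs0.le (by push_cast; linarith), ← Real.rpow_add hs0]
    congr 1
    push_cast
    ring
  have hP3 : l * (6 * T ^ 4 * Real.exp (-(L / 1440))) ≤ 96 * w := by
    calc l * (6 * T ^ 4 * Real.exp (-(L / 1440)))
        ≤ s * (6 * (2 * (s : ℝ) ^ C0) ^ 4 * (s : ℝ) ^ (-(4 * C0 + E + 3))) := by gcongr
      _ = 96 * ((s : ℝ) * ((s : ℝ) ^ C0) ^ 4 * (s : ℝ) ^ (-(4 * C0 + E + 3))) := by ring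
      _ = 96 * w := by rw [hmul2]
  have hP4 : T * TL N δ ≤ 2 * K * w := by
    have h5 : (s : ℝ) ^ C0 ≤ (s : ℝ) * (s : ℝ) ^ C0 := by
      have : 0 < (s : ℝ) ^ C0 := Real.rpow_pos_of_pos hs0 _
      nlinarith
    calc T * TL N δ ≤ (2 * ((s : ℝ) * (s : ℝ) ^ C0)) * (K * (s : ℝ) ^ (-(C0 + E + 3))) := by
          apply mul_le_mul (hT2.trans (by linarith)) hTL2 hTL0 (by positivity)
      _ = 2 * K * ((s : ℝ) * (s : ℝ) ^ C0 * (s : ℝ) ^ (-(C0 + E + 3))) := by ring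
      _ = 2 * K * w := by rw [hmul1]
  have hwE : w * s ≤ (s : ℝ) ^ (-(e + ε / 2)) := by
    have h6 : w * s = (s : ℝ) ^ (-(E + 1)) := by
      rw [hw, ← Real.rpow_add_one hs0.ne']
      congr 1
      ring
    rw [h6]
    exact Real.rpow_le_rpow_of_exponent_le hs1 (by linarith)
  have hsum : (12 * (2 + K) + 96 + 2 * K) * w ≤ 1 / 2 * (s : ℝ) ^ (-(e + ε / 2)) := by
    have h7 : 2 * (12 * (2 + K) + 96 + 2 * K) ≤ s := by linarith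
    nlinarith
  have hexpand : l * Rhs N p d δ T yv L = l * (5 * Kc N d ^ 2 * yv ^ 2) +
      l * (6 * T * Err N p δ) + l * (6 * T ^ 4 * Real.exp (-(L / 1440))) := by
    unfold Rhs
    ring
  rw [hexpand]
  linarith

end Num3a_aux

open Num3a_aux Filter in
/-- iteration: from `y(s) ≤ s^-ε` to `y(L^J s) ≤ s^-A` -/
theorem iterate_num (ε C0 A : ℝ) (hε : 0 < ε) (hC0 : 0 < C0) (hA : 0 < A) :
    ∃ (d : ℝ) (p : ℕ) (C1 C2 : ℝ) (J s0 : ℕ), 0 < d ∧ 1 ≤ C1 ∧ 1 ≤ C2 ∧ 1 ≤ J ∧ 2 ≤ s0 ∧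
      ∀ s : ℕ, s0 ≤ s → ∀ (T δ : ℝ) (y : ℕ → ℝ),
        (s : ℝ) ^ (-C0) ≤ δ → δ ≤ 1 → 1 ≤ T → T ≤ 2 / δ →
        Antitone y → (∀ n, 0 ≤ y n) → y s ≤ (s : ℝ) ^ (-ε) →
        (∀ v : ℕ, s ≤ v → v ≤ s ^ 2 → y v ≤ 1 / 8 →
          y (⌈C2 * Real.log s⌉₊ * v) ≤
            ((Nat.log 2 ⌈(s : ℝ) ^ C1⌉₊ : ℝ) + 1) *
              Rhs ⌈(s : ℝ) ^ C1⌉₊ p d δ T (y v) ⌈C2 * Real.log s⌉₊ + T * TL ⌈(s : ℝ) ^ C1⌉₊ δ) →
        y (⌈C2 * Real.log s⌉₊ ^ J * s) ≤ (s : ℝ) ^ (-A) := by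
  obtain ⟨J, hJdef⟩ : ∃ J : ℕ, J = ⌈2 * A / ε⌉₊ + 1 := ⟨_, rfl⟩
  have hJ1 : 1 ≤ J := by omega
  obtain ⟨E, hEdef⟩ : ∃ E : ℝ, E = ε + J * (ε / 2) := ⟨_, rfl⟩
  have hJ0 : (0 : ℝ) ≤ J := Nat.cast_nonneg _
  have hE0 : 0 < E := by rw [hEdef]; positivity
  have hAE : A ≤ E := by
    have h1 : 2 * A / ε ≤ J := by
      rw [hJdef]
      push_cast
      linarith [Nat.le_ceil (2 * A / ε)]
    rw [div_le_iff₀ hε] at h1
    rw [hEdef]
    linarith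
  obtain ⟨K, s1, hK, hs1, hTLs⟩ := TL_small C0 (C0 + E + 4) hC0 (by linarith)
  have hC2 : 1 ≤ 1440 * (4 * C0 + E + 3) := by linarith
  have hev : ∀ᶠ s : ℕ in atTop,
      ((Nat.log 2 ⌈(s : ℝ) ^ (2 * C0 + 1)⌉₊ : ℝ) + 1 ≤ (s : ℝ) ^ (ε / 64)) ∧
      ((Nat.log 2 ⌈(s : ℝ) ^ (2 * C0 + 1)⌉₊ : ℝ) + 1 ≤ (s : ℝ) ^ (1 : ℝ)) ∧
      ((10 : ℝ) ^ 7 ≤ (s : ℝ) ^ (ε / 64)) ∧ ((8 : ℝ) ≤ (s : ℝ) ^ ε) ∧
      ⌈1440 * (4 * C0 + E + 3) * Real.log s⌉₊ ^ J ≤ s ∧ (1000 * (1 + K) ≤ (s : ℝ) ^ (1 : ℝ)) :=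
    (ev_log _ _ (by linarith) (by positivity)).and <|
      (ev_log _ _ (by linarith) one_pos).and <|
      (ev_const _ _ (by positivity)).and <|
      (ev_const _ _ hε).and <|
      (ev_scale _ J (by linarith) hJ1).and (ev_const _ _ one_pos)
  obtain ⟨s2, hs2⟩ := eventually_atTop.1 hev
  refine ⟨ε / (16 * (2 * C0 + 1 + 1)), 5 + ⌈C0 + E + 3⌉₊, 2 * C0 + 1, 1440 * (4 * C0 + E + 3), J,
    max 2 (max s1 s2), by positivity, by linarith, hC2, hJ1, le_max_left _ _, ?_⟩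
  intro s hs T δ y hδ hδ1 hT1 hT hanti hy0 hys hrec
  have hss2 : 2 ≤ s := (le_max_left _ _).trans hs
  have hss1 : s1 ≤ s := ((le_max_left _ _).trans (le_max_right _ _)).trans hs
  obtain ⟨e1, e2, e3, e4, e5, e6⟩ := hs2 s (((le_max_right _ _).trans (le_max_right _ _)).trans hs)
  rw [Real.rpow_one] at e2 e6
  have hsr : (2 : ℝ) ≤ s := by exact_mod_cast hss2
  have hs0 : (0 : ℝ) < s := by linarith
  have hlog : 0 < Real.log (s : ℝ) := Real.log_pos (by linarith)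
  set Lg : ℕ := ⌈1440 * (4 * C0 + E + 3) * Real.log s⌉₊ with hLg
  have hLg1 : 1 ≤ Lg := Nat.one_le_iff_ne_zero.2 (by
    intro h0
    rw [hLg, Nat.ceil_eq_zero] at h0
    have : 0 < 1440 * (4 * C0 + E + 3) * Real.log s := by positivity
    linarith)
  have main : ∀ j : ℕ, j ≤ J → y (Lg ^ j * s) ≤ (s : ℝ) ^ (-(ε + j * (ε / 2))) := by
    intro j
    induction j with
    | zero =>
      intro _
      simpa using hys
    | succ j ih =>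
      intro hj
      have ihj := ih (by omega)
      have hv1 : s ≤ Lg ^ j * s := Nat.le_mul_of_pos_left _ (Nat.pow_pos hLg1)
      have hv2 : Lg ^ j * s ≤ s ^ 2 := by
        have h1 : Lg ^ j ≤ s := (Nat.pow_le_pow_right hLg1 (by omega)).trans e5
        rw [sq]
        exact Nat.mul_le_mul_right _ h1
      have hj0 : (0 : ℝ) ≤ (j : ℝ) * (ε / 2) := by positivity
      have h8 : y (Lg ^ j * s) ≤ 1 / 8 := by
        refine ihj.trans ?_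
        have h2 : (s : ℝ) ^ (-(ε + j * (ε / 2))) ≤ (s : ℝ) ^ (-ε) :=
          Real.rpow_le_rpow_of_exponent_le (by linarith) (by linarith)
        refine h2.trans ?_
        rw [Real.rpow_neg hs0.le, ← one_div]
        exact one_div_le_one_div_of_le (by norm_num) e4
      have h9 := hrec _ hv1 hv2 h8
      have h10 : Lg * (Lg ^ j * s) = Lg ^ (j + 1) * s := by
        rw [pow_succ]
        ring
      rw [h10] at h9
      refine h9.trans ?_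
      have hst := step (K := K) (E := E) (p := 5 + ⌈C0 + E + 3⌉₊) (L := (Lg : ℝ)) (T := T) (δ := δ)
        (yv := y (Lg ^ j * s)) (e := ε + j * (ε / 2)) hε hC0 hE0 hK hss2 e6
        (Nat.le_ceil ((s : ℝ) ^ (2 * C0 + 1))) (ceil_le _ (by linarith) hss2) rfl e1 e2 e3 rfl
        (Nat.le_ceil _) hδ hT1 hT (hTLs s hss1 _ _ (Nat.le_ceil _) hδ) (hy0 _) (by linarith)
        (by
          have h11 : ((j : ℝ) + 1) ≤ J := by exact_mod_cast hj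
          rw [hEdef]
          nlinarith) ihj
      refine hst.trans (le_of_eq ?_)
      congr 1
      push_cast
      ring
  refine (main J le_rfl).trans ?_
  rw [← hEdef]
  exact Real.rpow_le_rpow_of_exponent_le (by linarith) (by linarith)

end SawNu.SF
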