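import Pool.Agent.SawF.D2
import Pool.Agent.SawF.Num3
import Pool.Agent.SawF.Num3a

/-!
SAWF W4: families of words, bad words and long words.
-/

set_option autoImplicit false

open Classical
open scoped ENNReal

namespace SawNu.SF

open SawNu.SB SawNu.SBR

variable {C : CL} {δ : ℝ}

/-- weight of the bad bridges of length `q` -/
lemma Fam_bad_le {d : ℝ} {p N : ℕ} (hSw : SwAt C d p N) (hδ : 0 < δ) {q : ℕ} (hq : q ≤ N)
    (P : List Pt → Prop) (hP : ∀ w, P w ↔ (Brc C w ∧ badw N N d w) ∧ w.length = q) :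
    W C δ P ≤ ENNReal.ofReal (2 * ((N : ℝ) + 1) ^ 2 / ((N : ℝ) + 1) ^ p) := by
  rw [W_length P (fun l hl => ((hP l).1 hl).1.1.wd)]
  have h0 : ∀ n : ℕ, n ≠ q → ENNReal.ofReal ((((wds C n).filter P).card : ℝ) *
      Real.exp (-((G C 0 0 + δ) * n))) = 0 := by
    intro n hn
    have h1 : (wds C n).filter P = ∅ := by
      rw [Finset.filter_eq_empty_iff]
      intro l hl h2
      exact hn ((mem_wds.1 hl).1.symm.trans ((hP l).1 h2).2)
    rw [h1, Finset.card_empty, Nat.cast_zero, zero_mul, ENNReal.ofReal_zero]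
  rw [tsum_eq_single q h0]
  apply ENNReal.ofReal_le_ofReal
  have h2 : (wds C q).filter P = (brs C q).filter (badw N N d) := by
    ext l
    rw [Finset.mem_filter, Finset.mem_filter, mem_wds, mem_brs, hP]
    constructor
    · rintro ⟨h1, h2, h3⟩
      exact ⟨⟨h3, h2.1⟩, h2.2⟩
    · rintro ⟨⟨h1, h2⟩, h3⟩
      exact ⟨⟨h1, h2.wd⟩, ⟨h2, h3⟩, h1⟩
  rw [h2]
  have h3 := badw_sum_core hSw q hq N 0 0 le_rfl
  have h4 : ∑ l ∈ (brs C q).filter (badw N N d), Real.exp (fw 0 0 l) =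
      (((brs C q).filter (badw N N d)).card : ℝ) := by
    rw [Finset.sum_congr rfl fun l _ => by
      rw [fw, zero_mul, zero_mul, add_zero, Real.exp_zero], Finset.sum_const, nsmul_eq_mul, mul_one]
  rw [h4, zero_mul, Real.exp_zero, one_mul] at h3
  have hN : (0 : ℝ) < ((N : ℝ) + 1) ^ p := by positivity
  have h5 : (((brs C q).filter (badw N N d)).card : ℝ) ≤
      2 * ((N : ℝ) + 1) ^ 2 / ((N : ℝ) + 1) ^ p * Zb C 0 0 q := by
    rw [div_mul_eq_mul_div, le_div_iff₀ hN]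
    calc (((brs C q).filter (badw N N d)).card : ℝ) * ((N : ℝ) + 1) ^ p
        ≤ 2 * ((N : ℝ) + 1) * ((N : ℝ) + 1) * Zb C 0 0 q := h3
      _ = 2 * ((N : ℝ) + 1) ^ 2 * Zb C 0 0 q := by ring
  have h6 : Zb C 0 0 q * Real.exp (-((G C 0 0 + δ) * q)) ≤ 1 := by
    calc Zb C 0 0 q * Real.exp (-((G C 0 0 + δ) * q))
        ≤ Real.exp (G C 0 0 * q) * Real.exp (-((G C 0 0 + δ) * q)) :=
          mul_le_mul_of_nonneg_right (Zb_le 0 0 q) (Real.exp_pos _).le
      _ = Real.exp (-(δ * q)) := by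
          rw [← Real.exp_add]
          congr 1
          ring
      _ ≤ 1 := Real.exp_le_one_iff.2 (by
          have : (0 : ℝ) ≤ δ * q := mul_nonneg hδ.le (Nat.cast_nonneg q)
          linarith)
  calc (((brs C q).filter (badw N N d)).card : ℝ) * Real.exp (-((G C 0 0 + δ) * q))
      ≤ 2 * ((N : ℝ) + 1) ^ 2 / ((N : ℝ) + 1) ^ p * Zb C 0 0 q * Real.exp (-((G C 0 0 + δ) * q)) :=
        mul_le_mul_of_nonneg_right h5 (Real.exp_pos _).le
    _ = 2 * ((N : ℝ) + 1) ^ 2 / ((N : ℝ) + 1) ^ p *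
          (Zb C 0 0 q * Real.exp (-((G C 0 0 + δ) * q))) := by ring
    _ ≤ 2 * ((N : ℝ) + 1) ^ 2 / ((N : ℝ) + 1) ^ p * 1 :=
        mul_le_mul_of_nonneg_left h6 (by positivity)
    _ = _ := mul_one _

/-- restriction of the multiplicity bound to a part of the family -/
lemma Fam_sub {α : Type} (f : α → List Pt) (P : α → Prop) {w : List Pt} {K : ℕ}
    (h : ∃ F : Finset α, F.card ≤ K ∧ ∀ a, f a = w → a ∈ F) :
    ∃ F : Finset {a // P a}, F.card ≤ K ∧ ∀ a : {a // P a}, f a.1 = w → a ∈ F := by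
  obtain ⟨F, h1, h2⟩ := h
  refine ⟨F.subtype P, ?_, fun a ha => ?_⟩
  · rw [Finset.card_subtype]
    exact (Finset.card_filter_le _ _).trans h1
  · rw [Finset.mem_subtype]
    exact h2 a.1 ha

/-- the part of the family over the words of length `q` -/
lemma Fam_fiber {α : Type} (f : α → List Pt) (Q : List Pt → Prop) (hQ : ∀ a, Q (f a))
    (hK : ∀ w, ∃ F : Finset α, F.card ≤ (w.length + 1) ^ 2 ∧ ∀ a, f a = w → a ∈ F) (q : ℕ) :
    ∑' b : (fun a => (f a).length) ⁻¹' {q}, wx C δ (f b.1) ≤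
      (((q + 1) ^ 2 : ℕ) : ℝ≥0∞) * W C δ (fun w => Q w ∧ w.length = q) := by
  refine tsum_le_mul_W (C := C) (δ := δ)
    (fun b : (fun a => (f a).length) ⁻¹' {q} => f b.1) (fun b => ⟨hQ b.1, b.2⟩) ?_
  intro w hw
  have h1 := Fam_sub f (fun a => a ∈ (fun a => (f a).length) ⁻¹' {q}) (hK w)
  rw [hw.2] at h1
  exact h1

/-- families of bad or long bridges are negligible -/
theorem bad_sum {d : ℝ} {p N : ℕ} (hN : 1 ≤ N) (hSw : SwAt C d p N) (hδ : 0 < δ) {α : Type}
    (f : α → List Pt) (hB : ∀ a, Brc C (f a))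
    (hK : ∀ w, ∃ F : Finset α, F.card ≤ (w.length + 1) ^ 2 ∧ ∀ a, f a = w → a ∈ F)
    (hbad : ∀ a, badw N N d (f a) ∨ N < (f a).length) :
    ∑' a, wx C δ (f a) ≤ ENNReal.ofReal (Err N p δ) := by
  rw [← ENNReal.tsum_fiberwise _ (fun a => (f a).length)]
  have h1 : ∀ q : ℕ, ∑' b : (fun a => (f a).length) ⁻¹' {q}, wx C δ (f b.1) ≤
      (if q ≤ N then ENNReal.ofReal (((N : ℝ) + 1) ^ 2 *
        (2 * ((N : ℝ) + 1) ^ 2 / ((N : ℝ) + 1) ^ p)) else 0) +
        ENNReal.ofReal (if N < q then ((q : ℝ) + 1) ^ 2 * Real.exp (-(δ * q)) else 0) := by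
    intro q
    have hQ : ∀ a, (Brc C (f a) ∧ (badw N N d (f a) ∨ N < (f a).length)) := fun a => ⟨hB a, hbad a⟩
    refine (Fam_fiber f (fun w => Brc C w ∧ (badw N N d w ∨ N < w.length)) hQ hK q).trans ?_
    by_cases hq : q ≤ N
    · rw [if_pos hq, if_neg (not_lt.2 hq), ENNReal.ofReal_zero, add_zero]
      have h2 : W C δ (fun w => (Brc C w ∧ (badw N N d w ∨ N < w.length)) ∧ w.length = q) ≤
          W C δ (fun w => (Brc C w ∧ badw N N d w) ∧ w.length = q) := by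
        refine W_mono fun l hl => ?_
        refine ⟨⟨hl.1.1, ?_⟩, hl.2⟩
        rcases hl.1.2 with h3 | h3
        · exact h3
        · rw [hl.2] at h3
          omega
      rw [ENNReal.ofReal_mul (by positivity)]
      refine mul_le_mul' ?_ (h2.trans (Fam_bad_le hSw hδ hq _ fun _ => Iff.rfl))
      rw [← ENNReal.ofReal_natCast]
      apply ENNReal.ofReal_le_ofReal
      push_cast
      have h3 : (q : ℝ) ≤ N := by exact_mod_cast hq
      gcongr
    · rw [if_neg hq, zero_add, if_pos (not_le.1 hq), ENNReal.ofReal_mul (by positivity)]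
      refine mul_le_mul' ?_ ?_
      · rw [← ENNReal.ofReal_natCast]
        apply ENNReal.ofReal_le_ofReal
        push_cast
        exact le_rfl
      · exact (W_mono fun l hl => ⟨hl.1.1, hl.2⟩).trans (W_brs_le q)
  refine (ENNReal.tsum_le_tsum h1).trans ?_
  rw [ENNReal.tsum_add]
  have h2 : ∑' q : ℕ, (if q ≤ N then ENNReal.ofReal (((N : ℝ) + 1) ^ 2 *
      (2 * ((N : ℝ) + 1) ^ 2 / ((N : ℝ) + 1) ^ p)) else 0) =
      ENNReal.ofReal (2 * ((N : ℝ) + 1) ^ 5 / ((N : ℝ) + 1) ^ p) := by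
    rw [tsum_eq_sum (s := Finset.range (N + 1)) (by
      intro q hq
      rw [if_neg]
      rw [Finset.mem_range] at hq
      omega)]
    rw [Finset.sum_congr rfl fun q hq => by
      rw [if_pos (Nat.lt_succ_iff.1 (Finset.mem_range.1 hq))], Finset.sum_const, Finset.card_range,
      nsmul_eq_mul, ← ENNReal.ofReal_natCast, ← ENNReal.ofReal_mul (by positivity)]
    congr 1
    push_cast
    ring
  have h3 : ∑' q : ℕ, ENNReal.ofReal (if N < q then ((q : ℝ) + 1) ^ 2 * Real.exp (-(δ * q)) else 0) =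
      ENNReal.ofReal (TL N δ) := by
    rw [TL, ENNReal.ofReal_tsum_of_nonneg _ (TL_summable N hδ)]
    intro q
    split_ifs
    · positivity
    · exact le_rfl
  rw [h2, h3, ← ENNReal.ofReal_add (by positivity) (TL_nonneg N δ)]
  exact le_rfl

/-- families with few members over the words which are neither bad nor long -/
theorem family_le {d : ℝ} {p N : ℕ} (hN : 1 ≤ N) (hSw : SwAt C d p N) (hδ : 0 < δ) {α : Type}
    (f : α → List Pt) (Q : List Pt → Prop) (hB : ∀ a, Brc C (f a)) (hQ : ∀ a, Q (f a))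
    (hK : ∀ w, ∃ F : Finset α, F.card ≤ (w.length + 1) ^ 2 ∧ ∀ a, f a = w → a ∈ F)
    (hG : ∀ w, Brc C w → ¬ badw N N d w → w.length ≤ N →
      ∃ F : Finset α, (F.card : ℝ) ≤ Kc N d ^ 2 ∧ ∀ a, f a = w → a ∈ F) :
    ∑' a, wx C δ (f a) ≤ ENNReal.ofReal (Kc N d ^ 2) * W C δ Q + ENNReal.ofReal (Err N p δ) := by
  let S : Set α := {a | badw N N d (f a) ∨ N < (f a).length}
  have hsplit : ∑' a, wx C δ (f a) =
      ∑' a : (Sᶜ : Set α), wx C δ (f a.1) + ∑' a : S, wx C δ (f a.1) := by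
    rw [tsum_subtype Sᶜ (fun a => wx C δ (f a)), tsum_subtype S (fun a => wx C δ (f a)),
      ← ENNReal.tsum_add]
    refine tsum_congr fun a => ?_
    by_cases ha : a ∈ S
    · rw [Set.indicator_of_mem ha, Set.indicator_of_notMem (fun h : a ∈ Sᶜ => h ha), zero_add]
    · rw [Set.indicator_of_notMem ha, Set.indicator_of_mem (show a ∈ Sᶜ from ha), add_zero]
  rw [hsplit]
  refine add_le_add ?_ ?_
  · have h1 : ∑' a : (Sᶜ : Set α), wx C δ (f a.1) ≤
        ((⌊Kc N d ^ 2⌋₊ : ℕ) : ℝ≥0∞) * W C δ Q := by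
      refine tsum_le_mul_W (C := C) (δ := δ) (fun a : (Sᶜ : Set α) => f a.1) (fun a => hQ a.1) ?_
      intro w _
      by_cases hw : Brc C w ∧ ¬ badw N N d w ∧ w.length ≤ N
      · obtain ⟨F, h2, h3⟩ := hG w hw.1 hw.2.1 hw.2.2
        exact Fam_sub f (fun a => a ∈ (Sᶜ : Set α)) ⟨F, Nat.le_floor h2, h3⟩
      · refine ⟨∅, Nat.zero_le _, fun a ha => ?_⟩
        exfalso
        apply hw
        have h2 : ¬ (badw N N d (f a.1) ∨ N < (f a.1).length) := a.2
        rw [not_or, not_lt] at h2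
        have h3 := hB a.1
        change f a.1 = w at ha
        rw [ha] at h2 h3
        exact ⟨h3, h2.1, h2.2⟩
    refine h1.trans (mul_le_mul' ?_ le_rfl)
    rw [← ENNReal.ofReal_natCast]
    exact ENNReal.ofReal_le_ofReal (Nat.floor_le (by positivity))
  · exact bad_sum hN hSw hδ (fun a : S => f a.1) (fun a => hB a.1)
      (fun w => Fam_sub f (fun a => a ∈ S) (hK w)) (fun a => a.2)

end SawNu.SF
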