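import Pool.Agent.SawF.Pcs

/-!
SAWF W0a: weights of bridges with big pieces.
-/

set_option autoImplicit false

open Classical
open scoped ENNReal

namespace SawNu.SF

open SawNu.SB

variable {C : CL} {δ : ℝ}

/-- three bridges with big pieces, between two bridges -/
lemma hasBig3_of {v : ℕ} {g a b c g' : List Pt} (hg : Brc C g) (ha : HasBig C v a)
    (hb : HasBig C v b) (hc : HasBig C v c) (hg' : Brc C g') :
    HasBig3 C v (g ++ (a ++ (b ++ (c ++ g')))) := by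
  obtain ⟨a1, pa, a2, rfl, ha1, hpa, hva, ha2⟩ := ha
  obtain ⟨b1, pb, b2, rfl, hb1, hpb, hvb, hb2⟩ := hb
  obtain ⟨c1, pc, c2, rfl, hc1, hpc, hvc, hc2⟩ := hc
  refine ⟨g ++ a1, pa, a2 ++ b1, pb, b2 ++ c1, pc, c2 ++ g', ?_, hg.append ha1, hpa, hva,
    ha2.append hb1, hpb, hvb, hb2.append hc1, hpc, hvc, hc2.append hg'⟩
  simp only [List.append_assoc]

/-- every word of `P` is a concatenation -/
lemma PcsA_le_mul {P Q R : List Pt → Prop} (h : ∀ l, P l → ∃ a b, l = a ++ b ∧ Q a ∧ R b) :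
    W C δ P ≤ W C δ Q * W C δ R := by
  rw [W_mul]
  choose f g hfg hf hg using h
  let F : {l : List Pt // P l} → {l : List Pt // Q l} × {l : List Pt // R l} :=
    fun l => (⟨f l.1 l.2, hf l.1 l.2⟩, ⟨g l.1 l.2, hg l.1 l.2⟩)
  have hF : ∀ l, (F l).1.1 ++ (F l).2.1 = l.1 := fun l => (hfg l.1 l.2).symm
  have hinj : Function.Injective F := by
    intro l l' hll
    apply Subtype.ext
    rw [← hF l, ← hF l', hll]
  have h1 : W C δ P = ∑' l, (fun x : {l : List Pt // Q l} × {l : List Pt // R l} =>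
      wx C δ (x.1.1 ++ x.2.1)) (F l) := by
    unfold W
    refine tsum_congr fun l => ?_
    show wx C δ l.1 = wx C δ ((F l).1.1 ++ (F l).2.1)
    rw [hF l]
  rw [h1]
  exact ENNReal.tsum_comp_le_tsum_of_injective hinj _

/-- concatenations of words with given properties -/
def PcsACat : List (List Pt → Prop) → List Pt → Prop
  | [], l => l = []
  | P :: Ps, l => ∃ a b, l = a ++ b ∧ P a ∧ PcsACat Ps b

lemma PcsA_nil : W C δ (PcsACat []) ≤ 1 := by
  unfold W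
  have h1 : ∀ l : {l : List Pt // PcsACat [] l}, wx C δ l.1 = 1 := by
    intro l
    have : l.1 = [] := l.2
    rw [this, wx_nil]
  have : Unique {l : List Pt // PcsACat [] l} :=
    { default := ⟨[], rfl⟩
      uniq := fun l => Subtype.ext l.2 }
  rw [tsum_congr h1, tsum_fintype]
  simp

lemma PcsA_cat (Ps : List (List Pt → Prop)) : W C δ (PcsACat Ps) ≤ (Ps.map (W C δ)).prod := by
  induction Ps with
  | nil => exact PcsA_nil
  | cons P Ps ih =>
    rw [List.map_cons, List.prod_cons]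
    exact (PcsA_le_mul (Q := P) (R := PcsACat Ps) fun l h => h).trans (mul_le_mul_right ih _)

lemma W_hasBig3_le (v : ℕ) : W C δ (HasBig3 C v) ≤
    W C δ (Brc C) ^ 4 * W C δ (fun l => Irr C l ∧ (v : ℤ) ≤ ht l) ^ 3 := by
  have h1 := PcsA_cat (C := C) (δ := δ) [Brc C, fun l => Irr C l ∧ (v : ℤ) ≤ ht l, Brc C,
    fun l => Irr C l ∧ (v : ℤ) ≤ ht l, Brc C, fun l => Irr C l ∧ (v : ℤ) ≤ ht l, Brc C]
  refine (W_mono ?_).trans (h1.trans (le_of_eq ?_))
  · rintro l ⟨b1, p1, b2, p2, b3, p3, b4, rfl, hb1, hp1, hv1, hb2, hp2, hv2, hb3, hp3, hv3, hb4⟩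
    exact ⟨b1, _, rfl, hb1, p1, _, rfl, ⟨hp1, hv1⟩, b2, _, rfl, hb2, p2, _, rfl, ⟨hp2, hv2⟩, b3, _, rfl, hb3,
      p3, _, rfl, ⟨hp3, hv3⟩, b4, [], (List.append_nil b4).symm, hb4, rfl⟩
  · simp only [List.map_cons, List.map_nil, List.prod_cons, List.prod_nil]
    ring

lemma W_hasEnds_le (v : ℕ) : W C δ (HasEnds C v) ≤
    W C δ (Brc C) * W C δ (fun l => Irr C l ∧ (v : ℤ) ≤ ht l) ^ 2 := by
  have h1 := PcsA_cat (C := C) (δ := δ) [fun l => Irr C l ∧ (v : ℤ) ≤ ht l, Brc C,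
    fun l => Irr C l ∧ (v : ℤ) ≤ ht l]
  refine (W_mono ?_).trans (h1.trans (le_of_eq ?_))
  · rintro l ⟨p1, b, p2, rfl, hp1, hv1, hb, hp2, hv2⟩
    exact ⟨p1, _, rfl, ⟨hp1, hv1⟩, b, _, rfl, hb, p2, [], (List.append_nil p2).symm, ⟨hp2, hv2⟩, rfl⟩
  · simp only [List.map_cons, List.map_nil, List.prod_cons, List.prod_nil]
    ring

end SawNu.SF
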