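import Pool.Agent.SawF.Cand
import Pool.Agent.SawF.Fam
import Pool.Agent.SawF.PcsA

/-!
SAWF W3a: irreducible bridges with a thin section.
-/

set_option autoImplicit false

open Classical
open scoped ENNReal

namespace SawNu.SF

open SawNu.SB SawNu.SBR

variable {C : CL} {δ : ℝ}

/-- fibres which are mapped injectively into a finite set -/
lemma CaseA_fib {α β : Type} (f : α → List Pt) (g : α → β) (w : List Pt) (D : Finset β)
    (h1 : ∀ a, f a = w → g a ∈ D) (h2 : ∀ a b, f a = w → f b = w → g a = g b → a = b) :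
    ∃ F : Finset α, F.card ≤ D.card ∧ ∀ a, f a = w → a ∈ F := by
  have hm : Set.MapsTo g {a | f a = w} (D : Set β) := fun a ha => Finset.mem_coe.2 (h1 a ha)
  have hi : Set.InjOn g {a | f a = w} := fun a ha b hb hab => h2 a b ha hb hab
  have hf : ({a | f a = w} : Set α).Finite := Set.Finite.of_injOn hm hi D.finite_toSet
  refine ⟨hf.toFinset, ?_, fun a ha => hf.mem_toFinset.2 ha⟩
  refine Finset.card_le_card_of_injOn g (fun a ha => ?_) (fun a ha b hb hab => ?_)
  · exact hm (hf.mem_toFinset.1 (Finset.mem_coe.1 ha))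
  · exact hi (hf.mem_toFinset.1 (Finset.mem_coe.1 ha)) (hf.mem_toFinset.1 (Finset.mem_coe.1 hb)) hab

/-- case (a). `m` is any number with `8 m ≤ 3 S`: in a thin section `x > h/2 - h/8 ≥ 3 h / 8`. -/
theorem caseA (L : RLat) (hS : ∀ b, L.S b = C.S) {d : ℝ} {p N : ℕ} (hd : 0 < d) (hN : 1 ≤ N)
    (hSw : SwAt C d p N) (hδ : 0 < δ) {S m : ℕ} (h16 : 16 ≤ S) (hm : 8 * m ≤ 3 * S) :
    W C δ (fun l => Irr C l ∧ (S : ℤ) ≤ ht l ∧ ht l < 2 * (S : ℤ) ∧ 8 * ht (sB C l) < ht l) ≤
      ENNReal.ofReal (Kc N d ^ 2) * (W C δ (Brc C) *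
        W C δ (fun l => Irr C l ∧ (m : ℤ) ≤ ht l) ^ 2) + ENNReal.ofReal (Err N p δ) := by
  let α : Type := {l : List Pt // Irr C l ∧ (S : ℤ) ≤ ht l ∧ ht l < 2 * (S : ℤ) ∧ 8 * ht (sB C l) < ht l}
  let f : α → List Pt := fun a => unfG [] (sE C a.1) (sB C a.1) (sR C a.1) []
  have hirr : ∀ a : α, Irr C a.1 := fun a => a.2.1
  have hge : ∀ a : α, (S : ℤ) ≤ ht a.1 := fun a => a.2.2.1
  have hthin : ∀ a : α, 8 * ht (sB C a.1) < ht a.1 := fun a => a.2.2.2.2
  have hsec : ∀ a : α, Sec C a.1 (sE C a.1) (sB C a.1) (sR C a.1) := by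
    intro a
    refine sec_spec (hirr a) ?_
    have h1 := hge a
    omega
  have hBf : ∀ a, Brc C (f a) := fun a => brc_unfG (hsec a) Brc.nil Brc.nil
  have hQf : ∀ a, HasEnds C m (f a) := by
    intro a
    have h1 := hge a
    have h2 := hthin a
    have h3 := (hsec a).hx
    have h4 := (hsec a).hm
    exact ends_big (hirr a) (hsec a) (by omega) (by omega)
  have hlen : ∀ a, (f a).length = a.1.length := by
    intro a
    have h1 := length_unfG (G := []) (G' := []) (hsec a)
    have h2 : (f a).length = ([] : List Pt).length + a.1.length + ([] : List Pt).length := h1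
    rw [h2, List.length_nil, Nat.zero_add, Nat.add_zero]
  have hinj : ∀ w, ∀ a b : α, f a = w → f b = w →
      ((sE C a.1).length, (sE C a.1).length + (sB C a.1).length) =
        ((sE C b.1).length, (sE C b.1).length + (sB C b.1).length) → a = b := by
    intro w a b ha hb hab
    have h1 := congrArg Prod.fst hab
    have h2 := congrArg Prod.snd hab
    have h3 : (sE C a.1).length = (sE C b.1).length := h1
    have h4 : (sE C a.1).length + (sB C a.1).length = (sE C b.1).length + (sB C b.1).length := h2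
    have h5 := unfG_inj (hirr a) (hsec a) Brc.nil Brc.nil (hirr b) (hsec b) Brc.nil Brc.nil
      (ha.trans hb.symm) (by rw [List.length_nil, h3]) (by rw [List.length_nil, Nat.zero_add, Nat.zero_add, h4])
    exact Subtype.ext h5.2.1
  have hle : ∀ a : α, (sE C a.1).length ≤ (f a).length ∧
      (sE C a.1).length + (sB C a.1).length ≤ (f a).length := by
    intro a
    have h1 : (f a).length = ([] : List Pt).length + ((sE C a.1).length + ((sB C a.1).length +
        ((sR C a.1).length + ([] : List Pt).length))) := by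
      show (unfG [] (sE C a.1) (sB C a.1) (sR C a.1) []).length = _
      unfold unfG
      rw [List.length_append, List.length_append, List.length_append, List.length_append]
    rw [List.length_nil] at h1
    omega
  have key := family_le (C := C) (δ := δ) (d := d) (p := p) (N := N) hN hSw hδ f (HasEnds C m) hBf hQf
    (by
      intro w
      obtain ⟨F, hF, hF'⟩ := CaseA_fib f
        (fun a : α => ((sE C a.1).length, (sE C a.1).length + (sB C a.1).length)) w
        (Finset.range (w.length + 1) ×ˢ Finset.range (w.length + 1)) (by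
          intro a ha
          have h1 := hle a
          rw [ha] at h1
          exact Finset.mem_product.2 ⟨Finset.mem_range.2 (Nat.lt_succ_of_le h1.1),
            Finset.mem_range.2 (Nat.lt_succ_of_le h1.2)⟩)
        (hinj w)
      refine ⟨F, hF.trans ?_, hF'⟩
      rw [Finset.card_product, Finset.card_range, sq])
    (by
      intro w hw hb hl
      obtain ⟨F, hF, hF'⟩ := CaseA_fib f
        (fun a : α => ((sE C a.1).length, (sE C a.1).length + (sB C a.1).length)) w
        (cda w ×ˢ cda w) (by
          intro a ha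
          have h1 := mem_cda L hS (hirr a) (hsec a) (hthin a)
          have h2 : unfG [] (sE C a.1) (sB C a.1) (sR C a.1) [] = w := ha
          rw [h2] at h1
          exact Finset.mem_product.2 ⟨h1.1, h1.2⟩)
        (hinj w)
      refine ⟨F, ?_, hF'⟩
      have h1 : ((F.card : ℕ) : ℝ) ≤ (((cda w).card * (cda w).card : ℕ) : ℝ) := by
        rw [Finset.card_product] at hF
        exact_mod_cast hF
      have h2 := card_cda (C := C) hN hd hw hl hb
      have h0 : (0 : ℝ) ≤ ((cda w).card : ℝ) := Nat.cast_nonneg _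
      calc ((F.card : ℕ) : ℝ) ≤ (((cda w).card * (cda w).card : ℕ) : ℝ) := h1
        _ = ((cda w).card : ℝ) * ((cda w).card : ℝ) := by push_cast; ring
        _ ≤ Kc N d * Kc N d := mul_le_mul h2 h2 h0 (h0.trans h2)
        _ = Kc N d ^ 2 := (sq _).symm)
  have hW : W C δ (fun l => Irr C l ∧ (S : ℤ) ≤ ht l ∧ ht l < 2 * (S : ℤ) ∧ 8 * ht (sB C l) < ht l) =
      ∑' a : α, wx C δ (f a) := by
    show ∑' a : α, wx C δ a.1 = ∑' a : α, wx C δ (f a)
    refine tsum_congr fun a => ?_
    unfold wx
    rw [hlen a]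
  rw [hW]
  refine key.trans (add_le_add ?_ le_rfl)
  gcongr
  exact W_hasEnds_le m

end SawNu.SF
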