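import Pool.Agent.SawF.Cand
import Pool.Agent.SawF.Fam
import Pool.Agent.SawF.PcsA

/-!
SAWF W3b: irreducible bridges with a thick section, two bridges attached.
-/

set_option autoImplicit false

open Classical
open scoped ENNReal

namespace SawNu.SF

open SawNu.SB SawNu.SBR

variable {C : CL} {δ : ℝ}

/-- a set which injects into a finite set -/
lemma CaseB1.exists_finset {α β : Type} {P : α → Prop} {g : α → β} {T : Finset β}
    (hT : ∀ a, P a → g a ∈ T) (hg : ∀ a b, P a → P b → g a = g b → a = b) :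
    ∃ F : Finset α, F.card ≤ T.card ∧ ∀ a, P a → a ∈ F := by
  have hfin : {a | P a}.Finite := by
    refine Set.Finite.of_finite_image (f := g) (T.finite_toSet.subset ?_) ?_
    · rintro _ ⟨a, ha, rfl⟩
      exact hT a ha
    · intro a ha b hb hab
      exact hg a b ha hb hab
  refine ⟨hfin.toFinset, ?_, fun a ha => hfin.mem_toFinset.2 ha⟩
  refine Finset.card_le_card_of_injOn g ?_ ?_
  · intro a ha
    exact hT a (hfin.mem_toFinset.1 ha)
  · intro a ha b hb hab
    exact hg a b (hfin.mem_toFinset.1 ha) (hfin.mem_toFinset.1 hb) hab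

lemma CaseB1.wx_congr {a b : List Pt} (h : a.length = b.length) : wx C δ a = wx C δ b := by
  unfold wx
  rw [h]

/-- case (b), sections all of whose parts have a big piece -/
theorem caseB_big (L : RLat) (hS : ∀ b, L.S b = C.S) {d : ℝ} {p N : ℕ} (hd : 0 < d) (hN : 1 ≤ N)
    (hSw : SwAt C d p N) (hδ : 0 < δ) {S v : ℕ} (h16 : 16 ≤ S) :
    W C δ (fun l => Brc C l ∧ ht l ≤ (S : ℤ)) ^ 2 *
      W C δ (fun l => (Irr C l ∧ (S : ℤ) ≤ ht l ∧ ht l < 2 * (S : ℤ) ∧ ht l ≤ 8 * ht (sB C l)) ∧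
        HasBig C v (sE C l) ∧ HasBig C v (sB C l) ∧ HasBig C v (sR C l)) ≤
      ENNReal.ofReal (Kc N d ^ 2) * (W C δ (Brc C) ^ 4 *
        W C δ (fun l => Irr C l ∧ (v : ℤ) ≤ ht l) ^ 3) + ENNReal.ofReal (Err N p δ) := by
  set P : List Pt → Prop := fun l => Brc C l ∧ ht l ≤ (S : ℤ) with hPdef
  set Q : List Pt → Prop := fun l => (Irr C l ∧ (S : ℤ) ≤ ht l ∧ ht l < 2 * (S : ℤ) ∧
    ht l ≤ 8 * ht (sB C l)) ∧ HasBig C v (sE C l) ∧ HasBig C v (sB C l) ∧ HasBig C v (sR C l)
    with hQdef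
  let α : Type := {l : List Pt // P l} × ({l : List Pt // Q l} × {l : List Pt // P l})
  let f : α → List Pt := fun a =>
    unfG a.1.1 (sE C a.2.1.1) (sB C a.2.1.1) (sR C a.2.1.1) a.2.2.1
  have hsec : ∀ a : α, Sec C a.2.1.1 (sE C a.2.1.1) (sB C a.2.1.1) (sR C a.2.1.1) := by
    intro a
    obtain ⟨⟨h1, h2, -, -⟩, -⟩ := a.2.1.2
    refine sec_spec h1 ?_
    have h3 : (16 : ℤ) ≤ (S : ℤ) := by exact_mod_cast h16
    linarith
  have hlen : ∀ a : α, (f a).length = a.1.1.length + a.2.1.1.length + a.2.2.1.length :=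
    fun a => length_unfG (hsec a)
  have hsum : W C δ P ^ 2 * W C δ Q = ∑' a : α, wx C δ (f a) := by
    have h1 : ∀ a : α, wx C δ (f a) = wx C δ a.1.1 * (wx C δ a.2.1.1 * wx C δ a.2.2.1) := by
      intro a
      rw [← wx_append, ← wx_append]
      refine CaseB1.wx_congr ?_
      rw [hlen a, List.length_append, List.length_append]
      ring
    have h2 : ∑' a : α, wx C δ (f a) = ∑' (x : {l : List Pt // P l})
        (y : {l : List Pt // Q l}) (z : {l : List Pt // P l}),
        wx C δ x.1 * (wx C δ y.1 * wx C δ z.1) := by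
      rw [ENNReal.tsum_prod']
      refine tsum_congr fun x => ?_
      rw [ENNReal.tsum_prod']
      refine tsum_congr fun y => tsum_congr fun z => ?_
      exact h1 (x, (y, z))
    rw [h2]
    unfold W
    simp_rw [ENNReal.tsum_mul_left, ENNReal.tsum_mul_right]
    ring
  have hj : ∀ w : List Pt, ∀ a b : α, f a = w → f b = w →
      ((a.1.1.length + (sE C a.2.1.1).length,
        a.1.1.length + (sE C a.2.1.1).length + (sB C a.2.1.1).length) : ℕ × ℕ) =
      (b.1.1.length + (sE C b.2.1.1).length,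
        b.1.1.length + (sE C b.2.1.1).length + (sB C b.2.1.1).length) → a = b := by
    intro w a b ha hb hab
    obtain ⟨h1, h2⟩ := Prod.mk.inj hab
    have h3 := unfG_inj a.2.1.2.1.1 (hsec a) a.1.2.1 a.2.2.2.1 b.2.1.2.1.1 (hsec b) b.1.2.1
      b.2.2.2.1 (ha.trans hb.symm) h1 h2
    obtain ⟨h4, h5, h6⟩ := h3
    exact Prod.ext (Subtype.ext h4) (Prod.ext (Subtype.ext h5) (Subtype.ext h6))
  rw [hsum]
  refine (family_le hN hSw hδ f (HasBig3 C v) ?_ ?_ ?_ ?_).trans ?_
  · intro a
    exact brc_unfG (hsec a) a.1.2.1 a.2.2.2.1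
  · intro a
    obtain ⟨-, h1, h2, h3⟩ := a.2.1.2
    exact hasBig3_of a.1.2.1 h1 h2 h3 a.2.2.2.1
  · intro w
    obtain ⟨F, hF1, hF2⟩ := CaseB1.exists_finset (P := fun a : α => f a = w)
      (g := fun a : α => ((a.1.1.length + (sE C a.2.1.1).length,
        a.1.1.length + (sE C a.2.1.1).length + (sB C a.2.1.1).length) : ℕ × ℕ))
      (T := Finset.range (w.length + 1) ×ˢ Finset.range (w.length + 1)) (by
        intro a ha
        have h1 := hlen a
        have h2 : a.2.1.1.length = (sE C a.2.1.1).length + ((sB C a.2.1.1).length +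
            (sR C a.2.1.1).length) := by
          conv_lhs => rw [(hsec a).eq]
          rw [List.length_append, List.length_append, List.length_map]
        rw [ha] at h1
        rw [Finset.mem_product, Finset.mem_range, Finset.mem_range]
        constructor
        · show a.1.1.length + (sE C a.2.1.1).length < w.length + 1
          omega
        · show a.1.1.length + (sE C a.2.1.1).length + (sB C a.2.1.1).length < w.length + 1
          omega) (fun a b ha hb hab => hj w a b ha hb hab)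
    refine ⟨F, hF1.trans (le_of_eq ?_), hF2⟩
    rw [Finset.card_product, Finset.card_range, sq]
  · intro w hw hbad hwN
    obtain ⟨F, hF1, hF2⟩ := CaseB1.exists_finset (P := fun a : α => f a = w)
      (g := fun a : α => ((a.1.1.length + (sE C a.2.1.1).length,
        a.1.1.length + (sE C a.2.1.1).length + (sB C a.2.1.1).length) : ℕ × ℕ))
      (T := cdb S w ×ˢ cdb S w) (by
        intro a ha
        have h1 : Irr C a.2.1.1 := a.2.1.2.1.1
        have h2 : (S : ℤ) ≤ ht a.2.1.1 := a.2.1.2.1.2.1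
        have h3 : ht a.2.1.1 < 2 * (S : ℤ) := a.2.1.2.1.2.2.1
        have h4 : ht a.2.1.1 ≤ 8 * ht (sB C a.2.1.1) := a.2.1.2.1.2.2.2
        have h5 := mem_cdb L hS h16 h1 (hsec a) a.1.2.1 a.2.2.2.1 h2 h3 (h2.trans h4)
          a.1.2.2 a.2.2.2.2
        have h6 : unfG a.1.1 (sE C a.2.1.1) (sB C a.2.1.1) (sR C a.2.1.1) a.2.2.1 = w := ha
        rw [h6] at h5
        rw [Finset.mem_product]
        exact h5) (fun a b ha hb hab => hj w a b ha hb hab)
    refine ⟨F, ?_, hF2⟩
    have h1 := card_cdb hN hd h16 hw hwN hbad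
    have h2 : (F.card : ℝ) ≤ ((cdb S w).card : ℝ) * ((cdb S w).card : ℝ) := by
      have h3 : F.card ≤ (cdb S w).card * (cdb S w).card := by
        rw [← Finset.card_product]
        exact hF1
      exact_mod_cast h3
    have h3 : (0 : ℝ) ≤ ((cdb S w).card : ℝ) := Nat.cast_nonneg _
    calc (F.card : ℝ) ≤ ((cdb S w).card : ℝ) * ((cdb S w).card : ℝ) := h2
      _ ≤ Kc N d * Kc N d := mul_le_mul h1 h1 h3 (h3.trans h1)
      _ = Kc N d ^ 2 := (sq _).symm
  · have h1 := W_hasBig3_le (C := C) (δ := δ) v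
    generalize W C δ (HasBig3 C v) = X at h1 ⊢
    generalize W C δ (Brc C) ^ 4 * W C δ (fun l => Irr C l ∧ (v : ℤ) ≤ ht l) ^ 3 = Y at h1 ⊢
    gcongr

end SawNu.SF
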