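import Pool.Agent.SawF.SecA

/-!
SAWF W3c: thick sections one of whose parts has no big piece.
-/

set_option autoImplicit false

open Classical
open scoped ENNReal

namespace SawNu.SF

open SawNu.SB SawNu.SBR

variable {C : CL} {δ : ℝ}

namespace CaseB2

lemma wx_congr {a b : List Pt} (h : a.length = b.length) : wx C δ a = wx C δ b := by
  unfold wx
  rw [h]

lemma wx_sec {p E B R : List Pt} (h : Sec C p E B R) :
    wx C δ p = wx C δ E * (wx C δ B * wx C δ R) := by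
  have h1 : wx C δ p = wx C δ (E ++ (B ++ R)) := by
    apply wx_congr
    rw [h.eq]
    simp
  rw [h1, wx_append, wx_append]

/-- words determined by their three parts -/
lemma W_le_triple {P Q1 Q2 Q3 : List Pt → Prop}
    (h : ∀ l, P l → Sec C l (sE C l) (sB C l) (sR C l) ∧ Q1 (sE C l) ∧ Q2 (sB C l) ∧
      Q3 (sR C l)) :
    W C δ P ≤ W C δ Q1 * (W C δ Q2 * W C δ Q3) := by
  have e1 : W C δ Q1 * (W C δ Q2 * W C δ Q3) =
      ∑' x : {l : List Pt // Q1 l} × ({l : List Pt // Q2 l} × {l : List Pt // Q3 l}),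
        wx C δ x.1.1 * (wx C δ x.2.1.1 * wx C δ x.2.2.1) := by
    have h2 := ENNReal.tsum_prod (f := fun (a : {l : List Pt // Q1 l})
      (y : {l : List Pt // Q2 l} × {l : List Pt // Q3 l}) =>
        wx C δ a.1 * (wx C δ y.1.1 * wx C δ y.2.1))
    have h3 := ENNReal.tsum_prod (f := fun (b : {l : List Pt // Q2 l})
      (c : {l : List Pt // Q3 l}) => wx C δ b.1 * wx C δ c.1)
    refine Eq.trans ?_ h2.symm
    have h4 : W C δ Q2 * W C δ Q3 =
        ∑' y : {l : List Pt // Q2 l} × {l : List Pt // Q3 l}, wx C δ y.1.1 * wx C δ y.2.1 := by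
      refine Eq.trans ?_ h3.symm
      unfold W
      rw [← ENNReal.tsum_mul_right]
      refine tsum_congr fun b => ?_
      rw [ENNReal.tsum_mul_left]
    rw [h4]
    unfold W
    rw [← ENNReal.tsum_mul_right]
    refine tsum_congr fun a => ?_
    rw [ENNReal.tsum_mul_left]
  rw [e1]
  let f : {l : List Pt // P l} →
      {l : List Pt // Q1 l} × ({l : List Pt // Q2 l} × {l : List Pt // Q3 l}) :=
    fun l => (⟨sE C l.1, (h l.1 l.2).2.1⟩,
      (⟨sB C l.1, (h l.1 l.2).2.2.1⟩, ⟨sR C l.1, (h l.1 l.2).2.2.2⟩))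
  have hf : Function.Injective f := by
    intro a b hab
    apply Subtype.ext
    have hE : sE C a.1 = sE C b.1 := congrArg (fun x => x.1.1) hab
    have hB : sB C a.1 = sB C b.1 := congrArg (fun x => x.2.1.1) hab
    have hR : sR C a.1 = sR C b.1 := congrArg (fun x => x.2.2.1) hab
    have ha := (h a.1 a.2).1.eq
    have hb := (h b.1 b.2).1.eq
    rw [hE, hB, hR] at ha
    exact ha.trans hb.symm
  have e2 : W C δ P = ∑' l : {l : List Pt // P l},
      (fun x : {l : List Pt // Q1 l} × ({l : List Pt // Q2 l} × {l : List Pt // Q3 l}) =>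
        wx C δ x.1.1 * (wx C δ x.2.1.1 * wx C δ x.2.2.1)) (f l) := by
    unfold W
    exact tsum_congr fun l => wx_sec (h l.1 l.2).1
  rw [e2]
  exact ENNReal.tsum_comp_le_tsum_of_injective hf _

end CaseB2

/-- case (b), sections one of whose parts has no big piece -/
theorem caseB_small {S v : ℕ} (h16 : 16 ≤ S) :
    W C δ (fun l => (Irr C l ∧ (S : ℤ) ≤ ht l ∧ ht l < 2 * (S : ℤ) ∧ ht l ≤ 8 * ht (sB C l)) ∧
        ¬ (HasBig C v (sE C l) ∧ HasBig C v (sB C l) ∧ HasBig C v (sR C l))) ≤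
      3 * (W C δ (Brc C) ^ 2 *
        W C δ (fun l => Brc C l ∧ ¬ HasBig C v l ∧ ((S / 8 : ℕ) : ℤ) ≤ ht l)) := by
  set Q : List Pt → Prop := fun l => Brc C l ∧ ¬ HasBig C v l ∧ ((S / 8 : ℕ) : ℤ) ≤ ht l with hQ
  set T : List Pt → Prop := fun l => Irr C l ∧ (S : ℤ) ≤ ht l ∧ ht l < 2 * (S : ℤ) ∧
    ht l ≤ 8 * ht (sB C l) with hT
  have key : ∀ l, T l → Sec C l (sE C l) (sB C l) (sR C l) ∧
      ((S / 8 : ℕ) : ℤ) ≤ ht (sE C l) ∧ ((S / 8 : ℕ) : ℤ) ≤ ht (sB C l) ∧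
      ((S / 8 : ℕ) : ℤ) ≤ ht (sR C l) := by
    rintro l ⟨hi, h1, h2, h3⟩
    have hs := sec_spec hi (by omega)
    have a1 := hs.hm
    have a2 := hs.hx
    have a3 := hs.hR
    refine ⟨hs, ?_, ?_, ?_⟩ <;> omega
  have s1 : W C δ (fun l => T l ∧ ¬ HasBig C v (sE C l)) ≤
      W C δ (Brc C) ^ 2 * W C δ Q := by
    have := CaseB2.W_le_triple (C := C) (δ := δ)
      (P := fun l => T l ∧ ¬ HasBig C v (sE C l)) (Q1 := Q) (Q2 := Brc C) (Q3 := Brc C)
      (fun l hl => ⟨(key l hl.1).1, ⟨(key l hl.1).1.bE, hl.2, (key l hl.1).2.1⟩,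
        (key l hl.1).1.bB, (key l hl.1).1.bR⟩)
    refine this.trans (le_of_eq ?_)
    ring
  have s2 : W C δ (fun l => T l ∧ ¬ HasBig C v (sB C l)) ≤
      W C δ (Brc C) ^ 2 * W C δ Q := by
    have := CaseB2.W_le_triple (C := C) (δ := δ)
      (P := fun l => T l ∧ ¬ HasBig C v (sB C l)) (Q1 := Brc C) (Q2 := Q) (Q3 := Brc C)
      (fun l hl => ⟨(key l hl.1).1, (key l hl.1).1.bE,
        ⟨(key l hl.1).1.bB, hl.2, (key l hl.1).2.2.1⟩, (key l hl.1).1.bR⟩)
    refine this.trans (le_of_eq ?_)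
    ring
  have s3 : W C δ (fun l => T l ∧ ¬ HasBig C v (sR C l)) ≤
      W C δ (Brc C) ^ 2 * W C δ Q := by
    have := CaseB2.W_le_triple (C := C) (δ := δ)
      (P := fun l => T l ∧ ¬ HasBig C v (sR C l)) (Q1 := Brc C) (Q2 := Brc C) (Q3 := Q)
      (fun l hl => ⟨(key l hl.1).1, (key l hl.1).1.bE, (key l hl.1).1.bB,
        ⟨(key l hl.1).1.bR, hl.2, (key l hl.1).2.2.2⟩⟩)
    refine this.trans (le_of_eq ?_)
    ring
  calc W C δ (fun l => T l ∧
        ¬ (HasBig C v (sE C l) ∧ HasBig C v (sB C l) ∧ HasBig C v (sR C l)))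
      ≤ W C δ (fun l => (T l ∧ ¬ HasBig C v (sE C l)) ∨
          ((T l ∧ ¬ HasBig C v (sB C l)) ∨ (T l ∧ ¬ HasBig C v (sR C l)))) := by
        apply W_mono
        rintro l ⟨h1, h2⟩
        by_cases hE : HasBig C v (sE C l)
        · by_cases hB : HasBig C v (sB C l)
          · exact Or.inr (Or.inr ⟨h1, fun hR => h2 ⟨hE, hB, hR⟩⟩)
          · exact Or.inr (Or.inl ⟨h1, hB⟩)
        · exact Or.inl ⟨h1, hE⟩
    _ ≤ W C δ (fun l => T l ∧ ¬ HasBig C v (sE C l)) +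
          (W C δ (fun l => T l ∧ ¬ HasBig C v (sB C l)) +
            W C δ (fun l => T l ∧ ¬ HasBig C v (sR C l))) :=
        W_or.trans (add_le_add le_rfl W_or)
    _ ≤ W C δ (Brc C) ^ 2 * W C δ Q +
          (W C δ (Brc C) ^ 2 * W C δ Q + W C δ (Brc C) ^ 2 * W C δ Q) :=
        add_le_add s1 (add_le_add s2 s3)
    _ = 3 * (W C δ (Brc C) ^ 2 * W C δ Q) := by ring

end SawNu.SF
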