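import Pool.Agent.SawF.Pcs

/-!
SAWF W0b: bridges without big pieces.
-/

set_option autoImplicit false

open Classical
open scoped ENNReal

namespace SawNu.SF

open SawNu.SB

variable {C : CL} {δ : ℝ}

/-- the pair of the critical and the tilted renewal sequences -/
theorem pair (hδ : 0 < δ) : Pair (iR C 0) (aR C 0) (iR C δ) (aR C δ) where
  hc := ren le_rfl
  hs := iR_sum_le
  h := ren hδ.le
  hle := iR_anti hδ.le
  hsum := aR_summable hδ

lemma Tot_eq (hδ : 0 < δ) : Tot (aR C δ) = (W C δ (Brc C)).toReal := tsum_aR hδ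

lemma PcsB_congr {P Q : List Pt → Prop} (h : ∀ l, P l ↔ Q l) : W C δ P = W C δ Q := by
  have : P = Q := funext fun l => propext (h l)
  rw [this]

lemma big_eq (hδ : 0 < δ) (v : ℕ) :
    big (iR C δ) v = (W C δ (fun l => Irr C l ∧ (v : ℤ) ≤ ht l)).toReal := by
  have h : big (iR C δ) v = (W C δ (fun l => Irr C l ∧ v ≤ (ht l).toNat)).toReal := by
    refine Eq.trans ?_ (W_irr_ht (C := C) hδ (fun t => v ≤ t)).symm
    rw [big]
    exact tsum_congr fun t => by congr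
  rw [h]
  congr 1
  apply PcsB_congr
  intro l
  constructor
  · rintro ⟨h1, h2⟩
    have := h1.br.ht_nonneg
    exact ⟨h1, by omega⟩
  · rintro ⟨h1, h2⟩
    exact ⟨h1, by omega⟩

/-! ### bridges without big pieces -/

/-- bridge without big pieces -/
def PcsB_Sm (C : CL) (v : ℕ) (l : List Pt) : Prop := Brc C l ∧ ¬ HasBig C v l

lemma PcsB_Sm_nil (v : ℕ) : PcsB_Sm C v [] := by
  refine ⟨Brc.nil, ?_⟩
  rintro ⟨b1, p, b2, h1, _, h3, _, _⟩
  have h4 := List.append_eq_nil_iff.1 h1.symm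
  have h5 := List.append_eq_nil_iff.1 h4.2
  exact h3.2.1 h5.1

lemma PcsB_Sm_append {v : ℕ} {p w : List Pt} (hp : Irr C p) (hpv : ht p < v)
    (hw : PcsB_Sm C v w) : PcsB_Sm C v (p ++ w) := by
  refine ⟨hp.br.append hw.1, ?_⟩
  rintro ⟨b1, q, b2, h1, h2, h3, h4, h5⟩
  by_cases hb : b1 = []
  · subst hb
    rw [List.nil_append] at h1
    obtain ⟨e1, _⟩ := first_unique hp hw.1 h3 h5 h1
    subst e1
    omega
  · obtain ⟨t, ht0, htl, hc, hp', hw'⟩ := exists_first h2 hb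
    have e : p ++ w = b1.take t ++ (b1.drop t ++ (q ++ b2)) := by
      rw [h1]
      conv_lhs => rw [← List.take_append_drop t b1]
      rw [List.append_assoc]
    obtain ⟨_, e2⟩ := first_unique hp hw.1 hp' (hw'.append (h3.br.append h5)) e
    exact hw.2 ⟨b1.drop t, q, b2, e2, hw', h3, h4, h5⟩

lemma PcsB_Sm_split {v : ℕ} {l : List Pt} (hl : PcsB_Sm C v l) (h0 : l ≠ []) :
    ∃ p w, l = p ++ w ∧ Irr C p ∧ ht p < v ∧ PcsB_Sm C v w := by
  obtain ⟨t, ht0, htl, hc, hp, hw⟩ := exists_first hl.1 h0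
  refine ⟨l.take t, l.drop t, (List.take_append_drop t l).symm, hp, ?_, hw, ?_⟩
  · by_contra h
    apply hl.2
    exact ⟨[], l.take t, l.drop t, by rw [List.nil_append, List.take_append_drop], Brc.nil, hp,
      not_lt.1 h, hw⟩
  · rintro ⟨b1, q, b2, h1, h2, h3, h4, h5⟩
    apply hl.2
    refine ⟨l.take t ++ b1, q, b2, ?_, hp.br.append h2, h3, h4, h5⟩
    rw [List.append_assoc, ← h1, List.take_append_drop]

/-- weight of the bridges of height `t` without big pieces -/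
noncomputable def PcsB_b (C : CL) (δ : ℝ) (v t : ℕ) : ℝ≥0∞ :=
  W C δ (fun l => PcsB_Sm C v l ∧ ht l = (t : ℤ))

lemma PcsB_b_le (v t : ℕ) : PcsB_b C δ v t ≤ AE C δ t := W_mono fun _ h => ⟨h.1.1, h.2⟩

lemma PcsB_b_zero (v : ℕ) : PcsB_b C δ v 0 = 1 := by
  have h : ∀ l : List Pt, (PcsB_Sm C v l ∧ ht l = ((0 : ℕ) : ℤ)) ↔ l = [] := by
    intro l
    constructor
    · rintro ⟨h1, h2⟩
      by_contra h3
      have := h1.1.ht_pos h3
      push_cast at h2
      omega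
    · rintro rfl
      exact ⟨PcsB_Sm_nil v, by simp [ht]⟩
  rw [PcsB_b, PcsB_congr h, W]
  rw [tsum_eq_single (⟨[], rfl⟩ : {l : List Pt // l = []})
    (fun x hx => absurd (Subtype.ext x.2) hx)]
  exact wx_nil

lemma PcsB_b_rec (v : ℕ) {t : ℕ} (ht1 : 1 ≤ t) : PcsB_b C δ v t =
    ∑ j ∈ Finset.Icc 1 t, (if j < v then IE C δ j else 0) * PcsB_b C δ v (t - j) := by
  have hI : ∀ j : ℕ, (if j < v then IE C δ j else 0) =
      W C δ (fun p => (Irr C p ∧ ht p = (j : ℤ)) ∧ j < v) := by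
    intro j
    split_ifs with h
    · exact PcsB_congr fun l => ⟨fun h1 => ⟨h1, h⟩, fun h1 => h1.1⟩
    · rw [W]
      have : IsEmpty {p : List Pt // (Irr C p ∧ ht p = (j : ℤ)) ∧ j < v} :=
        ⟨fun x => h x.2.2⟩
      rw [tsum_empty]
  have e1 : ∀ j ∈ Finset.Icc 1 t, (if j < v then IE C δ j else 0) * PcsB_b C δ v (t - j) =
      ∑' x : {p : List Pt // (Irr C p ∧ ht p = (j : ℤ)) ∧ j < v} ×
        {w : List Pt // PcsB_Sm C v w ∧ ht w = ((t - j : ℕ) : ℤ)}, wx C δ (x.1.1 ++ x.2.1) := by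
    intro j _
    rw [hI, PcsB_b, W_mul]
  have hsig := ENNReal.tsum_sigma' (fun s : (Σ j : (Finset.Icc 1 t : Finset ℕ),
      {p : List Pt // (Irr C p ∧ ht p = ((j : ℕ) : ℤ)) ∧ (j : ℕ) < v} ×
        {w : List Pt // PcsB_Sm C v w ∧ ht w = ((t - (j : ℕ) : ℕ) : ℤ)}) =>
      wx C δ (s.2.1.1 ++ s.2.2.1))
  rw [Finset.sum_congr rfl e1, ← Finset.sum_coe_sort, ← tsum_fintype (L := .unconditional _)]
  refine Eq.trans ?_ hsig
  let f : (Σ j : (Finset.Icc 1 t : Finset ℕ),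
      {p : List Pt // (Irr C p ∧ ht p = ((j : ℕ) : ℤ)) ∧ (j : ℕ) < v} ×
        {w : List Pt // PcsB_Sm C v w ∧ ht w = ((t - (j : ℕ) : ℕ) : ℤ)}) →
      {l : List Pt // PcsB_Sm C v l ∧ ht l = (t : ℤ)} := fun x =>
    ⟨x.2.1.1 ++ x.2.2.1, by
      obtain ⟨⟨j, hj⟩, ⟨p, ⟨hp, hpj⟩, hjv⟩, ⟨w, hw, hwt⟩⟩ := x
      have hj' := Finset.mem_Icc.1 hj
      refine ⟨PcsB_Sm_append hp (by rw [hpj]; exact_mod_cast hjv) hw, ?_⟩
      show ht (p ++ w) = _
      rw [ht_append, hpj, hwt]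
      push_cast [Nat.cast_sub hj'.2]
      show (j : ℤ) + ((t : ℤ) - (j : ℤ)) = t
      ring⟩
  have hf : Function.Bijective f := by
    constructor
    · rintro ⟨⟨j, hj⟩, ⟨p, ⟨hp, hpj⟩, hjv⟩, ⟨w, hw, hwt⟩⟩
        ⟨⟨j', hj'⟩, ⟨p', ⟨hp', hpj'⟩, hjv'⟩, ⟨w', hw', hwt'⟩⟩ h
      have h1 : p ++ w = p' ++ w' := congrArg Subtype.val h
      obtain ⟨e2, e3⟩ := first_unique hp hw.1 hp' hw'.1 h1
      subst e2
      subst e3
      have e4 : j = j' := by
        have e5 : ((j : ℕ) : ℤ) = ((j' : ℕ) : ℤ) := by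
          rw [← show ht p = ((j : ℕ) : ℤ) from hpj, ← show ht p = ((j' : ℕ) : ℤ) from hpj']
        exact_mod_cast e5
      subst e4
      rfl
    · rintro ⟨l, hl, hlt⟩
      have h0 : l ≠ [] := by
        rintro rfl
        simp [ht] at hlt
        omega
      obtain ⟨p, w, e, hp, hpv, hw⟩ := PcsB_Sm_split hl h0
      have hp1 := hp.br.ht_pos hp.2.1
      have hw1 := hw.1.ht_nonneg
      have h2 : ht p + ht w = t := by rw [← ht_append, ← e, hlt]
      refine ⟨⟨⟨(ht p).toNat, Finset.mem_Icc.2 ⟨by omega, by omega⟩⟩, ⟨p, ⟨hp, ?_⟩, ?_⟩,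
        ⟨w, hw, ?_⟩⟩, Subtype.ext e.symm⟩
      · show ht p = (((ht p).toNat : ℕ) : ℤ)
        omega
      · show (ht p).toNat < v
        omega
      · show ht w = ((t - (ht p).toNat : ℕ) : ℤ)
        omega
  rw [PcsB_b, W, ← (Equiv.ofBijective f hf).tsum_eq]
  rfl

/-- decomposition by the height -/
lemma PcsB_W_ht (P : List Pt → Prop) (hP : ∀ l, P l → 0 ≤ ht l) :
    W C δ P = ∑' t : ℕ, W C δ (fun l => P l ∧ ht l = (t : ℤ)) := by
  have e : ∀ t : ℕ, W C δ (fun l => P l ∧ ht l = (t : ℤ)) =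
      ∑' x : {x : {l : List Pt // P l} // (ht x.1).toNat = t}, wx C δ x.1.1 := by
    intro t
    rw [W]
    let g : {x : {l : List Pt // P l} // (ht x.1).toNat = t} →
        {l : List Pt // P l ∧ ht l = (t : ℤ)} := fun x => ⟨x.1.1, x.1.2, by
      have h1 := hP _ x.1.2
      have h2 := x.2
      omega⟩
    have hg : Function.Bijective g := by
      constructor
      · intro x y h
        have h1 : (g x).1 = (g y).1 := congrArg Subtype.val h
        exact Subtype.ext (Subtype.ext h1)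
      · rintro ⟨l, hl, hlt⟩
        exact ⟨⟨⟨l, hl⟩, by show (ht l).toNat = t; omega⟩, rfl⟩
    rw [← (Equiv.ofBijective g hg).tsum_eq]
    rfl
  have hsig := ENNReal.tsum_sigma' (fun s : (Σ t : ℕ, {x : {l : List Pt // P l} //
    (ht x.1).toNat = t}) => wx C δ s.2.1.1)
  rw [tsum_congr e, W,
    ← (Equiv.sigmaFiberEquiv fun x : {l : List Pt // P l} => (ht x.1).toNat).tsum_eq]
  exact hsig

lemma PcsB_ren (hδ : 0 < δ) (v : ℕ) :
    Ren (fun j => if j < v then iR C δ j else 0) (fun t => (PcsB_b C δ v t).toReal) where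
  nn := by
    intro j
    split_ifs
    · exact ENNReal.toReal_nonneg
    · exact le_rfl
  i0 := by
    have h := (ren (C := C) hδ.le).i0
    split_ifs
    · exact h
    · rfl
  a0 := by
    rw [PcsB_b_zero]
    rfl
  req := by
    intro t h1
    have hb : ∀ s, PcsB_b C δ v s ≠ ⊤ := fun s =>
      ne_top_of_le_ne_top ENNReal.one_ne_top ((PcsB_b_le v s).trans (AE_le_one hδ.le s))
    have hi : ∀ s, (if s < v then IE C δ s else 0) ≠ ⊤ := by
      intro s
      split_ifs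
      · exact ne_top_of_le_ne_top ENNReal.one_ne_top ((IE_le_AE s).trans (AE_le_one hδ.le s))
      · exact ENNReal.zero_ne_top
    rw [PcsB_b_rec v h1, ENNReal.toReal_sum (fun j _ => ENNReal.mul_ne_top (hi j) (hb _))]
    refine Finset.sum_congr rfl fun j _ => ?_
    rw [ENNReal.toReal_mul]
    congr 1
    split_ifs
    · rfl
    · rfl

/-- P2 for words: tall bridges without a big piece -/
theorem W_small_le (hδ : 0 < δ) {v : ℕ} (hv : 1 ≤ v) (hU : Tot (aR C δ) ≤ 5 * Us (aR C 0) v)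
    (H : ℕ) : W C δ (fun l => Brc C l ∧ ¬ HasBig C v l ∧ (H : ℤ) ≤ ht l) ≤
      ENNReal.ofReal (2 * Tot (aR C δ) * Real.exp (-((H : ℝ) / (90 * v)))) := by
  obtain ⟨hs, hle⟩ := few_giants (pair hδ) hv hU (PcsB_ren hδ v) H
  have hb : ∀ s, PcsB_b C δ v s ≠ ⊤ := fun s =>
    ne_top_of_le_ne_top ENNReal.one_ne_top ((PcsB_b_le v s).trans (AE_le_one hδ.le s))
  have hnn : ∀ t : ℕ, 0 ≤ (if H ≤ t then (PcsB_b C δ v t).toReal else 0) := by
    intro t
    split_ifs
    · exact ENNReal.toReal_nonneg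
    · exact le_rfl
  have hs2 : Summable fun t : ℕ => (if H ≤ t then (PcsB_b C δ v t).toReal else 0) := by
    refine Summable.of_nonneg_of_le hnn (fun t => ?_) hs
    split_ifs
    · exact le_rfl
    · exact ENNReal.toReal_nonneg
  refine le_trans ?_ (ENNReal.ofReal_le_ofReal hle)
  rw [ENNReal.ofReal_tsum_of_nonneg hnn hs2, PcsB_W_ht _ (fun l hl => hl.1.ht_nonneg)]
  refine ENNReal.tsum_le_tsum fun t => ?_
  split_ifs with h
  · rw [ENNReal.ofReal_toReal (hb t)]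
    exact W_mono fun l hl => ⟨⟨hl.1.1, hl.1.2.1⟩, hl.2⟩
  · rw [ENNReal.ofReal_zero, W]
    have : IsEmpty {l : List Pt // (Brc C l ∧ ¬ HasBig C v l ∧ (H : ℤ) ≤ ht l) ∧
        ht l = (t : ℤ)} := ⟨fun x => by
      have h1 := x.2.1.2.2
      have h2 := x.2.2
      omega⟩
    rw [tsum_empty]

/-- short bridges carry half of the weight -/
theorem W_short_ge (hδ : 0 < δ) {v S : ℕ} (hv : 1 ≤ v)
    (hU : Tot (aR C δ) ≤ 5 * Us (aR C 0) v) (hy : ySF (iR C δ) (aR C δ) v ≤ 1 / 8)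
    (hS : Real.exp (-((S : ℝ) / (90 * v))) ≤ 3 / 16) :
    ENNReal.ofReal (Tot (aR C δ) / 2) ≤ W C δ (fun l => Brc C l ∧ ht l ≤ (S : ℤ)) := by
  have hsum : Summable (aR C δ) := aR_summable hδ
  have hnn : ∀ t, 0 ≤ aR C δ t := fun t => ENNReal.toReal_nonneg
  have h1 := tail_le (pair (C := C) hδ) hv hU S
  have hT : 0 ≤ Tot (aR C δ) := tsum_nonneg hnn
  have h2 : Tot (aR C δ) * (2 * Real.exp (-((S : ℝ) / (90 * v))) + ySF (iR C δ) (aR C δ) v) ≤
      Tot (aR C δ) * (1 / 2) := by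
    apply mul_le_mul_of_nonneg_left _ hT
    linarith
  have hs1 : Summable fun t : ℕ => (if S ≤ t then aR C δ t else 0) := by
    refine Summable.of_nonneg_of_le (fun t => ?_) (fun t => ?_) hsum
    · split_ifs
      · exact hnn t
      · exact le_rfl
    · split_ifs
      · exact le_rfl
      · exact hnn t
  have hs2 : Summable fun t : ℕ => (if t ≤ S then aR C δ t else 0) := by
    refine Summable.of_nonneg_of_le (fun t => ?_) (fun t => ?_) hsum
    · split_ifs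
      · exact hnn t
      · exact le_rfl
    · split_ifs
      · exact le_rfl
      · exact hnn t
  have h3 : Tot (aR C δ) ≤ (∑' t : ℕ, (if S ≤ t then aR C δ t else 0)) +
      ∑' t : ℕ, (if t ≤ S then aR C δ t else 0) := by
    rw [← hs1.tsum_add hs2, Tot]
    refine hsum.tsum_le_tsum (fun t => ?_) (hs1.add hs2)
    by_cases h : S ≤ t
    · rw [if_pos h]
      split_ifs
      · have := hnn t
        linarith
      · linarith
    · rw [if_neg h, if_pos (by omega)]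
      linarith
  have h4 : Tot (aR C δ) / 2 ≤ ∑' t : ℕ, (if t ≤ S then aR C δ t else 0) := by linarith
  have h6 : (∑' t : ℕ, (if t ≤ S then aR C δ t else 0)) =
      (W C δ (fun l => Brc C l ∧ (ht l).toNat ≤ S)).toReal := by
    refine Eq.trans ?_ (W_ht (C := C) hδ (fun t => t ≤ S)).symm
    exact tsum_congr fun t => by congr
  rw [h6] at h4
  have h5 : W C δ (fun l => Brc C l ∧ (ht l).toNat ≤ S) =
      W C δ (fun l => Brc C l ∧ ht l ≤ (S : ℤ)) := by
    apply PcsB_congr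
    intro l
    constructor
    · rintro ⟨a, b⟩
      exact ⟨a, by omega⟩
    · rintro ⟨a, b⟩
      exact ⟨a, by omega⟩
  rw [h5] at h4
  exact ENNReal.ofReal_le_of_le_toReal h4

end SawNu.SF
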