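import Pool.Agent.SawF.MassB
import Pool.Agent.SawF.PcsB

/-!
SAWF T3.
-/

set_option autoImplicit false

open Classical Filter

namespace SawNu.SF

open SawNu.SB SawNu.SBR Pool.Agent.Lib.SAW.HW Pool.Agent.SawBr38

variable {C : CL} {L : RLat}

/-- T3 -/
theorem tot_le_Us {v : ℝ} (hv : 0 < v) (hg : 0 < gf C v) :
    Tot (aR C (gf C v)) ≤ 5 * Us (aR C 0) ⌊2 / v⌋₊ := by
  have hv2 : 0 < v / 2 := by positivity
  have h0 : (0 : ℝ) ≤ 2 / v := by positivity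
  have e1 : (2 / v) * (v / 2) = 1 := by field_simp
  refine tot_le (pair hg) hv2 (fun t => decay_of_force hv hg t) ?_ ?_
  · calc ((⌊2 / v⌋₊ : ℕ) : ℝ) * (v / 2) ≤ (2 / v) * (v / 2) :=
        mul_le_mul_of_nonneg_right (Nat.floor_le h0) hv2.le
      _ = 1 := e1
  · calc (1 : ℝ) = (2 / v) * (v / 2) := e1.symm
      _ ≤ (((⌊2 / v⌋₊ : ℕ) : ℝ) + 1) * (v / 2) :=
        mul_le_mul_of_nonneg_right (Nat.lt_floor_add_one (2 / v)).le hv2.le

end SawNu.SF
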