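import Pool.Agent.SawF.PropP
import Pool.Agent.SawF.CombA

/-!
SAWF T6: tall bridges are not rare.
-/

set_option autoImplicit false

open Classical Filter

namespace SawNu.SF

open SawNu.SB SawNu.SBR Pool.Agent.Lib.SAW.HW Pool.Agent.SawBr38

variable {C : CL} {L : RLat}

/-- the asymptotic conditions on `v` -/
theorem combB_small {ε K : ℝ} (hε : 0 < ε) (hε1 : ε < 1) (s0 : ℕ) :
    ∃ v0 : ℝ, 0 < v0 ∧ v0 ≤ 1 ∧ ∀ v : ℝ, 0 < v → v ≤ v0 →
      v ^ ε ≤ 4 / 5 ∧ v ^ (ε * ε) ≤ 1 / 2 ∧ (s0 : ℝ) + 1 ≤ v ^ (-(1 - ε)) ∧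
      v ^ (-(1 - ε)) * Real.log (v ^ (-(1 - ε))) ^ K * (4 * v) < 1 ∧
      v * 2 ^ (4 / (1 - ε)) ≤ 1 := by
  have h1 : 0 < 1 - ε := by linarith
  have t0 : ∀ c : ℝ, 0 < c → Tendsto (fun v : ℝ => v ^ c) (nhdsWithin 0 (Set.Ioi 0)) (nhds 0) := by
    intro c hc
    have h2 : ContinuousAt (fun v : ℝ => v ^ c) 0 :=
      Real.continuousAt_rpow_const 0 c (Or.inr hc.le)
    have h3 := h2.tendsto
    rw [Real.zero_rpow hc.ne'] at h3
    exact h3.mono_left nhdsWithin_le_nhds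
  have e1 : ∀ᶠ v in nhdsWithin (0 : ℝ) (Set.Ioi 0), v ^ ε ≤ 4 / 5 :=
    ((t0 ε hε).eventually_lt_const (by norm_num)).mono fun v hv => hv.le
  have e2 : ∀ᶠ v in nhdsWithin (0 : ℝ) (Set.Ioi 0), v ^ (ε * ε) ≤ 1 / 2 :=
    ((t0 (ε * ε) (by positivity)).eventually_lt_const (by norm_num)).mono fun v hv => hv.le
  -- the large parameter
  have tinf : Tendsto (fun v : ℝ => v ^ (-(1 - ε))) (nhdsWithin 0 (Set.Ioi 0)) atTop :=
    tendsto_rpow_neg_nhdsGT_zero (by linarith)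
  have e3 : ∀ᶠ v in nhdsWithin (0 : ℝ) (Set.Ioi 0), (s0 : ℝ) + 1 ≤ v ^ (-(1 - ε)) :=
    tinf.eventually_ge_atTop _
  have e4 : ∀ᶠ v in nhdsWithin (0 : ℝ) (Set.Ioi 0),
      v ^ (-(1 - ε)) * Real.log (v ^ (-(1 - ε))) ^ K * (4 * v) < 1 := by
    have hr : 0 < ε / (1 - ε) := by positivity
    have h2 : Tendsto (fun x : ℝ => Real.log x ^ K / x ^ (ε / (1 - ε))) atTop (nhds 0) :=
      (isLittleO_log_rpow_rpow_atTop K hr).tendsto_div_nhds_zero
    have h3 := (h2.comp tinf).eventually_lt_const (show (0 : ℝ) < 1 / 4 by norm_num)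
    have h4 : ∀ᶠ v in nhdsWithin (0 : ℝ) (Set.Ioi 0), v ∈ Set.Ioi (0 : ℝ) := self_mem_nhdsWithin
    filter_upwards [h3, h4] with v hv hv0
    have hv0' : 0 < v := hv0
    simp only [Function.comp] at hv
    have h5 : (v ^ (-(1 - ε))) ^ (ε / (1 - ε)) = v ^ (-ε) := by
      rw [← Real.rpow_mul hv0'.le]
      congr 1
      field_simp
    rw [h5, Real.rpow_neg hv0'.le ε, div_inv_eq_mul] at hv
    have h6 : v ^ (-(1 - ε)) * v = v ^ ε := by
      conv_lhs => rw [← Real.rpow_one v, ← Real.rpow_mul hv0'.le, ← Real.rpow_add hv0']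
      congr 1
      ring
    have h7 : v ^ (-(1 - ε)) * Real.log (v ^ (-(1 - ε))) ^ K * (4 * v) =
        4 * (Real.log (v ^ (-(1 - ε))) ^ K * (v ^ (-(1 - ε)) * v)) := by ring
    rw [h7, h6]
    linarith
  have e5 : ∀ᶠ v in nhdsWithin (0 : ℝ) (Set.Ioi 0), v * 2 ^ (4 / (1 - ε)) ≤ 1 := by
    have h2 : Tendsto (fun v : ℝ => v * 2 ^ (4 / (1 - ε))) (nhdsWithin 0 (Set.Ioi 0))
        (nhds (0 * 2 ^ (4 / (1 - ε)))) :=
      (tendsto_id.mono_left nhdsWithin_le_nhds).mul_const _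
    rw [zero_mul] at h2
    exact (h2.eventually_lt_const one_pos).mono fun v hv => hv.le
  have e := e1.and (e2.and (e3.and (e4.and e5)))
  rw [eventually_nhdsWithin_iff, Metric.eventually_nhds_iff] at e
  obtain ⟨r, hr, h⟩ := e
  refine ⟨min (r / 2) 1, by positivity, min_le_right _ _, ?_⟩
  intro v hv hv0
  have h2 : v ≤ r / 2 := hv0.trans (min_le_left _ _)
  exact h (by rw [Real.dist_eq, sub_zero, abs_of_pos hv]; linarith) hv

/-- T6: tall bridges are not rare -/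
theorem tall_weight (hM : Mirrored L) (hup : ∀ b, ∃ u ∈ L.S b, u.2 = 1)
    (hS : ∀ b, L.S b = C.S) (R : Rot L) {ε : ℝ} (hε : 0 < ε) (hε1 : ε < 1) :
    ∃ v0 : ℝ, 0 < v0 ∧ v0 ≤ 1 ∧ ∀ v : ℝ, 0 < v → v ≤ v0 → ∀ s : ℕ, (s : ℝ) ≤ v ^ (-(1 - ε)) →
      v ^ ε * Tot (aR C (gf C v)) ≤ ∑' t, (if s ≤ t then aR C (gf C v) t else 0) := by
  have h1 : 0 < 1 - ε := by linarith
  have hC0 : 0 < 4 / (1 - ε) := by positivity
  obtain ⟨K, s0, hK, hs0, hP⟩ := propP (C := C) L hS ε (4 / (1 - ε)) hε hC0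
  obtain ⟨v1, hv1, hv11, hpoly⟩ := gf_poly (C := C) hM hup hS R
  obtain ⟨v2, hv2, hv21, hsm⟩ := combB_small (K := K) hε hε1 s0
  refine ⟨min v1 v2, lt_min hv1 hv2, (min_le_left _ _).trans hv11, ?_⟩
  intro v hv hvv s hs
  have hvv1 : v ≤ v1 := hvv.trans (min_le_left _ _)
  obtain ⟨a1, a2, a3, a4, a5⟩ := hsm v hv (hvv.trans (min_le_right _ _))
  have hvle1 : v ≤ 1 := hvv1.trans hv11
  have hδ : 0 < gf C v := gf_pos (C := C) hM hup hS R hv
  have hpair := pair (C := C) hδ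
  obtain ⟨X, hX⟩ : ∃ X : ℝ, X = v ^ (-(1 - ε)) := ⟨_, rfl⟩
  rw [← hX] at hs a3 a4
  have hs0' : (2 : ℝ) ≤ s0 := by exact_mod_cast hs0
  have hXpos : 0 < X := by linarith
  obtain ⟨s1, hs1⟩ : ∃ s1 : ℕ, s1 = ⌊X⌋₊ := ⟨_, rfl⟩
  have hs1X : (s1 : ℝ) ≤ X := by rw [hs1]; exact Nat.floor_le hXpos.le
  have hXs1 : X < s1 + 1 := by rw [hs1]; exact Nat.lt_floor_add_one X
  have hss1 : s ≤ s1 := by rw [hs1]; exact Nat.le_floor hs
  have hs0s1 : s0 ≤ s1 := by
    rw [hs1]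
    apply Nat.le_floor
    linarith
  have hs1r : (2 : ℝ) ≤ s1 := by
    have : (s0 : ℝ) ≤ s1 := by exact_mod_cast hs0s1
    linarith
  -- monotonicity in `s`
  have hmono : ∑' t, (if s1 ≤ t then aR C (gf C v) t else 0) ≤
      ∑' t, (if s ≤ t then aR C (gf C v) t else 0) := by
    have hnn := hpair.h.a_nn
    have hsm' : ∀ k : ℕ, Summable (fun t => if k ≤ t then aR C (gf C v) t else 0) := by
      intro k
      refine Summable.of_nonneg_of_le (fun t => ?_) (fun t => ?_) hpair.hsum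
      · split_ifs
        · exact hnn t
        · exact le_refl 0
      · split_ifs
        · exact le_refl _
        · exact hnn t
    refine (hsm' s1).tsum_le_tsum (fun t => ?_) (hsm' s)
    by_cases h2 : s1 ≤ t
    · rw [if_pos h2, if_pos (hss1.trans h2)]
    · rw [if_neg h2]
      split_ifs
      · exact hnn t
      · exact le_refl 0
  refine le_trans ?_ hmono
  have hTot0 : 0 ≤ Tot (aR C (gf C v)) := by
    have := hpair.one_le_Tot
    linarith
  by_cases hU : 5 * Us (aR C 0) s1 ≤ Tot (aR C (gf C v))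
  · exact le_trans (mul_le_mul_of_nonneg_right a1 hTot0) (tall_ge' hpair hU)
  · push Not at hU
    have hηpos : 0 < v ^ ((1 - ε) * ε) := Real.rpow_pos_of_pos hv _
    have hη1 : v ^ ((1 - ε) * ε) ≤ 1 := Real.rpow_le_one hv.le hvle1 (by positivity)
    have hy : v ^ ((1 - ε) * ε) ≤ ySF (iR C (gf C v)) (aR C (gf C v)) s1 := by
      by_contra hcon
      push Not at hcon
      have hXη : v ^ ((1 - ε) * ε) ≤ (s1 : ℝ) ^ (-ε) := by
        have h2 : v ^ ((1 - ε) * ε) = X ^ (-ε) := by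
          rw [hX, ← Real.rpow_mul hv.le]
          congr 1
          ring
        rw [h2]
        exact Real.rpow_le_rpow_of_nonpos (by linarith) hs1X (by linarith)
      have hδ1 : gf C v ≤ 1 := (gf_le hv.le).trans hvle1
      have hδlow : (s1 : ℝ) ^ (-(4 / (1 - ε))) ≤ gf C v := by
        have h2 : X / 2 ≤ s1 := by linarith
        have h3 : (s1 : ℝ) ^ (-(4 / (1 - ε))) ≤ (X / 2) ^ (-(4 / (1 - ε))) :=
          Real.rpow_le_rpow_of_nonpos (by linarith) h2 (by linarith)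
        have h4 : (X / 2) ^ (-(4 / (1 - ε))) = v ^ (4 : ℝ) * 2 ^ (4 / (1 - ε)) := by
          rw [Real.div_rpow hXpos.le (by norm_num), Real.rpow_neg (by norm_num : (0 : ℝ) ≤ 2),
            div_inv_eq_mul, hX, ← Real.rpow_mul hv.le]
          congr 2
          field_simp
        have h5 : v ^ (4 : ℝ) * 2 ^ (4 / (1 - ε)) = v ^ 3 * (v * 2 ^ (4 / (1 - ε))) := by
          have h6 : v ^ (4 : ℝ) = v ^ 3 * v := by
            rw [show (4 : ℝ) = ((4 : ℕ) : ℝ) by norm_num, Real.rpow_natCast]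
            ring
          rw [h6]
          ring
        have h7 : v ^ 3 * (v * 2 ^ (4 / (1 - ε))) ≤ v ^ 3 := by
          have := mul_le_mul_of_nonneg_left a5 (show 0 ≤ v ^ 3 by positivity)
          linarith
        calc (s1 : ℝ) ^ (-(4 / (1 - ε))) ≤ v ^ 3 := by rw [h4, h5] at h3; linarith
          _ ≤ gf C v := hpoly v hv hvv1
      have hdec := hP s1 hs0s1 (gf C v) hδlow hδ1 hU.le (hcon.le.trans hXη)
      have hlog1 : 0 < Real.log s1 := Real.log_pos (by linarith)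
      have hlogK : 0 < Real.log s1 ^ K := Real.rpow_pos_of_pos hlog1 K
      obtain ⟨Y, hY⟩ : ∃ Y : ℝ, Y = (s1 : ℝ) * Real.log s1 ^ K := ⟨_, rfl⟩
      have hYpos : 0 < Y := by rw [hY]; positivity
      rw [← hY] at hdec
      have hYX : Y * (4 * v) < 1 := by
        have h2 : Real.log s1 ^ K ≤ Real.log X ^ K := by
          apply Real.rpow_le_rpow hlog1.le _ (by linarith)
          exact Real.log_le_log (by linarith) hs1X
        have h3 : Y ≤ X * Real.log X ^ K := by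
          rw [hY]
          exact mul_le_mul hs1X h2 hlogK.le hXpos.le
        exact lt_of_le_of_lt (mul_le_mul_of_nonneg_right h3 (by linarith)) a4
      have hfd : gf C (2 * v) ≤ gf C v := by
        refine force_of_decay (θ := 1 / (2 * Y)) hδ ⌈Y⌉₊ ?_ (by linarith) ?_
        · intro t ht
          have h2 : Y ≤ t := (Nat.le_ceil Y).trans (by exact_mod_cast ht)
          have h3 := hdec t h2
          have h4 : (1 / (2 * Y)) * (t : ℝ) = (t : ℝ) / (2 * Y) := by ring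
          rw [h4]
          exact h3
        · rw [lt_div_iff₀ (by positivity)]
          linarith
      have h2 := gf_mul (C := C) hv.le (show (1 : ℝ) ≤ 2 by norm_num)
      linarith
    have h3 := tall_ge hpair s1
    refine le_trans ?_ h3
    rw [mul_comm]
    apply mul_le_mul_of_nonneg_left _ hTot0
    have h4 : v ^ ε ≤ v ^ ((1 - ε) * ε) / 2 := by
      have h5 : v ^ ε = v ^ ((1 - ε) * ε) * v ^ (ε * ε) := by
        rw [← Real.rpow_add hv]
        congr 1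
        ring
      rw [h5]
      have := mul_le_mul_of_nonneg_left a2 hηpos.le
      linarith
    refine h4.trans ?_
    rw [le_div_iff₀ (by linarith)]
    nlinarith [mul_le_mul_of_nonneg_right hη1 (hηpos.le.trans hy)]

end SawNu.SF
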