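import Pool.Agent.SawF.PropP
import Pool.Agent.SawF.CombA

/-!
SAWF T2: lower bound for the total weight.
-/

set_option autoImplicit false

open Classical Filter

namespace SawNu.SF

open SawNu.SB SawNu.SBR Pool.Agent.Lib.SAW.HW Pool.Agent.SawBr38

variable {C : CL} {L : RLat}

/-- the scales used -/
lemma CombC_large (a K1 : ℝ) (ha : 0 < a) (B : ℝ) : ∃ x1 : ℝ, 1 ≤ x1 ∧ ∀ x : ℝ, x1 ≤ x →
    B ≤ x ∧ 2 ≤ x ^ a ∧ 8 * (Real.log x) ^ K1 < x ^ a := by
  have h1 : ∀ᶠ x : ℝ in atTop, 8 * (Real.log x) ^ K1 < x ^ a := by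
    have h := isLittleO_log_rpow_rpow_atTop K1 ha
    have h2 := h.def (show (0 : ℝ) < 1 / 16 by norm_num)
    filter_upwards [h2, eventually_gt_atTop 1] with x hx hx1
    have hlog : 0 < Real.log x := Real.log_pos hx1
    rw [Real.norm_of_nonneg (Real.rpow_nonneg hlog.le _),
      Real.norm_of_nonneg (Real.rpow_nonneg (by linarith) _)] at hx
    have : 0 < x ^ a := Real.rpow_pos_of_pos (by linarith) _
    linarith
  have h2 : ∀ᶠ x : ℝ in atTop, 2 ≤ x ^ a := (tendsto_rpow_atTop ha).eventually_ge_atTop 2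
  obtain ⟨x1, hx1⟩ := ((h1.and h2).and (eventually_ge_atTop B)).exists_forall_of_atTop
  exact ⟨max x1 1, le_max_right _ _, fun x hx => by
    obtain ⟨⟨h3, h4⟩, h5⟩ := hx1 x (le_trans (le_max_left _ _) hx)
    exact ⟨h5, h4, h3⟩⟩

/-- T2: lower bound for the total weight -/
theorem Us_le_tot (hM : Mirrored L) (hup : ∀ b, ∃ u ∈ L.S b, u.2 = 1)
    (hS : ∀ b, L.S b = C.S) (R : Rot L) {ε : ℝ} (hε : 0 < ε) :
    ∃ K : ℝ, 0 < K ∧ ∀ v : ℝ, 0 < v → v ≤ 1 →
      v ^ ε * Us (aR C 0) ⌊1 / v⌋₊ ≤ K * Tot (aR C (gf C v)) := by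
  obtain ⟨a, ha0, ha1, h4a⟩ : ∃ a : ℝ, 0 < a ∧ a ≤ 1 / 4 ∧ a * 4 ≤ ε := by
    refine ⟨min ε 1 / 4, ?_, ?_, ?_⟩
    · have := lt_min hε one_pos
      linarith
    · have := min_le_right ε 1
      linarith
    · have := min_le_left ε 1
      linarith
  obtain ⟨K1, s0, hK1, hs0, hP⟩ := propP L hS (2 * a) 6 (by linarith) (by norm_num)
  obtain ⟨v0, hv0, hv01, hpoly⟩ := gf_poly hM hup hS R
  obtain ⟨x1, hx1, hlarge⟩ := CombC_large a K1 ha0 (max (1 / v0) ((s0 : ℝ) ^ 2))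
  refine ⟨x1 + 6, by linarith, fun v hv hv1 => ?_⟩
  have hg : 0 < gf C v := gf_pos hM hup hS R hv
  have hR : Ren (iR C 0) (aR C 0) := ren (le_refl (0 : ℝ))
  have hRs : ∀ N, ∑ j ∈ Finset.Icc 1 N, iR C 0 j ≤ 1 := iR_sum_le
  have hT1 : 1 ≤ Tot (aR C (gf C v)) := (pair hg).one_le_Tot
  have hU0 : ∀ k, 0 < Us (aR C 0) k := fun k => lt_of_lt_of_le one_pos (hR.one_le_Us k)
  by_cases hx : 1 / v < x1
  · have h1 : Us (aR C 0) ⌊1 / v⌋₊ ≤ (⌊1 / v⌋₊ : ℝ) + 1 := by
      unfold Us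
      calc ∑ j ∈ Finset.range (⌊1 / v⌋₊ + 1), aR C 0 j
          ≤ ∑ _j ∈ Finset.range (⌊1 / v⌋₊ + 1), (1 : ℝ) :=
            Finset.sum_le_sum fun j _ => hR.a_le_one hRs j
        _ = (⌊1 / v⌋₊ : ℝ) + 1 := by simp
    have h2 : (⌊1 / v⌋₊ : ℝ) ≤ 1 / v := Nat.floor_le (by positivity)
    have h3 : v ^ ε ≤ 1 := Real.rpow_le_one hv.le hv1 hε.le
    have h4 := (hU0 ⌊1 / v⌋₊).le
    calc v ^ ε * Us (aR C 0) ⌊1 / v⌋₊ ≤ 1 * Us (aR C 0) ⌊1 / v⌋₊ := by gcongr
      _ ≤ (x1 + 6) * 1 := by linarith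
      _ ≤ (x1 + 6) * Tot (aR C (gf C v)) := by gcongr
  · rw [not_lt] at hx
    by_contra hcon
    rw [not_le] at hcon
    obtain ⟨x, hxdef⟩ : ∃ x : ℝ, x = 1 / v := ⟨_, rfl⟩
    have hvx : v = x⁻¹ := by rw [hxdef, one_div, inv_inv]
    rw [← hxdef] at hx hcon
    obtain ⟨hB, hxa, hlog⟩ := hlarge x hx
    have hx1' : 1 ≤ x := hx1.trans hx
    have hx0 : 0 < x := lt_of_lt_of_le one_pos hx1'
    have hvv0 : v ≤ v0 := by
      have h1 : 1 / v0 ≤ 1 / v := by rw [← hxdef]; exact (le_max_left _ _).trans hB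
      exact (one_div_le_one_div hv0 hv).1 h1
    have hs0x : (s0 : ℝ) ^ 2 ≤ x := (le_max_right _ _).trans hB
    -- the powers
    set A : ℝ := x ^ a with hA
    have hA0 : 0 < A := by linarith
    set X : ℝ := x ^ (1 - a) with hX
    have hXA : X * A = x := by
      rw [hX, hA, ← Real.rpow_add hx0, sub_add_cancel, Real.rpow_one]
    have hX1 : 1 ≤ X := Real.one_le_rpow hx1' (by linarith)
    obtain ⟨s, hsdef⟩ : ∃ s : ℕ, s = ⌈X⌉₊ := ⟨_, rfl⟩
    have hs_ge : X ≤ s := by rw [hsdef]; exact Nat.le_ceil _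
    have hs_lt : (s : ℝ) < X + 1 := by rw [hsdef]; exact Nat.ceil_lt_add_one (by linarith)
    have hs_le : (s : ℝ) ≤ 2 * X := by linarith
    have hs_x : (s : ℝ) ≤ x := by
      have h1 : X * 2 ≤ X * A := mul_le_mul_of_nonneg_left hxa (by linarith)
      linarith
    have hr : x ^ (1 / 2 : ℝ) ≤ X := Real.rpow_le_rpow_of_exponent_le hx1' (by linarith)
    have hrr : x ^ (1 / 2 : ℝ) ^ 1 * x ^ (1 / 2 : ℝ) = x := by
      rw [pow_one, ← Real.rpow_add hx0]
      norm_num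
    rw [pow_one] at hrr
    set r : ℝ := x ^ (1 / 2 : ℝ) with hrdef
    have hr0 : 0 ≤ r := Real.rpow_nonneg hx0.le _
    have hrs : r ≤ s := hr.trans hs_ge
    have hs0s : s0 ≤ s := by
      have h1 : (s0 : ℝ) ≤ r := by
        by_contra h2
        rw [not_le] at h2
        nlinarith
      exact_mod_cast h1.trans hrs
    have hs2 : 2 ≤ s := hs0.trans hs0s
    have hs2' : (2 : ℝ) ≤ s := by exact_mod_cast hs2
    have hspos : (0 : ℝ) < s := by linarith
    -- the tilt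
    have hδ1 : gf C v ≤ 1 := (gf_le hv.le).trans hv1
    have hδ2 : (s : ℝ) ^ (-(6 : ℝ)) ≤ gf C v := by
      refine le_trans ?_ (hpoly v hv hvv0)
      have h1 : (s : ℝ) ^ (-(6 : ℝ)) = ((s : ℝ) ^ (6 : ℕ))⁻¹ := by
        rw [Real.rpow_neg hspos.le]
        congr 1
        exact_mod_cast Real.rpow_natCast (s : ℝ) 6
      have h2 : x ^ 3 ≤ (s : ℝ) ^ (6 : ℕ) := by
        calc x ^ 3 = r ^ 6 := by rw [← hrr]; ring
          _ ≤ (s : ℝ) ^ (6 : ℕ) := pow_le_pow_left₀ hr0 hrs 6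
      rw [h1, hvx, inv_pow]
      exact inv_anti₀ (by positivity) h2
    -- U(x) against U(s)
    have hgrow : Us (aR C 0) ⌊x⌋₊ ≤ 2 * A * Us (aR C 0) s := by
      have h1 := hR.Us_growth hRs (k := s) (l := ⌊x⌋₊) (by omega)
      have h2 : (⌊x⌋₊ : ℝ) / s ≤ A := by
        rw [div_le_iff₀ hspos]
        calc (⌊x⌋₊ : ℝ) ≤ x := Nat.floor_le hx0.le
          _ = A * X := by rw [mul_comm]; exact hXA.symm
          _ ≤ A * s := mul_le_mul_of_nonneg_left hs_ge hA0.le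
      refine h1.trans (mul_le_mul_of_nonneg_right ?_ (hU0 s).le)
      linarith
    have hvε : v ^ ε ≤ (A ^ 4)⁻¹ := by
      have h1 : v ^ ε ≤ v ^ (a * 4) := Real.rpow_le_rpow_of_exponent_ge hv hv1 h4a
      refine h1.trans (le_of_eq ?_)
      rw [hvx, Real.inv_rpow hx0.le, Real.rpow_mul hx0.le]
      congr 1
      exact_mod_cast Real.rpow_natCast (x ^ a) 4
    have hkey : 3 * A ^ 3 * Tot (aR C (gf C v)) < Us (aR C 0) s := by
      have h1 : 6 * Tot (aR C (gf C v)) < (A ^ 4)⁻¹ * (2 * A * Us (aR C 0) s) := by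
        calc 6 * Tot (aR C (gf C v)) ≤ (x1 + 6) * Tot (aR C (gf C v)) := by
              apply mul_le_mul_of_nonneg_right <;> linarith
          _ < v ^ ε * Us (aR C 0) ⌊x⌋₊ := hcon
          _ ≤ (A ^ 4)⁻¹ * (2 * A * Us (aR C 0) s) := by
              apply mul_le_mul hvε hgrow (hU0 _).le
              positivity
      have h2 : (A ^ 4)⁻¹ * (2 * A * Us (aR C 0) s) = 2 * Us (aR C 0) s / A ^ 3 := by
        field_simp
      rw [h2, lt_div_iff₀ (by positivity)] at h1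
      linarith
    have hA3 : 1 ≤ A ^ 3 := one_le_pow₀ (by linarith)
    have hyp1 : Tot (aR C (gf C v)) ≤ 5 * Us (aR C 0) s := by
      have h1 : Tot (aR C (gf C v)) ≤ 3 * A ^ 3 * Tot (aR C (gf C v)) := by nlinarith
      linarith [hU0 s]
    have hy0 : 0 ≤ ySF (iR C (gf C v)) (aR C (gf C v)) s :=
      mul_nonneg (by linarith) ((pair hg).big_nn s)
    have hyp2 : ySF (iR C (gf C v)) (aR C (gf C v)) s ≤ (s : ℝ) ^ (-(2 * a)) := by
      have h1 := y_start (pair (C := C) hg) (s := s) (by omega)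
      have h2 := hR.Us_growth hRs (k := s - 1) (l := s) (by omega)
      have hc : ((s - 1 : ℕ) : ℝ) = (s : ℝ) - 1 := by
        rw [Nat.cast_sub (by omega), Nat.cast_one]
      have h3 : (s : ℝ) / ((s - 1 : ℕ) : ℝ) + 1 ≤ 3 := by
        rw [hc]
        have h4 : (s : ℝ) / ((s : ℝ) - 1) ≤ 2 := by
          rw [div_le_iff₀ (by linarith)]
          linarith
        linarith
      have h4 : Us (aR C 0) s ≤ 3 * Us (aR C 0) (s - 1) :=
        h2.trans (mul_le_mul_of_nonneg_right h3 (hU0 _).le)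
      have h5 : ySF (iR C (gf C v)) (aR C (gf C v)) s * Us (aR C 0) s ≤ 3 * Tot (aR C (gf C v)) := by
        calc ySF (iR C (gf C v)) (aR C (gf C v)) s * Us (aR C 0) s
            ≤ ySF (iR C (gf C v)) (aR C (gf C v)) s * (3 * Us (aR C 0) (s - 1)) :=
              mul_le_mul_of_nonneg_left h4 hy0
          _ = 3 * (ySF (iR C (gf C v)) (aR C (gf C v)) s * Us (aR C 0) (s - 1)) := by ring
          _ ≤ 3 * Tot (aR C (gf C v)) := by linarith
      have h6 : ySF (iR C (gf C v)) (aR C (gf C v)) s * A ^ 3 ≤ 1 := by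
        by_contra h7
        rw [not_le] at h7
        have h8 : ySF (iR C (gf C v)) (aR C (gf C v)) s * A ^ 3 * Us (aR C 0) s ≤
            Us (aR C 0) s := by
          calc ySF (iR C (gf C v)) (aR C (gf C v)) s * A ^ 3 * Us (aR C 0) s
              = A ^ 3 * (ySF (iR C (gf C v)) (aR C (gf C v)) s * Us (aR C 0) s) := by ring
            _ ≤ A ^ 3 * (3 * Tot (aR C (gf C v))) := mul_le_mul_of_nonneg_left h5 (by positivity)
            _ ≤ Us (aR C 0) s := by linarith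
        nlinarith [hU0 s]
      have h7 : ySF (iR C (gf C v)) (aR C (gf C v)) s ≤ (A ^ 2)⁻¹ := by
        rw [← one_div, le_div_iff₀ (by positivity)]
        refine le_trans (mul_le_mul_of_nonneg_left ?_ hy0) h6
        exact pow_le_pow_right₀ (by linarith) (by norm_num)
      refine h7.trans ?_
      have h8 : (A ^ 2)⁻¹ = x ^ (-(2 * a)) := by
        rw [Real.rpow_neg hx0.le, mul_comm, Real.rpow_mul hx0.le]
        congr 1
        exact_mod_cast (Real.rpow_natCast (x ^ a) 2).symm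
      rw [h8]
      exact Real.rpow_le_rpow_of_nonpos hspos hs_x (by linarith)
    have hdec := hP s hs0s (gf C v) hδ2 hδ1 hyp1 hyp2
    -- the contradiction
    have hlogs : 0 < Real.log s := Real.log_pos (by linarith)
    have hD : 0 < (s : ℝ) * (Real.log s) ^ K1 := mul_pos hspos (Real.rpow_pos_of_pos hlogs _)
    have hlt : 2 * v < 1 / (2 * ((s : ℝ) * (Real.log s) ^ K1)) := by
      rw [lt_div_iff₀ (by linarith)]
      have h1 : (Real.log s) ^ K1 ≤ (Real.log x) ^ K1 :=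
        Real.rpow_le_rpow hlogs.le (Real.log_le_log hspos hs_x) (by linarith)
      have h2 : (s : ℝ) * (Real.log s) ^ K1 ≤ 2 * X * (Real.log x) ^ K1 :=
        mul_le_mul hs_le h1 (Real.rpow_nonneg hlogs.le _) (by linarith)
      have h3 : v * X * A = 1 := by
        rw [mul_assoc, hXA, hvx, inv_mul_cancel₀ hx0.ne']
      have hvX : 0 < v * X := mul_pos hv (by linarith)
      calc 2 * v * (2 * ((s : ℝ) * (Real.log s) ^ K1)) = 4 * v * ((s : ℝ) * (Real.log s) ^ K1) := by ring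
        _ ≤ 4 * v * (2 * X * (Real.log x) ^ K1) := mul_le_mul_of_nonneg_left h2 (by linarith)
        _ = v * X * (8 * (Real.log x) ^ K1) := by ring
        _ < v * X * A := mul_lt_mul_of_pos_left hlog hvX
        _ = 1 := h3
    have h5 := force_of_decay (C := C) hg ⌈(s : ℝ) * (Real.log s) ^ K1⌉₊
      (θ := 1 / (2 * ((s : ℝ) * (Real.log s) ^ K1))) (fun t ht => ?_) (v := 2 * v) (by linarith) hlt
    · have h6 := gf_mul (C := C) hv.le (one_le_two (α := ℝ))
      linarith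
    · have h7 := hdec t ((Nat.le_ceil _).trans (by exact_mod_cast ht))
      refine h7.trans (le_of_eq ?_)
      congr 1
      rw [one_div, div_eq_inv_mul]

end SawNu.SF
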