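import Pool.Agent.SawF.Mass

/-!
SAWF M3: the free energy as a limit.
-/

set_option autoImplicit false

open Classical Filter

namespace SawNu.SF

open SawNu.SB Pool.Agent.Lib.SAW.HW Pool.Agent.SawBr38

variable {C : CL} {L : RLat}

/-- the growth rate of the partition function of all walks -/
lemma MassC_tendsto_Zw {v : ℝ} (hv : 0 ≤ v) :
    Tendsto (fun n : ℕ => Real.log (Zw C 0 v n) / n) atTop (nhds (G C 0 v)) := by
  rw [Metric.tendsto_atTop]
  intro ε hε
  obtain ⟨N, hN⟩ := eventually_small (G C 0 v + v) (half_pos hε)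
  refine ⟨N + 1, fun n hn => ?_⟩
  have hn0 : (0 : ℝ) < n := by
    have : 0 < n := by omega
    exact_mod_cast this
  have hZpos : 0 < Zw C 0 v n := (Zb_pos 0 v n).trans_le (Zb_le_Zw 0 v n)
  have h1 : G C 0 v * n ≤ Real.log (Zw C 0 v n) := by
    rw [Real.le_log_iff_exp_le hZpos]
    exact exp_G_le_Zw' 0 v n
  have h2 : Real.log (Zw C 0 v n) ≤
      Real.log (n + 1) + (G C 0 v * (n + 1) + 2 * |(0:ℝ)| + v + 4 * Real.sqrt (n + 1)) := by
    have h3 := Real.log_le_log hZpos (Zw_le (C := C) 0 v hv n)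
    rwa [Real.log_mul (by positivity) (Real.exp_pos _).ne', Real.log_exp] at h3
  have h4 := hN n (by omega)
  rw [abs_zero, mul_zero] at h2
  rw [Real.dist_eq, abs_lt]
  constructor
  · rw [lt_sub_iff_add_lt, lt_div_iff₀ hn0]
    nlinarith
  · rw [sub_lt_iff_lt_add, div_lt_iff₀ hn0]
    nlinarith

/-- the free energy is the limit of `1/n log <exp(v ht)>` -/
theorem gf_lim {v : ℝ} (hv : 0 ≤ v) :
    Tendsto (fun n : ℕ => Real.log (Zw C 0 v n / ((sas C n).card : ℝ)) / n) atTop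
      (nhds (gf C v)) := by
  have h1 := (MassC_tendsto_Zw (C := C) hv).sub (MassC_tendsto_Zw (C := C) (le_refl (0:ℝ)))
  refine h1.congr ?_
  intro n
  have hZpos : 0 < Zw C 0 v n := (Zb_pos 0 v n).trans_le (Zb_le_Zw 0 v n)
  have hZpos0 : 0 < Zw C 0 0 n := (Zb_pos 0 0 n).trans_le (Zb_le_Zw 0 0 n)
  rw [← Zw_zero_zero, Real.log_div hZpos.ne' hZpos0.ne']
  ring

end SawNu.SF
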