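import Pool.Agent.SawF.MassB
import Pool.Agent.SawF.MassC

/-!
SAWF CorA: bridges with a vertical displacement.
-/

set_option autoImplicit false

open Classical Filter
open scoped ENNReal

namespace SawNu.SF

open SawNu.SB Pool.Agent.Lib.SAW.HW Pool.Agent.SawBr38

variable {C : CL} {δ : ℝ}

/-- bridges with the displacement `(x, t)` -/
noncomputable def AX (C : CL) (δ : ℝ) (x : ℤ) (t : ℕ) : ℝ≥0∞ :=
  W C δ (fun l => Brc C l ∧ l.sum = (x, (t : ℤ)))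

namespace CorA

lemma AX_le_AE (x : ℤ) (t : ℕ) : AX C δ x t ≤ AE C δ t :=
  W_mono fun l h => ⟨h.1, by rw [ht, h.2]⟩

lemma AX_ne_top (hδ : 0 ≤ δ) (x : ℤ) (t : ℕ) : AX C δ x t ≠ ⊤ :=
  ne_top_of_le_ne_top (MassB.AE_ne_top hδ t) (AX_le_AE x t)

lemma wx_tau (l : List Pt) : wx C δ (l.map tauH) = wx C δ l := by
  rw [wx, wx, List.length_map]

lemma app_inj {a b a' b' : List Pt} (ha : Brc C a) (hb : Brc C b) (ha' : Brc C a')
    (hb' : Brc C b') (h : a ++ b = a' ++ b') (hh : a.sum.2 = a'.sum.2) : a = a' ∧ b = b' := by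
  have c1 := cut_junction ha hb
  have c2 := cut_junction ha' hb'
  rw [← h] at c2
  have h1 : a.length = a'.length := by
    apply SawNu.SB.CutT.unique c1 c2
    have e1 : ps (a ++ b) a.length = a.sum := by rw [ps]; simp
    have e2 : ps (a ++ b) a'.length = a'.sum := by rw [h, ps]; simp
    rw [e1, e2, hh]
  exact List.append_inj h h1

/-- supermultiplicativity -/
lemma AX_mul (s t : ℕ) : AX C δ 0 s * AX C δ 0 t ≤ AX C δ 0 (s + t) := by
  rw [AX, AX, W_mul]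
  refine tsum_le_W (fun x : {l : List Pt // Brc C l ∧ l.sum = (0, (s : ℤ))} ×
    {l : List Pt // Brc C l ∧ l.sum = (0, (t : ℤ))} => x.1.1 ++ x.2.1) ?_ ?_
  · rintro ⟨⟨a, ha1, ha2⟩, ⟨b, hb1, hb2⟩⟩ ⟨⟨a', ha1', ha2'⟩, ⟨b', hb1', hb2'⟩⟩ h
    obtain ⟨rfl, rfl⟩ := app_inj ha1 hb1 ha1' hb1' h (by rw [ha2, ha2'])
    rfl
  · rintro ⟨⟨a, ha1, ha2⟩, ⟨b, hb1, hb2⟩⟩
    refine ⟨ha1.append hb1, ?_⟩
    simp only [List.sum_append]
    rw [ha2, hb2]
    simp

/-- a bridge followed by the mirror image of another one with the same displacement -/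
lemma AX_sq (x : ℤ) (t : ℕ) : AX C δ x t * AX C δ x t ≤ AX C δ 0 (2 * t) := by
  rw [AX, W_mul]
  have h1 : ∀ z : {l : List Pt // Brc C l ∧ l.sum = (x, (t : ℤ))} ×
      {l : List Pt // Brc C l ∧ l.sum = (x, (t : ℤ))},
      wx C δ (z.1.1 ++ z.2.1) = wx C δ (z.1.1 ++ z.2.1.map tauH) := by
    intro z
    rw [wx, wx]
    simp
  rw [tsum_congr h1]
  refine tsum_le_W (fun z : {l : List Pt // Brc C l ∧ l.sum = (x, (t : ℤ))} ×
    {l : List Pt // Brc C l ∧ l.sum = (x, (t : ℤ))} => z.1.1 ++ z.2.1.map tauH) ?_ ?_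
  · rintro ⟨⟨a, ha1, ha2⟩, ⟨b, hb1, hb2⟩⟩ ⟨⟨a', ha1', ha2'⟩, ⟨b', hb1', hb2'⟩⟩ h
    obtain ⟨rfl, h2⟩ := app_inj ha1 hb1.tau ha1' hb1'.tau h (by rw [ha2, ha2'])
    have h3 : b = b' := List.map_injective_iff.mpr (fun _ _ => tauH_inj) h2
    subst h3
    rfl
  · rintro ⟨⟨a, ha1, ha2⟩, ⟨b, hb1, hb2⟩⟩
    refine ⟨ha1.append hb1.tau, ?_⟩
    simp only [List.sum_append]
    rw [sum_map_hom, ha2, hb2]
    ext
    · simp [tauH_fst]
    · simp [tauH_snd]
      ring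

/-- long bridges of a given height -/
lemma W_long (hδ : 0 ≤ δ) (t m : ℕ) :
    W C δ (fun l => (Brc C l ∧ ht l = (t : ℤ)) ∧ (m : ℤ) < |tr l|) ≤
      ENNReal.ofReal (Real.exp (-(δ * (m / 2)))) := by
  have h1 : W C δ (fun l => (Brc C l ∧ ht l = (t : ℤ)) ∧ (m : ℤ) < |tr l|) ≤
      W C 0 (fun l => (Brc C l ∧ ht l = (t : ℤ)) ∧ (m : ℤ) < |tr l|) *
        ENNReal.ofReal (Real.exp (-(δ * (m / 2)))) := by
    refine D2aux.W_mul_const_le ?_
    rintro l ⟨⟨h1, h2⟩, h3⟩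
    rw [D2aux.wx_mul_exp]
    refine mul_le_mul_right (ENNReal.ofReal_le_ofReal (Real.exp_le_exp.2 ?_)) _
    have h4 := tr_abs_le h1.wd
    have h5 : (m : ℤ) < 2 * l.length := lt_of_lt_of_le h3 h4
    have h6 : (m : ℝ) / 2 ≤ l.length := by
      have h7 : (m : ℝ) < 2 * l.length := by exact_mod_cast h5
      linarith
    have h8 := mul_le_mul_of_nonneg_left h6 hδ
    linarith
  refine h1.trans ?_
  calc _ ≤ 1 * ENNReal.ofReal (Real.exp (-(δ * (m / 2)))) := by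
        refine mul_le_mul_left ?_ _
        exact (W_mono fun l h => h.1).trans (D2aux.AE_zero_le t)
    _ = _ := one_mul _

/-- the sum over the horizontal displacement -/
lemma AE_le_sum (hδ : 0 ≤ δ) (t m : ℕ) : AE C δ t ≤
    ∑ x ∈ Finset.Icc (-(m : ℤ)) m, AX C δ x t + ENNReal.ofReal (Real.exp (-(δ * (m / 2)))) := by
  have h1 : AE C δ t ≤ W C δ (fun l => (Brc C l ∧ ht l = (t : ℤ)) ∧ |tr l| ≤ (m : ℤ)) +
      W C δ (fun l => (Brc C l ∧ ht l = (t : ℤ)) ∧ (m : ℤ) < |tr l|) := by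
    refine le_trans (W_mono fun l h => ?_) W_or
    rcases le_or_gt |tr l| (m : ℤ) with h2 | h2
    · exact Or.inl ⟨h, h2⟩
    · exact Or.inr ⟨h, h2⟩
  refine h1.trans (add_le_add ?_ (W_long hδ t m))
  simp only [AX, D2aux.W_ind]
  rw [← Summable.tsum_finsetSum (fun _ _ => ENNReal.summable)]
  refine ENNReal.tsum_le_tsum fun l => ?_
  split_ifs with hl
  · obtain ⟨⟨h2, h3⟩, h4⟩ := hl
    rw [Finset.sum_eq_single (tr l)]
    · rw [if_pos ⟨h2, by rw [← h3]⟩]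
    · intro x _ hx
      rw [if_neg]
      rintro ⟨_, h6⟩
      exact hx (by rw [tr, h6])
    · intro h5
      rw [Finset.mem_Icc] at h5
      rw [abs_le] at h4
      exact absurd h4 h5
  · exact zero_le

lemma aR_le_sum (hδ : 0 ≤ δ) (t m : ℕ) : aR C δ t ≤
    ∑ x ∈ Finset.Icc (-(m : ℤ)) m, (AX C δ x t).toReal + Real.exp (-(δ * (m / 2))) := by
  have h1 := AE_le_sum (C := C) hδ t m
  have h2 : ∑ x ∈ Finset.Icc (-(m : ℤ)) m, AX C δ x t ≠ ⊤ := by
    rw [ENNReal.sum_ne_top]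
    exact fun x _ => AX_ne_top hδ x t
  have h3 := ENNReal.toReal_mono (ENNReal.add_ne_top.2 ⟨h2, ENNReal.ofReal_ne_top⟩) h1
  rw [ENNReal.toReal_add h2 ENNReal.ofReal_ne_top, ENNReal.toReal_sum (fun x _ => AX_ne_top hδ x t),
    ENNReal.toReal_ofReal (Real.exp_pos _).le] at h3
  exact h3

lemma aX_sq (hδ : 0 ≤ δ) (x : ℤ) (t : ℕ) :
    (AX C δ x t).toReal ^ 2 ≤ (AX C δ 0 (2 * t)).toReal := by
  have h := ENNReal.toReal_mono (AX_ne_top hδ _ _) (AX_sq (C := C) (δ := δ) x t)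
  rwa [ENNReal.toReal_mul, ← sq] at h

lemma aX_mul (hδ : 0 ≤ δ) (s t : ℕ) :
    (AX C δ 0 s).toReal * (AX C δ 0 t).toReal ≤ (AX C δ 0 (s + t)).toReal := by
  have h := ENNReal.toReal_mono (AX_ne_top hδ _ _) (AX_mul (C := C) (δ := δ) s t)
  rwa [ENNReal.toReal_mul] at h

lemma aX_le_one (hδ : 0 ≤ δ) (x : ℤ) (t : ℕ) : (AX C δ x t).toReal ≤ 1 := by
  have := ENNReal.toReal_mono ENNReal.one_ne_top
    ((AX_le_AE (C := C) x t).trans (AE_le_one (C := C) hδ t))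
  simpa using this

/-- the weight of the bridges with a vertical displacement, from the weight of all bridges -/
lemma aX_lower (hδ : 0 < δ) {θ : ℝ} {t m : ℕ}
    (hm : 2 * (θ * t + 1) ≤ δ * m) (h : Real.exp (-(θ * t)) ≤ aR C δ t) :
    Real.exp (-(2 * (θ * t))) / (16 * (m + 1) ^ 2) ≤ (AX C δ 0 (2 * t)).toReal := by
  set y : ℝ := Real.sqrt (AX C δ 0 (2 * t)).toReal with hy
  have hy0 : 0 ≤ y := Real.sqrt_nonneg _
  have hy2 : y ^ 2 = (AX C δ 0 (2 * t)).toReal := Real.sq_sqrt ENNReal.toReal_nonneg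
  have h1 : ∀ x : ℤ, (AX C δ x t).toReal ≤ y := by
    intro x
    rw [hy]
    apply Real.le_sqrt_of_sq_le
    exact aX_sq hδ.le x t
  have h2 := aR_le_sum (C := C) hδ.le t m
  have h3 : ∑ x ∈ Finset.Icc (-(m : ℤ)) m, (AX C δ x t).toReal ≤ (2 * m + 1) * y := by
    calc ∑ x ∈ Finset.Icc (-(m : ℤ)) m, (AX C δ x t).toReal
        ≤ ∑ _x ∈ Finset.Icc (-(m : ℤ)) m, y := Finset.sum_le_sum fun x _ => h1 x
      _ = (2 * m + 1) * y := by
          rw [Finset.sum_const, Int.card_Icc, nsmul_eq_mul]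
          congr 1
          have h4 : ((m : ℤ) + 1 - -(m : ℤ)).toNat = 2 * m + 1 := by omega
          rw [h4]
          push_cast
          ring
  have h4 : Real.exp (-(δ * (m / 2))) ≤ Real.exp (-(θ * t)) / 2 := by
    have h5 : Real.exp (-(δ * (m / 2))) ≤ Real.exp (-(θ * t) - 1) := by
      apply Real.exp_le_exp.2
      linarith
    have h6 : Real.exp (-(θ * t) - 1) = Real.exp (-(θ * t)) / Real.exp 1 := Real.exp_sub _ _
    have h7 : (2 : ℝ) ≤ Real.exp 1 := by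
      have := Real.add_one_le_exp (1 : ℝ)
      linarith
    rw [h6] at h5
    exact h5.trans (div_le_div_of_nonneg_left (Real.exp_pos _).le (by norm_num) h7)
  have hm0 : (0 : ℝ) ≤ m := Nat.cast_nonneg m
  have h5 : Real.exp (-(θ * t)) ≤ 4 * (m + 1) * y := by
    have : (2 * (m : ℝ) + 1) * y ≤ 2 * (m + 1) * y := mul_le_mul_of_nonneg_right (by linarith) hy0
    linarith
  have h6 := pow_le_pow_left₀ (Real.exp_pos _).le h5 2
  rw [mul_pow, hy2] at h6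
  have h7 : Real.exp (-(θ * t)) ^ 2 = Real.exp (-(2 * (θ * t))) := by
    rw [← Real.exp_nat_mul]
    congr 1
    push_cast
    ring
  rw [h7] at h6
  rw [div_le_iff₀ (by positivity)]
  calc Real.exp (-(2 * (θ * t))) ≤ (4 * (m + 1)) ^ 2 * (AX C δ 0 (2 * t)).toReal := h6
    _ = _ := by ring

end CorA

end SawNu.SF
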