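import Pool.Agent.SawF.CorA

/-!
SAWF CorB: the correlation length.
-/

set_option autoImplicit false

open Classical Filter Topology
open scoped ENNReal

namespace SawNu.SF

open SawNu.SB Pool.Agent.Lib.SAW.HW Pool.Agent.SawBr38

variable {C : CL} {δ : ℝ}

namespace CorB

open CorA

/-- a short vertical bridge -/
structure Vert (C : CL) (q p : ℕ) : Prop where
  qp : q * p = 2
  ex : ∃ w : List Pt, Brc C w ∧ w.sum = (0, (q : ℤ))

lemma Vert.q_pos {q p : ℕ} (h : Vert C q p) : 0 < q := by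
  rcases Nat.eq_zero_or_pos q with h1 | h1
  · have := h.qp
    rw [h1] at this
    omega
  · exact h1

lemma Vert.p_pos {q p : ℕ} (h : Vert C q p) : 0 < p := by
  rcases Nat.eq_zero_or_pos p with h1 | h1
  · have := h.qp
    rw [h1] at this
    omega
  · exact h1

lemma aX_q_pos {q p : ℕ} (h : Vert C q p) (hδ : 0 ≤ δ) : 0 < (AX C δ 0 q).toReal := by
  obtain ⟨w, hw1, hw2⟩ := h.ex
  refine ENNReal.toReal_pos ?_ (AX_ne_top hδ _ _)
  have h1 : wx C δ w ≤ AX C δ 0 q := by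
    rw [AX, W]
    exact ENNReal.le_tsum (f := fun l : {l : List Pt // Brc C l ∧ l.sum = (0, (q : ℤ))} =>
      wx C δ l.1) ⟨w, hw1, hw2⟩
  exact ne_of_gt (lt_of_lt_of_le (wx_pos w) h1)

lemma aX_pos {q p : ℕ} (h : Vert C q p) (hδ : 0 ≤ δ) (T : ℕ) :
    0 < (AX C δ 0 (q * T)).toReal := by
  induction T with
  | zero =>
    have h1 : wx C δ [] ≤ AX C δ 0 (q * 0) := by
      rw [AX, W]
      exact ENNReal.le_tsum (f := fun l : {l : List Pt // Brc C l ∧ l.sum = (0, ((q * 0 : ℕ) : ℤ))} =>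
        wx C δ l.1) ⟨[], Brc.nil, by simp; rfl⟩
    refine ENNReal.toReal_pos ?_ (AX_ne_top hδ _ _)
    exact ne_of_gt (lt_of_lt_of_le (wx_pos _) h1)
  | succ T ih =>
    have h1 := aX_mul (C := C) hδ (q * T) q
    rw [Nat.mul_succ]
    exact lt_of_lt_of_le (mul_pos ih (aX_q_pos h hδ)) h1

/-- minus the logarithm of the weight of the vertical bridges -/
noncomputable def uu (C : CL) (δ : ℝ) (q T : ℕ) : ℝ := -Real.log (AX C δ 0 (q * T)).toReal

lemma uu_nonneg (hδ : 0 ≤ δ) (q T : ℕ) : 0 ≤ uu C δ q T := by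
  rw [uu, neg_nonneg]
  exact Real.log_nonpos ENNReal.toReal_nonneg (aX_le_one hδ _ _)

lemma uu_sub {q p : ℕ} (h : Vert C q p) (hδ : 0 ≤ δ) : Subadditive (uu C δ q) := by
  intro m n
  have h1 := aX_mul (C := C) hδ (q * m) (q * n)
  have h2 := Real.log_le_log (mul_pos (aX_pos h hδ m) (aX_pos h hδ n)) h1
  rw [Real.log_mul (aX_pos h hδ m).ne' (aX_pos h hδ n).ne'] at h2
  rw [uu, uu, uu, Nat.mul_add]
  linarith

lemma uu_bdd (hδ : 0 ≤ δ) (q : ℕ) : BddBelow (Set.range fun n => uu C δ q n / n) := by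
  refine ⟨0, ?_⟩
  rintro _ ⟨n, rfl⟩
  exact div_nonneg (uu_nonneg hδ q n) (Nat.cast_nonneg _)

lemma poly_exp {A η : ℝ} (hη : 0 < η) : ∃ T0 : ℕ, ∀ t : ℕ, T0 ≤ t →
    16 * (A * t) ^ 2 ≤ Real.exp (η * t) := by
  obtain ⟨T0, hT0⟩ := exists_nat_ge (96 * A ^ 2 / η ^ 3)
  refine ⟨T0, fun t ht => ?_⟩
  have h1 : 96 * A ^ 2 / η ^ 3 ≤ t := hT0.trans (by exact_mod_cast ht)
  rw [div_le_iff₀ (by positivity)] at h1
  have ht0 : (0 : ℝ) ≤ t := Nat.cast_nonneg t
  have h2 := Real.pow_div_factorial_le_exp (η * t) (by positivity) 3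
  have h3 : ((3).factorial : ℝ) = 6 := by norm_num [Nat.factorial]
  rw [h3] at h2
  refine le_trans ?_ h2
  have h4 : (96 * A ^ 2) * (t : ℝ) ^ 2 ≤ (t * η ^ 3) * (t : ℝ) ^ 2 :=
    mul_le_mul_of_nonneg_right h1 (by positivity)
  have h5 : (η * t) ^ 3 / 6 = (t * η ^ 3) * (t : ℝ) ^ 2 / 6 := by ring
  rw [h5]
  have h6 : 16 * (A * t) ^ 2 = (96 * A ^ 2) * (t : ℝ) ^ 2 / 6 := by ring
  rw [h6]
  linarith

/-- the rate of decay of the vertical bridges is at most `q θ` -/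
lemma lim_le {q p : ℕ} (h : Vert C q p) (hδ : 0 < δ) {V : ℝ} (hV : 0 ≤ V)
    (hVl : ∀ v, V < v → δ < gf C v) {θ : ℝ} (hθ : V < θ) : (uu_sub h hδ.le).lim < q * θ := by
  obtain ⟨θ', hθ1, hθ2⟩ := exists_between hθ
  obtain ⟨v', hv1, hv2⟩ := exists_between hθ1
  have hq := h.q_pos
  have hp := h.p_pos
  have hq' : (0 : ℝ) < q := by exact_mod_cast hq
  have hp' : (0 : ℝ) < p := by exact_mod_cast hp
  have hqp : (q : ℝ) * p = 2 := by exact_mod_cast h.qp
  set A : ℝ := 2 * (θ' + 1) / δ + 2 with hA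
  have hθ'0 : 0 < θ' := by linarith
  have hη : 0 < θ - θ' := by linarith
  obtain ⟨T0, hT0⟩ := poly_exp (A := A) hη
  have hex : ∃ t : ℕ, max T0 1 ≤ t ∧ Real.exp (-(θ' * t)) < aR C δ t := by
    by_contra hc
    push Not at hc
    have h1 := force_of_decay (C := C) hδ (max T0 1) hc (by linarith : (0 : ℝ) ≤ v') hv2
    exact absurd h1 (not_le.2 (hVl v' hv1))
  obtain ⟨t, ht, ht2⟩ := hex
  have ht1 : 1 ≤ t := (le_max_right _ _).trans ht
  have ht1' : (1 : ℝ) ≤ t := by exact_mod_cast ht1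
  have hm1 : 2 * (θ' * t + 1) / δ ≤ ⌈2 * (θ' * t + 1) / δ⌉₊ := Nat.le_ceil _
  have hm2 : (⌈2 * (θ' * t + 1) / δ⌉₊ : ℝ) < 2 * (θ' * t + 1) / δ + 1 :=
    Nat.ceil_lt_add_one (by positivity)
  set m : ℕ := ⌈2 * (θ' * t + 1) / δ⌉₊ with hm
  rw [div_le_iff₀ hδ] at hm1
  have h3 := aX_lower (C := C) hδ (θ := θ') (t := t) (m := m) (by linarith) ht2.le
  have h4 : (m : ℝ) + 1 ≤ A * t := by
    have e1 : 2 * (θ' * t + 1) / δ ≤ 2 * (θ' + 1) / δ * t := by
      rw [div_mul_eq_mul_div]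
      apply div_le_div_of_nonneg_right _ hδ.le
      nlinarith
    rw [hA, add_mul]
    linarith
  have hm0 : (0 : ℝ) ≤ m := Nat.cast_nonneg m
  have h5 : 16 * ((m : ℝ) + 1) ^ 2 ≤ Real.exp ((θ - θ') * t) := by
    refine le_trans ?_ (hT0 t ((le_max_left _ _).trans ht))
    have := pow_le_pow_left₀ (by positivity) h4 2
    linarith
  have h6 : Real.exp (-(2 * (θ' * t)) - (θ - θ') * t) ≤ (AX C δ 0 (2 * t)).toReal := by
    refine le_trans ?_ h3
    rw [Real.exp_sub]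
    exact div_le_div_of_nonneg_left (Real.exp_pos _).le (by positivity) h5
  have h7 : uu C δ q (p * t) ≤ 2 * (θ' * t) + (θ - θ') * t := by
    rw [uu]
    have e1 : q * (p * t) = 2 * t := by rw [← mul_assoc, h.qp]
    rw [e1]
    have e2 := Real.log_le_log (Real.exp_pos _) h6
    rw [Real.log_exp] at e2
    linarith
  have h8 := (uu_sub h hδ.le).lim_le_div (uu_bdd hδ.le q) (n := p * t)
    (by positivity)
  refine lt_of_le_of_lt h8 ?_
  have hpt : (0 : ℝ) < ((p * t : ℕ) : ℝ) := by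
    have : 0 < p * t := by positivity
    exact_mod_cast this
  rw [div_lt_iff₀ hpt]
  refine lt_of_le_of_lt h7 ?_
  push_cast
  have e3 : (q : ℝ) * θ * (p * t) = 2 * θ * t := by
    rw [show (q : ℝ) * θ * (p * t) = (q * p) * θ * t by ring, hqp]
  rw [e3]
  nlinarith

lemma vert_lower {q p : ℕ} (h : Vert C q p) (hδ : 0 < δ) {V : ℝ} (hV : 0 ≤ V)
    (hVl : ∀ v, V < v → δ < gf C v) {θ : ℝ} (hθ : V < θ) :
    ∀ᶠ T : ℕ in atTop, Real.exp (-(q * θ * T)) ≤ (AX C δ 0 (q * T)).toReal := by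
  have h1 := (uu_sub h hδ.le).tendsto_lim (uu_bdd hδ.le q)
  filter_upwards [h1.eventually_lt_const (lim_le h hδ hV hVl hθ), eventually_ge_atTop 1] with T hT hT1
  have hT0 : (0 : ℝ) < T := by exact_mod_cast hT1
  rw [div_lt_iff₀ hT0, uu] at hT
  rw [← Real.exp_log (aX_pos h hδ.le T)]
  apply Real.exp_le_exp.2
  linarith

/-- self-avoiding walks to the point `(0, t)` -/
noncomputable def PE (C : CL) (δ : ℝ) (t : ℕ) : ℝ≥0∞ :=
  W C δ (fun l => (Wd C l ∧ SA l) ∧ l.sum = (0, (t : ℤ)))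

lemma AX_le_PE (t : ℕ) : AX C δ 0 t ≤ PE C δ t :=
  W_mono fun _ h => ⟨⟨h.1.wd, h.1.sa⟩, h.2⟩

lemma PE_eq (t : ℕ) : PE C δ t = ∑' n : ℕ, ENNReal.ofReal
    ((((sas C n).filter (fun l => l.sum = (0, (t : ℤ)))).card : ℝ) *
      Real.exp (-((G C 0 0 + δ) * n))) := by
  rw [PE, W_length _ (fun l h => h.1.1)]
  refine tsum_congr fun n => ?_
  convert rfl using 5
  ext l
  simp only [Finset.mem_filter, mem_wds, mem_sas]
  tauto

lemma card_sas_le {v : ℝ} (n t : ℕ) :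
    (((sas C n).filter (fun l => l.sum = (0, (t : ℤ)))).card : ℝ) ≤
      Real.exp (-(v * t)) * Zw C 0 v n := by
  have h1 : (((sas C n).filter (fun l => l.sum = (0, (t : ℤ)))).card : ℝ) * Real.exp (v * t) ≤
      Zw C 0 v n := by
    rw [← nsmul_eq_mul, ← Finset.sum_const, Zw]
    calc ∑ _l ∈ (sas C n).filter (fun l => l.sum = (0, (t : ℤ))), Real.exp (v * t)
        = ∑ l ∈ (sas C n).filter (fun l => l.sum = (0, (t : ℤ))), Real.exp (fw 0 v l) := by
          apply Finset.sum_congr rfl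
          intro l hl
          rw [Finset.mem_filter] at hl
          rw [fw, zero_mul, zero_add, ht, hl.2]
          norm_cast
      _ ≤ _ := by
          apply Finset.sum_le_sum_of_subset_of_nonneg (Finset.filter_subset _ _)
          exact fun _ _ _ => (Real.exp_pos _).le
  calc (((sas C n).filter (fun l => l.sum = (0, (t : ℤ)))).card : ℝ)
      = Real.exp (-(v * t)) * ((((sas C n).filter (fun l => l.sum = (0, (t : ℤ)))).card : ℝ) *
          Real.exp (v * t)) := by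
        rw [mul_comm, mul_assoc, ← Real.exp_add]
        simp
    _ ≤ _ := mul_le_mul_of_nonneg_left h1 (Real.exp_pos _).le

lemma Zw_pos (v : ℝ) (n : ℕ) : 0 < Zw C 0 v n := (Zb_pos 0 v n).trans_le (Zb_le_Zw 0 v n)

lemma summable_Zw {v : ℝ} (hv : 0 ≤ v) (hg : gf C v < δ) :
    Summable (fun n : ℕ => Zw C 0 v n * Real.exp (-((G C 0 0 + δ) * n))) := by
  have hg' : G C 0 v < G C 0 0 + δ := by
    have : gf C v = G C 0 v - G C 0 0 := rfl
    linarith
  obtain ⟨g, hg1, hg2⟩ := exists_between hg'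
  have h1 := (MassC_tendsto_Zw (C := C) hv).eventually_lt_const hg1
  have hr : Real.exp (-(G C 0 0 + δ - g)) < 1 := by
    rw [Real.exp_lt_one_iff]
    linarith
  have hs : Summable (fun n : ℕ => Real.exp (-(G C 0 0 + δ - g)) ^ n) :=
    summable_geometric_of_lt_one (Real.exp_pos _).le hr
  refine Summable.of_norm_bounded_eventually_nat hs ?_
  filter_upwards [h1, eventually_ge_atTop 1] with n hn hn1
  have hn0 : (0 : ℝ) < n := by exact_mod_cast hn1
  rw [div_lt_iff₀ hn0] at hn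
  rw [Real.norm_of_nonneg (by have := (Zw_pos (C := C) v n).le; positivity)]
  have h2 : Zw C 0 v n ≤ Real.exp (g * n) := by
    rw [← Real.log_le_iff_le_exp (Zw_pos v n)]
    exact hn.le
  calc Zw C 0 v n * Real.exp (-((G C 0 0 + δ) * n))
      ≤ Real.exp (g * n) * Real.exp (-((G C 0 0 + δ) * n)) :=
        mul_le_mul_of_nonneg_right h2 (Real.exp_pos _).le
    _ = Real.exp (-(G C 0 0 + δ - g)) ^ n := by
        rw [← Real.exp_add, ← Real.exp_nat_mul]
        congr 1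
        ring

lemma PE_le {v : ℝ} (hv : 0 ≤ v) (hg : gf C v < δ) : ∃ S : ℝ, 0 < S ∧ ∀ t : ℕ,
    PE C δ t ≤ ENNReal.ofReal (S * Real.exp (-(v * t))) := by
  have hs := summable_Zw (C := C) hv hg
  have hS : 0 ≤ ∑' n : ℕ, Zw C 0 v n * Real.exp (-((G C 0 0 + δ) * n)) :=
    tsum_nonneg fun n => by have := (Zw_pos (C := C) v n).le; positivity
  refine ⟨(∑' n : ℕ, Zw C 0 v n * Real.exp (-((G C 0 0 + δ) * n))) + 1, by linarith, fun t => ?_⟩
  rw [PE_eq]
  have h1 : ∑' n : ℕ, ENNReal.ofReal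
      ((((sas C n).filter (fun l => l.sum = (0, (t : ℤ)))).card : ℝ) *
      Real.exp (-((G C 0 0 + δ) * n))) ≤ ∑' n : ℕ, ENNReal.ofReal
      (Real.exp (-(v * t)) * (Zw C 0 v n * Real.exp (-((G C 0 0 + δ) * n)))) := by
    refine ENNReal.tsum_le_tsum fun n => ENNReal.ofReal_le_ofReal ?_
    rw [← mul_assoc]
    exact mul_le_mul_of_nonneg_right (card_sas_le n t) (Real.exp_pos _).le
  refine h1.trans ?_
  rw [← ENNReal.ofReal_tsum_of_nonneg _ (hs.mul_left _), tsum_mul_left]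
  · apply ENNReal.ofReal_le_ofReal
    have := Real.exp_pos (-(v * t))
    nlinarith
  · intro n
    have := (Zw_pos (C := C) v n).le
    positivity

lemma PE_ne_top (hδ : 0 < δ) (t : ℕ) : PE C δ t ≠ ⊤ := by
  have h0 : gf C 0 < δ := by
    have : gf C 0 = G C 0 0 - G C 0 0 := rfl
    rw [this, sub_self]
    exact hδ
  obtain ⟨S, _, h⟩ := PE_le (C := C) le_rfl h0
  exact ne_top_of_le_ne_top ENNReal.ofReal_ne_top (h t)

/-- the correlation length in the vertical direction -/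
theorem tendsto_PE {q p : ℕ} (h : Vert C q p) (hδ : 0 < δ) {V : ℝ} (hV : 0 < V)
    (hVl : ∀ v, V < v → δ < gf C v) (hVu : ∀ v, 0 ≤ v → v < V → gf C v < δ) :
    Tendsto (fun T : ℕ => Real.log (PE C δ (q * T)).toReal / T) atTop (𝓝 (-(q * V))) := by
  have hq : (0 : ℝ) < q := by exact_mod_cast h.q_pos
  have hpos : ∀ T : ℕ, 0 < (PE C δ (q * T)).toReal := by
    intro T
    exact lt_of_lt_of_le (aX_pos h hδ.le T) (ENNReal.toReal_mono (PE_ne_top hδ _) (AX_le_PE _))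
  rw [tendsto_order]
  constructor
  · intro a ha
    -- the lower bound
    have ha' : V < -a / q := by
      rw [lt_div_iff₀ hq]
      linarith
    obtain ⟨θ, hθ1, hθ2⟩ := exists_between ha'
    filter_upwards [vert_lower h hδ hV.le hVl hθ1, eventually_ge_atTop 1] with T hT hT1
    have hT0 : (0 : ℝ) < T := by exact_mod_cast hT1
    rw [lt_div_iff₀ hT0]
    have h1 : Real.exp (-(q * θ * T)) ≤ (PE C δ (q * T)).toReal :=
      hT.trans (ENNReal.toReal_mono (PE_ne_top hδ _) (AX_le_PE _))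
    have h2 := Real.log_le_log (Real.exp_pos _) h1
    rw [Real.log_exp] at h2
    refine lt_of_lt_of_le ?_ h2
    rw [lt_div_iff₀ hq] at hθ2
    have h3 : q * θ * T < -a * T := by
      apply mul_lt_mul_of_pos_right _ hT0
      linarith
    linarith
  · intro b hb
    have hb' : max 0 (-b / q) < V := by
      apply max_lt hV
      rw [div_lt_iff₀ hq]
      linarith
    obtain ⟨v, hv1, hv2⟩ := exists_between hb'
    have hv0 : 0 < v := lt_of_le_of_lt (le_max_left _ _) hv1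
    have hvb : -b / q < v := lt_of_le_of_lt (le_max_right _ _) hv1
    rw [div_lt_iff₀ hq] at hvb
    obtain ⟨S, hS, hPE⟩ := PE_le (C := C) hv0.le (hVu v hv0.le hv2)
    have h1 : Tendsto (fun T : ℕ => Real.log S / (T : ℝ)) atTop (𝓝 0) :=
      tendsto_const_nhds.div_atTop tendsto_natCast_atTop_atTop
    filter_upwards [h1.eventually_lt_const (show (0 : ℝ) < b + v * q by linarith),
      eventually_ge_atTop 1] with T hT hT1
    have hT0 : (0 : ℝ) < T := by exact_mod_cast hT1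
    rw [div_lt_iff₀ hT0] at hT ⊢
    have h2 : (PE C δ (q * T)).toReal ≤ S * Real.exp (-(v * ((q * T : ℕ) : ℝ))) :=
      ENNReal.toReal_le_of_le_ofReal (by positivity) (hPE _)
    have h3 := Real.log_le_log (hpos T) h2
    rw [Real.log_mul hS.ne' (Real.exp_pos _).ne', Real.log_exp] at h3
    push_cast at h3
    nlinarith

/-- real form -/
lemma PE_toReal (hδ : 0 < δ) (t : ℕ) : (PE C δ t).toReal =
    ∑' n : ℕ, (((sas C n).filter (fun l => l.sum = (0, (t : ℤ)))).card : ℝ) *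
      Real.exp (-((G C 0 0 + δ) * n)) := by
  have h1 := PE_ne_top (C := C) hδ t
  rw [PE_eq] at h1 ⊢
  rw [ENNReal.tsum_toReal_eq (fun n => ENNReal.ofReal_ne_top)]
  refine tsum_congr fun n => ?_
  rw [ENNReal.toReal_ofReal (by positivity)]

end CorB

end SawNu.SF
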