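import Pool.Agent.SawF.ExpDef

/-!
SAWF ExpA: the upper size exponent.
-/

set_option autoImplicit false

open Filter Topology

namespace SawNu.SF

variable {F : ℝ → ℝ} {R M : ℕ → ℝ}

/-- for every `n` there is a scale `v` with `n F(v) ≤ 1 ≤ n F(2 v)` -/
lemma Sc.scale (h : Sc F R M) {δ : ℝ} (hδ : 0 < δ) : ∃ n0 : ℕ, ∀ n : ℕ, n0 ≤ n →
    ∃ v : ℝ, 0 < v ∧ 2 * v ≤ δ ∧ n * F v ≤ 1 ∧ 1 ≤ n * F (2 * v) := by
  refine ⟨⌈1 / F δ⌉₊, fun n hn => ?_⟩
  have hF := h.pos δ hδ
  have h1 : 1 ≤ n * F δ := by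
    have h2 : 1 / F δ ≤ n := (Nat.le_ceil _).trans (by exact_mod_cast hn)
    rwa [div_le_iff₀ hF] at h2
  have hex : ∃ j : ℕ, n * F (δ / 2 ^ (j + 1)) ≤ 1 := by
    obtain ⟨j, hj⟩ := exists_nat_gt (n * δ)
    refine ⟨j, ?_⟩
    have h2 : (j : ℝ) ≤ 2 ^ (j + 1) := by
      have h3 : j < 2 ^ j := Nat.lt_two_pow_self
      have h4 : (j : ℝ) < 2 ^ j := by exact_mod_cast h3
      have h5 : (2 : ℝ) ^ (j + 1) = 2 * 2 ^ j := by ring
      have h6 : (0 : ℝ) < 2 ^ j := by positivity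
      linarith
    have h3 : F (δ / 2 ^ (j + 1)) ≤ δ / 2 ^ (j + 1) := h.le _ (by positivity)
    calc (n : ℝ) * F (δ / 2 ^ (j + 1)) ≤ n * (δ / 2 ^ (j + 1)) :=
          mul_le_mul_of_nonneg_left h3 (Nat.cast_nonneg _)
      _ = n * δ / 2 ^ (j + 1) := by ring
      _ ≤ 1 := by
          rw [div_le_one (by positivity)]
          linarith
  classical
  have hj := Nat.find_spec hex
  set j := Nat.find hex with hjdef
  refine ⟨δ / 2 ^ (j + 1), by positivity, ?_, hj, ?_⟩
  · have h2 : 2 * (δ / 2 ^ (j + 1)) = δ / 2 ^ j := by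
      rw [pow_succ]
      field_simp
    rw [h2]
    exact div_le_self hδ.le (one_le_pow₀ (by norm_num))
  · have h2 : 2 * (δ / 2 ^ (j + 1)) = δ / 2 ^ j := by
      rw [pow_succ]
      field_simp
    rw [h2]
    rcases Nat.eq_zero_or_pos j with h0 | h0
    · rw [h0, pow_zero, div_one]
      exact h1
    · have h3 := Nat.find_min hex (m := j - 1) (by omega)
      rw [Nat.sub_add_cancel h0] at h3
      exact (not_le.1 h3).le

namespace ExpAaux

lemma logs (h : Sc F R M) : ∀ᶠ v in 𝓝[>] (0 : ℝ), 0 < v ∧ v < 1 ∧ Real.log v < 0 ∧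
    Real.log (F v) ≤ Real.log v ∧ 4 * Real.log v ≤ Real.log (F v) := by
  obtain ⟨v0, h0, h1, h2⟩ := h.poly
  have h3 : Set.Ioo (0 : ℝ) v0 ∈ 𝓝[>] (0 : ℝ) := Ioo_mem_nhdsGT h0
  filter_upwards [h3] with v hv
  have hv1 : v < 1 := hv.2.trans_le h1
  refine ⟨hv.1, hv1, Real.log_neg hv.1 hv1, Real.log_le_log (h.pos v hv.1) (h.le v hv.1), ?_⟩
  have h4 := Real.log_le_log (by have := hv.1; positivity) (h2 v hv.1 hv.2.le)
  rwa [Real.log_pow] at h4

lemma limsup_of {α : Type} {f : Filter α} {u : α → ℝ} {x : ℝ}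
    (h1 : ∀ y, x < y → ∀ᶠ n in f, u n ≤ y) (h2 : ∀ y, y < x → ∃ᶠ n in f, y ≤ u n) :
    limsup u f = x := by
  have h3 : ∀ a ∈ {a | ∀ᶠ n in f, u n ≤ a}, x ≤ a := by
    intro a ha
    by_contra hlt
    push Not at hlt
    obtain ⟨y, hy1, hy2⟩ := exists_between hlt
    obtain ⟨n, hn1, hn2⟩ := ((h2 y hy2).and_eventually ha).exists
    exact absurd (hn1.trans hn2) (not_le.2 hy1)
  rw [limsup_eq]
  apply le_antisymm
  · refine le_of_forall_gt_imp_ge_of_dense fun y hy => ?_
    exact csInf_le ⟨x, h3⟩ (h1 y hy)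
  · exact le_csInf ⟨x + 1, h1 _ (by linarith)⟩ h3

end ExpAaux

open ExpAaux

/-- the ratio of the logarithms for small `v` -/
lemma Sc.ratio (h : Sc F R M) : ∀ᶠ v in 𝓝[>] (0 : ℝ),
    (1 : ℝ) / 4 ≤ Real.log v / Real.log (F v) ∧ Real.log v / Real.log (F v) ≤ 1 := by
  filter_upwards [logs h] with v hv
  obtain ⟨_, _, h1, h2, h3⟩ := hv
  have h4 : Real.log (F v) < 0 := by linarith
  constructor
  · rw [le_div_iff_of_neg h4]
    linarith
  · rw [div_le_iff_of_neg h4]
    linarith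

/-- upper bound for the maximal displacement, all large `n` -/
lemma Sc.limsup_M_le (h : Sc F R M) {σ : ℝ}
    (hσ : ∀ᶠ v in 𝓝[>] (0 : ℝ), Real.log v / Real.log (F v) ≤ σ) {σ' : ℝ} (h' : 2 * σ < σ') :
    ∀ᶠ n : ℕ in atTop, Real.log (M n) / Real.log n ≤ σ' := by
  have hσ4 : (1 : ℝ) / 4 ≤ σ := by
    obtain ⟨v, hv1, hv2⟩ := (hσ.and h.ratio).exists
    exact hv2.1.trans hv1
  -- the threshold
  obtain ⟨δ0, hδ0, hδ1⟩ : ∃ δ0 : ℝ, 0 < δ0 ∧ ∀ v, 0 < v → v ≤ δ0 → v < 1 ∧
      Real.log (F v) < 0 ∧ Real.log v / Real.log (F v) ≤ σ := by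
    obtain ⟨d, hd, hd2⟩ := (mem_nhdsGT_iff_exists_Ioc_subset (a := (0 : ℝ))).1 (hσ.and (logs h))
    refine ⟨d, hd, fun v hv hvd => ?_⟩
    obtain ⟨e1, e2, e3, e4, e5, e6⟩ := hd2 ⟨hv, hvd⟩
    exact ⟨e3, by linarith, e1⟩
  set ε : ℝ := min 1 ((σ' - 2 * σ) / 2) with hε
  have hε0 : 0 < ε := lt_min one_pos (by linarith)
  have hε1 : ε ≤ 1 := min_le_left _ _
  have hε2 : ε ≤ (σ' - 2 * σ) / 2 := min_le_right _ _
  obtain ⟨K, hK1, hK⟩ := h.up ε hε0 hε1
  obtain ⟨n0, hn0⟩ := h.scale hδ0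
  have hlog : ∀ᶠ n : ℕ in atTop, Real.log K + 2 * Real.log 2 ≤ ((σ' - 2 * σ) / 2) * Real.log n := by
    have h1 : Tendsto (fun n : ℕ => ((σ' - 2 * σ) / 2) * Real.log n) atTop atTop :=
      (Real.tendsto_log_atTop.comp tendsto_natCast_atTop_atTop).const_mul_atTop (by linarith)
    exact h1.eventually_ge_atTop _
  filter_upwards [hlog, eventually_ge_atTop n0, eventually_ge_atTop 2] with n hn1 hn2 hn3
  have hn3' : (2 : ℝ) ≤ n := by exact_mod_cast hn3
  have hnpos : (0 : ℝ) < n := by linarith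
  have hlogn : 0 < Real.log n := Real.log_pos (by linarith)
  rw [div_le_iff₀ hlogn]
  have hMnn : 0 ≤ M n := (h.Rnn n).trans (h.RM n)
  rcases hMnn.eq_or_lt with hM0 | hMpos
  · rw [← hM0, Real.log_zero]
    have : 0 < σ' := by linarith
    positivity
  · obtain ⟨v, hv0, hv1, hv2, hv3⟩ := hn0 n hn2
    obtain ⟨g1, g2, g3⟩ := hδ1 (2 * v) (by linarith) hv1
    have hM := hK v n hv0 (by linarith) (by omega) hv2
    have hl := Real.log_le_log hMpos hM
    rw [Real.log_div (by positivity) (by positivity), Real.log_mul (by positivity) (by positivity),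
      Real.log_rpow hnpos, Real.log_pow] at hl
    have hF : - Real.log n ≤ Real.log (F (2 * v)) := by
      have h1 : 1 / (n : ℝ) ≤ F (2 * v) := by
        rw [div_le_iff₀ hnpos]
        linarith
      have h2 := Real.log_le_log (by positivity) h1
      rwa [one_div, Real.log_inv] at h2
    rw [div_le_iff_of_neg g2] at g3
    have h2v : Real.log (2 * v) = Real.log 2 + Real.log v := Real.log_mul (by norm_num) hv0.ne'
    have h3 : σ * (- Real.log n) ≤ σ * Real.log (F (2 * v)) :=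
      mul_le_mul_of_nonneg_left hF (by linarith)
    have h4 : ε * Real.log n ≤ ((σ' - 2 * σ) / 2) * Real.log n :=
      mul_le_mul_of_nonneg_right hε2 hlogn.le
    push_cast at hl
    nlinarith

/-- lower bound for the end-to-end distance, infinitely many `n` -/
lemma Sc.limsup_R_ge (h : Sc F R M) {σ : ℝ}
    (hσ : ∃ᶠ v in 𝓝[>] (0 : ℝ), σ ≤ Real.log v / Real.log (F v)) {σ' : ℝ} (h' : σ' < 2 * σ) :
    ∃ᶠ n : ℕ in atTop, σ' ≤ Real.log (R n) / Real.log n := by
  -- we may assume `σ ≥ 1/4`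
  set s : ℝ := max σ (1 / 4) with hs
  have hs4 : (1 : ℝ) / 4 ≤ s := le_max_right _ _
  have hσs : σ ≤ s := le_max_left _ _
  have hfr : ∃ᶠ v in 𝓝[>] (0 : ℝ), s ≤ Real.log v / Real.log (F v) :=
    (hσ.and_eventually h.ratio).mono fun v hv => max_le hv.1 hv.2.1
  set m : ℝ := max σ' 0 with hm
  have hm0 : 0 ≤ m := le_max_right _ _
  have hσm : σ' ≤ m := le_max_left _ _
  have hms : m < 2 * s := max_lt (by linarith) (by linarith)
  set ε : ℝ := min 1 ((2 * s - m) / 2) with hε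
  have hε0 : 0 < ε := lt_min one_pos (by linarith)
  have hε1 : ε ≤ 1 := min_le_left _ _
  have hε2 : ε ≤ (2 * s - m) / 2 := min_le_right _ _
  obtain ⟨K, hK1, hK⟩ := h.low ε hε0 hε1
  rw [frequently_atTop]
  intro n1
  -- all large `n` satisfy the final inequality
  have hlog : ∀ᶠ n : ℕ in atTop, Real.log K + 2 * s * Real.log 2 + m * Real.log (1 + K) ≤
      ((2 * s - m) / 2) * Real.log n := by
    have h1 : Tendsto (fun n : ℕ => ((2 * s - m) / 2) * Real.log n) atTop atTop :=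
      (Real.tendsto_log_atTop.comp tendsto_natCast_atTop_atTop).const_mul_atTop (by linarith)
    exact h1.eventually_ge_atTop _
  obtain ⟨n2, hn2⟩ := eventually_atTop.1 hlog
  -- a small `v`
  have hsmall : ∀ᶠ v in 𝓝[>] (0 : ℝ), v ≤ 1 / ((max (max n1 n2) 2 : ℕ) : ℝ) := by
    have h1 : (0 : ℝ) < 1 / ((max (max n1 n2) 2 : ℕ) : ℝ) := by
      have h2 : (0 : ℝ) < ((max (max n1 n2) 2 : ℕ) : ℝ) := by
        have h3 : 0 < max (max n1 n2) 2 := lt_of_lt_of_le (by norm_num) (le_max_right _ _)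
        exact_mod_cast h3
      positivity
    filter_upwards [Ioo_mem_nhdsGT h1] with v hv
    exact hv.2.le
  obtain ⟨v, hv1, hv2, hv3⟩ := (hfr.and_eventually ((logs h).and hsmall)).exists
  obtain ⟨a1, a2, a3, a4, a5⟩ := hv2
  have hFpos := h.pos v a1
  have hFv := h.le v a1
  have hF1 : F v < 1 := by linarith
  set n : ℕ := ⌈1 / F v⌉₊ with hn
  have hn_ge : 1 / F v ≤ n := Nat.le_ceil _
  have hn_lt : (n : ℝ) < 1 / F v + 1 := Nat.ceil_lt_add_one (by positivity)
  have hmax : ((max (max n1 n2) 2 : ℕ) : ℝ) ≤ n := by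
    have h2 : (0 : ℝ) < ((max (max n1 n2) 2 : ℕ) : ℝ) := by
      have h3 : 0 < max (max n1 n2) 2 := lt_of_lt_of_le (by norm_num) (le_max_right _ _)
      exact_mod_cast h3
    have h3 : ((max (max n1 n2) 2 : ℕ) : ℝ) ≤ 1 / v := by
      rw [le_div_iff₀ a1]
      rw [le_div_iff₀ h2] at hv3
      linarith
    exact h3.trans ((one_div_le_one_div_of_le hFpos hFv).trans hn_ge)
  have hmax' : max (max n1 n2) 2 ≤ n := by exact_mod_cast hmax
  have hn1' : n1 ≤ n := (le_max_left _ _).trans ((le_max_left _ _).trans hmax')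
  have hn2' : n2 ≤ n := (le_max_right _ _).trans ((le_max_left _ _).trans hmax')
  have hn3' : 2 ≤ n := (le_max_right _ _).trans hmax'
  have hnr : (2 : ℝ) ≤ n := by exact_mod_cast hn3'
  have hnpos : (0 : ℝ) < n := by linarith
  have h1nF : 1 ≤ n * F v := by
    rwa [div_le_iff₀ hFpos] at hn_ge
  obtain ⟨N, hN1, hN2, hN3⟩ := hK v n a1 a2.le (by omega) h1nF
  refine ⟨N, hn1'.trans hN1, ?_⟩
  have hNr : (n : ℝ) ≤ N := by exact_mod_cast hN1
  have hlogN : 0 < Real.log N := Real.log_pos (by linarith)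
  have hlogn : 0 < Real.log n := Real.log_pos (by linarith)
  rw [le_div_iff₀ hlogN]
  -- upper bound for `log N`
  have hNle : (N : ℝ) ≤ (1 + K) * n := by
    have h2 : (n : ℝ) ^ (1 - ε / 20) ≤ (n : ℝ) ^ (1 : ℝ) :=
      Real.rpow_le_rpow_of_exponent_le (by linarith) (by linarith)
    rw [Real.rpow_one] at h2
    have h3 := mul_le_mul_of_nonneg_left h2 (by linarith : (0 : ℝ) ≤ K)
    linarith
  have hlogN2 : Real.log N ≤ Real.log (1 + K) + Real.log n := by
    have h2 := Real.log_le_log (by linarith) hNle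
    rwa [Real.log_mul (by positivity) (by positivity)] at h2
  -- lower bound for `log R N`
  have hRpos : 0 < (n : ℝ) ^ (-ε) / (K * v ^ 2) := by positivity
  have hlR := Real.log_le_log hRpos hN3
  rw [Real.log_div (by positivity) (by positivity), Real.log_mul (by positivity) (by positivity),
    Real.log_rpow hnpos, Real.log_pow] at hlR
  have hlF : Real.log (F v) < 0 := by linarith
  rw [le_div_iff_of_neg hlF] at hv1
  have hlogn2 : Real.log n ≤ Real.log 2 - Real.log (F v) := by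
    have h2 : (n : ℝ) ≤ 2 * (F v)⁻¹ := by
      have h3 : 1 ≤ 1 / F v := by
        rw [le_div_iff₀ hFpos]
        linarith
      rw [one_div] at h3 hn_lt
      linarith
    have h3 := Real.log_le_log hnpos h2
    rw [Real.log_mul (by norm_num) (by positivity), Real.log_inv] at h3
    linarith
  have e1 : s * Real.log n ≤ s * (Real.log 2 - Real.log (F v)) :=
    mul_le_mul_of_nonneg_left hlogn2 (by linarith)
  have e2 : ε * Real.log n ≤ ((2 * s - m) / 2) * Real.log n :=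
    mul_le_mul_of_nonneg_right hε2 hlogn.le
  have e3 : m * Real.log N ≤ m * (Real.log (1 + K) + Real.log n) :=
    mul_le_mul_of_nonneg_left hlogN2 hm0
  have e4 : σ' * Real.log N ≤ m * Real.log N := mul_le_mul_of_nonneg_right hσm hlogN.le
  have e5 := hn2 n hn2'
  push_cast at hlR
  nlinarith

/-- the upper size exponent is the upper exponent of the force -/
theorem Sc.limsup_eq (h : Sc F R M) :
    limsup (fun n : ℕ => Real.log (R n) / Real.log n) atTop =
      2 * limsup (fun v : ℝ => Real.log v / Real.log (F v)) (𝓝[>] 0) ∧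
    limsup (fun n : ℕ => Real.log (M n) / Real.log n) atTop =
      2 * limsup (fun v : ℝ => Real.log v / Real.log (F v)) (𝓝[>] 0) := by
  set L := limsup (fun v : ℝ => Real.log v / Real.log (F v)) (𝓝[>] 0) with hL
  have hbd : (𝓝[>] (0 : ℝ)).IsBoundedUnder (· ≤ ·) (fun v : ℝ => Real.log v / Real.log (F v)) :=
    ⟨1, eventually_map.2 (h.ratio.mono fun v hv => hv.2)⟩
  have hbd2 : (𝓝[>] (0 : ℝ)).IsBoundedUnder (· ≥ ·) (fun v : ℝ => Real.log v / Real.log (F v)) :=
    ⟨1 / 4, eventually_map.2 (h.ratio.mono fun v hv => hv.1)⟩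
  have hL4 : (1 : ℝ) / 4 ≤ L :=
    le_limsup_of_frequently_le (h.ratio.frequently.mono fun v hv => hv.1) hbd
  have hM : ∀ y, 2 * L < y → ∀ᶠ n : ℕ in atTop, Real.log (M n) / Real.log n ≤ y := by
    intro y hy
    obtain ⟨σ, hσ1, hσ2⟩ := exists_between (show L < y / 2 by linarith)
    exact h.limsup_M_le ((eventually_lt_of_limsup_lt hσ1 hbd).mono fun v hv => hv.le)
      (by linarith)
  have hR : ∀ y, y < 2 * L → ∃ᶠ n : ℕ in atTop, y ≤ Real.log (R n) / Real.log n := by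
    intro y hy
    obtain ⟨σ, hσ1, hσ2⟩ := exists_between (show y / 2 < L by linarith)
    exact h.limsup_R_ge ((frequently_lt_of_lt_limsup hbd2.isCoboundedUnder_le hσ2).mono
      fun v hv => hv.le) (by linarith)
  constructor
  · refine limsup_of (fun y hy => ?_) hR
    filter_upwards [hM y hy, eventually_ge_atTop 2] with n hn hn2
    have hn2' : (2 : ℝ) ≤ n := by exact_mod_cast hn2
    have hlogn : 0 < Real.log n := Real.log_pos (by linarith)
    rcases (h.Rnn n).eq_or_lt with h0 | h0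
    · rw [← h0, Real.log_zero, zero_div]
      linarith
    · exact le_trans (div_le_div_of_nonneg_right (Real.log_le_log h0 (h.RM n)) hlogn.le) hn
  · refine limsup_of hM fun y hy => ?_
    have hy' : max y (1 / 4) < 2 * L := max_lt hy (by linarith)
    refine ((hR _ hy').and_eventually (eventually_ge_atTop 2)).mono ?_
    rintro n ⟨hn, hn2⟩
    have hn2' : (2 : ℝ) ≤ n := by exact_mod_cast hn2
    have hlogn : 0 < Real.log n := Real.log_pos (by linarith)
    have h1 : (1 : ℝ) / 4 ≤ Real.log (R n) / Real.log n := (le_max_right _ _).trans hn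
    have h2 : 0 < Real.log (R n) := by
      rw [le_div_iff₀ hlogn] at h1
      have : 0 < (1 : ℝ) / 4 * Real.log n := by positivity
      linarith
    have h3 : 0 < R n := by
      rcases (h.Rnn n).eq_or_lt with h0 | h0
      · rw [← h0, Real.log_zero] at h2
        exact absurd h2 (lt_irrefl _)
      · exact h0
    exact ((le_max_left _ _).trans hn).trans
      (div_le_div_of_nonneg_right (Real.log_le_log h3 (h.RM n)) hlogn.le)

end SawNu.SF
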