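import Pool.Agent.SawF.ExpDef

/-!
SAWF ExpB: existence of the exponents.
-/

set_option autoImplicit false

open Filter Topology

namespace SawNu.SF

variable {F : ℝ → ℝ} {R M : ℕ → ℝ}

/-- the inverse of the force tends to infinity -/
lemma Sc.inv_top (h : Sc F R M) : Tendsto (fun v : ℝ => (F v)⁻¹) (𝓝[>] 0) atTop := by
  refine tendsto_atTop_mono' (𝓝[>] 0) ?_ tendsto_inv_nhdsGT_zero
  filter_upwards [self_mem_nhdsWithin] with v hv
  have hv : 0 < v := hv
  exact inv_anti₀ (h.pos v hv) (h.le v hv)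

/-- the ratio of the logarithms tends to the exponent -/
lemma Sc.tendsto_ratio (h : Sc F R M) {ν : ℝ} (hν : 0 < ν)
    (hR : Tendsto (fun n : ℕ => Real.log (R n) / Real.log n) atTop (𝓝 (2 * ν))) :
    Tendsto (fun v : ℝ => Real.log v / Real.log (F v)) (𝓝[>] 0) (𝓝 ν) := by
  have hinv := h.inv_top
  have hlog : Tendsto (fun v : ℝ => Real.log (F v)⁻¹) (𝓝[>] 0) atTop := Real.tendsto_log_atTop.comp hinv
  have hR0 : ∀ᶠ n : ℕ in atTop, 0 < R n := by
    have h1 : ∀ᶠ n : ℕ in atTop, 0 < Real.log (R n) / Real.log n :=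
      hR.eventually (lt_mem_nhds (by positivity))
    filter_upwards [h1, eventually_ge_atTop 1] with n hn hn1
    rcases (h.Rnn n).eq_or_lt with h2 | h2
    · rw [← h2, Real.log_zero, zero_div] at hn
      exact absurd hn (lt_irrefl 0)
    · exact h2
  rw [tendsto_order]
  constructor
  · intro a ha
    -- the lower bound
    set ε : ℝ := min 1 (min ((ν - a) / 2) (ν / 2)) with hε
    have hε0 : 0 < ε := by
      rw [hε]
      refine lt_min one_pos (lt_min ?_ ?_) <;> linarith
    have hε1 : ε ≤ 1 := min_le_left _ _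
    have hε2 : ε ≤ (ν - a) / 2 := (min_le_right _ _).trans (min_le_left _ _)
    have hε3 : ε ≤ ν / 2 := (min_le_right _ _).trans (min_le_right _ _)
    obtain ⟨K, hK, hup⟩ := h.up ε hε0 hε1
    have e1 : ∀ᶠ n : ℕ in atTop, 2 * ν - ε < Real.log (R n) / Real.log n :=
      hR.eventually (lt_mem_nhds (by linarith))
    have e2 : ∀ᶠ n : ℕ in atTop, 2 * ν - ε < Real.log (R n) / Real.log n ∧ 0 < R n ∧ 2 ≤ n :=
      e1.and (hR0.and (eventually_ge_atTop 2))
    have hfl : Tendsto (fun v : ℝ => ⌊(F v)⁻¹⌋₊) (𝓝[>] 0) atTop := tendsto_nat_floor_atTop.comp hinv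
    have e3 := hfl.eventually e2
    set C : ℝ := 2 * (ν - ε) * Real.log 2 + Real.log K with hC
    have e4 : ∀ᶠ v : ℝ in 𝓝[>] 0, C / (ν - a) + 1 < Real.log (F v)⁻¹ :=
      hlog.eventually (eventually_gt_atTop _)
    have e5 : ∀ᶠ v : ℝ in 𝓝[>] 0, 0 < Real.log (F v)⁻¹ := hlog.eventually (eventually_gt_atTop _)
    have e6 : ∀ᶠ v : ℝ in 𝓝[>] (0 : ℝ), v < 1 :=
      mem_nhdsWithin_of_mem_nhds (gt_mem_nhds one_pos)
    filter_upwards [e3, e4, e5, e6, self_mem_nhdsWithin] with v ⟨h1, h2, h3⟩ h4 h5 h6 h7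
    have hv : 0 < v := h7
    have hF : 0 < F v := h.pos v hv
    set n : ℕ := ⌊(F v)⁻¹⌋₊ with hn
    have hn2 : (2 : ℝ) ≤ n := by exact_mod_cast h3
    have hn1 : (n : ℝ) ≤ (F v)⁻¹ := Nat.floor_le (inv_nonneg.2 hF.le)
    have hn3 : (F v)⁻¹ < n + 1 := Nat.lt_floor_add_one _
    have hnF : (n : ℝ) * F v ≤ 1 := by
      calc (n : ℝ) * F v ≤ (F v)⁻¹ * F v := mul_le_mul_of_nonneg_right hn1 hF.le
        _ = 1 := inv_mul_cancel₀ hF.ne'
    have hM := hup v n hv h6.le (by omega) hnF
    have hln : 0 < Real.log n := Real.log_pos (by linarith)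
    have hlR : Real.log (R n) ≤ Real.log K + ε * Real.log n - 2 * Real.log v := by
      have : Real.log (R n) ≤ Real.log (K * (n : ℝ) ^ ε / v ^ 2) :=
        Real.log_le_log h2 ((h.RM n).trans hM)
      have hnp : (0 : ℝ) < (n : ℝ) ^ ε := Real.rpow_pos_of_pos (by linarith) _
      rw [Real.log_div (by positivity) (by positivity), Real.log_mul (by positivity) (by positivity),
        Real.log_rpow (by linarith), Real.log_pow] at this
      push_cast at this
      linarith
    have h8 : (2 * ν - ε) * Real.log n < Real.log (R n) := (lt_div_iff₀ hln).1 h1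
    have h9 : Real.log (F v)⁻¹ ≤ Real.log n + Real.log 2 := by
      rw [← Real.log_mul (by linarith) (by norm_num)]
      exact Real.log_le_log (inv_pos.2 hF) (by linarith)
    have h10 : 2 * (ν - ε) * (Real.log (F v)⁻¹ - Real.log 2) ≤ Real.log K - 2 * Real.log v := by
      have : 2 * (ν - ε) * (Real.log (F v)⁻¹ - Real.log 2) ≤ 2 * (ν - ε) * Real.log n :=
        mul_le_mul_of_nonneg_left (by linarith) (by linarith)
      nlinarith
    rw [Real.log_inv] at h4 h5 h10
    have h11 : Real.log v / Real.log (F v) = -Real.log v / -Real.log (F v) := by rw [neg_div_neg_eq]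
    rw [h11, lt_div_iff₀ h5]
    have h12 : C < (ν - a) * -Real.log (F v) := by
      have h13 : C / (ν - a) < -Real.log (F v) := by linarith
      have := (div_lt_iff₀ (by linarith : (0:ℝ) < ν - a)).1 h13
      linarith
    have h14 : 2 * (ν - ε) * -Real.log (F v) ≤ C - 2 * Real.log v := by
      rw [hC]; linarith
    have h15 : (ν - a) * -Real.log (F v) ≥ 2 * ε * -Real.log (F v) :=
      mul_le_mul_of_nonneg_right (by linarith) h5.le
    nlinarith
  · intro a ha
    set ε : ℝ := min 1 ((a - ν) / 2) with hε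
    have hε0 : 0 < ε := by
      rw [hε]
      refine lt_min one_pos ?_
      linarith
    have hε1 : ε ≤ 1 := min_le_left _ _
    have hε2 : ε ≤ (a - ν) / 2 := min_le_right _ _
    obtain ⟨K, hK, hlow⟩ := h.low ε hε0 hε1
    have e1 : ∀ᶠ n : ℕ in atTop, Real.log (R n) / Real.log n < 2 * ν + ε :=
      hR.eventually (gt_mem_nhds (by linarith))
    obtain ⟨n0, hn0⟩ := eventually_atTop.1 (e1.and (eventually_ge_atTop 2))
    have hce : Tendsto (fun v : ℝ => ⌈(F v)⁻¹⌉₊) (𝓝[>] 0) atTop := tendsto_nat_ceil_atTop.comp hinv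
    have e3 := hce.eventually (eventually_ge_atTop (max n0 2))
    set C : ℝ := (2 * ν + 2 * ε) * (Real.log 2 + Real.log (1 + K)) + Real.log K with hC
    have e4 : ∀ᶠ v : ℝ in 𝓝[>] 0, C / (a - ν) + 1 < Real.log (F v)⁻¹ :=
      hlog.eventually (eventually_gt_atTop _)
    have e5 : ∀ᶠ v : ℝ in 𝓝[>] 0, 0 < Real.log (F v)⁻¹ := hlog.eventually (eventually_gt_atTop _)
    have e6 : ∀ᶠ v : ℝ in 𝓝[>] (0 : ℝ), v < 1 :=
      mem_nhdsWithin_of_mem_nhds (gt_mem_nhds one_pos)
    filter_upwards [e3, e4, e5, e6, self_mem_nhdsWithin] with v h3 h4 h5 h6 h7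
    have hv : 0 < v := h7
    have hF : 0 < F v := h.pos v hv
    set n : ℕ := ⌈(F v)⁻¹⌉₊ with hn
    have hnn : n0 ≤ n := (le_max_left _ _).trans h3
    have hn2' : 2 ≤ n := (le_max_right _ _).trans h3
    have hn2 : (2 : ℝ) ≤ n := by exact_mod_cast hn2'
    have hn1 : (F v)⁻¹ ≤ n := Nat.le_ceil _
    have hn3 : (n : ℝ) < (F v)⁻¹ + 1 := Nat.ceil_lt_add_one (inv_nonneg.2 hF.le)
    have hnF : 1 ≤ (n : ℝ) * F v := by
      calc (1 : ℝ) = (F v)⁻¹ * F v := (inv_mul_cancel₀ hF.ne').symm
        _ ≤ (n : ℝ) * F v := mul_le_mul_of_nonneg_right hn1 hF.le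
    obtain ⟨N, hN1, hN2, hN3⟩ := hlow v n hv h6.le (by omega) hnF
    obtain ⟨hN4, hN5⟩ := hn0 N (hnn.trans hN1)
    have hln : 0 < Real.log n := Real.log_pos (by linarith)
    have hNr : (n : ℝ) ≤ N := by exact_mod_cast hN1
    have hlN : 0 < Real.log N := Real.log_pos (by linarith)
    have hNle : (N : ℝ) ≤ (1 + K) * n := by
      have : (n : ℝ) ^ (1 - ε / 20) ≤ n := by
        calc (n : ℝ) ^ (1 - ε / 20) ≤ (n : ℝ) ^ (1 : ℝ) :=
              Real.rpow_le_rpow_of_exponent_le (by linarith) (by linarith)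
          _ = n := Real.rpow_one _
      nlinarith
    have hlNle : Real.log N ≤ Real.log (1 + K) + Real.log n := by
      rw [← Real.log_mul (by linarith) (by linarith)]
      exact Real.log_le_log (by linarith) hNle
    have hnp : (0 : ℝ) < (n : ℝ) ^ (-ε) := Real.rpow_pos_of_pos (by linarith) _
    have hKp : (0 : ℝ) < K := by linarith
    have hlR : -ε * Real.log n - Real.log K - 2 * Real.log v ≤ Real.log (R N) := by
      have h20 : Real.log ((n : ℝ) ^ (-ε) / (K * v ^ 2)) ≤ Real.log (R N) :=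
        Real.log_le_log (by positivity) hN3
      rw [Real.log_div (by positivity) (by positivity), Real.log_mul (by positivity) (by positivity),
        Real.log_rpow (by linarith), Real.log_pow] at h20
      push_cast at h20
      linarith
    have h8 : Real.log (R N) < (2 * ν + ε) * Real.log N := (div_lt_iff₀ hlN).1 hN4
    have h9 : Real.log n ≤ Real.log (F v)⁻¹ + Real.log 2 := by
      have hinv1 : 1 ≤ (F v)⁻¹ := by
        by_contra hcon
        push Not at hcon
        linarith
      rw [← Real.log_mul (by positivity) (by norm_num)]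
      exact Real.log_le_log (by linarith) (by linarith)
    have h10 : -2 * Real.log v ≤ (2 * ν + 2 * ε) * (Real.log (F v)⁻¹ + Real.log 2 + Real.log (1 + K)) + Real.log K := by
      have a1 : (2 * ν + ε) * Real.log N ≤ (2 * ν + ε) * (Real.log (1 + K) + Real.log n) :=
        mul_le_mul_of_nonneg_left hlNle (by linarith)
      have a2 : (2 * ν + 2 * ε) * Real.log n ≤ (2 * ν + 2 * ε) * (Real.log (F v)⁻¹ + Real.log 2) :=
        mul_le_mul_of_nonneg_left h9 (by linarith)
      have a3 : 0 ≤ Real.log (1 + K) := Real.log_nonneg (by linarith)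
      nlinarith
    rw [Real.log_inv] at h4 h5 h10
    have h11 : Real.log v / Real.log (F v) = -Real.log v / -Real.log (F v) := by rw [neg_div_neg_eq]
    rw [h11, div_lt_iff₀ h5]
    have h12 : C < (a - ν) * -Real.log (F v) := by
      have h13 : C / (a - ν) < -Real.log (F v) := by linarith
      have := (div_lt_iff₀ (by linarith : (0:ℝ) < a - ν)).1 h13
      linarith
    have h14 : -2 * Real.log v ≤ (2 * ν + 2 * ε) * -Real.log (F v) + C := by
      rw [hC]; linarith
    have h15 : 2 * ε * -Real.log (F v) ≤ (a - ν) * -Real.log (F v) :=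
      mul_le_mul_of_nonneg_right (by linarith) h5.le
    have i1 : (2 * ν + 2 * ε) * -Real.log (F v) = 2 * (ν * -Real.log (F v)) + 2 * ε * -Real.log (F v) := by
      ring
    have i2 : (a - ν) * -Real.log (F v) = a * -Real.log (F v) - ν * -Real.log (F v) := by ring
    linarith

/-- if the size exponent exists, then so does the exponent of the force, and they agree -/
theorem Sc.tendsto_force (h : Sc F R M) {ν : ℝ} (hν : 0 < ν)
    (hR : Tendsto (fun n : ℕ => Real.log (R n) / Real.log n) atTop (𝓝 (2 * ν))) :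
    Tendsto (fun v : ℝ => Real.log (F v) / Real.log v) (𝓝[>] 0) (𝓝 (1 / ν)) := by
  have h1 := (h.tendsto_ratio hν hR).inv₀ hν.ne'
  rw [one_div]
  refine h1.congr fun v => ?_
  rw [inv_div]

end SawNu.SF
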