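import Pool.Agent.SawF.CorB
import Pool.Agent.SawF.ExpA
import Pool.Agent.SawF.ExpB

/-!
SAWF CorC: the force as a function of the free energy; transfer of exponents.
-/

set_option autoImplicit false

open Classical Filter Topology

namespace SawNu.SF

open SawNu.SB Pool.Agent.Lib.SAW.HW Pool.Agent.SawBr38

variable {C : CL} {L : RLat}

lemma gf_zero : gf C 0 = 0 := by rw [gf, sub_self]

lemma gf_continuous : Continuous (gf C) := by
  have h1 : ConvexOn ℝ Set.univ (gf C) := by
    refine ⟨convex_univ, ?_⟩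
    intro x _ y _ a b ha hb hab
    have h2 := G_convex (C := C) (s := a) (u := 0) (v := x) (u' := 0) (v' := y) ha (by linarith)
    have hb' : 1 - a = b := by linarith
    rw [hb'] at h2
    simp only [mul_zero, add_zero] at h2
    simp only [smul_eq_mul]
    rw [gf, gf, gf]
    have h3 : a * (G C 0 x - G C 0 0) + b * (G C 0 y - G C 0 0) =
        a * G C 0 x + b * G C 0 y - (a + b) * G C 0 0 := by ring
    rw [h3, hab, one_mul]
    linarith
  rw [← continuousOn_univ]
  exact h1.continuousOn isOpen_univ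

/-- strict monotonicity -/
lemma gf_strict (hM : Mirrored L) (hup : ∀ b, ∃ u ∈ L.S b, u.2 = 1)
    (hS : ∀ b, L.S b = C.S) (R : Rot L) {v w : ℝ} (hv : 0 ≤ v) (hvw : v < w) :
    gf C v < gf C w := by
  have hw : 0 < gf C w := gf_pos hM hup hS R (by linarith)
  rcases hv.eq_or_lt with rfl | hv0
  · rw [gf_zero]
    exact hw
  · have ha : 1 < w / v := by rwa [one_lt_div hv0]
    have h1 := gf_mul (C := C) hv ha.le
    rw [div_mul_cancel₀ _ hv0.ne'] at h1
    have h2 : 0 < gf C v := gf_pos hM hup hS R hv0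
    nlinarith

/-- every positive value is taken -/
lemma gf_surj (hM : Mirrored L) (hup : ∀ b, ∃ u ∈ L.S b, u.2 = 1)
    (hS : ∀ b, L.S b = C.S) (R : Rot L) {δ : ℝ} (hδ : 0 < δ) :
    ∃ V : ℝ, 0 < V ∧ gf C V = δ := by
  have h1 : 0 < gf C 1 := gf_pos hM hup hS R one_pos
  set a : ℝ := max 1 (δ / gf C 1) with ha
  have ha1 : 1 ≤ a := le_max_left _ _
  have h2 : δ ≤ gf C a := by
    have h3 := gf_mul (C := C) zero_le_one ha1
    rw [mul_one] at h3
    refine le_trans ?_ h3
    have h4 : δ / gf C 1 ≤ a := le_max_right _ _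
    rwa [div_le_iff₀ h1] at h4
  have h3 := intermediate_value_Icc (show (0 : ℝ) ≤ a by linarith)
    (gf_continuous (C := C)).continuousOn
  obtain ⟨V, hV, hV2⟩ := h3 ⟨by rw [gf_zero]; exact hδ.le, h2⟩
  refine ⟨V, ?_, hV2⟩
  rcases hV.1.eq_or_lt with h4 | h4
  · rw [← h4, gf_zero] at hV2
    linarith
  · exact h4

namespace CorC

variable {F : ℝ → ℝ} {R M : ℕ → ℝ} {ξ : ℝ → ℝ} {μ h : ℝ}

/-- the correlation length as a function of the fugacity -/
structure Cor (F : ℝ → ℝ) (ξ : ℝ → ℝ) (μ h : ℝ) : Prop where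
  hμ : 0 < μ
  hh : 0 < h
  strict : ∀ v w, 0 < v → v < w → F v < F w
  cont : Continuous F
  zero : F 0 = 0
  pos : ∀ z, 0 < z → z < 1 / μ → 0 < ξ z
  eq : ∀ z, 0 < z → z < 1 / μ → F (h / ξ z) = - Real.log (μ * z)

/-- the fugacity at which the force is `v` -/
lemma Cor.zv (c : Cor F ξ μ h) {v : ℝ} (hv : 0 < v) (hF : 0 < F v) :
    0 < Real.exp (-F v) / μ ∧ Real.exp (-F v) / μ < 1 / μ ∧ h / ξ (Real.exp (-F v) / μ) = v := by
  have hμ := c.hμ
  have h1 : 0 < Real.exp (-F v) / μ := div_pos (Real.exp_pos _) hμ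
  have h2 : Real.exp (-F v) / μ < 1 / μ := by
    apply div_lt_div_of_pos_right _ hμ
    rw [Real.exp_lt_one_iff]
    linarith
  refine ⟨h1, h2, ?_⟩
  have h3 := c.eq _ h1 h2
  rw [mul_div_cancel₀ _ hμ.ne', Real.log_exp, neg_neg] at h3
  have h4 : 0 < h / ξ (Real.exp (-F v) / μ) := div_pos c.hh (c.pos _ h1 h2)
  rcases lt_trichotomy (h / ξ (Real.exp (-F v) / μ)) v with h5 | h5 | h5
  · have := c.strict _ _ h4 h5
    linarith
  · exact h5
  · have := c.strict _ _ hv h5
    linarith

lemma Cor.delta_pos (c : Cor F ξ μ h) {z : ℝ} (h0 : 0 < z) (h1 : z < 1 / μ) :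
    0 < - Real.log (μ * z) := by
  have hμ := c.hμ
  rw [neg_pos]
  apply Real.log_neg (by positivity)
  rwa [lt_div_iff₀ hμ, mul_comm] at h1

lemma Cor.ev (c : Cor F ξ μ h) : ∀ᶠ z in 𝓝[<] (1 / μ), 0 < z ∧ z < 1 / μ := by
  have hμ := c.hμ
  have h1 : (0 : ℝ) < 1 / μ := by positivity
  filter_upwards [Ioo_mem_nhdsLT h1] with z hz
  exact hz

/-- the force tends to zero at the critical point -/
lemma Cor.tendsto_v (c : Cor F ξ μ h) (s : Sc F R M) :
    Tendsto (fun z => h / ξ z) (𝓝[<] (1 / μ)) (𝓝[>] 0) := by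
  have hμ := c.hμ
  rw [tendsto_nhdsWithin_iff]
  constructor
  · rw [tendsto_order]
    constructor
    · intro a ha
      filter_upwards [c.ev] with z hz
      exact lt_trans ha (div_pos c.hh (c.pos z hz.1 hz.2))
    · intro b hb
      have hF := s.pos b hb
      have h1 : Tendsto (fun z => - Real.log (μ * z)) (𝓝[<] (1 / μ)) (𝓝 0) := by
        have h2 : Tendsto (fun z : ℝ => μ * z) (𝓝[<] (1 / μ)) (𝓝 (μ * (1 / μ))) :=
          (tendsto_id.const_mul μ).mono_left nhdsWithin_le_nhds
        have h3 : μ * (1 / μ) = 1 := by field_simp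
        rw [h3] at h2
        have h4 := (Real.continuousAt_log one_ne_zero).tendsto.comp h2
        rw [Real.log_one] at h4
        simpa using h4.neg
      filter_upwards [c.ev, h1.eventually_lt_const hF] with z hz hz2
      rw [← c.eq z hz.1 hz.2] at hz2
      by_contra hc
      push Not at hc
      exact absurd (s.mono b _ hb hc) (not_le.2 hz2)
  · filter_upwards [c.ev] with z hz
    exact div_pos c.hh (c.pos z hz.1 hz.2)

lemma Cor.tendsto_z (c : Cor F ξ μ h) (s : Sc F R M) :
    Tendsto (fun v => Real.exp (-F v) / μ) (𝓝[>] 0) (𝓝[<] (1 / μ)) := by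
  rw [tendsto_nhdsWithin_iff]
  constructor
  · have h1 : Tendsto (fun v => Real.exp (-F v) / μ) (𝓝 0) (𝓝 (Real.exp (-F 0) / μ)) :=
      (Real.continuous_exp.comp c.cont.neg).div_const μ |>.tendsto 0
    rw [c.zero, neg_zero, Real.exp_zero] at h1
    exact h1.mono_left nhdsWithin_le_nhds
  · filter_upwards [self_mem_nhdsWithin] with v hv
    exact (c.zv hv (s.pos v hv)).2.1

lemma Cor.map_eq (c : Cor F ξ μ h) (s : Sc F R M) :
    map (fun z => h / ξ z) (𝓝[<] (1 / μ)) = 𝓝[>] 0 := by
  apply le_antisymm (c.tendsto_v s)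
  have h1 : map (fun v => h / ξ (Real.exp (-F v) / μ)) (𝓝[>] 0) = 𝓝[>] 0 := by
    have h2 : (fun v => h / ξ (Real.exp (-F v) / μ)) =ᶠ[𝓝[>] 0] id := by
      filter_upwards [self_mem_nhdsWithin] with v hv
      exact (c.zv hv (s.pos v hv)).2.2
    rw [map_congr h2, map_id]
  have h3 : map (fun z => h / ξ z) (map (fun v => Real.exp (-F v) / μ) (𝓝[>] 0)) = 𝓝[>] 0 := by
    rw [map_map]
    exact h1
  calc 𝓝[>] 0 = map (fun z => h / ξ z) (map (fun v => Real.exp (-F v) / μ) (𝓝[>] 0)) := h3.symm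
    _ ≤ _ := map_mono (c.tendsto_z s)

/-- comparison of the ratios -/
lemma Cor.diff (c : Cor F ξ μ h) (s : Sc F R M) :
    Tendsto (fun z => Real.log (ξ z) / Real.log (1 / (1 / μ - z)) -
      Real.log (h / ξ z) / Real.log (F (h / ξ z))) (𝓝[<] (1 / μ)) (𝓝 0) := by
  have hμ := c.hμ
  have hh := c.hh
  have htv := c.tendsto_v s
  -- `D = -log F(v) → ∞`
  set D : ℝ → ℝ := fun z => - Real.log (F (h / ξ z)) with hD
  have hDtop : Tendsto D (𝓝[<] (1 / μ)) atTop := by
    have h1 : Tendsto (fun v => - Real.log (F v)) (𝓝[>] 0) atTop := by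
      have h2 := Real.tendsto_log_atTop.comp s.inv_top
      refine h2.congr fun v => ?_
      simp [Real.log_inv]
    exact h1.comp htv
  -- `E = log (1/(1/μ - z))`, and `E - D` is bounded
  set E : ℝ → ℝ := fun z => Real.log (1 / (1 / μ - z)) with hE
  have hED : ∀ᶠ z in 𝓝[<] (1 / μ), |E z - D z| ≤ |Real.log μ| + Real.log 2 := by
    have h1 : Set.Ioo (1 / (2 * μ)) (1 / μ) ∈ 𝓝[<] (1 / μ) := by
      apply Ioo_mem_nhdsLT
      apply one_div_lt_one_div_of_lt hμ
      linarith
    filter_upwards [h1, c.ev] with z hz hz2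
    have hz0 := hz2.1
    have h2 : 0 < 1 - μ * z := by
      have := hz2.2
      rw [lt_div_iff₀ hμ] at this
      linarith
    have h3 : 1 / 2 < μ * z := by
      have := hz.1
      rw [div_lt_iff₀ (by positivity)] at this
      linarith
    have h4 : E z = Real.log μ - Real.log (1 - μ * z) := by
      have e1 : 1 / (1 / μ - z) = μ / (1 - μ * z) := by
        field_simp
      rw [hE]
      simp only
      rw [e1, Real.log_div hμ.ne' h2.ne']
    have h5 : D z = - Real.log (- Real.log (μ * z)) := by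
      rw [hD]
      simp only
      rw [c.eq z hz2.1 hz2.2]
    have hx : 0 < μ * z := by positivity
    -- `1 - x ≤ -log x ≤ 2 (1 - x)`
    have h6 : 1 - μ * z ≤ - Real.log (μ * z) := by
      have := Real.log_le_sub_one_of_pos hx
      linarith
    have h7 : - Real.log (μ * z) ≤ 2 * (1 - μ * z) := by
      have e1 := Real.log_le_sub_one_of_pos (inv_pos.2 hx)
      rw [Real.log_inv] at e1
      have e2 : (μ * z)⁻¹ - 1 = (1 - μ * z) / (μ * z) := by
        field_simp
      rw [e2] at e1
      have e3 : (1 - μ * z) / (μ * z) ≤ 2 * (1 - μ * z) := by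
        rw [div_le_iff₀ hx]
        nlinarith
      linarith
    have h8 := Real.log_le_log h2 h6
    have h9 := Real.log_le_log (c.delta_pos hz2.1 hz2.2) h7
    rw [Real.log_mul (by norm_num) h2.ne'] at h9
    rw [h4, h5]
    have h10 : |Real.log μ - Real.log (1 - μ * z) - -Real.log (-Real.log (μ * z))| ≤
        |Real.log μ| + |Real.log (-Real.log (μ * z)) - Real.log (1 - μ * z)| := by
      have e1 : Real.log μ - Real.log (1 - μ * z) - -Real.log (-Real.log (μ * z)) =
        Real.log μ + (Real.log (-Real.log (μ * z)) - Real.log (1 - μ * z)) := by ring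
      rw [e1]
      exact abs_add_le _ _
    refine h10.trans ?_
    have h11 : |Real.log (-Real.log (μ * z)) - Real.log (1 - μ * z)| ≤ Real.log 2 := by
      rw [abs_le]
      have : 0 ≤ Real.log 2 := Real.log_nonneg (by norm_num)
      constructor <;> linarith
    linarith
  set B : ℝ := |Real.log μ| + Real.log 2 with hB
  have hB0 : 0 ≤ B := by
    have : 0 ≤ Real.log 2 := Real.log_nonneg (by norm_num)
    positivity
  -- the bound
  have hbound : ∀ᶠ z in 𝓝[<] (1 / μ), ‖Real.log (ξ z) / E z -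
      Real.log (h / ξ z) / Real.log (F (h / ξ z))‖ ≤ (2 * B + 2 * |Real.log h|) / D z := by
    filter_upwards [hED, c.ev, hDtop.eventually_ge_atTop (2 * B + 1),
      htv.eventually s.ratio] with z h1 h2 h3 h4
    have hξ := c.pos z h2.1 h2.2
    have hD0 : 0 < D z := by linarith
    have hE0 : D z / 2 ≤ E z := by
      rw [abs_le] at h1
      linarith
    have hE1 : 0 < E z := by linarith
    have e1 : Real.log (F (h / ξ z)) = - D z := by rw [hD]; simp
    have e2 : Real.log (h / ξ z) = Real.log h - Real.log (ξ z) := Real.log_div hh.ne' hξ.ne'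
    rw [e1] at h4 ⊢
    set x : ℝ := Real.log (h / ξ z) with hx
    have e3 : Real.log (ξ z) = Real.log h - x := by linarith
    rw [e3]
    -- `r = x / (-D) ∈ [1/4, 1]`
    have h5 : |x| ≤ D z := by
      have h6 := h4.2
      have h7 := h4.1
      rw [div_le_iff_of_neg (by linarith)] at h6
      rw [le_div_iff_of_neg (by linarith)] at h7
      rw [abs_le]
      constructor <;> linarith
    have e4 : (Real.log h - x) / E z - x / -D z = Real.log h / E z + x * (E z - D z) / (D z * E z) := by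
      field_simp
      ring
    rw [e4, Real.norm_eq_abs]
    refine (abs_add_le _ _).trans ?_
    have h6 : |Real.log h / E z| ≤ 2 * |Real.log h| / D z := by
      rw [abs_div, abs_of_pos hE1, div_le_div_iff₀ hE1 hD0]
      have : 0 ≤ |Real.log h| := abs_nonneg _
      nlinarith
    have h7 : |x * (E z - D z) / (D z * E z)| ≤ 2 * B / D z := by
      rw [abs_div, abs_mul, abs_of_pos (mul_pos hD0 hE1)]
      have h8 : |x| * |E z - D z| ≤ D z * B :=
        mul_le_mul h5 h1 (abs_nonneg _) hD0.le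
      calc |x| * |E z - D z| / (D z * E z) ≤ D z * B / (D z * E z) :=
            div_le_div_of_nonneg_right h8 (by positivity)
        _ = B / E z := by
            field_simp
        _ ≤ 2 * B / D z := by
            rw [div_le_div_iff₀ hE1 hD0]
            nlinarith
    calc _ ≤ 2 * |Real.log h| / D z + 2 * B / D z := add_le_add h6 h7
      _ = _ := by ring
  exact squeeze_zero_norm' hbound (tendsto_const_nhds.div_atTop hDtop)

lemma limsup_add_tendsto {α : Type} {f : Filter α} [f.NeBot] {u w : α → ℝ} {a b : ℝ}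
    (hu : ∀ᶠ x in f, a ≤ u x ∧ u x ≤ b) (hd : Tendsto (fun x => w x - u x) f (𝓝 0)) :
    limsup w f = limsup u f := by
  have hbd : f.IsBoundedUnder (· ≤ ·) u := ⟨b, eventually_map.2 (hu.mono fun v hv => hv.2)⟩
  have hbd2 : f.IsBoundedUnder (· ≥ ·) u := ⟨a, eventually_map.2 (hu.mono fun v hv => hv.1)⟩
  apply ExpAaux.limsup_of
  · intro y hy
    obtain ⟨σ, hσ1, hσ2⟩ := exists_between hy
    filter_upwards [eventually_lt_of_limsup_lt hσ1 hbd,
      hd.eventually_lt_const (show (0 : ℝ) < y - σ by linarith)] with x h1 h2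
    linarith
  · intro y hy
    obtain ⟨σ, hσ1, hσ2⟩ := exists_between hy
    refine ((frequently_lt_of_lt_limsup hbd2.isCoboundedUnder_le hσ2).and_eventually
      (hd.eventually_const_lt (show y - σ < 0 by linarith))).mono ?_
    rintro x ⟨h1, h2⟩
    linarith

/-- the exponents of the correlation length -/
theorem Cor.limsup_eq (c : Cor F ξ μ h) (s : Sc F R M) :
    limsup (fun z => Real.log (ξ z) / Real.log (1 / (1 / μ - z))) (𝓝[<] (1 / μ)) =
      limsup (fun v : ℝ => Real.log v / Real.log (F v)) (𝓝[>] 0) := by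
  have h1 : limsup (fun v : ℝ => Real.log v / Real.log (F v)) (𝓝[>] 0) =
      limsup (fun z => Real.log (h / ξ z) / Real.log (F (h / ξ z))) (𝓝[<] (1 / μ)) := by
    rw [← c.map_eq s]
    rfl
  rw [h1]
  exact limsup_add_tendsto ((c.tendsto_v s).eventually s.ratio) (c.diff s)

theorem Cor.tendsto (c : Cor F ξ μ h) (s : Sc F R M) {ν : ℝ}
    (hν : Tendsto (fun v : ℝ => Real.log v / Real.log (F v)) (𝓝[>] 0) (𝓝 ν)) :
    Tendsto (fun z => Real.log (ξ z) / Real.log (1 / (1 / μ - z))) (𝓝[<] (1 / μ)) (𝓝 ν) := by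
  have h1 := (hν.comp (c.tendsto_v s)).add (c.diff s)
  rw [add_zero] at h1
  refine h1.congr fun z => ?_
  simp only [Function.comp_apply]
  ring

end CorC

end SawNu.SF
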