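import Pool.Agent.SawF.Insert
import Pool.Agent.Saw39.Core

/-!
SAWF C7: walks with a cut time are not rare.
-/

set_option autoImplicit false

open Classical Filter

namespace SawNu.SF

open SawNu.SB Pool.Agent.Lib.SAW

variable {C : CL} {L : RLat}

namespace CutAux

/-- lower and upper windows -/
noncomputable def wlo : Bool → ℕ → List Pt → ℤ
  | true, k, _ => 2 ^ k
  | false, k, l => max (ht l - 2 ^ (k + 1)) ((ht l + 1) / 2)

noncomputable def whi : Bool → ℕ → List Pt → ℤ
  | true, k, l => min (2 ^ (k + 1)) (ht l / 2)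
  | false, k, l => ht l - 2 ^ k

lemma win1 (w : Bool) (k : ℕ) (l : List Pt) : whi w k l ≤ 2 * wlo w k l := by
  cases w
  · simp only [wlo, whi]
    have h1 : (1 : ℤ) ≤ 2 ^ k := by exact_mod_cast Nat.one_le_two_pow
    have h2 := le_max_right (ht l - 2 ^ (k + 1)) ((ht l + 1) / 2)
    omega
  · simp only [wlo, whi]
    have h2 := min_le_left ((2 : ℤ) ^ (k + 1)) (ht l / 2)
    rw [pow_succ] at h2 ⊢
    omega

lemma win2 (w : Bool) (k : ℕ) (l : List Pt) : 2 * whi w k l - wlo w k l ≤ ht l := by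
  have h1 : (1 : ℤ) ≤ 2 ^ k := by exact_mod_cast Nat.one_le_two_pow
  cases w
  · simp only [wlo, whi]
    have h2 := le_max_left (ht l - 2 ^ (k + 1)) ((ht l + 1) / 2)
    rw [pow_succ] at h2 ⊢
    omega
  · simp only [wlo, whi]
    have h2 := min_le_right ((2 : ℤ) ^ (k + 1)) (ht l / 2)
    omega

/-- every level strictly between is in a window -/
lemma win3 {l : List Pt} {n : ℕ} {v : ℤ} (h0 : 0 < v) (h1 : v < ht l) (h2 : ht l ≤ n) :
    ∃ w k, k ≤ Nat.log 2 n ∧ wlo w k l ≤ v ∧ v ≤ whi w k l := by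
  rcases le_or_gt (2 * v) (ht l) with h | h
  · obtain ⟨u, rfl⟩ : ∃ u : ℕ, v = u := ⟨v.toNat, by omega⟩
    have hu : u ≠ 0 := by omega
    refine ⟨true, Nat.log 2 u, Nat.log_mono_right (by omega), ?_, ?_⟩
    · simp only [wlo]
      exact_mod_cast Nat.pow_log_le_self 2 hu
    · simp only [whi]
      have h3 : u < 2 ^ (Nat.log 2 u + 1) := Nat.lt_pow_succ_log_self (by norm_num) u
      apply le_min
      · exact_mod_cast h3.le
      · omega
  · obtain ⟨u, hu0⟩ : ∃ u : ℕ, ht l - v = u := ⟨(ht l - v).toNat, by omega⟩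
    have hu : u ≠ 0 := by omega
    refine ⟨false, Nat.log 2 u, Nat.log_mono_right (by omega), ?_, ?_⟩
    · simp only [wlo]
      have h3 : u < 2 ^ (Nat.log 2 u + 1) := Nat.lt_pow_succ_log_self (by norm_num) u
      have h4 : (u : ℤ) < 2 ^ (Nat.log 2 u + 1) := by exact_mod_cast h3
      apply max_le
      · omega
      · omega
    · simp only [whi]
      have h3 : (2 : ℤ) ^ (Nat.log 2 u) ≤ u := by exact_mod_cast Nat.pow_log_le_self 2 hu
      omega

lemma one_cut {l : List Pt} {t t' : ℕ} (h : CutT l t) (h' : CutT l t')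
    (he : (ps l t).2 = (ps l t').2) : t = t' := by
  rcases lt_trichotomy t t' with h1 | h1 | h1
  · have := h.aft t' h1 h'.le; omega
  · exact h1
  · have := h'.aft t h1 h.le; omega

/-- all good cuts -/
noncomputable def GA (l : List Pt) : Finset ℕ :=
  (Finset.range (l.length + 1)).filter (fun t => CutT l t ∧
    Good l.length (ps l) (ps l t).2 t)

lemma lev_bound {l : List Pt} {n : ℕ} (hl : l.length = n) (hw : Wd C l) : ht l ≤ n := by
  subst hl
  induction l with
  | nil => simp [ht]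
  | cons a l ih =>
    have h1 := ih (fun s hs => hw s (List.mem_cons_of_mem _ hs))
    have h2 := C.lev a (hw a (List.mem_cons_self))
    simp only [ht, List.sum_cons, Prod.snd_add, List.length_cons] at h1 ⊢
    push_cast
    omega

lemma GA_card_le (hS : ∀ b, L.S b = C.S) {n : ℕ} {l : List Pt} (h : l ∈ sas C n) :
    (GA l).card ≤ 2 + ∑ k ∈ Finset.range (Nat.log 2 n + 1), ∑ w : Bool, ∑ s : Bool,
      (GW s l (wlo w k l) (whi w k l)).card := by
  have hs := h
  rw [sas, Finset.mem_filter, mem_wds] at hs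
  obtain ⟨⟨h1, h2⟩, h3⟩ := hs
  have h2' : TW L.S false l := by
    have : L.S = fun _ => C.S := funext hS
    rw [this, TW_const]; exact h2
  have hcov : GA l ⊆ ((GA l).filter (fun t => (ps l t).2 = 0)) ∪
      (((GA l).filter (fun t => (ps l t).2 = ht l)) ∪
      (Finset.range (Nat.log 2 n + 1)).biUnion (fun k => (Finset.univ : Finset Bool).biUnion
        (fun w => (Finset.univ : Finset Bool).biUnion (fun s =>
          GW s l (wlo w k l) (whi w k l))))) := by
    intro t ht'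
    have ht2 := ht'
    rw [GA, Finset.mem_filter, Finset.mem_range] at ht2
    obtain ⟨k1, k2, k4⟩ := ht2
    rw [Finset.mem_union, Finset.mem_union, Finset.mem_filter, Finset.mem_filter]
    by_cases ha : (ps l t).2 = 0
    · exact Or.inl ⟨ht', ha⟩
    by_cases hb : (ps l t).2 = ht l
    · exact Or.inr (Or.inl ⟨ht', hb⟩)
    right; right
    have ht0 : 0 < t := by
      rcases Nat.eq_zero_or_pos t with h0 | h0
      · subst h0
        rw [ps_zero] at ha
        simp at ha
      · exact h0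
    have htn : t < l.length := by
      rcases lt_or_eq_of_le k2.le with h0 | h0
      · exact h0
      · rw [h0, ps_length] at hb
        exact absurd rfl hb
    have hv0 : 0 < (ps l t).2 := by
      have := k2.bef 0 (Nat.zero_le _)
      rw [ps_zero] at this
      simp only [Prod.snd_zero] at this
      omega
    have hv1 : (ps l t).2 < ht l := by
      have := k2.aft l.length htn le_rfl
      rw [ps_length] at this
      exact this
    obtain ⟨w, k, hk, hw1, hw2⟩ := win3 hv0 hv1 (lev_bound h1 h2)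
    have hsg := sign_of_good L.latE (isSAW_ps h2' h3) k2.isCut (k4.rgood 1) ht0 htn
    simp only [Finset.mem_biUnion, Finset.mem_range, Finset.mem_univ, true_and]
    refine ⟨k, by omega, w, ?_⟩
    rcases hsg with hsg | hsg
    · exact ⟨true, mem_GW.2 ⟨k2, hw1, hw2, k4.rgood _, hsg⟩⟩
    · exact ⟨false, mem_GW.2 ⟨k2, hw1, hw2, k4.rgood _, hsg⟩⟩
  have c1 : ((GA l).filter (fun t => (ps l t).2 = 0)).card ≤ 1 := by
    rw [Finset.card_le_one]
    intro a ha b hb
    rw [Finset.mem_filter, GA, Finset.mem_filter] at ha hb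
    exact one_cut ha.1.2.1 hb.1.2.1 (by rw [ha.2, hb.2])
  have c2 : ((GA l).filter (fun t => (ps l t).2 = ht l)).card ≤ 1 := by
    rw [Finset.card_le_one]
    intro a ha b hb
    rw [Finset.mem_filter, GA, Finset.mem_filter] at ha hb
    exact one_cut ha.1.2.1 hb.1.2.1 (by rw [ha.2, hb.2])
  have c3 : ((Finset.range (Nat.log 2 n + 1)).biUnion (fun k =>
      (Finset.univ : Finset Bool).biUnion
        (fun w => (Finset.univ : Finset Bool).biUnion (fun s =>
          GW s l (wlo w k l) (whi w k l))))).card ≤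
      ∑ k ∈ Finset.range (Nat.log 2 n + 1), ∑ w : Bool, ∑ s : Bool,
      (GW s l (wlo w k l) (whi w k l)).card := by
    refine Finset.card_biUnion_le.trans (Finset.sum_le_sum fun k _ => ?_)
    refine Finset.card_biUnion_le.trans (Finset.sum_le_sum fun w _ => ?_)
    exact Finset.card_biUnion_le
  have e1 := Finset.card_le_card hcov
  have e2 := Finset.card_union_le ((GA l).filter (fun t => (ps l t).2 = 0))
    (((GA l).filter (fun t => (ps l t).2 = ht l)) ∪
      (Finset.range (Nat.log 2 n + 1)).biUnion (fun k => (Finset.univ : Finset Bool).biUnion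
        (fun w => (Finset.univ : Finset Bool).biUnion (fun s =>
          GW s l (wlo w k l) (whi w k l)))))
  have e3 := Finset.card_union_le ((GA l).filter (fun t => (ps l t).2 = ht l))
    ((Finset.range (Nat.log 2 n + 1)).biUnion (fun k => (Finset.univ : Finset Bool).biUnion
        (fun w => (Finset.univ : Finset Bool).biUnion (fun s =>
          GW s l (wlo w k l) (whi w k l)))))
  omega

lemma unf_hc {n : ℕ} (hS : ∀ b, L.S b = C.S) {l : List Pt} (h : l ∈ sas C n) :
    unf l ∈ hc C n ∧ tip l ∈ GA (unf l) := by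
  have hs := h
  rw [sas, Finset.mem_filter, mem_wds] at hs
  obtain ⟨⟨h1, h2⟩, h3⟩ := hs
  have hL : L.S = fun _ => C.S := funext hS
  have h2' : TW L.S false l := by rw [hL, TW_const]; exact h2
  have hW : l ∈ WS L n := mem_WS.2 ⟨h1, h2', h3⟩
  have hU := unf_mem hW
  rw [mem_WS] at hU
  have hlen : (unf l).length = l.length := by rw [unf, length_flipS]
  have htp := isTop_tip l
  have hc := htp.isCut_foldAt
  have hg := htp.good_foldAt (isSAW_ps h2' h3)
  have e0 : (ps (unf l) (tip l)).2 = mx l := by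
    rw [ps_unf l (tip_le l)]; exact hc.level
  have hcut : CutT (unf l) (tip l) := by
    refine ⟨by rw [hlen]; exact tip_le l, ?_, ?_⟩
    · intro i hi
      rw [e0, ps_unf l (by have := tip_le l; omega)]
      exact hc.before i hi
    · intro i h4 h5
      rw [hlen] at h5
      rw [e0, ps_unf l h5]
      exact hc.after i h4 h5
  constructor
  · rw [SawNu.SF.hc, Finset.mem_filter, sas, Finset.mem_filter, mem_wds]
    refine ⟨⟨⟨hU.1, ?_⟩, hU.2.2⟩, tip l, hcut⟩
    have := hU.2.1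
    rw [hL, TW_const] at this
    exact this
  · rw [GA, Finset.mem_filter, Finset.mem_range]
    refine ⟨by rw [hlen]; have := tip_le l; omega, hcut, ?_⟩
    intro i j hi hj hjn
    rw [hlen] at hjn
    rw [e0, ps_unf l (i := i) (by have := tip_le l; omega), ps_unf l hjn]
    exact hg i j hi hj hjn

lemma unf_count (hS : ∀ b, L.S b = C.S) (n : ℕ) :
    (sas C n).card ≤ ∑ l ∈ hc C n, (GA l).card := by
  rw [← Finset.card_sigma]
  apply Finset.card_le_card_of_injOn (fun l => (⟨unf l, tip l⟩ : Σ _ : List Pt, ℕ))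
  · intro l hl
    have := unf_hc hS (Finset.mem_coe.1 hl)
    simp only [Finset.mem_coe, Finset.mem_sigma]
    exact this
  · intro l hl l' hl' heq
    have hl1 := Finset.mem_coe.1 hl
    have hl2 := Finset.mem_coe.1 hl'
    rw [sas, Finset.mem_filter, mem_wds] at hl1 hl2
    simp only [Sigma.mk.injEq, heq_eq_eq] at heq
    obtain ⟨h1, h2⟩ := heq
    have h3 : l.length = l'.length := by rw [hl1.1.1, hl2.1.1]
    have h4 := flipS_flipS (fun j => tip l ≤ j ∧ j < l.length) l
    have h5 := flipS_flipS (fun j => tip l' ≤ j ∧ j < l'.length) l'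
    rw [← h4, ← h5]
    have h6 : flipS (fun j => tip l ≤ j ∧ j < l.length) l =
      flipS (fun j => tip l' ≤ j ∧ j < l'.length) l' := h1
    rw [h6, h2, h3]

/-- numeric conclusion -/
lemma num {δ : ℝ} (hδ : 0 < δ) : ∃ n1 : ℕ, 1 ≤ n1 ∧ ∀ n : ℕ, n1 ≤ n →
    4 * ((Nat.log 2 n : ℝ) + 1) * ((n : ℝ) + 1) ≤ (n : ℝ) ^ 2 / 2 ∧
    2 * (2 + 4 * ((Nat.log 2 n : ℝ) + 1) * ((n : ℝ) ^ δ + 1)) ≤ (n : ℝ) ^ (2 * δ) := by
  have hlog2 : (0 : ℝ) < Real.log 2 := Real.log_pos (by norm_num)
  have key : ∀ ε : ℝ, 0 < ε → ∀ᶠ n : ℕ in atTop, ((Nat.log 2 n : ℝ) + 1) ≤ (n : ℝ) ^ ε := by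
    intro ε hε
    have h1 : ∀ᶠ x : ℝ in atTop, Real.log x ≤ (Real.log 2 / 2) * x ^ ε := by
      have := (isLittleO_log_rpow_atTop hε).bound (show (0 : ℝ) < Real.log 2 / 2 by positivity)
      filter_upwards [this, eventually_ge_atTop (1 : ℝ)] with x hx hx1
      have h0 : 0 ≤ Real.log x := Real.log_nonneg hx1
      have h2 : 0 ≤ x ^ ε := Real.rpow_nonneg (by linarith) _
      rwa [Real.norm_of_nonneg h0, Real.norm_of_nonneg h2] at hx
    have h2 : ∀ᶠ x : ℝ in atTop, (2 : ℝ) ≤ x ^ ε := (tendsto_rpow_atTop hε).eventually_ge_atTop 2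
    filter_upwards [tendsto_natCast_atTop_atTop.eventually h1,
      tendsto_natCast_atTop_atTop.eventually h2, eventually_ge_atTop 1] with n hn1 hn2 hn3
    have h3 : ((Nat.log 2 n : ℕ) : ℝ) ≤ Real.log n / Real.log 2 := by
      rw [le_div_iff₀ hlog2]
      have h4 : (2 : ℝ) ^ (Nat.log 2 n) ≤ n := by
        exact_mod_cast Nat.pow_log_le_self 2 (by omega)
      have h5 := Real.log_le_log (by positivity) h4
      rwa [Real.log_pow] at h5
    have h6 : Real.log n / Real.log 2 ≤ (n : ℝ) ^ ε / 2 := by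
      rw [div_le_iff₀ hlog2]
      nlinarith
    linarith
  have hd4 : (0 : ℝ) < δ / 2 := by positivity
  have e1 := key (1 / 2) (by norm_num)
  have e2 := key (δ / 2) hd4
  have e3 : ∀ᶠ n : ℕ in atTop, (16 : ℝ) ≤ (n : ℝ) ^ ((1 : ℝ) / 2) :=
    tendsto_natCast_atTop_atTop.eventually
      ((tendsto_rpow_atTop (by norm_num : (0 : ℝ) < 1 / 2)).eventually_ge_atTop 16)
  have e4 : ∀ᶠ n : ℕ in atTop, (20 : ℝ) ≤ (n : ℝ) ^ (δ / 2) :=
    tendsto_natCast_atTop_atTop.eventually
      ((tendsto_rpow_atTop hd4).eventually_ge_atTop 20)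
  have hall := (((e1.and e2).and e3).and e4).and (eventually_ge_atTop 1)
  obtain ⟨N, hN⟩ := eventually_atTop.1 hall
  refine ⟨max N 1, le_max_right _ _, fun n hn => ?_⟩
  obtain ⟨⟨⟨⟨g1, g2⟩, g3⟩, g4⟩, g5⟩ := hN n ((le_max_left _ _).trans hn)
  have hn0 : (0 : ℝ) < n := by exact_mod_cast g5
  have hn1 : (1 : ℝ) ≤ n := by exact_mod_cast g5
  set a : ℝ := (n : ℝ) ^ ((1 : ℝ) / 2) with ha
  set b : ℝ := (n : ℝ) ^ (δ / 2) with hb
  have haa : a * a = n := by
    rw [ha, ← Real.rpow_add hn0]; norm_num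
  have hbb : b * b = (n : ℝ) ^ δ := by
    rw [hb, ← Real.rpow_add hn0]; congr 1; ring
  have hb4 : (n : ℝ) ^ (2 * δ) = (b * b) * (b * b) := by
    rw [hbb, ← Real.rpow_add hn0]; congr 1; ring
  constructor
  · have hL : 0 ≤ (Nat.log 2 n : ℝ) := Nat.cast_nonneg _
    have h1 : 4 * ((Nat.log 2 n : ℝ) + 1) * ((n : ℝ) + 1) ≤ 4 * a * (2 * (a * a)) := by
      rw [haa]
      apply mul_le_mul
      · linarith
      · linarith
      · linarith
      · linarith
    have h2 : (n : ℝ) ^ 2 = a * a * (a * a) := by rw [haa]; ring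
    rw [h2]
    have h3 : 0 ≤ a * a * a := by positivity
    nlinarith
  · rw [hb4, ← hbb]
    have hL : 0 ≤ (Nat.log 2 n : ℝ) := Nat.cast_nonneg _
    have h1 : 4 * ((Nat.log 2 n : ℝ) + 1) * (b * b + 1) ≤ 4 * b * (2 * (b * b)) := by
      apply mul_le_mul
      · linarith
      · nlinarith
      · positivity
      · linarith
    have h3 : 0 ≤ b * b * b := by positivity
    have h4 : 20 * (b * b * b) ≤ b * b * (b * b) := by nlinarith
    have h5 : (20 : ℝ) ≤ b * b * b := by nlinarith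
    nlinarith

end CutAux

open CutAux in
/-- T7. Unfold at the last visit of the maximal level (`unf`, `unf_mem`); the fibre over a walk is
contained in its set of good cuts; by `rare` (dyadic windows by the distance to the levels `0` and
`ht l`) walks with more than `n^d` good cuts are rare. -/
theorem cut_exists (hS : ∀ b, L.S b = C.S) {d : ℝ} (hd : 0 < d) :
    ∃ n0 : ℕ, ∀ n : ℕ, n0 ≤ n → ((sas C n).card : ℝ) ≤ (n : ℝ) ^ d * ((hc C n).card : ℝ) := by
  have hL : L.S = fun _ => C.S := funext hS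
  obtain ⟨n1, hn1, hr⟩ := rare L (d / 2) (by positivity)
  obtain ⟨n2, hn2, hnum⟩ := CutAux.num (δ := d / 2) (by positivity)
  refine ⟨max n1 n2, fun n hn => ?_⟩
  have hnn1 : n1 ≤ n := (le_max_left _ _).trans hn
  have hnn2 : n2 ≤ n := (le_max_right _ _).trans hn
  have hn0 : (0 : ℝ) < n := by
    have : 0 < n := by omega
    exact_mod_cast this
  obtain ⟨k0, hk0, hrare⟩ := hr n hnn1
  obtain ⟨m1, m2⟩ := hnum n hnn2
  have hsas : ∀ l ∈ hc C n, l ∈ sas C n := fun l hl => by
    rw [SawNu.SF.hc, Finset.mem_filter] at hl; exact hl.1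
  have hTW : ∀ l ∈ sas C n, l.length = n ∧ TW L.S false l ∧ SA l := by
    intro l hl
    rw [sas, Finset.mem_filter, mem_wds] at hl
    refine ⟨hl.1.1, ?_, hl.2⟩
    rw [hL, TW_const]; exact hl.1.2
  have hTW' : ∀ l, l.length = n → TW L.S false l → SA l → l ∈ sas C n := by
    intro l h1 h2 h3
    rw [sas, Finset.mem_filter, mem_wds]
    rw [hL, TW_const] at h2
    exact ⟨⟨h1, h2⟩, h3⟩
  set x : ℝ := ((sas C n).card : ℝ) with hx
  set y : ℝ := ((hc C n).card : ℝ) with hy
  have hx0 : 0 ≤ x := Nat.cast_nonneg _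
  have hy0 : 0 ≤ y := Nat.cast_nonneg _
  have hwin : ∀ (w : Bool) (k : ℕ) (s : Bool),
      ((∑ l ∈ hc C n, (GW s l (wlo w k l) (whi w k l)).card : ℕ) : ℝ) ≤
      ((n : ℝ) ^ (d / 2) + 1) * y + ((n : ℝ) + 1) / (n : ℝ) ^ 2 * x := by
    intro w k s
    set Bad := (hc C n).filter
      (fun l => (n : ℝ) ^ (d / 2) + 1 ≤ ((GW s l (wlo w k l) (whi w k l)).card : ℝ)) with hBad
    have hb : (n : ℝ) ^ 2 * (Bad.card : ℝ) ≤ x := by
      refine hrare Bad (sas C n) (wlo w k) (whi w k) s ?_ ?_ ?_ ?_ ?_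
      · intro l hl
        obtain ⟨a1, a2, a3⟩ := hTW l (hsas l (Finset.mem_of_mem_filter l hl))
        exact ⟨a1, a3, false, a2⟩
      · intro l _; exact win1 w k l
      · intro l _; exact win2 w k l
      · intro l hl
        exact (Finset.mem_filter.1 hl).2
      · intro l hl T u v hz _ _
        obtain ⟨a1, a2, a3⟩ := hTW l (hsas l (Finset.mem_of_mem_filter l hl))
        exact hTW' _ (by rw [length_flipS]; exact a1) (TW_flipS _ a2) (hz.main a3).1
    have h2 : ∑ l ∈ hc C n, ((GW s l (wlo w k l) (whi w k l)).card : ℝ) ≤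
        ∑ l ∈ hc C n, (((n : ℝ) ^ (d / 2) + 1) + if l ∈ Bad then ((n : ℝ) + 1) else 0) := by
      apply Finset.sum_le_sum
      intro l hl
      by_cases hbb : l ∈ Bad
      · rw [if_pos hbb]
        have h3 := GW_card_le s l (wlo w k l) (whi w k l)
        rw [(hTW l (hsas l hl)).1] at h3
        have h4 : ((GW s l (wlo w k l) (whi w k l)).card : ℝ) ≤ (n : ℝ) + 1 := by exact_mod_cast h3
        have h5 : 0 ≤ (n : ℝ) ^ (d / 2) := Real.rpow_nonneg hn0.le _
        linarith
      · rw [if_neg hbb]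
        rw [hBad, Finset.mem_filter, not_and] at hbb
        have := hbb hl
        push Not at this
        linarith
    rw [Finset.sum_add_distrib, Finset.sum_const, nsmul_eq_mul, Finset.sum_ite_mem,
      Finset.sum_const, nsmul_eq_mul] at h2
    have h3 : hc C n ∩ Bad = Bad := Finset.inter_eq_right.2 (Finset.filter_subset _ _)
    rw [h3] at h2
    push_cast
    have h4 : (Bad.card : ℝ) ≤ x / (n : ℝ) ^ 2 := by
      rw [le_div_iff₀ (by positivity)]; linarith
    have h5 : (Bad.card : ℝ) * ((n : ℝ) + 1) ≤ x / (n : ℝ) ^ 2 * ((n : ℝ) + 1) :=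
      mul_le_mul_of_nonneg_right h4 (by positivity)
    have h6 : x / (n : ℝ) ^ 2 * ((n : ℝ) + 1) = ((n : ℝ) + 1) / (n : ℝ) ^ 2 * x := by ring
    linarith
  have hcount := unf_count (L := L) hS n
  have h1 : (∑ l ∈ hc C n, (GA l).card) ≤ ∑ l ∈ hc C n,
      (2 + ∑ k ∈ Finset.range (Nat.log 2 n + 1), ∑ w : Bool, ∑ s : Bool,
      (GW s l (wlo w k l) (whi w k l)).card) :=
    Finset.sum_le_sum fun l hl => GA_card_le (L := L) hS (hsas l hl)
  rw [Finset.sum_add_distrib] at h1
  have h2 : ∑ l ∈ hc C n, ∑ k ∈ Finset.range (Nat.log 2 n + 1), ∑ w : Bool, ∑ s : Bool,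
      (GW s l (wlo w k l) (whi w k l)).card =
      ∑ k ∈ Finset.range (Nat.log 2 n + 1), ∑ w : Bool, ∑ s : Bool,
      ∑ l ∈ hc C n, (GW s l (wlo w k l) (whi w k l)).card := by
    rw [Finset.sum_comm]
    refine Finset.sum_congr rfl fun k _ => ?_
    rw [Finset.sum_comm]
    refine Finset.sum_congr rfl fun w _ => ?_
    rw [Finset.sum_comm]
  rw [h2] at h1
  have h3 : x ≤ 2 * y + ((∑ k ∈ Finset.range (Nat.log 2 n + 1), ∑ w : Bool, ∑ s : Bool,
      ∑ l ∈ hc C n, (GW s l (wlo w k l) (whi w k l)).card : ℕ) : ℝ) := by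
    have h4 := hcount.trans h1
    have h5 : (((sas C n).card : ℕ) : ℝ) ≤ (((∑ l ∈ hc C n, 2) +
      ∑ k ∈ Finset.range (Nat.log 2 n + 1), ∑ w : Bool, ∑ s : Bool,
      ∑ l ∈ hc C n, (GW s l (wlo w k l) (whi w k l)).card : ℕ) : ℝ) := by exact_mod_cast h4
    rw [Finset.sum_const, Nat.cast_add] at h5
    simp only [smul_eq_mul, Nat.cast_mul, Nat.cast_ofNat] at h5
    linarith
  have h4 : ((∑ k ∈ Finset.range (Nat.log 2 n + 1), ∑ w : Bool, ∑ s : Bool,
      ∑ l ∈ hc C n, (GW s l (wlo w k l) (whi w k l)).card : ℕ) : ℝ) ≤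
      ∑ k ∈ Finset.range (Nat.log 2 n + 1), ∑ w : Bool, ∑ s : Bool,
      (((n : ℝ) ^ (d / 2) + 1) * y + ((n : ℝ) + 1) / (n : ℝ) ^ 2 * x) := by
    rw [Nat.cast_sum]
    refine Finset.sum_le_sum fun k _ => ?_
    rw [Nat.cast_sum]
    refine Finset.sum_le_sum fun w _ => ?_
    rw [Nat.cast_sum]
    refine Finset.sum_le_sum fun s _ => ?_
    exact hwin w k s
  simp only [Finset.sum_const, Finset.card_univ, Fintype.card_bool, Finset.card_range,
    nsmul_eq_mul] at h4
  push_cast at h3 h4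
  set Lg : ℝ := (Nat.log 2 n : ℝ) with hLg
  have hLg0 : 0 ≤ Lg := Nat.cast_nonneg _
  set z : ℝ := (n : ℝ) ^ (d / 2) with hz
  have h5 : (Lg + 1) * (2 * (2 * ((z + 1) * y + ((n : ℝ) + 1) / (n : ℝ) ^ 2 * x))) =
      4 * (Lg + 1) * (z + 1) * y + (4 * (Lg + 1) * ((n : ℝ) + 1)) / (n : ℝ) ^ 2 * x := by ring
  have h6 : (4 * (Lg + 1) * ((n : ℝ) + 1)) / (n : ℝ) ^ 2 ≤ 1 / 2 := by
    rw [div_le_iff₀ (by positivity)]; linarith
  have h7 := mul_le_mul_of_nonneg_right h6 hx0
  have h8 : x ≤ 2 * (2 + 4 * (Lg + 1) * (z + 1)) * y := by nlinarith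
  refine h8.trans ?_
  have h9 : (n : ℝ) ^ (2 * (d / 2)) = (n : ℝ) ^ d := by congr 1; ring
  rw [h9] at m2
  exact mul_le_mul_of_nonneg_right m2 hy0

end SawNu.SF
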