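import Pool.Agent.SawF.Defs

/-!
SAWF D1: basic properties of the weights.
-/

set_option autoImplicit false

open Classical
open scoped ENNReal

namespace SawNu.SF

open SawNu.SB

variable {C : CL} {δ : ℝ}

lemma wx_append (a b : List Pt) : wx C δ (a ++ b) = wx C δ a * wx C δ b := by
  unfold wx
  rw [← ENNReal.ofReal_mul (Real.exp_pos _).le, ← Real.exp_add, List.length_append]
  congr 2
  push_cast
  ring

@[simp] lemma wx_nil : wx C δ [] = 1 := by
  simp [wx]

lemma wx_ne_top (l : List Pt) : wx C δ l ≠ ⊤ := ENNReal.ofReal_ne_top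

lemma wx_pos (l : List Pt) : 0 < wx C δ l := ENNReal.ofReal_pos.2 (Real.exp_pos _)

lemma wx_anti {δ' : ℝ} (h : δ ≤ δ') (l : List Pt) : wx C δ' l ≤ wx C δ l := by
  apply ENNReal.ofReal_le_ofReal
  apply Real.exp_le_exp.2
  have h1 : (0 : ℝ) ≤ l.length := Nat.cast_nonneg _
  nlinarith [mul_le_mul_of_nonneg_right h h1]

lemma W_mono {P Q : List Pt → Prop} (h : ∀ l, P l → Q l) : W C δ P ≤ W C δ Q := by
  exact ENNReal.tsum_comp_le_tsum_of_injective
    (f := fun l : {l : List Pt // P l} => (⟨l.1, h l.1 l.2⟩ : {l : List Pt // Q l}))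
    (fun a b hab => Subtype.ext (congrArg (fun z : {l : List Pt // Q l} => z.1) hab))
    (fun l : {l : List Pt // Q l} => wx C δ l.1)

lemma W_or {P Q : List Pt → Prop} : W C δ (fun l => P l ∨ Q l) ≤ W C δ P + W C δ Q :=
  ENNReal.tsum_union_le (wx C δ) {l | P l} {l | Q l}

lemma W_anti {δ' : ℝ} (h : δ ≤ δ') (P : List Pt → Prop) : W C δ' P ≤ W C δ P :=
  ENNReal.tsum_le_tsum fun l => wx_anti h l.1

lemma D1_const {α : Type} (F : Finset α) (p : α → Prop) (h : ∀ a, p a → a ∈ F) (c : ℝ≥0∞) :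
    ∑' _ : {a : α // p a}, c ≤ (F.card : ℝ≥0∞) * c := by
  have h1 : ∑' _ : {a : α // p a}, c ≤ ∑' _ : {a : α // a ∈ F}, c :=
    ENNReal.tsum_comp_le_tsum_of_injective
      (f := fun a : {a : α // p a} => (⟨a.1, h a.1 a.2⟩ : {a : α // a ∈ F}))
      (fun a b hab => Subtype.ext (congrArg (fun z : {a : α // a ∈ F} => z.1) hab))
      (fun _ : {a : α // a ∈ F} => c)
  refine h1.trans (le_of_eq ?_)
  rw [tsum_fintype, Finset.sum_const, nsmul_eq_mul, Finset.card_univ, Fintype.card_coe]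

/-- a family of words inside `Q`, each word occurring at most `K` times -/
lemma tsum_le_mul_W {α : Type} (f : α → List Pt) {Q : List Pt → Prop} (hQ : ∀ a, Q (f a))
    {K : ℕ} (hK : ∀ w, Q w → ∃ F : Finset α, F.card ≤ K ∧ ∀ a, f a = w → a ∈ F) :
    ∑' a, wx C δ (f a) ≤ K * W C δ Q := by
  unfold W
  rw [← ENNReal.tsum_mul_left,
    ← (Equiv.sigmaFiberEquiv (fun a => (⟨f a, hQ a⟩ : {w : List Pt // Q w}))).tsum_eq,
    ENNReal.tsum_sigma']
  refine ENNReal.tsum_le_tsum fun w => ?_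
  obtain ⟨F, hF, hF'⟩ := hK w.1 w.2
  have h1 : ∀ a : {a : α // (⟨f a, hQ a⟩ : {w : List Pt // Q w}) = w}, wx C δ (f a.1) = wx C δ w.1 := by
    intro a
    have h2 : f a.1 = w.1 := congrArg (fun z : {w : List Pt // Q w} => z.1) a.2
    rw [h2]
  calc ∑' b : {a : α // (⟨f a, hQ a⟩ : {w : List Pt // Q w}) = w}, wx C δ (f b.1)
      = ∑' _ : {a : α // (⟨f a, hQ a⟩ : {w : List Pt // Q w}) = w}, wx C δ w.1 :=
        tsum_congr fun b => h1 b
    _ ≤ (F.card : ℝ≥0∞) * wx C δ w.1 := D1_const F _ (fun a ha => hF' a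
        (congrArg (fun z : {w : List Pt // Q w} => z.1) ha)) _
    _ ≤ K * wx C δ w.1 := by
        gcongr

/-- an injective family -/
lemma tsum_le_W {α : Type} (f : α → List Pt) (hf : Function.Injective f) {Q : List Pt → Prop}
    (hQ : ∀ a, Q (f a)) : ∑' a, wx C δ (f a) ≤ W C δ Q :=
  ENNReal.tsum_comp_le_tsum_of_injective
    (f := fun a : α => (⟨f a, hQ a⟩ : {l : List Pt // Q l}))
    (fun a b hab => hf (congrArg (fun z : {l : List Pt // Q l} => z.1) hab))
    (fun l : {l : List Pt // Q l} => wx C δ l.1)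

/-- products -/
lemma W_mul (P Q : List Pt → Prop) : W C δ P * W C δ Q =
    ∑' x : {l : List Pt // P l} × {l : List Pt // Q l}, wx C δ (x.1.1 ++ x.2.1) := by
  have h1 : ∑' x : {l : List Pt // P l} × {l : List Pt // Q l}, wx C δ (x.1.1 ++ x.2.1) =
      ∑' (a : {l : List Pt // P l}) (b : {l : List Pt // Q l}), wx C δ a.1 * wx C δ b.1 := by
    rw [← ENNReal.tsum_prod]
    exact tsum_congr fun x => wx_append _ _
  rw [h1]
  unfold W
  rw [← ENNReal.tsum_mul_right]
  exact tsum_congr fun a => ENNReal.tsum_mul_left.symm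

/-- decomposition by the length -/
lemma W_length (P : List Pt → Prop) (hP : ∀ l, P l → Wd C l) : W C δ P =
    ∑' n : ℕ, ENNReal.ofReal ((((wds C n).filter P).card : ℝ) *
      Real.exp (-((G C 0 0 + δ) * n))) := by
  unfold W
  rw [← (Equiv.sigmaFiberEquiv (fun l : {l : List Pt // P l} => l.1.length)).tsum_eq,
    ENNReal.tsum_sigma']
  refine tsum_congr fun n => ?_
  let e : {l : {l : List Pt // P l} // l.1.length = n} ≃ {l : List Pt // l ∈ (wds C n).filter P} :=
    { toFun := fun l => ⟨l.1.1, Finset.mem_filter.2 ⟨mem_wds.2 ⟨l.2, hP _ l.1.2⟩, l.1.2⟩⟩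
      invFun := fun l => ⟨⟨l.1, (Finset.mem_filter.1 l.2).2⟩,
        (mem_wds.1 (Finset.mem_filter.1 l.2).1).1⟩
      left_inv := fun l => rfl
      right_inv := fun l => rfl }
  have h1 : ∀ l : {l : {l : List Pt // P l} // l.1.length = n},
      wx C δ l.1.1 = ENNReal.ofReal (Real.exp (-((G C 0 0 + δ) * n))) := by
    intro l
    unfold wx
    rw [l.2]
  calc ∑' l : {l : {l : List Pt // P l} // l.1.length = n}, wx C δ l.1.1
      = ∑' _ : {l : {l : List Pt // P l} // l.1.length = n},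
          ENNReal.ofReal (Real.exp (-((G C 0 0 + δ) * n))) := tsum_congr h1
    _ = ∑' _ : {l : List Pt // l ∈ (wds C n).filter P},
          ENNReal.ofReal (Real.exp (-((G C 0 0 + δ) * n))) :=
        e.tsum_eq (fun _ => ENNReal.ofReal (Real.exp (-((G C 0 0 + δ) * n))))
    _ = _ := by
        rw [tsum_fintype, Finset.sum_const, nsmul_eq_mul, Finset.card_univ, Fintype.card_coe,
          ENNReal.ofReal_mul (Nat.cast_nonneg _), ENNReal.ofReal_natCast]

end SawNu.SF
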