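import Pool.Agent.SawF.D1

/-!
SAWF D2: bridges, renewal equation.
-/

set_option autoImplicit false

open Classical
open scoped ENNReal

namespace SawNu.SF

open SawNu.SB

variable {C : CL} {δ : ℝ}

namespace D2aux

/-- the weight as a sum over all words -/
lemma W_ind (P : List Pt → Prop) : W C δ P = ∑' l : List Pt, if P l then wx C δ l else 0 := by
  have h := tsum_subtype {l : List Pt | P l} (wx C δ)
  rw [W]
  refine h.trans (tsum_congr fun l => ?_)
  rw [Set.indicator_apply]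
  rfl

/-- partition by a statistic -/
lemma W_part (P : List Pt → Prop) (h : List Pt → ℕ) :
    W C δ P = ∑' n : ℕ, W C δ (fun l => P l ∧ h l = n) := by
  simp only [W_ind]
  rw [ENNReal.tsum_comm]
  refine tsum_congr fun l => ?_
  rw [tsum_eq_single (h l)]
  · by_cases hp : P l
    · rw [if_pos hp, if_pos ⟨hp, rfl⟩]
    · rw [if_neg hp, if_neg fun hh => hp hh.1]
  · intro n hn
    rw [if_neg]
    rintro ⟨_, h2⟩
    exact hn h2.symm

lemma W_congr {P Q : List Pt → Prop} (h : ∀ l, P l ↔ Q l) : W C δ P = W C δ Q :=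
  le_antisymm (W_mono fun l hl => (h l).1 hl) (W_mono fun l hl => (h l).2 hl)

lemma W_empty {P : List Pt → Prop} (h : ∀ l, ¬ P l) : W C δ P = 0 := by
  rw [W_ind]
  simp [h]

/-- finite sets of words -/
lemma W_finset (F : Finset (List Pt)) : W C δ (fun l => l ∈ F) = ∑ l ∈ F, wx C δ l := by
  rw [W]
  exact Finset.tsum_subtype F (wx C δ)

lemma wx_mul_exp (l : List Pt) : wx C δ l =
    wx C 0 l * ENNReal.ofReal (Real.exp (-(δ * l.length))) := by
  rw [wx, wx, ← ENNReal.ofReal_mul (Real.exp_pos _).le, ← Real.exp_add]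
  congr 2
  ring

lemma ht_toNat {l : List Pt} (h : Brc C l) {t : ℕ} : (ht l).toNat = t ↔ ht l = (t : ℤ) := by
  have h1 := h.ht_nonneg
  omega

lemma W_mul_const_le {P : List Pt → Prop} {a : ℝ≥0∞} (h : ∀ l, P l → wx C δ l ≤ wx C 0 l * a) :
    W C δ P ≤ W C 0 P * a := by
  rw [W, W, ← ENNReal.tsum_mul_right]
  exact ENNReal.tsum_le_tsum fun l => h l.1 l.2

lemma AE_zero_le (t : ℕ) : AE C 0 t ≤ 1 := by
  rw [AE, W, ENNReal.tsum_eq_iSup_sum]
  refine iSup_le fun F => ?_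
  -- a bound for the lengths
  obtain ⟨N, hN⟩ : ∃ N : ℕ, ∀ l ∈ F, l.1.length ≤ N :=
    ⟨F.sup fun l => l.1.length, fun l hl => Finset.le_sup (f := fun l => l.1.length) hl⟩
  have h1 : ∑ l ∈ F, wx C 0 l.1 = ∑ l ∈ F.map (Function.Embedding.subtype _), wx C 0 l := by
    rw [Finset.sum_map]
    rfl
  rw [h1]
  have h2 : F.map (Function.Embedding.subtype _) ⊆ brh C N t := by
    intro l hl
    rw [Finset.mem_map] at hl
    obtain ⟨x, hx, rfl⟩ := hl
    rw [mem_brh]
    exact ⟨hN x hx, x.2.1, x.2.2⟩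
  refine (Finset.sum_le_sum_of_subset h2).trans ?_
  have h3 : ∑ l ∈ brh C N t, wx C 0 l = ENNReal.ofReal (bT C 0 (G C 0 0) N t) := by
    rw [bT, ENNReal.ofReal_sum_of_nonneg fun _ _ => (wg_pos _ _ _ _).le]
    refine Finset.sum_congr rfl fun l _ => ?_
    rw [wx, wg]
    congr 2
    simp [fw]
  rw [h3]
  exact ENNReal.ofReal_le_one.2 (bT_le_one 0 N t)

lemma IE_zero : IE C δ 0 = 0 := by
  refine W_empty ?_
  rintro l ⟨h1, h2⟩
  have h3 := h1.br.ht_pos h1.2.1
  rw [h2] at h3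
  simp at h3

lemma AE_zero : AE C δ 0 = 1 := by
  have h : ∀ l : List Pt, (Brc C l ∧ ht l = ((0 : ℕ) : ℤ)) ↔ l ∈ ({[]} : Finset (List Pt)) := by
    intro l
    rw [Finset.mem_singleton]
    constructor
    · rintro ⟨h1, h2⟩
      by_contra hne
      have := h1.ht_pos hne
      rw [h2] at this
      simp at this
    · rintro rfl
      exact ⟨Brc.nil, by simp [ht]⟩
  rw [AE, W_congr h, W_finset, Finset.sum_singleton, wx_nil]

lemma ht_append (a b : List Pt) : ht (a ++ b) = ht a + ht b := by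
  simp only [ht, List.sum_append, Prod.snd_add]

/-- the renewal equation for the extended weights -/
lemma renE {t : ℕ} (ht1 : 1 ≤ t) :
    AE C δ t = ∑ j ∈ Finset.Icc 1 t, IE C δ j * AE C δ (t - j) := by
  have e1 : ∑ j ∈ Finset.Icc 1 t, IE C δ j * AE C δ (t - j) =
      ∑' j : (Finset.Icc 1 t : Finset ℕ), IE C δ j * AE C δ (t - j) := by
    rw [Finset.tsum_subtype (Finset.Icc 1 t) (fun j => IE C δ j * AE C δ (t - j))]
  have e2 : ∀ j : (Finset.Icc 1 t : Finset ℕ), IE C δ j * AE C δ (t - j) =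
      ∑' x : {l : List Pt // Irr C l ∧ ht l = ((j : ℕ) : ℤ)} ×
        {l : List Pt // Brc C l ∧ ht l = ((t - (j : ℕ) : ℕ) : ℤ)}, wx C δ (x.1.1 ++ x.2.1) := by
    intro j
    rw [IE, AE, W_mul]
  rw [e1, tsum_congr e2, ← ENNReal.tsum_sigma]
  symm
  let F : ((j : (Finset.Icc 1 t : Finset ℕ)) × ({l : List Pt // Irr C l ∧ ht l = ((j : ℕ) : ℤ)} ×
        {l : List Pt // Brc C l ∧ ht l = ((t - (j : ℕ) : ℕ) : ℤ)})) →
      {l : List Pt // Brc C l ∧ ht l = (t : ℤ)} := fun x =>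
    ⟨x.2.1.1 ++ x.2.2.1, x.2.1.2.1.br.append x.2.2.2.1, by
      have h1 := (Finset.mem_Icc.1 x.1.2).2
      rw [ht_append, x.2.1.2.2, x.2.2.2.2]
      omega⟩
  have hF : Function.Bijective F := by
    constructor
    · rintro ⟨⟨j, hj⟩, ⟨p, hp1, hp2⟩, ⟨w, hw1, hw2⟩⟩ ⟨⟨j', hj'⟩, ⟨p', hp1', hp2'⟩, ⟨w', hw1', hw2'⟩⟩ h
      have h1 : p ++ w = p' ++ w' := congrArg Subtype.val h
      obtain ⟨rfl, rfl⟩ := first_unique hp1 hw1 hp1' hw1' h1
      have h2 : j = j' := by
        simp only at hp2 hp2'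
        omega
      subst h2
      rfl
    · rintro ⟨l, hl1, hl2⟩
      have hne : l ≠ [] := by
        rintro rfl
        simp [ht] at hl2
        omega
      obtain ⟨s, hs0, hs1, _, hp, hw⟩ := exists_first hl1 hne
      have h1 := hp.br.ht_pos hp.2.1
      have h2 := hw.ht_nonneg
      have h3 : ht (l.take s) + ht (l.drop s) = (t : ℤ) := by
        rw [← ht_append, List.take_append_drop, hl2]
      refine ⟨⟨⟨(ht (l.take s)).toNat, ?_⟩, ⟨l.take s, hp, ?_⟩, ⟨l.drop s, hw, ?_⟩⟩, ?_⟩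
      · rw [Finset.mem_Icc]
        omega
      · simp only
        omega
      · simp only
        omega
      · exact Subtype.ext (List.take_append_drop s l)
  have h := (Equiv.ofBijective F hF).tsum_eq
    (fun y : {l : List Pt // Brc C l ∧ ht l = (t : ℤ)} => wx C δ y.1)
  exact h

lemma exp_sum {δ : ℝ} (hδ : 0 < δ) : Summable (fun n : ℕ => Real.exp (-(δ * n))) ∧
    ∑' n : ℕ, Real.exp (-(δ * n)) = (1 - Real.exp (-δ))⁻¹ := by
  have h1 : ∀ n : ℕ, Real.exp (-(δ * n)) = Real.exp (-δ) ^ n := by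
    intro n
    rw [← Real.exp_nat_mul]
    congr 1
    ring
  have h2 : Real.exp (-δ) < 1 := Real.exp_lt_one_iff.2 (by linarith)
  constructor
  · simp only [h1]
    exact summable_geometric_of_lt_one (Real.exp_pos _).le h2
  · simp only [h1]
    exact tsum_geometric_of_lt_one (Real.exp_pos _).le h2

lemma exp_le {δ : ℝ} (hδ : 0 < δ) (h1 : δ ≤ 1) : (1 - Real.exp (-δ))⁻¹ ≤ 2 / δ := by
  have h2 : δ / 2 ≤ 1 - Real.exp (-δ) := by
    have h3 : (1 + δ) * Real.exp (-δ) ≤ 1 := by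
      have h4 : 1 + δ ≤ Real.exp δ := by linarith [Real.add_one_le_exp δ]
      calc (1 + δ) * Real.exp (-δ) ≤ Real.exp δ * Real.exp (-δ) :=
            mul_le_mul_of_nonneg_right h4 (Real.exp_pos _).le
        _ = 1 := by rw [← Real.exp_add]; simp
    have h5 : Real.exp (-δ) ≤ 1 / (1 + δ) := by
      rw [le_div_iff₀ (by linarith)]
      linarith
    have h6 : 1 / (1 + δ) ≤ 1 - δ / 2 := by
      rw [div_le_iff₀ (by linarith)]
      nlinarith
    linarith
  calc (1 - Real.exp (-δ))⁻¹ ≤ (δ / 2)⁻¹ := inv_anti₀ (by linarith) h2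
    _ = 2 / δ := by rw [inv_div]

end D2aux

open D2aux

/-- bridges of length `n` weigh at most `exp(-δ n)` -/
lemma W_brs_le (n : ℕ) : W C δ (fun l => Brc C l ∧ l.length = n) ≤
    ENNReal.ofReal (Real.exp (-(δ * n))) := by
  have h : ∀ l : List Pt, (Brc C l ∧ l.length = n) ↔ l ∈ brs C n := by
    intro l
    rw [mem_brs]
    exact and_comm
  rw [W_congr h, W_finset]
  have h1 : ∀ l ∈ brs C n, wx C δ l = ENNReal.ofReal (Real.exp (-((G C 0 0 + δ) * n))) := by
    intro l hl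
    rw [wx, (mem_brs.1 hl).1]
  rw [Finset.sum_congr rfl h1, Finset.sum_const, nsmul_eq_mul, ← ENNReal.ofReal_natCast,
    ← ENNReal.ofReal_mul (Nat.cast_nonneg _)]
  refine ENNReal.ofReal_le_ofReal ?_
  have h2 : ((brs C n).card : ℝ) ≤ Real.exp (G C 0 0 * n) := by
    have h3 := Zb_le (C := C) 0 0 n
    have h4 : Zb C 0 0 n = ((brs C n).card : ℝ) := by
      rw [Zb]
      simp [fw]
    rwa [h4] at h3
  calc ((brs C n).card : ℝ) * Real.exp (-((G C 0 0 + δ) * n))
      ≤ Real.exp (G C 0 0 * n) * Real.exp (-((G C 0 0 + δ) * n)) :=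
        mul_le_mul_of_nonneg_right h2 (Real.exp_pos _).le
    _ = Real.exp (-(δ * n)) := by
        rw [← Real.exp_add]
        congr 1
        ring

namespace D2aux

lemma W_brc_bound (hδ : 0 < δ) : W C δ (Brc C) ≤ ENNReal.ofReal ((1 - Real.exp (-δ))⁻¹) := by
  rw [W_part (Brc C) List.length, ← (exp_sum hδ).2,
    ENNReal.ofReal_tsum_of_nonneg (fun n => (Real.exp_pos _).le) (exp_sum hδ).1]
  exact ENNReal.tsum_le_tsum fun n => W_brs_le n

end D2aux

/-- all bridges -/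
lemma W_brc_ne_top (hδ : 0 < δ) : W C δ (Brc C) ≠ ⊤ :=
  ne_top_of_le_ne_top ENNReal.ofReal_ne_top (W_brc_bound hδ)

lemma W_brc_le (hδ : 0 < δ) (h1 : δ ≤ 1) : (W C δ (Brc C)).toReal ≤ 2 / δ := by
  refine le_trans ?_ (exp_le hδ h1)
  have h2 : 0 ≤ (1 - Real.exp (-δ))⁻¹ := by
    rw [inv_nonneg, sub_nonneg]
    exact Real.exp_le_one_iff.2 (by linarith)
  exact ENNReal.toReal_le_of_le_ofReal h2 (W_brc_bound hδ)

lemma AE_le_one (hδ : 0 ≤ δ) (t : ℕ) : AE C δ t ≤ 1 :=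
  (W_anti hδ _).trans (AE_zero_le t)

lemma IE_le_AE (t : ℕ) : IE C δ t ≤ AE C δ t :=
  W_mono fun _ h => ⟨h.1.br, h.2⟩

/-- heights are at most lengths -/
lemma AE_le_exp (hδ : 0 ≤ δ) (t : ℕ) : AE C δ t ≤ ENNReal.ofReal (Real.exp (-(δ * t))) := by
  have h1 : AE C δ t ≤ AE C 0 t * ENNReal.ofReal (Real.exp (-(δ * t))) := by
    refine W_mul_const_le ?_
    rintro l ⟨h1, h2⟩
    rw [wx_mul_exp]
    refine mul_le_mul_right (ENNReal.ofReal_le_ofReal (Real.exp_le_exp.2 ?_)) _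
    have h3 := ht_le_length h1.wd
    rw [h2] at h3
    have h4 : (t : ℝ) ≤ (l.length : ℝ) := by exact_mod_cast h3
    have h5 := mul_le_mul_of_nonneg_left h4 hδ
    linarith
  refine h1.trans ?_
  calc AE C 0 t * ENNReal.ofReal (Real.exp (-(δ * t)))
      ≤ 1 * ENNReal.ofReal (Real.exp (-(δ * t))) := mul_le_mul_left (AE_zero_le t) _
    _ = _ := one_mul _

namespace D2aux

lemma AE_ne_top (hδ : 0 ≤ δ) (t : ℕ) : AE C δ t ≠ ⊤ :=
  ne_top_of_le_ne_top ENNReal.one_ne_top (AE_le_one hδ t)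

lemma IE_ne_top (hδ : 0 ≤ δ) (t : ℕ) : IE C δ t ≠ ⊤ :=
  ne_top_of_le_ne_top (AE_ne_top hδ t) (IE_le_AE t)

end D2aux

/-- the renewal equation -/
theorem ren (hδ : 0 ≤ δ) : Ren (iR C δ) (aR C δ) where
  nn _ := ENNReal.toReal_nonneg
  i0 := by rw [iR, IE_zero, ENNReal.toReal_zero]
  a0 := by rw [aR, AE_zero, ENNReal.toReal_one]
  req := by
    intro t ht1
    rw [aR, renE ht1, ENNReal.toReal_sum fun j _ =>
      ENNReal.mul_ne_top (IE_ne_top hδ _) (AE_ne_top hδ _)]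
    refine Finset.sum_congr rfl fun j _ => ?_
    rw [ENNReal.toReal_mul]
    rfl

lemma iR_anti (hδ : 0 ≤ δ) (t : ℕ) : iR C δ t ≤ iR C 0 t :=
  ENNReal.toReal_mono (IE_ne_top le_rfl t) (W_anti hδ _)

lemma iR_sum_le (N : ℕ) : ∑ j ∈ Finset.Icc 1 N, iR C 0 j ≤ 1 := by
  have h := ren (C := C) (δ := 0) le_rfl
  have h1 := renewal_le_one (I := iR C 0) (Z := aR C 0) (r := 0) (K := 1) h.nn h.a0 h.req
    (fun n => by
      rw [zero_mul, Real.exp_zero, mul_one]
      exact ENNReal.toReal_le_of_le_ofReal zero_le_one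
        (by rw [ENNReal.ofReal_one]; exact AE_le_one le_rfl n)) N
  refine le_trans (le_of_eq (Finset.sum_congr rfl fun k _ => ?_)) h1
  rw [zero_mul, neg_zero, Real.exp_zero, mul_one]

lemma aR_summable (hδ : 0 < δ) : Summable (aR C δ) :=
  Summable.of_nonneg_of_le (fun _ => ENNReal.toReal_nonneg)
    (fun t => ENNReal.toReal_le_of_le_ofReal (Real.exp_pos _).le (AE_le_exp hδ.le t))
    (exp_sum hδ).1

/-- the total weight -/
lemma tsum_aR (hδ : 0 < δ) : ∑' t, aR C δ t = (W C δ (Brc C)).toReal := by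
  rw [W_part (Brc C) (fun l => (ht l).toNat)]
  have h1 : ∀ t : ℕ, W C δ (fun l => Brc C l ∧ (ht l).toNat = t) = AE C δ t := by
    intro t
    exact W_congr fun l => and_congr_right fun h => ht_toNat h
  rw [tsum_congr h1, ENNReal.tsum_toReal_eq (fun t => AE_ne_top hδ.le t)]
  rfl

/-- weights of sets of bridges with a restriction on the height -/
lemma W_ht (hδ : 0 < δ) (P : ℕ → Prop) : (W C δ (fun l => Brc C l ∧ P (ht l).toNat)).toReal =
    ∑' t, if P t then aR C δ t else 0 := by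
  rw [W_part _ (fun l => (ht l).toNat)]
  have h1 : ∀ t : ℕ, W C δ (fun l => (Brc C l ∧ P (ht l).toNat) ∧ (ht l).toNat = t) =
      if P t then AE C δ t else 0 := by
    intro t
    by_cases hp : P t
    · rw [if_pos hp]
      refine W_congr fun l => ⟨?_, ?_⟩
      · rintro ⟨⟨h1, _⟩, h2⟩
        exact ⟨h1, (ht_toNat h1).1 h2⟩
      · rintro ⟨h1, h2⟩
        have h3 := (ht_toNat h1).2 h2
        exact ⟨⟨h1, by rw [h3]; exact hp⟩, h3⟩
    · rw [if_neg hp]
      refine W_empty ?_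
      rintro l ⟨⟨_, h2⟩, h3⟩
      rw [h3] at h2
      exact hp h2
  rw [tsum_congr h1, ENNReal.tsum_toReal_eq]
  · refine tsum_congr fun t => ?_
    by_cases hp : P t
    · rw [if_pos hp, if_pos hp]
      rfl
    · rw [if_neg hp, if_neg hp, ENNReal.toReal_zero]
  · intro t
    by_cases hp : P t
    · rw [if_pos hp]
      exact AE_ne_top hδ.le t
    · rw [if_neg hp]
      exact ENNReal.zero_ne_top

lemma W_irr_ht (hδ : 0 < δ) (P : ℕ → Prop) : (W C δ (fun l => Irr C l ∧ P (ht l).toNat)).toReal =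
    ∑' t, if P t then iR C δ t else 0 := by
  rw [W_part _ (fun l => (ht l).toNat)]
  have h1 : ∀ t : ℕ, W C δ (fun l => (Irr C l ∧ P (ht l).toNat) ∧ (ht l).toNat = t) =
      if P t then IE C δ t else 0 := by
    intro t
    by_cases hp : P t
    · rw [if_pos hp]
      refine W_congr fun l => ⟨?_, ?_⟩
      · rintro ⟨⟨h1, _⟩, h2⟩
        exact ⟨h1, (ht_toNat h1.br).1 h2⟩
      · rintro ⟨h1, h2⟩
        have h3 := (ht_toNat h1.br).2 h2
        exact ⟨⟨h1, by rw [h3]; exact hp⟩, h3⟩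
    · rw [if_neg hp]
      refine W_empty ?_
      rintro l ⟨⟨_, h2⟩, h3⟩
      rw [h3] at h2
      exact hp h2
  rw [tsum_congr h1, ENNReal.tsum_toReal_eq]
  · refine tsum_congr fun t => ?_
    by_cases hp : P t
    · rw [if_pos hp, if_pos hp]
      rfl
    · rw [if_neg hp, if_neg hp, ENNReal.toReal_zero]
  · intro t
    by_cases hp : P t
    · rw [if_pos hp]
      exact IE_ne_top hδ.le t
    · rw [if_neg hp]
      exact ENNReal.zero_ne_top

end SawNu.SF
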