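import Pool.Agent.SAWF.Renew2

/-!
SAWF N1: renewal sequences (real valued). `i` = weights of the irreducible pieces,
`a` = weights of all configurations.
-/

set_option autoImplicit false

open Finset

namespace SawNu.SF

/-- renewal sequence -/
structure Ren (i a : ℕ → ℝ) : Prop where
  nn : ∀ j, 0 ≤ i j
  i0 : i 0 = 0
  a0 : a 0 = 1
  req : ∀ t, 1 ≤ t → a t = ∑ j ∈ Finset.Icc 1 t, i j * a (t - j)

/-- partial sums including the term `k` -/
def Us (a : ℕ → ℝ) (k : ℕ) : ℝ := ∑ j ∈ Finset.range (k + 1), a j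

variable {i a : ℕ → ℝ}

lemma sum_Icc_one (g : ℕ → ℝ) (n : ℕ) : ∑ r ∈ Icc 1 n, g r = ∑ r ∈ range n, g (r + 1) := by
  induction n with
  | zero => simp
  | succ n ih => rw [Finset.sum_Icc_succ_top (by omega), ih, sum_range_succ]

lemma Ren.toR (h : Ren i a) : SAWF.Ren a i := by
  refine ⟨h.i0, h.nn, h.a0, ?_⟩
  intro n
  rw [h.req (n + 1) (by omega), sum_Icc_one]
  apply sum_congr rfl
  intro k hk
  rw [mem_range] at hk
  rw [show n + 1 - (k + 1) = n - k by omega]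

lemma Ren.ofR (h : SAWF.Ren a i) : Ren i a := by
  refine ⟨h.inn, h.i0, h.a0, ?_⟩
  intro t ht
  obtain ⟨n, rfl⟩ : ∃ n, t = n + 1 := ⟨t - 1, by omega⟩
  rw [h.recu, sum_Icc_one]
  apply sum_congr rfl
  intro k hk
  rw [mem_range] at hk
  rw [show n + 1 - (k + 1) = n - k by omega]

lemma Us_eq (a : ℕ → ℝ) (k : ℕ) : Us a k = SAWF.ps0 a k := rfl

lemma tl_eq (h0 : i 0 = 0) (k : ℕ) : SAWF.tl i k = 1 - ∑ j ∈ Icc 1 k, i j := by
  rw [SAWF.tl, sum_range_succ', h0, add_zero, sum_Icc_one]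

lemma Ren.sub (h : Ren i a) (hs : ∀ N, ∑ j ∈ Finset.Icc 1 N, i j ≤ 1) : SAWF.Sub i := by
  intro k
  rw [tl_eq h.i0]
  have := hs k
  linarith

lemma Ren.a_nn (h : Ren i a) (t : ℕ) : 0 ≤ a t := h.toR.nonneg t

lemma Ren.Us_mono (h : Ren i a) {k l : ℕ} (hkl : k ≤ l) : Us a k ≤ Us a l := h.toR.ps_mono hkl

lemma Ren.one_le_Us (h : Ren i a) (k : ℕ) : 1 ≤ Us a k := h.toR.one_le_ps k

lemma Ren.a_le_one (h : Ren i a) (hs : ∀ N, ∑ j ∈ Finset.Icc 1 N, i j ≤ 1) (t : ℕ) : a t ≤ 1 :=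
  h.toR.le_one (h.sub hs) t

/-- a window of `k+1` heights carries at most as much as the first one -/
lemma Ren.window (h : Ren i a) (hs : ∀ N, ∑ j ∈ Finset.Icc 1 N, i j ≤ 1) (m k : ℕ) :
    ∑ j ∈ Finset.range (k + 1), a (m + j) ≤ Us a k := h.toR.window (h.sub hs) k m

/-- `U(m (k+1) - 1) ≤ m U(k)` -/
lemma Ren.Us_mul (h : Ren i a) (hs : ∀ N, ∑ j ∈ Finset.Icc 1 N, i j ≤ 1) (m k : ℕ) (hm : 1 ≤ m) :
    Us a (m * (k + 1) - 1) ≤ m * Us a k := by
  have h1 := h.toR.multi (h.sub hs) k m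
  have h2 : 1 ≤ m * (k + 1) := Nat.mul_pos hm (by omega)
  rw [Us, show m * (k + 1) - 1 + 1 = m * (k + 1) by omega]
  exact h1

/-- `U(l) ≤ (l / k + 1) U(k)` -/
lemma Ren.Us_growth (h : Ren i a) (hs : ∀ N, ∑ j ∈ Finset.Icc 1 N, i j ≤ 1) {k l : ℕ}
    (hk : 1 ≤ k) : Us a l ≤ ((l : ℝ) / k + 1) * Us a k := by
  have hk0 : (0 : ℝ) < k := by exact_mod_cast hk
  set m := l / (k + 1) + 1 with hm
  have h1 := h.Us_mul hs m k (Nat.succ_pos _)
  have h2 : l ≤ m * (k + 1) - 1 := by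
    have := Nat.div_add_mod l (k + 1)
    have h3 := Nat.mod_lt l (by omega : 0 < k + 1)
    have h4 : m * (k + 1) = (k + 1) * (l / (k + 1)) + (k + 1) := by rw [hm]; ring
    omega
  have h5 := (h.Us_mono h2).trans h1
  refine h5.trans (mul_le_mul_of_nonneg_right ?_ (by have := h.one_le_Us k; linarith))
  rw [hm]
  push_cast
  have h6 : ((l / (k + 1) : ℕ) : ℝ) ≤ (l : ℝ) / ((k + 1 : ℕ) : ℝ) := Nat.cast_div_le
  have h7 : (l : ℝ) / ((k + 1 : ℕ) : ℝ) ≤ (l : ℝ) / k := by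
    apply div_le_div_of_nonneg_left (Nat.cast_nonneg l) hk0
    push_cast; linarith
  linarith

/-- `U(k) K(k+1) ≤ 1` -/
lemma Ren.tail (h : Ren i a) (hs : ∀ N, ∑ j ∈ Finset.Icc 1 N, i j ≤ 1) (k N : ℕ) :
    Us a k * ∑ j ∈ Finset.Ioc k N, i j ≤ 1 := by
  have h1 := h.toR.ps_tl k
  have h2 : ∑ j ∈ Finset.Ioc k N, i j ≤ SAWF.tl i k := by
    rw [tl_eq h.i0]
    rcases le_or_gt k N with hkN | hkN
    · have h3 := hs N
      have h4 : ∑ j ∈ Icc 1 N, i j = ∑ j ∈ Icc 1 k, i j + ∑ j ∈ Ioc k N, i j := by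
        rw [← sum_union]
        · apply sum_congr _ fun _ _ => rfl
          ext x; simp only [mem_Icc, mem_union, mem_Ioc]; omega
        · rw [disjoint_left]
          intro x hx hx'
          rw [mem_Icc] at hx
          rw [mem_Ioc] at hx'
          omega
      linarith
    · rw [Ioc_eq_empty (by omega), sum_empty]
      have := hs k
      linarith
  exact (mul_le_mul_of_nonneg_left h2 (h.toR.ps_nonneg k)).trans h1

/-- `U(k) ∑_{j ≤ k} j i_j ≤ 2k+1` -/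
lemma Ren.moment (h : Ren i a) (hs : ∀ N, ∑ j ∈ Finset.Icc 1 N, i j ≤ 1) (k : ℕ) :
    Us a k * ∑ j ∈ Finset.Icc 1 k, (j : ℝ) * i j ≤ 2 * k + 1 := by
  have h1 := h.toR.mean (h.sub hs) k
  refine le_trans (mul_le_mul_of_nonneg_left ?_ (h.toR.ps_nonneg k)) h1
  apply sum_le_sum_of_subset_of_nonneg
  · intro x hx
    rw [mem_Icc] at hx
    rw [mem_range]; omega
  · intro x _ _
    exact mul_nonneg (Nat.cast_nonneg _) (h.nn x)

/-- tilting by an exponential in the height -/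
lemma Ren.tilt (h : Ren i a) (θ : ℝ) :
    Ren (fun j => i j * Real.exp (θ * j)) (fun t => a t * Real.exp (θ * t)) :=
  Ren.ofR (h.toR.tilt θ)

lemma Ren.i_le_a (h : Ren i a) (t : ℕ) : i t ≤ a t := by
  rcases Nat.eq_zero_or_pos t with h0 | h0
  · subst h0; rw [h.i0, h.a0]; norm_num
  · rw [h.req t h0]
    have h1 : i t * a (t - t) ≤ ∑ j ∈ Icc 1 t, i j * a (t - j) :=
      single_le_sum (f := fun j => i j * a (t - j))
        (fun j _ => mul_nonneg (h.nn j) (h.a_nn _)) (mem_Icc.2 ⟨h0, le_rfl⟩)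
    rw [Nat.sub_self, h.a0, mul_one] at h1
    exact h1

/-- the total weight -/
lemma Ren.total (h : Ren i a) (hsum : Summable a) :
    Summable i ∧ ∑' j, i j < 1 ∧ (∑' t, a t) * (1 - ∑' j, i j) = 1 := by
  have hi : Summable i := Summable.of_nonneg_of_le h.nn h.i_le_a hsum
  have hprod := tsum_mul_tsum_eq_tsum_sum_range_of_summable_norm (f := i) (g := a)
    (by simpa [Real.norm_eq_abs, abs_of_nonneg (h.nn _)] using hi)
    (by simpa [Real.norm_eq_abs, abs_of_nonneg (h.a_nn _)] using hsum)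
  have hc : ∀ n, ∑ k ∈ range (n + 1), i k * a (n - k) = a n - (if n = 0 then 1 else 0) := by
    intro n
    rcases Nat.eq_zero_or_pos n with h0 | h0
    · subst h0; simp [h.i0, h.a0]
    · rw [if_neg (by omega), sub_zero, h.req n h0, sum_Icc_one, sum_range_succ']
      rw [h.i0, zero_mul, add_zero]
  have hs1 : Summable (fun n : ℕ => if n = 0 then (1 : ℝ) else 0) :=
    summable_of_ne_finset_zero (s := {0}) (by
      intro b hb
      rw [mem_singleton] at hb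
      rw [if_neg hb])
  have h1 : ∑' n : ℕ, (if n = 0 then (1 : ℝ) else 0) = 1 := by
    rw [tsum_eq_single 0]
    · simp
    · intro b hb
      rw [if_neg hb]
  have h2 : (∑' j, i j) * (∑' t, a t) = (∑' t, a t) - 1 := by
    rw [hprod]
    rw [tsum_congr hc, hsum.tsum_sub hs1, h1]
  have h3 : (∑' t, a t) * (1 - ∑' j, i j) = 1 := by linarith
  have h4 : 1 ≤ ∑' t, a t := by
    have := hsum.sum_le_tsum {0} (fun t _ => h.a_nn t)
    simpa [h.a0] using this
  refine ⟨hi, ?_, h3⟩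
  by_contra hcon
  push Not at hcon
  have : (∑' t, a t) * (1 - ∑' j, i j) ≤ 0 :=
    mul_nonpos_of_nonneg_of_nonpos (by linarith) (by linarith)
  linarith

/-- converse: subcritical pieces have a finite total weight -/
lemma Ren.summable_of (h : Ren i a) (hi : Summable i) (h1 : ∑' j, i j < 1) : Summable a := by
  apply summable_of_sum_range_le h.a_nn (c := 1 / (1 - ∑' j, i j))
  intro n
  apply h.toR.total (by linarith)
  intro m
  have := hi.sum_le_tsum (range m) (fun t _ => h.nn t)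
  linarith

/-- uniqueness and existence of the renewal sequence with given pieces -/
lemma exists_ren (i : ℕ → ℝ) (hn : ∀ j, 0 ≤ i j) (h0 : i 0 = 0) : ∃ a : ℕ → ℝ, Ren i a :=
  ⟨SAWF.mkRen i, Ren.ofR (SAWF.mkRen_ren h0 hn)⟩

lemma Ren.mono {i' a' : ℕ → ℝ} (h : Ren i a) (h' : Ren i' a') (hle : ∀ j, i j ≤ i' j) (t : ℕ) :
    a t ≤ a' t := h.toR.mono h'.toR hle t

end SawNu.SF
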