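import Pool.Agent.SawFlat.Lower
import Pool.Agent.Saw39.SBR.SwCore
import Pool.Agent.SawF.Num1

/-!
SAWF D: weights of sets of words at the tilt `δ` above criticality.
-/

set_option autoImplicit false

open Classical
open scoped ENNReal

namespace SawNu.SF

open SawNu.SB

/-- weight of a word: `μ^(-n) exp(-δ n)` -/
noncomputable def wx (C : CL) (δ : ℝ) (l : List Pt) : ℝ≥0∞ :=
  ENNReal.ofReal (Real.exp (-((G C 0 0 + δ) * (l.length : ℝ))))

/-- total weight of the words with the property `P` -/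
noncomputable def W (C : CL) (δ : ℝ) (P : List Pt → Prop) : ℝ≥0∞ :=
  ∑' l : {l : List Pt // P l}, wx C δ l.1

/-- bridges of height `t` -/
noncomputable def AE (C : CL) (δ : ℝ) (t : ℕ) : ℝ≥0∞ := W C δ (fun l => Brc C l ∧ ht l = (t : ℤ))

/-- irreducible bridges of height `t` -/
noncomputable def IE (C : CL) (δ : ℝ) (t : ℕ) : ℝ≥0∞ := W C δ (fun l => Irr C l ∧ ht l = (t : ℤ))

/-- real versions -/
noncomputable def aR (C : CL) (δ : ℝ) (t : ℕ) : ℝ := (AE C δ t).toReal
noncomputable def iR (C : CL) (δ : ℝ) (t : ℕ) : ℝ := (IE C δ t).toReal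

end SawNu.SF
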