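import Pool.Agent.SawF.Upper
import Pool.Agent.Saw39.SBR.FinalW

/-!
SAWF EncA: the tail of the maximal displacement in the encoding of the problem.
-/

set_option autoImplicit false

open Classical Filter

namespace SawNu.SF

open SawNu.SB SawNu.SBR Pool.Agent.Lib.SAW.HW Pool.Agent.SawBr38

variable {C : CL} {L : RLat}

/-- the tail of the displacement and the tails of the maximal levels of the four images -/
lemma EncA1_WS {L : RLat} {k : ℕ} (e : Enc L k) (R : Rot L)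
    (hup : ∀ p q : Pt, R.k * q.2 = R.c * p.1 + R.d * p.2 →
      ‖e.φ p‖ ^ 2 ≤ 2 * ((p.2 : ℝ) ^ 2 + (q.2 : ℝ) ^ 2)) (n : ℕ) {x : ℝ} (hx : 0 < x) :
      ((WS L n).filter (fun l => ∃ j ≤ n, x ≤ ‖e.φ (ps l j)‖)).card ≤
        4 * ((WS L n).filter (fun l => x / 3 ≤ ((mx l : ℤ) : ℝ))).card := by
  set A := (WS L n).filter (fun l => x / 3 ≤ ((mx l : ℤ) : ℝ)) with hA
  have hcard : ∀ g : List Pt → List Pt, (∀ l ∈ WS L n, g l ∈ WS L n) →
      (∀ l ∈ WS L n, ∀ l' ∈ WS L n, g l = g l' → l = l') →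
      ((WS L n).filter (fun l => x / 3 ≤ ((mx (g l) : ℤ) : ℝ))).card ≤ A.card := by
    intro g hg hinj
    apply Finset.card_le_card_of_injOn g
    · intro l hl
      rw [Finset.mem_coe, Finset.mem_filter] at hl
      rw [Finset.mem_coe, hA, Finset.mem_filter]
      exact ⟨hg l hl.1, hl.2⟩
    · intro l hl l' hl' he
      rw [Finset.mem_coe, Finset.mem_filter] at hl hl'
      exact hinj l hl.1 l' hl'.1 he
  have irho : ∀ l l' : List Pt, l.map rhoH = l'.map rhoH → l = l' := fun l l' h =>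
    List.map_injective_iff.mpr (fun a b => rhoH_inj) h
  have irot : ∀ l ∈ WS L n, ∀ l' ∈ WS L n, l.map R.f = l'.map R.f → l = l' :=
    fun l hl l' hl' h => R.map_inj (mem_WS.mp hl).2.1 (mem_WS.mp hl').2.1 h
  have c1 := hcard (fun l => l) (fun l hl => hl) (fun l _ l' _ h => h)
  have c2 := hcard (fun l => l.map rhoH) (fun l hl => rho_mem_WS hl) (fun l _ l' _ h => irho l l' h)
  have c3 := hcard (fun l => l.map R.f) (fun l hl => R.mem_WS hl) irot
  have c4 := hcard (fun l => (l.map R.f).map rhoH) (fun l hl => rho_mem_WS (R.mem_WS hl))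
    (fun l hl l' hl' h => irot l hl l' hl' (irho _ _ h))
  have hsub : ((WS L n).filter (fun l => ∃ j ≤ n, x ≤ ‖e.φ (ps l j)‖)) ⊆
      ((WS L n).filter (fun l => x / 3 ≤ ((mx l : ℤ) : ℝ)) ∪
        (WS L n).filter (fun l => x / 3 ≤ ((mx (l.map rhoH) : ℤ) : ℝ))) ∪
      ((WS L n).filter (fun l => x / 3 ≤ ((mx (l.map R.f) : ℤ) : ℝ)) ∪
        (WS L n).filter (fun l => x / 3 ≤ ((mx ((l.map R.f).map rhoH) : ℤ) : ℝ))) := by
    intro l hl
    rw [Finset.mem_filter] at hl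
    obtain ⟨hlW, j, hj, hvj⟩ := hl
    rw [Finset.mem_union, Finset.mem_union, Finset.mem_union, Finset.mem_filter,
      Finset.mem_filter, Finset.mem_filter, Finset.mem_filter]
    by_contra hcon
    push Not at hcon
    obtain ⟨⟨d1, d2⟩, d3, d4⟩ := hcon
    have d1 := d1 hlW
    have d2 := d2 hlW
    have d3 := d3 hlW
    have d4 := d4 hlW
    have hS := norm_pos_le e R hup hlW hj
    rw [S4] at hS
    have hnn : ∀ l : List Pt, (0 : ℝ) ≤ ((mx l : ℤ) : ℝ) := fun l => by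
      exact_mod_cast mx_nonneg l
    have q1 := pow_le_pow_left₀ (hnn l) d1.le 2
    have q2 := pow_le_pow_left₀ (hnn _) d2.le 2
    have q3 := pow_le_pow_left₀ (hnn _) d3.le 2
    have q4 := pow_le_pow_left₀ (hnn _) d4.le 2
    have q5 := pow_le_pow_left₀ hx.le hvj 2
    have q6 : (x / 3) ^ 2 = x ^ 2 / 9 := by ring
    rw [q6] at q1 q2 q3 q4
    have q7 : 0 < x ^ 2 := by positivity
    linarith
  have h2 := Finset.card_le_card hsub
  refine h2.trans ((Finset.card_union_le _ _).trans ?_)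
  have u1 := Finset.card_union_le ((WS L n).filter (fun l => x / 3 ≤ ((mx l : ℤ) : ℝ)))
    ((WS L n).filter (fun l => x / 3 ≤ ((mx (l.map rhoH) : ℤ) : ℝ)))
  have u2 := Finset.card_union_le
    ((WS L n).filter (fun l => x / 3 ≤ ((mx (l.map R.f) : ℤ) : ℝ)))
    ((WS L n).filter (fun l => x / 3 ≤ ((mx ((l.map R.f).map rhoH) : ℤ) : ℝ)))
  omega

/-- the tail of the displacement in the encoding -/
lemma EncA1_saw {L : RLat} {k : ℕ} (e : Enc L k) (R : Rot L)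
    (hup : ∀ p q : Pt, R.k * q.2 = R.c * p.1 + R.d * p.2 →
      ‖e.φ p‖ ^ 2 ≤ 2 * ((p.2 : ℝ) ^ 2 + (q.2 : ℝ) ^ 2))
    {f : ℕ → Fin k → ℂ} (hf : ∀ i a, f i a = e.φ (e.st i.bodd a)) (n : ℕ) {x : ℝ} (hx : 0 < x) :
      (saw f n).card = (WS L n).card ∧
      ((saw f n).filter (fun s => ∃ j : Fin (n + 1), x ≤ ‖pos f s j‖)).card ≤
        4 * ((WS L n).filter (fun l => x / 3 ≤ ((mx l : ℤ) : ℝ))).card := by
  have hsaw : saw f n = Finset.univ.filter (fun s : Fin n → Fin k => SAC f n s) := by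
    ext s
    rw [saw, Finset.mem_filter, Finset.mem_filter]
    exact Iff.rfl
  refine ⟨?_, ?_⟩
  · rw [hsaw, e.bridge_card hf n]
  refine le_trans ?_ (EncA1_WS e R hup n hx)
  have hmemW : ∀ s ∈ saw f n, e.word s ∈ WS L n := by
    intro s hs
    rw [hsaw, Finset.mem_filter] at hs
    rw [mem_WS]
    exact ⟨e.word_length s, e.word_tw s, (e.word_sa s hf).mp hs.2⟩
  apply Finset.card_le_card_of_injOn e.word
  · intro s hs
    rw [Finset.mem_coe, Finset.mem_filter] at hs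
    obtain ⟨hs1, j, hj⟩ := hs
    rw [Finset.mem_coe, Finset.mem_filter]
    refine ⟨hmemW s hs1, j, by have := j.2; omega, ?_⟩
    rw [e.word_ps s hf]
    exact hj
  · intro s _ s' _ hss
    exact e.word_inj hss

/-- the tail of the maximal displacement -/
theorem upper_enc (hM : Mirrored L) (hup : ∀ b, ∃ u ∈ L.S b, u.2 = 1)
    (hS : ∀ b, L.S b = C.S) (R : Rot L) {k : ℕ} (e : Enc L k)
    (hnorm : ∀ p q : Pt, R.k * q.2 = R.c * p.1 + R.d * p.2 →
      ‖e.φ p‖ ^ 2 ≤ 2 * ((p.2 : ℝ) ^ 2 + (q.2 : ℝ) ^ 2))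
    {f : ℕ → Fin k → ℂ} (hf : ∀ i a, f i a = e.φ (e.st i.bodd a)) {ε : ℝ} (hε : 0 < ε) :
    ∃ K : ℝ, 1 ≤ K ∧ ∀ (v : ℝ) (n : ℕ), 0 < v → v ≤ 1 → 1 ≤ n → n * gf C v ≤ 1 → ∀ x : ℝ, 0 ≤ x →
      (((saw f n).filter (fun s => ∃ j : Fin (n + 1), x ≤ ‖pos f s j‖)).card : ℝ) ≤
        K * Real.exp ((n : ℝ) ^ ε - v * x / 4) * ((saw f n).card : ℝ) := by
  obtain ⟨K, hK1, hK⟩ := upper_words (C := C) hM hup hS hε
  refine ⟨4 * K, by linarith, fun v n hv hv1 hn hgf x hx => ?_⟩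
  have hcn : (0 : ℝ) ≤ ((saw f n).card : ℝ) := Nat.cast_nonneg _
  rcases hx.eq_or_lt with rfl | hx0
  · have h1 : (((saw f n).filter (fun s => ∃ j : Fin (n + 1), (0 : ℝ) ≤ ‖pos f s j‖)).card : ℝ) ≤
        ((saw f n).card : ℝ) := by
      exact_mod_cast Finset.card_le_card (Finset.filter_subset _ _)
    refine h1.trans (le_mul_of_one_le_left hcn ?_)
    have h2 : 1 ≤ Real.exp ((n : ℝ) ^ ε - v * 0 / 4) := by
      apply Real.one_le_exp
      rw [mul_zero, zero_div, sub_zero]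
      positivity
    nlinarith
  · obtain ⟨h1, h2⟩ := EncA1_saw e R hnorm hf n hx0
    rw [h1, WS_eq_sas hS]
    rw [WS_eq_sas hS] at h2
    have h3 : ((sas C n).filter (fun l => x / 3 ≤ ((mx l : ℤ) : ℝ))) ⊆
        ((sas C n).filter (fun l => ((⌈x / 3⌉₊ : ℕ) : ℤ) ≤ mx l)) := by
      intro l hl
      rw [Finset.mem_filter] at hl ⊢
      refine ⟨hl.1, ?_⟩
      have h4 : ((mx l).toNat : ℤ) = mx l := Int.toNat_of_nonneg (mx_nonneg l)
      rw [← h4]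
      have h5 : ⌈x / 3⌉₊ ≤ (mx l).toNat := by
        apply Nat.ceil_le.2
        have h6 : (((mx l).toNat : ℕ) : ℝ) = ((mx l : ℤ) : ℝ) := by
          rw [← Int.cast_natCast, h4]
        rw [h6]
        exact hl.2
      exact_mod_cast h5
    have h4 : (((saw f n).filter (fun s => ∃ j : Fin (n + 1), x ≤ ‖pos f s j‖)).card : ℝ) ≤
        4 * (((sas C n).filter (fun l => ((⌈x / 3⌉₊ : ℕ) : ℤ) ≤ mx l)).card : ℝ) := by
      have h5 := h2.trans (Nat.mul_le_mul_left 4 (Finset.card_le_card h3))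
      exact_mod_cast h5
    refine h4.trans ?_
    have h5 := hK v n hv hv1 hn hgf ⌈x / 3⌉₊
    have h6 : x / 3 ≤ ((⌈x / 3⌉₊ : ℕ) : ℝ) := Nat.le_ceil _
    have h7 : Real.exp ((n : ℝ) ^ ε - v * ((⌈x / 3⌉₊ : ℕ) : ℝ)) ≤ Real.exp ((n : ℝ) ^ ε - v * x / 4) := by
      apply Real.exp_le_exp.2
      have h8 : v * (x / 3) ≤ v * ((⌈x / 3⌉₊ : ℕ) : ℝ) := mul_le_mul_of_nonneg_left h6 hv.le
      have h9 : 0 < v * x := mul_pos hv hx0
      nlinarith
    have hK0 : 0 ≤ K := by linarith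
    calc 4 * (((sas C n).filter (fun l => ((⌈x / 3⌉₊ : ℕ) : ℤ) ≤ mx l)).card : ℝ)
        ≤ 4 * (K * Real.exp ((n : ℝ) ^ ε - v * ((⌈x / 3⌉₊ : ℕ) : ℝ)) * ((sas C n).card : ℝ)) := by
          linarith
      _ ≤ 4 * (K * Real.exp ((n : ℝ) ^ ε - v * x / 4) * ((sas C n).card : ℝ)) := by
          have h10 : K * Real.exp ((n : ℝ) ^ ε - v * ((⌈x / 3⌉₊ : ℕ) : ℝ)) ≤
              K * Real.exp ((n : ℝ) ^ ε - v * x / 4) := mul_le_mul_of_nonneg_left h7 hK0
          have h11 := mul_le_mul_of_nonneg_right h10 (Nat.cast_nonneg (α := ℝ) (sas C n).card)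
          linarith
      _ = _ := by ring

/-- telescoping of shells -/
lemma EncA2.shell {x0 v : ℝ} (I : ℕ) :
    ∑ i ∈ Finset.range I, (2 * x0 / v + (2 * (i : ℝ) + 1) / v ^ 2) =
      (x0 + (I : ℝ) / v) ^ 2 - x0 ^ 2 := by
  induction I with
  | zero => simp
  | succ I ih =>
    rw [Finset.sum_range_succ, ih]
    push_cast
    ring

lemma EncA2.shell_le {x0 v : ℝ} (hx0 : 0 ≤ x0) (hv : 0 < v) (I : ℕ) {a : ℝ} (ha0 : 0 ≤ a)
    (ha : a < x0 + (I : ℝ) / v) :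
    a ^ 2 ≤ x0 ^ 2 + ∑ i ∈ Finset.range I,
      (if x0 + (i : ℝ) / v ≤ a then (2 * x0 / v + (2 * (i : ℝ) + 1) / v ^ 2) else 0) := by
  induction I with
  | zero =>
    simp only [Nat.cast_zero, zero_div, add_zero, Finset.range_zero, Finset.sum_empty] at ha ⊢
    exact pow_le_pow_left₀ ha0 ha.le 2
  | succ I ih =>
    rw [Finset.sum_range_succ]
    by_cases h : a < x0 + (I : ℝ) / v
    · have h1 := ih h
      have h2 : ¬ (x0 + (I : ℝ) / v ≤ a) := not_le.2 h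
      rw [if_neg h2, add_zero]
      exact h1
    · have h' : x0 + (I : ℝ) / v ≤ a := not_lt.1 h
      have h1 : ∑ i ∈ Finset.range I,
          (if x0 + (i : ℝ) / v ≤ a then (2 * x0 / v + (2 * (i : ℝ) + 1) / v ^ 2) else 0) =
          ∑ i ∈ Finset.range I, (2 * x0 / v + (2 * (i : ℝ) + 1) / v ^ 2) := by
        refine Finset.sum_congr rfl fun i hi => ?_
        rw [if_pos]
        refine le_trans ?_ h'
        have h3 : (i : ℝ) ≤ (I : ℝ) := by exact_mod_cast (Finset.mem_range.1 hi).le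
        have h4 := div_le_div_of_nonneg_right h3 hv.le
        linarith
      rw [if_pos h', h1, ← Finset.sum_range_succ (fun i : ℕ =>
        (2 * x0 / v + (2 * (i : ℝ) + 1) / v ^ 2)) I, EncA2.shell]
      have h2 := pow_le_pow_left₀ ha0 ha.le 2
      linarith

lemma EncA2.geom (I : ℕ) : ∑ i ∈ Finset.range I, (17 + 2 * (i : ℝ)) * Real.exp (-((i : ℝ) / 4)) ≤
    153 := by
  have h1 : ∀ i : ℕ, (17 + 2 * (i : ℝ)) * Real.exp (-((i : ℝ) / 4)) ≤ 17 * (8 / 9 : ℝ) ^ i := by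
    intro i
    have hi : (0 : ℝ) ≤ (i : ℝ) := Nat.cast_nonneg i
    have h2 : (9 / 8 : ℝ) ≤ Real.exp (1 / 8) := by
      have := Real.add_one_le_exp (1 / 8 : ℝ)
      linarith
    have h3 : Real.exp (-(1 / 8 : ℝ)) ≤ 8 / 9 := by
      rw [Real.exp_neg]
      calc (Real.exp (1 / 8))⁻¹ ≤ (9 / 8 : ℝ)⁻¹ := inv_anti₀ (by norm_num) h2
        _ = 8 / 9 := by norm_num
    have h4 : Real.exp (-((i : ℝ) / 8)) ≤ (8 / 9 : ℝ) ^ i := by
      have h5 : Real.exp (-((i : ℝ) / 8)) = Real.exp (-(1 / 8 : ℝ)) ^ i := by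
        rw [← Real.exp_nat_mul]
        congr 1
        ring
      rw [h5]
      exact pow_le_pow_left₀ (Real.exp_pos _).le h3 i
    have h6 : 17 + 2 * (i : ℝ) ≤ 17 * Real.exp ((i : ℝ) / 8) := by
      have := Real.add_one_le_exp ((i : ℝ) / 8)
      linarith
    have h7 : Real.exp (-((i : ℝ) / 4)) = Real.exp (-((i : ℝ) / 8)) * Real.exp (-((i : ℝ) / 8)) := by
      rw [← Real.exp_add]
      congr 1
      ring
    have h8 : Real.exp ((i : ℝ) / 8) * Real.exp (-((i : ℝ) / 8)) = 1 := by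
      rw [← Real.exp_add, add_neg_cancel, Real.exp_zero]
    calc (17 + 2 * (i : ℝ)) * Real.exp (-((i : ℝ) / 4))
        ≤ (17 * Real.exp ((i : ℝ) / 8)) * Real.exp (-((i : ℝ) / 4)) :=
          mul_le_mul_of_nonneg_right h6 (Real.exp_pos _).le
      _ = 17 * (Real.exp ((i : ℝ) / 8) * Real.exp (-((i : ℝ) / 8))) *
          Real.exp (-((i : ℝ) / 8)) := by
          rw [h7]
          ring
      _ = 17 * Real.exp (-((i : ℝ) / 8)) := by rw [h8, mul_one]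
      _ ≤ 17 * (8 / 9 : ℝ) ^ i := by linarith
  calc ∑ i ∈ Finset.range I, (17 + 2 * (i : ℝ)) * Real.exp (-((i : ℝ) / 4))
      ≤ ∑ i ∈ Finset.range I, 17 * (8 / 9 : ℝ) ^ i := Finset.sum_le_sum fun i _ => h1 i
    _ = 17 * ∑ i ∈ Finset.range I, (8 / 9 : ℝ) ^ i := by rw [Finset.mul_sum]
    _ ≤ 17 * (1 - 8 / 9 : ℝ)⁻¹ := by
        have h9 : ∑ i ∈ Finset.range I, (8 / 9 : ℝ) ^ i ≤ (1 - 8 / 9 : ℝ)⁻¹ := by
          rw [← tsum_geometric_of_lt_one (by norm_num) (by norm_num)]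
          exact (summable_geometric_of_lt_one (by norm_num) (by norm_num)).sum_le_tsum _
            (fun i _ => by positivity)
        linarith
    _ = 153 := by norm_num

/-- from the tail to the mean square -/
theorem mean_of_tail {k : ℕ} {f : ℕ → Fin k → ℂ} {ε K v : ℝ} (hε : 0 < ε) (hK : 1 ≤ K) (hv : 0 < v)
    (hv1 : v ≤ 1) {n : ℕ} (hn : 1 ≤ n)
    (h : ∀ x : ℝ, 0 ≤ x →
      (((saw f n).filter (fun s => ∃ j : Fin (n + 1), x ≤ ‖pos f s j‖)).card : ℝ) ≤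
        K * Real.exp ((n : ℝ) ^ ε - v * x / 4) * ((saw f n).card : ℝ)) :
    (∑ s ∈ saw f n, ⨆ j : Fin (n + 1), ‖pos f s j‖ ^ 2) / ((saw f n).card : ℝ) ≤
      10000 * K * (n : ℝ) ^ (2 * ε) / v ^ 2 := by
  set N : ℝ := (n : ℝ) ^ ε with hN
  have hn1 : (1 : ℝ) ≤ (n : ℝ) := by exact_mod_cast hn
  have hN1 : 1 ≤ N := Real.one_le_rpow hn1 hε.le
  have hN2 : (n : ℝ) ^ (2 * ε) = N ^ 2 := by
    rw [hN, mul_comm, Real.rpow_mul (Nat.cast_nonneg n)]
    norm_cast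
  rw [hN2]
  set T : ℝ := ((saw f n).card : ℝ) with hT
  have hT0 : 0 ≤ T := Nat.cast_nonneg _
  rcases hT0.eq_or_lt with h0 | hTpos
  · rw [← h0, div_zero]
    positivity
  rw [div_le_iff₀ hTpos]
  -- the maximum of the norm
  set a : (Fin n → Fin k) → ℝ := fun s => ⨆ j : Fin (n + 1), ‖pos f s j‖ with ha
  have hbdd : ∀ s : Fin n → Fin k, BddAbove (Set.range fun j : Fin (n + 1) => ‖pos f s j‖) :=
    fun s => Set.Finite.bddAbove (Set.finite_range _)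
  have ha0 : ∀ s, 0 ≤ a s := fun s => Real.iSup_nonneg fun j => norm_nonneg _
  have hsq : ∀ s, (⨆ j : Fin (n + 1), ‖pos f s j‖ ^ 2) ≤ a s ^ 2 := by
    intro s
    refine ciSup_le fun j => ?_
    exact pow_le_pow_left₀ (norm_nonneg _) (le_ciSup (hbdd s) j) 2
  have hex : ∀ (s : Fin n → Fin k) (x : ℝ), x ≤ a s → ∃ j : Fin (n + 1), x ≤ ‖pos f s j‖ := by
    intro s x hx
    obtain ⟨j, hj⟩ := exists_eq_ciSup_of_finite (f := fun j : Fin (n + 1) => ‖pos f s j‖)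
    exact ⟨j, by rw [hj]; exact hx⟩
  set x0 : ℝ := 8 * N / v with hx0
  have hx00 : 0 ≤ x0 := by positivity
  -- a bound for all of them
  obtain ⟨I, hI⟩ : ∃ I : ℕ, ∀ s ∈ saw f n, a s < x0 + (I : ℝ) / v := by
    obtain ⟨I, hI⟩ := exists_nat_gt ((∑ s ∈ saw f n, a s) * v)
    refine ⟨I, fun s hs => ?_⟩
    have h1 : a s ≤ ∑ s ∈ saw f n, a s := Finset.single_le_sum (fun s _ => ha0 s) hs
    have h2 : ∑ s ∈ saw f n, a s < (I : ℝ) / v := by
      rw [lt_div_iff₀ hv]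
      exact hI
    linarith
  have hw : ∀ i : ℕ, 0 ≤ 2 * x0 / v + (2 * (i : ℝ) + 1) / v ^ 2 := fun i => by positivity
  have hcard : ∀ i : ℕ, (((saw f n).filter (fun s => x0 + (i : ℝ) / v ≤ a s)).card : ℝ) ≤
      K * Real.exp (-((i : ℝ) / 4)) * T := by
    intro i
    have h1 : (saw f n).filter (fun s => x0 + (i : ℝ) / v ≤ a s) ⊆
        (saw f n).filter (fun s => ∃ j : Fin (n + 1), x0 + (i : ℝ) / v ≤ ‖pos f s j‖) := by
      intro s hs
      rw [Finset.mem_filter] at hs ⊢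
      exact ⟨hs.1, hex s _ hs.2⟩
    have h2 : (((saw f n).filter (fun s => x0 + (i : ℝ) / v ≤ a s)).card : ℝ) ≤
        (((saw f n).filter (fun s => ∃ j : Fin (n + 1), x0 + (i : ℝ) / v ≤ ‖pos f s j‖)).card : ℝ) := by
      exact_mod_cast Finset.card_le_card h1
    refine h2.trans ((h (x0 + (i : ℝ) / v) (by positivity)).trans ?_)
    have h3 : N - v * (x0 + (i : ℝ) / v) / 4 = -N - (i : ℝ) / 4 := by
      rw [hx0]
      field_simp
      ring
    rw [h3]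
    have h4 : Real.exp (-N - (i : ℝ) / 4) ≤ Real.exp (-((i : ℝ) / 4)) :=
      Real.exp_le_exp.2 (by linarith)
    gcongr
  have hmain : ∑ s ∈ saw f n, a s ^ 2 ≤ T * x0 ^ 2 + ∑ i ∈ Finset.range I,
      (2 * x0 / v + (2 * (i : ℝ) + 1) / v ^ 2) * (K * Real.exp (-((i : ℝ) / 4)) * T) := by
    calc ∑ s ∈ saw f n, a s ^ 2 ≤ ∑ s ∈ saw f n, (x0 ^ 2 + ∑ i ∈ Finset.range I,
          (if x0 + (i : ℝ) / v ≤ a s then (2 * x0 / v + (2 * (i : ℝ) + 1) / v ^ 2) else 0)) :=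
          Finset.sum_le_sum fun s hs => EncA2.shell_le hx00 hv I (ha0 s) (hI s hs)
      _ = T * x0 ^ 2 + ∑ i ∈ Finset.range I, (2 * x0 / v + (2 * (i : ℝ) + 1) / v ^ 2) *
          (((saw f n).filter (fun s => x0 + (i : ℝ) / v ≤ a s)).card : ℝ) := by
          rw [Finset.sum_add_distrib, Finset.sum_const, nsmul_eq_mul, Finset.sum_comm]
          congr 1
          refine Finset.sum_congr rfl fun i _ => ?_
          rw [← Finset.sum_filter, Finset.sum_const, nsmul_eq_mul]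
          ring
      _ ≤ _ := by
          refine add_le_add le_rfl (Finset.sum_le_sum fun i _ => ?_)
          exact mul_le_mul_of_nonneg_left (hcard i) (hw i)
  have hterm : ∀ i : ℕ, (2 * x0 / v + (2 * (i : ℝ) + 1) / v ^ 2) *
      (K * Real.exp (-((i : ℝ) / 4)) * T) ≤
      (K * N ^ 2 / v ^ 2 * T) * ((17 + 2 * (i : ℝ)) * Real.exp (-((i : ℝ) / 4))) := by
    intro i
    have hi : (0 : ℝ) ≤ (i : ℝ) := Nat.cast_nonneg i
    have h1 : 2 * x0 / v + (2 * (i : ℝ) + 1) / v ^ 2 ≤ N ^ 2 * (17 + 2 * (i : ℝ)) / v ^ 2 := by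
      have h2 : 2 * x0 / v + (2 * (i : ℝ) + 1) / v ^ 2 = (16 * N + (2 * (i : ℝ) + 1)) / v ^ 2 := by
        rw [hx0]
        field_simp
        ring
      rw [h2]
      refine div_le_div_of_nonneg_right ?_ (by positivity)
      nlinarith [mul_nonneg hi (sub_nonneg.2 hN1), mul_nonneg hi (sq_nonneg (N - 1))]
    have h3 : 0 ≤ K * Real.exp (-((i : ℝ) / 4)) * T := by positivity
    calc (2 * x0 / v + (2 * (i : ℝ) + 1) / v ^ 2) * (K * Real.exp (-((i : ℝ) / 4)) * T)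
        ≤ (N ^ 2 * (17 + 2 * (i : ℝ)) / v ^ 2) * (K * Real.exp (-((i : ℝ) / 4)) * T) :=
          mul_le_mul_of_nonneg_right h1 h3
      _ = _ := by ring
  have hfin : ∑ i ∈ Finset.range I, (2 * x0 / v + (2 * (i : ℝ) + 1) / v ^ 2) *
      (K * Real.exp (-((i : ℝ) / 4)) * T) ≤ (K * N ^ 2 / v ^ 2 * T) * 153 := by
    calc ∑ i ∈ Finset.range I, (2 * x0 / v + (2 * (i : ℝ) + 1) / v ^ 2) *
        (K * Real.exp (-((i : ℝ) / 4)) * T) ≤ ∑ i ∈ Finset.range I,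
          (K * N ^ 2 / v ^ 2 * T) * ((17 + 2 * (i : ℝ)) * Real.exp (-((i : ℝ) / 4))) :=
          Finset.sum_le_sum fun i _ => hterm i
      _ = (K * N ^ 2 / v ^ 2 * T) * ∑ i ∈ Finset.range I,
          ((17 + 2 * (i : ℝ)) * Real.exp (-((i : ℝ) / 4))) := by rw [Finset.mul_sum]
      _ ≤ (K * N ^ 2 / v ^ 2 * T) * 153 :=
          mul_le_mul_of_nonneg_left (EncA2.geom I) (by positivity)
  have hx2 : T * x0 ^ 2 ≤ 64 * (K * N ^ 2 / v ^ 2 * T) := by
    have h1 : T * x0 ^ 2 = 64 * (N ^ 2 / v ^ 2 * T) := by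
      rw [hx0]
      field_simp
      ring
    have h2 : 0 ≤ N ^ 2 / v ^ 2 * T := by positivity
    have h3 : K * N ^ 2 / v ^ 2 * T = K * (N ^ 2 / v ^ 2 * T) := by ring
    rw [h1, h3]
    nlinarith
  have hpos : 0 ≤ K * N ^ 2 / v ^ 2 * T := by positivity
  calc ∑ s ∈ saw f n, (⨆ j : Fin (n + 1), ‖pos f s j‖ ^ 2) ≤ ∑ s ∈ saw f n, a s ^ 2 :=
        Finset.sum_le_sum fun s _ => hsq s
    _ ≤ 64 * (K * N ^ 2 / v ^ 2 * T) + (K * N ^ 2 / v ^ 2 * T) * 153 := by linarith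
    _ ≤ 10000 * (K * N ^ 2 / v ^ 2 * T) := by linarith
    _ = 10000 * K * N ^ 2 / v ^ 2 * T := by ring

end SawNu.SF
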