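import Pool.Agent.SawF.Lower
import Pool.Agent.Saw39.SBR.FinalW

/-!
SAWF EncB: the lower bound in the encoding of the problem.
-/

set_option autoImplicit false

open Classical Filter

namespace SawNu.SF

open SawNu.SB SawNu.SBR Pool.Agent.Lib.SAW.HW Pool.Agent.SawBr38

variable {C : CL} {L : RLat}

theorem lower_enc (hM : Mirrored L) (hup : ∀ b, ∃ u ∈ L.S b, u.2 = 1)
    (hS : ∀ b, L.S b = C.S) (R : Rot L) {k : ℕ} (e : Enc L k)
    {f : ℕ → Fin k → ℂ} (hf : ∀ i a, f i a = e.φ (e.st i.bodd a)) {ε : ℝ} (hε : 0 < ε)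
    (hε1 : ε ≤ 1) :
    ∃ K : ℝ, 1 ≤ K ∧ ∀ (v : ℝ) (n : ℕ), 0 < v → v ≤ 1 → 1 ≤ n → 1 ≤ n * gf C v →
      ∃ N : ℕ, n ≤ N ∧ (N : ℝ) ≤ n + K * (n : ℝ) ^ (1 - ε / 20) ∧
        (n : ℝ) ^ (-ε) / (K * v ^ 2) ≤
          (∑ s ∈ saw f N, ‖pos f s N‖ ^ 2) / ((saw f N).card : ℝ) := by
  obtain ⟨K, hK, h⟩ := lower_words hM hup hS R hε hε1
  refine ⟨2 * K, by linarith, fun v n hv hv1 hn h1 => ?_⟩
  obtain ⟨N, hN, hN2, hN3⟩ := h v n hv hv1 hn h1
  have hnr : (0 : ℝ) < n := by exact_mod_cast hn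
  refine ⟨N, hN, ?_, ?_⟩
  · have h2 : (0 : ℝ) < (n : ℝ) ^ (1 - ε / 20) := Real.rpow_pos_of_pos hnr _
    nlinarith
  · have hpos : ∀ s : Fin N → Fin k, pos f s N = ∑ i : Fin N, f (i : ℕ) (s i) := by
      intro s
      unfold pos
      congr 1
      ext i
      simp
    have hsaw : saw f N = Finset.univ.filter (fun s : Fin N → Fin k => SAC f N s) := by
      ext s
      unfold saw
      rw [Finset.mem_filter, Finset.mem_filter]
      exact Iff.rfl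
    have hb := e.bridge hf N (fun z => ‖z‖ ^ 2)
    have hc := e.bridge_card hf N
    simp only [hpos]
    rw [hsaw, hb, hc, WS_eq_sas hS N]
    obtain ⟨l, hl, -⟩ := R.exists_up N
    rw [WS_eq_sas hS N] at hl
    have hcard : (0 : ℝ) < (sas C N).card := by
      exact_mod_cast Finset.card_pos.mpr ⟨l, hl⟩
    rw [le_div_iff₀ hcard]
    have h3 : ∑ l ∈ sas C N, (ht l : ℝ) ^ 2 / 2 ≤ ∑ l ∈ sas C N, ‖e.φ l.sum‖ ^ 2 :=
      Finset.sum_le_sum fun l _ => e.low l.sum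
    rw [← Finset.sum_div] at h3
    have h4 : (n : ℝ) ^ (-ε) / (2 * K * v ^ 2) = (n : ℝ) ^ (-ε) / (K * v ^ 2) / 2 := by
      rw [div_div]
      congr 1
      ring
    rw [h4]
    linarith

end SawNu.SF
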