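import Pool.Agent.SawF.MassC
import Pool.Agent.Saw39.SBR.FinalW

/-!
SAWF EncC: the free energy of the pulled walk in the encoding of the problem.
-/

set_option autoImplicit false

open Classical Filter

namespace SawNu.SF

open SawNu.SB SawNu.SBR Pool.Agent.Lib.SAW.HW Pool.Agent.SawBr38

variable {C : CL} {L : RLat}

lemma encC_pos_n {n k : ℕ} (f : ℕ → Fin k → ℂ) (s : Fin n → Fin k) :
    pos f s n = ∑ i : Fin n, f (i : ℕ) (s i) := by
  unfold pos
  rw [Finset.filter_true_of_mem]
  intro i _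
  exact i.2

lemma encC_saw_eq {k : ℕ} (f : ℕ → Fin k → ℂ) (n : ℕ) :
    saw f n = Finset.univ.filter (fun s : Fin n → Fin k => SAC f n s) := by
  ext s
  rw [saw, Finset.mem_filter, Finset.mem_filter]
  exact Iff.rfl

theorem force_enc (hS : ∀ b, L.S b = C.S) {k : ℕ} (e : Enc L k)
    {f : ℕ → Fin k → ℂ} (hf : ∀ i a, f i a = e.φ (e.st i.bodd a)) {h : ℝ} (hh : 0 ≤ h)
    (him : ∀ p : Pt, (e.φ p).im = h * p.2) {v : ℝ} (hv : 0 ≤ v) :
    Tendsto (fun n : ℕ => Real.log ((∑ s ∈ saw f n, Real.exp (v * (pos f s n).im)) /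
      ((saw f n).card : ℝ)) / n) atTop (nhds (gf C (h * v))) := by
  have key : ∀ n : ℕ, ∑ s ∈ saw f n, Real.exp (v * (pos f s n).im) = Zw C 0 (h * v) n := by
    intro n
    have h1 := e.bridge hf n (fun z => Real.exp (v * z.im))
    rw [WS_eq_sas hS n] at h1
    rw [encC_saw_eq]
    simp only [encC_pos_n]
    rw [h1, Zw]
    apply Finset.sum_congr rfl
    intro l _
    rw [him, fw]
    congr 1
    simp only [ht]
    ring
  have hcard : ∀ n : ℕ, (saw f n).card = (sas C n).card := by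
    intro n
    rw [encC_saw_eq, e.bridge_card hf n, WS_eq_sas hS n]
  have hg := gf_lim (C := C) (v := h * v) (mul_nonneg hh hv)
  refine hg.congr ?_
  intro n
  rw [key n, hcard n]

end SawNu.SF
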