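import Pool.Agent.SawF.Insert
import Pool.Agent.Saw39.Core

/-!
SAWF C9: from the maximal level to the end level.
-/

set_option autoImplicit false

open Classical Filter

namespace SawNu.SF

open SawNu.SB Pool.Agent.Lib.SAW

variable {C : CL} {L : RLat}

/-- T9. From the maximal level to the end level. -/
theorem end_of_max (hS : ∀ b, L.S b = C.S) {d : ℝ} (hd : 0 < d) :
    ∃ (c : ℝ) (n0 : ℕ), 0 < c ∧ ∀ n : ℕ, n0 ≤ n → ∀ (x : ℕ) (q : ℝ), 0 ≤ q → q ≤ 1 →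
      q * ((sas C n).card : ℝ) ≤ (((sas C n).filter (fun l => (x : ℤ) ≤ 2 * mx l)).card : ℝ) →
      c * q * (n : ℝ) ^ (-d) * (x : ℝ) ^ 2 * ((sas C n).card : ℝ) ≤
        ∑ l ∈ sas C n, (ht l : ℝ) ^ 2 := by
  obtain ⟨n0, hcore⟩ := core L d hd
  refine ⟨1 / 64, max n0 1, by norm_num, fun n hn x q hq0 _ hq => ?_⟩
  have hn0 : n0 ≤ n := (le_max_left _ _).trans hn
  have hn1 : 1 ≤ n := (le_max_right _ _).trans hn
  have hLS : L.S = fun _ => C.S := funext hS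
  have hWS : WS L n = sas C n := by rw [WS, sas, wds, hLS]
  have hsum0 : ∀ l ∈ sas C n, (0 : ℝ) ≤ (ht l : ℝ) ^ 2 := fun l _ => sq_nonneg _
  rcases Nat.eq_zero_or_pos x with hx | hx
  · subst hx
    simp only [Nat.cast_zero]
    have := Finset.sum_nonneg hsum0
    simpa using this
  -- the half of the level
  obtain ⟨y, hy1, hy2⟩ : ∃ y : ℕ, x ≤ 2 * y ∧ 2 * y ≤ x + 1 := ⟨(x + 1) / 2, by omega, by omega⟩
  obtain ⟨r, hr1, hr2⟩ : ∃ r : ℕ, 2 * r < y ∧ y ≤ 2 * (r + 1) := ⟨(y - 1) / 2, by omega, by omega⟩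
  have hc := hcore n hn0 r y hr1
  rw [hWS] at hc
  set M := (sas C n).filter (fun l => (x : ℝ) ^ 2 / 16 ≤ (ht l : ℝ) ^ 2) with hM
  have hxy : (x : ℝ) ≤ 2 * (y : ℝ) := by exact_mod_cast hy1
  have hkey : ∀ l : List Pt, ((y : ℤ) ≤ 2 * ht l ∨ (y : ℤ) ≤ - (2 * ht l)) →
      (x : ℝ) ^ 2 / 16 ≤ (ht l : ℝ) ^ 2 := by
    intro l h
    have hy0 : (0 : ℝ) ≤ (y : ℝ) := Nat.cast_nonneg _
    have hx0 : (0 : ℝ) ≤ (x : ℝ) := Nat.cast_nonneg _
    rcases h with h | h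
    · have h' : (y : ℝ) ≤ 2 * (ht l : ℝ) := by exact_mod_cast h
      nlinarith
    · have h' : (y : ℝ) ≤ - (2 * (ht l : ℝ)) := by exact_mod_cast h
      nlinarith
  have hsplit : ((sas C n).filter (fun l => (x : ℤ) ≤ 2 * mx l)) ⊆
      M ∪ (sas C n).filter (fun l => |ht l| ≤ r ∧ (y : ℤ) ≤ mx l) := by
    intro l hl
    rw [Finset.mem_filter] at hl
    rw [Finset.mem_union, hM, Finset.mem_filter, Finset.mem_filter]
    by_cases h : |ht l| ≤ (r : ℤ)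
    · exact Or.inr ⟨hl.1, h, by omega⟩
    · left
      refine ⟨hl.1, hkey l ?_⟩
      rw [abs_le] at h
      omega
  have hB : ((sas C n).filter (fun l => 2 * (y : ℤ) - 3 * r ≤ ht l)).card ≤ M.card := by
    apply Finset.card_le_card
    intro l hl
    rw [Finset.mem_filter] at hl
    rw [hM, Finset.mem_filter]
    exact ⟨hl.1, hkey l (Or.inl (by omega))⟩
  have hBR : (((sas C n).filter (fun l => 2 * (y : ℤ) - 3 * r ≤ ht l)).card : ℝ) ≤ (M.card : ℝ) := by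
    exact_mod_cast hB
  have hS1 : (((sas C n).filter (fun l => (x : ℤ) ≤ 2 * mx l)).card : ℝ) ≤
      (M.card : ℝ) + (((sas C n).filter (fun l => |ht l| ≤ r ∧ (y : ℤ) ≤ mx l)).card : ℝ) := by
    exact_mod_cast (Finset.card_le_card hsplit).trans (Finset.card_union_le _ _)
  have hnR : (1 : ℝ) ≤ n := by exact_mod_cast hn1
  have hpow : (1 : ℝ) ≤ (n : ℝ) ^ d := Real.one_le_rpow hnR hd.le
  have hM0 : (0 : ℝ) ≤ (M.card : ℝ) := Nat.cast_nonneg _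
  have hqM : q * ((sas C n).card : ℝ) ≤ 4 * (n : ℝ) ^ d * (M.card : ℝ) := by
    have h1 : 3 * (n : ℝ) ^ d *
        (((sas C n).filter (fun l => 2 * (y : ℤ) - 3 * r ≤ ht l)).card : ℝ) ≤
        3 * (n : ℝ) ^ d * (M.card : ℝ) := mul_le_mul_of_nonneg_left hBR (by positivity)
    have h2 : (M.card : ℝ) ≤ (n : ℝ) ^ d * (M.card : ℝ) := le_mul_of_one_le_left hM0 hpow
    linarith
  have hsumM : (M.card : ℝ) * ((x : ℝ) ^ 2 / 16) ≤ ∑ l ∈ sas C n, (ht l : ℝ) ^ 2 := by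
    calc (M.card : ℝ) * ((x : ℝ) ^ 2 / 16) = ∑ _l ∈ M, ((x : ℝ) ^ 2 / 16) := by
          rw [Finset.sum_const, nsmul_eq_mul]
      _ ≤ ∑ l ∈ M, (ht l : ℝ) ^ 2 := by
          apply Finset.sum_le_sum
          intro l hl
          rw [hM, Finset.mem_filter] at hl
          exact hl.2
      _ ≤ _ := Finset.sum_le_sum_of_subset_of_nonneg (Finset.filter_subset _ _)
          (fun l hl _ => hsum0 l hl)
  have hnd : (0 : ℝ) < (n : ℝ) ^ d := lt_of_lt_of_le one_pos hpow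
  have hneg : (n : ℝ) ^ (-d) = ((n : ℝ) ^ d)⁻¹ := Real.rpow_neg (by linarith) d
  rw [hneg]
  have e : 1 / 64 * q * ((n : ℝ) ^ d)⁻¹ * (x : ℝ) ^ 2 * ((sas C n).card : ℝ) =
      (q * ((sas C n).card : ℝ)) * (((n : ℝ) ^ d)⁻¹ * (x : ℝ) ^ 2 / 64) := by ring
  rw [e]
  calc (q * ((sas C n).card : ℝ)) * (((n : ℝ) ^ d)⁻¹ * (x : ℝ) ^ 2 / 64)
      ≤ (4 * (n : ℝ) ^ d * (M.card : ℝ)) * (((n : ℝ) ^ d)⁻¹ * (x : ℝ) ^ 2 / 64) :=
        mul_le_mul_of_nonneg_right hqM (by positivity)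
    _ = (M.card : ℝ) * ((x : ℝ) ^ 2 / 16) := by
        field_simp
        ring
    _ ≤ _ := hsumM

end SawNu.SF
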