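import Mathlib

/-!
SAWF Exp: exponents, definitions.
-/

set_option autoImplicit false

open Filter

namespace SawNu.SF

/-- the two bounds between the mean squares `R`, `M` and the free energy `F` -/
structure Sc (F : ℝ → ℝ) (R M : ℕ → ℝ) : Prop where
  /-- growth of `F` -/
  pos : ∀ v, 0 < v → 0 < F v
  mono : ∀ v w, 0 < v → v ≤ w → F v ≤ F w
  le : ∀ v, 0 < v → F v ≤ v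
  poly : ∃ v0 : ℝ, 0 < v0 ∧ v0 ≤ 1 ∧ ∀ v : ℝ, 0 < v → v ≤ v0 → v ^ 4 ≤ F v
  /-- trivial bounds -/
  RM : ∀ n, R n ≤ M n
  Rnn : ∀ n, 0 ≤ R n
  Mle : ∀ n, M n ≤ (n : ℝ) ^ 2
  /-- upper bound -/
  up : ∀ ε : ℝ, 0 < ε → ε ≤ 1 → ∃ K : ℝ, 1 ≤ K ∧ ∀ (v : ℝ) (n : ℕ), 0 < v → v ≤ 1 → 1 ≤ n →
    n * F v ≤ 1 → M n ≤ K * (n : ℝ) ^ ε / v ^ 2
  /-- lower bound -/
  low : ∀ ε : ℝ, 0 < ε → ε ≤ 1 → ∃ K : ℝ, 1 ≤ K ∧ ∀ (v : ℝ) (n : ℕ), 0 < v → v ≤ 1 → 1 ≤ n →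
    1 ≤ n * F v → ∃ N : ℕ, n ≤ N ∧ (N : ℝ) ≤ n + K * (n : ℝ) ^ (1 - ε / 20) ∧
      (n : ℝ) ^ (-ε) / (K * v ^ 2) ≤ R N

end SawNu.SF
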