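import Pool.Agent.SawF.D2

/-!
SAWF FP: first passage bridges, definitions.
-/

set_option autoImplicit false

open Classical
open scoped ENNReal

namespace SawNu.SF

open SawNu.SB

/-- first passage bridges over the height `s` -/
def FP (C : CL) (s : ℕ) (l : List Pt) : Prop :=
  Brc C l ∧ (s : ℤ) ≤ ht l ∧ ∀ t, CutT l t → t < l.length → (ps l t).2 < (s : ℤ)

/-- first passage bridges of length `k` -/
noncomputable def fps (C : CL) (s k : ℕ) : Finset (List Pt) := (brs C k).filter (FP C s)

end SawNu.SF
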