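import Pool.Agent.SawF.FP

/-!
SAWF FPa: first passage decomposition.
-/

set_option autoImplicit false

open Classical
open scoped ENNReal

namespace SawNu.SF

open SawNu.SB

variable {C : CL} {δ : ℝ}

/-- the first cut at height at least `s` -/
lemma FPa_split {s : ℕ} {l : List Pt} (h : Brc C l) (hs : (s : ℤ) ≤ ht l) :
    ∃ a b, a ++ b = l ∧ FP C s a ∧ Brc C b := by
  have hex : ∃ t, CutT l t ∧ (s : ℤ) ≤ (ps l t).2 := by
    refine ⟨l.length, h.cut_length, ?_⟩
    rw [ps_length]
    exact hs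
  obtain ⟨h1, h2⟩ := Nat.find_spec hex
  have hlen : (l.take (Nat.find hex)).length = Nat.find hex := by
    rw [List.length_take]
    exact min_eq_left h1.le
  refine ⟨l.take (Nat.find hex), l.drop (Nat.find hex), List.take_append_drop _ _,
    ⟨h.take_cut h1, ?_, ?_⟩, h.drop_cut h1⟩
  · exact h2
  · intro t ht1 ht2
    rw [hlen] at ht2
    have h3 : CutT l t := by
      have h4 := (cut_append_left (h.take_cut h1) (h.drop_cut h1) (by rw [hlen]; omega)).2 ht1
      rwa [List.take_append_drop] at h4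
    have h5 := Nat.find_min hex ht2
    rw [ps_take, min_eq_left ht2.le]
    by_contra h6
    exact h5 ⟨h3, not_lt.1 h6⟩

/-- decomposition at the first cut at height at least `s` -/
theorem tall_le_FP (s : ℕ) :
    W C δ (fun l => Brc C l ∧ (s : ℤ) ≤ ht l) ≤ W C δ (FP C s) * W C δ (Brc C) := by
  rw [W_mul]
  have h : ∀ l : {l : List Pt // Brc C l ∧ (s : ℤ) ≤ ht l},
      ∃ x : {l : List Pt // FP C s l} × {l : List Pt // Brc C l}, x.1.1 ++ x.2.1 = l.1 := by
    rintro ⟨l, h1, h2⟩
    obtain ⟨a, b, h3, h4, h5⟩ := FPa_split h1 h2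
    exact ⟨(⟨a, h4⟩, ⟨b, h5⟩), h3⟩
  choose g hg using h
  have hinj : Function.Injective g := by
    intro l l' hl
    apply Subtype.ext
    rw [← hg l, ← hg l', hl]
  refine le_trans (le_of_eq ?_) (ENNReal.tsum_comp_le_tsum_of_injective hinj
    (fun x : {l : List Pt // FP C s l} × {l : List Pt // Brc C l} => wx C δ (x.1.1 ++ x.2.1)))
  unfold W
  refine tsum_congr fun l => ?_
  rw [hg l]

/-- the weight of the first passage bridges of length at most `m` -/
theorem FP_trunc (hδ : 0 < δ) (s m : ℕ) : (W C δ (FP C s)).toReal ≤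
    ∑ k ∈ Finset.range (m + 1), ((fps C s k).card : ℝ) * Real.exp (-(G C 0 0 * k)) +
      Real.exp (-(δ * m)) / (1 - Real.exp (-δ)) := by
  have hW := W_length (C := C) (δ := δ) (FP C s) (fun l hl => hl.1.wd)
  have hf : ∀ n, (wds C n).filter (FP C s) = fps C s n := by
    intro n
    ext l
    simp only [fps, brs, Finset.mem_filter]
    exact ⟨fun h => ⟨⟨h.1, h.2.1⟩, h.2⟩, fun h => ⟨h.1.1, h.2⟩⟩
  have h0 : Real.exp (-δ) < 1 := by
    rw [Real.exp_lt_one_iff]
    linarith
  have h0' : 0 < Real.exp (-δ) := Real.exp_pos _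
  have hcard : ∀ n, ((fps C s n).card : ℝ) ≤ Real.exp (G C 0 0 * n) := by
    intro n
    have h1 : ((fps C s n).card : ℝ) ≤ ((brs C n).card : ℝ) := by
      exact_mod_cast Finset.card_filter_le _ _
    have h2 := Zb_le (C := C) 0 0 n
    have h3 : Zb C 0 0 n = ((brs C n).card : ℝ) := by
      simp [Zb, fw]
    rw [h3] at h2
    refine h1.trans (h2.trans (Real.exp_le_exp.2 ?_))
    linarith
  -- the terms
  set f : ℕ → ℝ := fun n => ((fps C s n).card : ℝ) * Real.exp (-((G C 0 0 + δ) * n)) with hfdef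
  have hf0 : ∀ n, 0 ≤ f n := fun n => mul_nonneg (Nat.cast_nonneg _) (Real.exp_pos _).le
  have hf1 : ∀ n, f n ≤ Real.exp (-δ) ^ n := by
    intro n
    have h1 := mul_le_mul_of_nonneg_right (hcard n) (Real.exp_pos (-((G C 0 0 + δ) * n))).le
    refine h1.trans (le_of_eq ?_)
    rw [← Real.exp_add, ← Real.exp_nat_mul]
    congr 1
    ring
  have hgs : Summable fun n : ℕ => Real.exp (-δ) ^ n := summable_geometric_of_lt_one h0'.le h0
  have hfs : Summable f := Summable.of_nonneg_of_le hf0 hf1 hgs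
  have hW2 : (W C δ (FP C s)).toReal = ∑' n, f n := by
    rw [hW]
    have h1 : ∀ n : ℕ, ENNReal.ofReal ((((wds C n).filter (FP C s)).card : ℝ) *
        Real.exp (-((G C 0 0 + δ) * n))) = ENNReal.ofReal (f n) := by
      intro n
      rw [hf n]
    simp only [h1]
    rw [← ENNReal.ofReal_tsum_of_nonneg hf0 hfs, ENNReal.toReal_ofReal (tsum_nonneg hf0)]
  rw [hW2, ← hfs.sum_add_tsum_nat_add (m + 1)]
  apply add_le_add
  · apply Finset.sum_le_sum
    intro n _
    apply mul_le_mul_of_nonneg_left _ (Nat.cast_nonneg _)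
    apply Real.exp_le_exp.2
    have : 0 ≤ δ * (n : ℝ) := mul_nonneg hδ.le (Nat.cast_nonneg _)
    linarith
  · have h1 : ∑' n, f (n + (m + 1)) ≤ ∑' n : ℕ, Real.exp (-δ) ^ (m + 1) * Real.exp (-δ) ^ n := by
      refine Summable.tsum_le_tsum (fun n => ?_) ((summable_nat_add_iff (m + 1)).2 hfs)
        (hgs.mul_left _)
      refine (hf1 _).trans (le_of_eq ?_)
      rw [pow_add, mul_comm]
    refine h1.trans ?_
    rw [tsum_mul_left, tsum_geometric_of_lt_one h0'.le h0, div_eq_mul_inv]
    apply mul_le_mul_of_nonneg_right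
    · rw [← Real.exp_nat_mul]
      apply Real.exp_le_exp.2
      push_cast
      nlinarith
    · exact inv_nonneg.2 (by linarith)

end SawNu.SF
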