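import Pool.Agent.SawF.FPa
import Pool.Agent.SawF.CombB

/-!
SAWF FPb: short first passage bridges are not rare.
-/

set_option autoImplicit false

open Classical Filter
open scoped ENNReal

namespace SawNu.SF

open SawNu.SB SawNu.SBR Pool.Agent.Lib.SAW.HW Pool.Agent.SawBr38

variable {C : CL} {L : RLat} {δ : ℝ}

/-- the exponential beats the powers -/
lemma FPb_small {ε : ℝ} (hε : 0 < ε) : ∃ v3 : ℝ, 0 < v3 ∧ ∀ v : ℝ, 0 < v → v ≤ v3 →
    Real.exp (-(v ^ (-ε))) * (2 / v ^ 3) ≤ v ^ ε / 2 := by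
  have h1 := tendsto_rpow_mul_exp_neg_mul_atTop_nhds_zero ((3 + ε) / ε) 1 one_pos
  have h2 : ∀ᶠ x : ℝ in atTop, x ^ ((3 + ε) / ε) * Real.exp (-1 * x) < 1 / 4 :=
    h1.eventually (gt_mem_nhds (by norm_num))
  obtain ⟨X, hX⟩ := eventually_atTop.1 h2
  have hX1 : 0 < max X 1 := lt_of_lt_of_le one_pos (le_max_right _ _)
  refine ⟨(max X 1) ^ (-(1 / ε)), Real.rpow_pos_of_pos hX1 _, fun v hv hv3 => ?_⟩
  have h3 : max X 1 ≤ v ^ (-ε) := by
    have h4 := Real.rpow_le_rpow_of_nonpos hv hv3 (neg_nonpos.2 hε.le)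
    rw [← Real.rpow_mul hX1.le] at h4
    have h5 : -(1 / ε) * -ε = 1 := by
      field_simp
    rwa [h5, Real.rpow_one] at h4
  have h6 := hX (v ^ (-ε)) ((le_max_left _ _).trans h3)
  rw [← Real.rpow_mul hv.le, neg_one_mul] at h6
  have h7 : -ε * ((3 + ε) / ε) = -(3 + ε) := by
    field_simp
  rw [h7, Real.rpow_neg hv.le, Real.rpow_add hv] at h6
  have h8 : v ^ (3 : ℝ) = v ^ 3 := by
    rw [← Real.rpow_natCast]
    norm_num
  rw [h8] at h6
  have h9 : 0 < v ^ 3 := pow_pos hv 3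
  have h10 : 0 < v ^ ε := Real.rpow_pos_of_pos hv ε
  have h11 : Real.exp (-(v ^ (-ε))) < 1 / 4 * (v ^ 3 * v ^ ε) := by
    have h12 : 0 < v ^ 3 * v ^ ε := mul_pos h9 h10
    rw [inv_mul_lt_iff₀ h12] at h6
    linarith
  have h13 : Real.exp (-(v ^ (-ε))) * (2 / v ^ 3) ≤ 1 / 4 * (v ^ 3 * v ^ ε) * (2 / v ^ 3) :=
    mul_le_mul_of_nonneg_right h11.le (by positivity)
  refine h13.trans (le_of_eq ?_)
  field_simp
  ring

/-- T6': short first passage bridges are not rare -/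
theorem fp_lower (hM : Mirrored L) (hup : ∀ b, ∃ u ∈ L.S b, u.2 = 1)
    (hS : ∀ b, L.S b = C.S) (R : Rot L) {ε : ℝ} (hε : 0 < ε) (hε1 : ε < 1) :
    ∃ v0 : ℝ, 0 < v0 ∧ v0 ≤ 1 ∧ ∀ v : ℝ, 0 < v → v ≤ v0 → ∀ s m : ℕ,
      (s : ℝ) ≤ v ^ (-(1 - ε)) → v ^ (-ε) ≤ gf C v * m →
      v ^ ε / 2 ≤ ∑ k ∈ Finset.range (m + 1), ((fps C s k).card : ℝ) * Real.exp (-(G C 0 0 * k)) := by
  obtain ⟨v1, hv1, hv11, h1⟩ := tall_weight hM hup hS R hε hε1
  obtain ⟨v2, hv2, hv21, h2⟩ := gf_poly hM hup hS R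
  obtain ⟨v3, hv3, h3⟩ := FPb_small hε
  refine ⟨min v1 (min v2 v3), lt_min hv1 (lt_min hv2 hv3), (min_le_left _ _).trans hv11, ?_⟩
  intro v hv hvle s m hs hm
  have hva : v ≤ v1 := hvle.trans (min_le_left _ _)
  have hvb : v ≤ v2 := hvle.trans ((min_le_right _ _).trans (min_le_left _ _))
  have hvc : v ≤ v3 := hvle.trans ((min_le_right _ _).trans (min_le_right _ _))
  have hδ : 0 < gf C v := gf_pos hM hup hS R hv
  have hδ3 : v ^ 3 ≤ gf C v := h2 v hv hvb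
  have hδ1 : gf C v ≤ 1 := (gf_le hv.le).trans (hva.trans hv11)
  -- the tall bridges
  have hA : ∑' t, (if s ≤ t then aR C (gf C v) t else 0) =
      (W C (gf C v) (fun l => Brc C l ∧ s ≤ (ht l).toNat)).toReal := by
    rw [W_ht hδ (fun t => s ≤ t)]
    refine tsum_congr fun t => ?_
    by_cases h4 : s ≤ t
    · rw [if_pos h4, if_pos h4]
    · rw [if_neg h4, if_neg h4]
  have hFB : W C (gf C v) (FP C s) ≤ W C (gf C v) (Brc C) := W_mono (fun l h => h.1)
  have hBt : W C (gf C v) (Brc C) ≠ ⊤ := W_brc_ne_top hδ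
  have hFt : W C (gf C v) (FP C s) ≠ ⊤ := ne_top_of_le_ne_top hBt hFB
  have hle : W C (gf C v) (fun l => Brc C l ∧ s ≤ (ht l).toNat) ≤
      W C (gf C v) (FP C s) * W C (gf C v) (Brc C) := by
    refine (W_mono (fun l h => ⟨h.1, ?_⟩)).trans (tall_le_FP s)
    have h4 : 0 ≤ ht l := h.1.ht_nonneg
    have h5 := h.2
    omega
  have hle' := ENNReal.toReal_mono (ENNReal.mul_ne_top hFt hBt) hle
  rw [ENNReal.toReal_mul, ← hA, ← tsum_aR hδ] at hle'
  have hT : Tot (aR C (gf C v)) = ∑' t, aR C (gf C v) t := rfl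
  have hpos : 0 < ∑' t, aR C (gf C v) t := by
    have h4 := (aR_summable hδ (C := C)).le_tsum 0 (fun j _ => (ren hδ.le).a_nn j)
    rw [(ren hδ.le).a0] at h4
    linarith
  have h4 := (h1 v hv hva s hs).trans hle'
  rw [hT] at h4
  have h5 : v ^ ε ≤ (W C (gf C v) (FP C s)).toReal := le_of_mul_le_mul_right h4 hpos
  have h6 := h5.trans (FP_trunc hδ s m)
  -- the tail
  have h7 : Real.exp (-(gf C v * m)) / (1 - Real.exp (-gf C v)) ≤ v ^ ε / 2 := by
    refine le_trans ?_ (h3 v hv hvc)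
    have h8 : gf C v / 2 ≤ 1 - Real.exp (-gf C v) := by
      have h9 : gf C v + 1 ≤ Real.exp (gf C v) := Real.add_one_le_exp _
      have h10 : Real.exp (-gf C v) ≤ 1 / (gf C v + 1) := by
        rw [Real.exp_neg, ← one_div]
        exact one_div_le_one_div_of_le (by linarith) h9
      have h11 : 1 / (gf C v + 1) ≤ 1 - gf C v / 2 := by
        rw [div_le_iff₀ (by linarith)]
        nlinarith
      linarith
    have h9 : Real.exp (-(gf C v * m)) ≤ Real.exp (-(v ^ (-ε))) := Real.exp_le_exp.2 (by linarith)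
    have h10 : 0 < v ^ 3 := pow_pos hv 3
    have h11 : 0 < gf C v / 2 := by linarith
    calc Real.exp (-(gf C v * m)) / (1 - Real.exp (-gf C v))
        ≤ Real.exp (-(v ^ (-ε))) / (1 - Real.exp (-gf C v)) :=
          div_le_div_of_nonneg_right h9 (by linarith)
      _ ≤ Real.exp (-(v ^ (-ε))) / (gf C v / 2) :=
          div_le_div_of_nonneg_left (Real.exp_pos _).le h11 h8
      _ ≤ Real.exp (-(v ^ (-ε))) / (v ^ 3 / 2) :=
          div_le_div_of_nonneg_left (Real.exp_pos _).le (by linarith) (by linarith)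
      _ = Real.exp (-(v ^ (-ε))) * (2 / v ^ 3) := by
          field_simp
  linarith

end SawNu.SF
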