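import Pool.Agent.SawFlat.Enc
import Pool.Agent.SawF.CorC
import Pool.Agent.SawF.EncA
import Pool.Agent.SawF.EncB
import Pool.Agent.SawF.EncC

/-!
SAWF Fin: size and correlation length in the encoding of the problem.
-/

set_option autoImplicit false

open Classical Filter Topology

namespace SawNu.SF

open SawNu.SB SawNu.SBR Pool.Agent.Lib.SAW.HW Pool.Agent.SawBr38

variable {C : CL} {L : RLat}

/-- data of a lattice with rows -/
structure Dat (C : CL) (L : RLat) (k : ℕ) (f : ℕ → Fin k → ℂ) (q p : ℕ) (r : ℝ) where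
  hM : Mirrored L
  hup : ∀ b, ∃ u ∈ L.S b, u.2 = 1
  hS : ∀ b, L.S b = C.S
  R : Rot L
  vert : CorB.Vert C q p
  e : Enc L k
  hnorm : ∀ p q : Pt, R.k * q.2 = R.c * p.1 + R.d * p.2 →
    ‖e.φ p‖ ^ 2 ≤ 2 * ((p.2 : ℝ) ^ 2 + (q.2 : ℝ) ^ 2)
  hf : ∀ i a, f i a = e.φ (e.st i.bodd a)
  hf1 : ∀ i a, ‖f i a‖ ≤ 1
  hr : 4 / 5 ≤ r
  hr1 : r ≤ 1
  him : ∀ p : Pt, (e.φ p).im = r * p.2
  hre : ∀ p : Pt, (e.φ p).re = 0 ↔ p.1 = 0

namespace FinAux

lemma saw_eq {k : ℕ} (f : ℕ → Fin k → ℂ) (n : ℕ) :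
    saw f n = Finset.univ.filter (fun s : Fin n → Fin k => SAC f n s) := by
  ext s
  rw [saw, Finset.mem_filter, Finset.mem_filter]
  exact Iff.rfl

lemma pos_n {n k : ℕ} (f : ℕ → Fin k → ℂ) (s : Fin n → Fin k) :
    pos f s n = ∑ i : Fin n, f (i : ℕ) (s i) := by
  unfold pos
  rw [Finset.filter_true_of_mem]
  intro i _
  exact i.2

lemma norm_pos_le_n {n k : ℕ} {f : ℕ → Fin k → ℂ} (hf1 : ∀ i a, ‖f i a‖ ≤ 1)
    (s : Fin n → Fin k) (j : ℕ) : ‖pos f s j‖ ≤ n := by
  unfold pos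
  refine (norm_sum_le _ _).trans ?_
  calc ∑ i ∈ Finset.univ.filter (fun i : Fin n => (i : ℕ) < j), ‖f (i : ℕ) (s i)‖
      ≤ ∑ _i ∈ Finset.univ.filter (fun i : Fin n => (i : ℕ) < j), (1 : ℝ) :=
        Finset.sum_le_sum fun i _ => hf1 _ _
    _ ≤ ∑ _i : Fin n, (1 : ℝ) :=
        Finset.sum_le_sum_of_subset_of_nonneg (Finset.filter_subset _ _) fun _ _ _ => zero_le_one
    _ = n := by simp

variable {k : ℕ} {f : ℕ → Fin k → ℂ} {q p : ℕ} {r : ℝ}

lemma card_saw (d : Dat C L k f q p r) (n : ℕ) : (saw f n).card = (sas C n).card := by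
  rw [saw_eq, d.e.bridge_card d.hf n, WS_eq_sas d.hS n]

lemma card_pos (d : Dat C L k f q p r) (n : ℕ) : (0 : ℝ) < ((saw f n).card : ℝ) := by
  obtain ⟨l, hl, -⟩ := d.R.exists_up n
  rw [WS_eq_sas d.hS n] at hl
  rw [card_saw d n]
  exact_mod_cast Finset.card_pos.mpr ⟨l, hl⟩

/-- the number of walks to a point on the vertical axis -/
lemma card_vert (d : Dat C L k f q p r) (n T : ℕ) :
    (((saw f n).filter (fun s => pos f s n = (((q * r) * T : ℝ) : ℂ) * Complex.I)).card : ℝ) =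
      (((sas C n).filter (fun l => l.sum = (0, ((q * T : ℕ) : ℤ)))).card : ℝ) := by
  have hr : 0 < r := by have := d.hr; linarith
  have h1 := d.e.bridge d.hf n (fun z => if z = (((q * r) * T : ℝ) : ℂ) * Complex.I then 1 else 0)
  rw [WS_eq_sas d.hS n] at h1
  rw [saw_eq, Finset.card_filter, Finset.card_filter]
  push_cast
  simp only [pos_n]
  push_cast at h1
  rw [h1]
  apply Finset.sum_congr rfl
  intro l _
  have h2 : d.e.φ l.sum = (((q * r) * T : ℝ) : ℂ) * Complex.I ↔ l.sum = (0, ((q * T : ℕ) : ℤ)) := by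
    constructor
    · intro h
      have h3 : (d.e.φ l.sum).re = 0 := by rw [h]; simp
      have h4 : (d.e.φ l.sum).im = (q * r) * T := by rw [h]; simp
      rw [d.him] at h4
      have h5 : (l.sum.2 : ℝ) = q * T := by
        have h6 : r * (l.sum.2 : ℝ) = r * (q * T) := by rw [h4]; ring
        exact mul_left_cancel₀ hr.ne' h6
      have h7 : l.sum.2 = ((q * T : ℕ) : ℤ) := by exact_mod_cast h5
      exact Prod.ext ((d.hre _).1 h3) h7
    · intro h
      have h3 : (d.e.φ l.sum).im = (q * r) * T := by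
        rw [d.him, h]
        push_cast
        ring
      have h4 : (d.e.φ l.sum).re = 0 := (d.hre _).2 (by rw [h])
      apply Complex.ext
      · rw [h4]; simp
      · rw [h3]; simp
  push_cast at h2
  by_cases h : d.e.φ l.sum = (q : ℂ) * (r : ℂ) * (T : ℂ) * Complex.I
  · rw [if_pos h, if_pos (h2.1 h)]
  · rw [if_neg h, if_neg (fun h' => h (h2.2 h'))]

/-- the two bounds in the form of the structure of the exponents -/
lemma sc (d : Dat C L k f q p r) {R M : ℕ → ℝ}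
    (hR : ∀ n, R n = (∑ s ∈ saw f n, ‖pos f s n‖ ^ 2) / ((saw f n).card : ℝ))
    (hM : ∀ n, M n = (∑ s ∈ saw f n, ⨆ j : Fin (n + 1), ‖pos f s j‖ ^ 2) /
      ((saw f n).card : ℝ)) : Sc (gf C) R M where
  pos := fun v hv => gf_pos d.hM d.hup d.hS d.R hv
  mono := fun v w _ hvw => gf_mono hvw
  le := fun v hv => gf_le hv.le
  poly := by
    obtain ⟨v0, h0, h1, h2⟩ := gf_poly (C := C) d.hM d.hup d.hS d.R
    refine ⟨v0, h0, h1, fun v hv hv0 => ?_⟩
    refine le_trans ?_ (h2 v hv hv0)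
    have h3 : v ≤ 1 := hv0.trans h1
    have h4 : 0 ≤ v ^ 3 := by positivity
    calc v ^ 4 = v ^ 3 * v := by ring
      _ ≤ v ^ 3 * 1 := mul_le_mul_of_nonneg_left h3 h4
      _ = v ^ 3 := mul_one _
  RM := by
    intro n
    rw [hR, hM]
    apply div_le_div_of_nonneg_right _ (Nat.cast_nonneg _)
    apply Finset.sum_le_sum
    intro s _
    have h1 : BddAbove (Set.range fun j : Fin (n + 1) => ‖pos f s j‖ ^ 2) :=
      Set.Finite.bddAbove (Set.finite_range _)
    exact le_ciSup h1 ⟨n, Nat.lt_succ_self n⟩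
  Rnn := by
    intro n
    rw [hR]
    positivity
  Mle := by
    intro n
    rw [hM, div_le_iff₀ (card_pos d n)]
    calc ∑ s ∈ saw f n, ⨆ j : Fin (n + 1), ‖pos f s j‖ ^ 2 ≤ ∑ _s ∈ saw f n, (n : ℝ) ^ 2 := by
          apply Finset.sum_le_sum
          intro s _
          exact ciSup_le fun j => pow_le_pow_left₀ (norm_nonneg _) (norm_pos_le_n d.hf1 s j) 2
      _ = (n : ℝ) ^ 2 * ((saw f n).card : ℝ) := by
          rw [Finset.sum_const, nsmul_eq_mul]
          ring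
  up := by
    intro ε hε hε1
    obtain ⟨K, hK, h⟩ := upper_enc (C := C) d.hM d.hup d.hS d.R d.e d.hnorm d.hf
      (show 0 < ε / 2 by linarith)
    refine ⟨10000 * K, by linarith, fun v n hv hv1 hn hg => ?_⟩
    have h1 := mean_of_tail (show 0 < ε / 2 by linarith) hK hv hv1 hn (h v n hv hv1 hn hg)
    rw [hM]
    have h2 : 2 * (ε / 2) = ε := by ring
    rwa [h2] at h1
  low := by
    intro ε hε hε1
    obtain ⟨K, hK, h⟩ := lower_enc (C := C) d.hM d.hup d.hS d.R d.e d.hf hε hε1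
    refine ⟨K, hK, fun v n hv hv1 hn hg => ?_⟩
    obtain ⟨N, h1, h2, h3⟩ := h v n hv hv1 hn hg
    exact ⟨N, h1, h2, by rw [hR]; exact h3⟩

end FinAux

open FinAux CorC

variable {k : ℕ} {f : ℕ → Fin k → ℂ} {q p : ℕ} {r : ℝ}

/-- the size of the walks and the correlation length -/
theorem main (d : Dat C L k f q p r) {μ : ℝ} (hμ : μ = Real.exp (G C 0 0)) {R M : ℕ → ℝ}
    (hR : ∀ n, R n = (∑ s ∈ saw f n, ‖pos f s n‖ ^ 2) / ((saw f n).card : ℝ))
    (hM : ∀ n, M n = (∑ s ∈ saw f n, ⨆ j : Fin (n + 1), ‖pos f s j‖ ^ 2) /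
      ((saw f n).card : ℝ)) :
    ∃ ξ : ℝ → ℝ,
      (∀ z : ℝ, 0 < z → z < 1 / μ → 0 < ξ z ∧
        Tendsto (fun T : ℕ => Real.log (∑' n : ℕ, (((saw f n).filter
          (fun s => pos f s n = (((q * r) * T : ℝ) : ℂ) * Complex.I)).card : ℝ) * z ^ n) /
            ((q * r) * T)) atTop (𝓝 (-(1 / ξ z))) ∧
        Tendsto (fun n : ℕ => Real.log ((∑ s ∈ saw f n,
          Real.exp ((pos f s n).im / ξ z)) / ((saw f n).card : ℝ)) / n)
          atTop (𝓝 (-Real.log (μ * z)))) ∧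
      (∀ ε : ℝ, 0 < ε → ε ≤ 1 → ∃ K : ℝ, 1 ≤ K ∧ ∃ n₀ : ℕ, ∀ n : ℕ, n₀ ≤ n →
        (∀ x : ℝ, 0 ≤ x →
          (((saw f n).filter (fun s => ∃ j : Fin (n + 1), x ≤ ‖pos f s j‖)).card : ℝ) ≤
            K * Real.exp ((n : ℝ) ^ ε - x / (5 * ξ (Real.exp (-1 / n) / μ))) *
              ((saw f n).card : ℝ)) ∧
        M n ≤ K * (n : ℝ) ^ ε * ξ (Real.exp (-1 / n) / μ) ^ 2 ∧
        ∃ N : ℕ, n ≤ N ∧ (N : ℝ) ≤ n + K * (n : ℝ) ^ (1 - ε / 20) ∧
          ξ (Real.exp (-1 / n) / μ) ^ 2 ≤ K * (n : ℝ) ^ ε * R N) ∧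
      limsup (fun n : ℕ => Real.log (R n) / Real.log n) atTop =
        2 * limsup (fun z => Real.log (ξ z) / Real.log (1 / (1 / μ - z))) (𝓝[<] (1 / μ)) ∧
      limsup (fun n : ℕ => Real.log (M n) / Real.log n) atTop =
        2 * limsup (fun z => Real.log (ξ z) / Real.log (1 / (1 / μ - z))) (𝓝[<] (1 / μ)) ∧
      (∀ ν : ℝ, Tendsto (fun n : ℕ => Real.log (R n) / Real.log n) atTop (𝓝 (2 * ν)) ∨
          Tendsto (fun n : ℕ => Real.log (M n) / Real.log n) atTop (𝓝 (2 * ν)) →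
        Tendsto (fun z => Real.log (ξ z) / Real.log (1 / (1 / μ - z))) (𝓝[<] (1 / μ)) (𝓝 ν)) := by
  have hr := d.hr
  have hr1 := d.hr1
  have hr0 : 0 < r := by linarith
  have hμ0 : 0 < μ := by rw [hμ]; exact Real.exp_pos _
  have hq : (0 : ℝ) < q := by exact_mod_cast d.vert.q_pos
  have s := sc d hR hM
  have hδ : ∀ z : ℝ, 0 < z → z < 1 / μ → 0 < - Real.log (μ * z) := by
    intro z h0 h1
    rw [neg_pos]
    apply Real.log_neg (by positivity)
    rwa [lt_div_iff₀ hμ0, mul_comm] at h1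
  have hex : ∀ z : ℝ, ∃ V : ℝ, 0 < z → z < 1 / μ → 0 < V ∧ gf C V = - Real.log (μ * z) := by
    intro z
    by_cases h : 0 < z ∧ z < 1 / μ
    · obtain ⟨V, hV1, hV2⟩ := gf_surj (C := C) d.hM d.hup d.hS d.R (hδ z h.1 h.2)
      exact ⟨V, fun _ _ => ⟨hV1, hV2⟩⟩
    · exact ⟨0, fun h0 h1 => absurd ⟨h0, h1⟩ h⟩
  choose V hV using hex
  set ξ : ℝ → ℝ := fun z => r / V z with hξ
  have hξV : ∀ z, 0 < z → z < 1 / μ → r / ξ z = V z := by
    intro z h0 h1
    have := (hV z h0 h1).1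
    rw [hξ]
    simp only
    field_simp
  have c : Cor (gf C) ξ μ r :=
    { hμ := hμ0
      hh := hr0
      strict := fun v w hv hvw => gf_strict d.hM d.hup d.hS d.R hv.le hvw
      cont := gf_continuous
      zero := gf_zero
      pos := fun z h0 h1 => div_pos hr0 (hV z h0 h1).1
      eq := fun z h0 h1 => by rw [hξV z h0 h1]; exact (hV z h0 h1).2 }
  refine ⟨ξ, ?_, ?_, ?_, ?_, ?_⟩
  · intro z h0 h1
    have hVp := (hV z h0 h1).1
    have hVe := (hV z h0 h1).2
    have hξp : 0 < ξ z := div_pos hr0 hVp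
    refine ⟨hξp, ?_, ?_⟩
    · have h2 := CorB.tendsto_PE (C := C) d.vert (hδ z h0 h1) hVp
        (fun v hv => by rw [← hVe]; exact gf_strict d.hM d.hup d.hS d.R hVp.le hv)
        (fun v hv0 hv => by rw [← hVe]; exact gf_strict d.hM d.hup d.hS d.R hv0 hv)
      have h3 := h2.mul_const (1 / (q * r))
      have h4 : -(q * V z) * (1 / (q * r)) = -(1 / ξ z) := by
        rw [hξ]
        simp only
        field_simp
      rw [h4] at h3
      refine h3.congr fun T => ?_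
      rw [CorB.PE_toReal (hδ z h0 h1)]
      have h5 : ∀ n : ℕ, Real.exp (-((G C 0 0 + -Real.log (μ * z)) * n)) = z ^ n := by
        intro n
        have e1 : Real.log μ = G C 0 0 := by rw [hμ, Real.log_exp]
        rw [Real.log_mul hμ0.ne' h0.ne', e1]
        have e2 : -((G C 0 0 + -(G C 0 0 + Real.log z)) * (n : ℝ)) = n * Real.log z := by ring
        rw [e2, Real.exp_nat_mul, Real.exp_log h0]
      simp only [h5, card_vert d]
      rw [div_mul_div_comm, mul_one, mul_comm (T : ℝ)]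
    · have h2 := force_enc (C := C) d.hS d.e d.hf hr0.le d.him (v := 1 / ξ z) (by positivity)
      have h3 : r * (1 / ξ z) = V z := by rw [← hξV z h0 h1]; ring
      rw [h3, hVe] at h2
      refine h2.congr fun n => ?_
      simp only [one_div_mul_eq_div]
  · intro ε hε hε1
    obtain ⟨K1, hK1, h1⟩ := upper_enc (C := C) d.hM d.hup d.hS d.R d.e d.hnorm d.hf hε
    obtain ⟨K2, hK2, h2⟩ := s.up ε hε hε1
    obtain ⟨K3, hK3, h3⟩ := s.low ε hε hε1
    have hg1 : 0 < gf C 1 := gf_pos d.hM d.hup d.hS d.R one_pos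
    obtain ⟨n₀, hn₀⟩ := exists_nat_ge (1 / gf C 1)
    refine ⟨K1 + 2 * K2 + K3, by linarith, max n₀ 1, fun n hn => ?_⟩
    have hn1 : 1 ≤ n := (le_max_right _ _).trans hn
    have hn0 : (0 : ℝ) < n := by exact_mod_cast hn1
    set z : ℝ := Real.exp (-1 / n) / μ with hz
    have hz0 : 0 < z := div_pos (Real.exp_pos _) hμ0
    have hz1 : z < 1 / μ := by
      apply div_lt_div_of_pos_right _ hμ0
      rw [Real.exp_lt_one_iff]
      apply div_neg_of_neg_of_pos (by norm_num) hn0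
    have hVp := (hV z hz0 hz1).1
    have hVe : gf C (V z) = 1 / n := by
      rw [(hV z hz0 hz1).2, hz, mul_div_cancel₀ _ hμ0.ne', Real.log_exp]
      ring
    have hV1 : V z ≤ 1 := by
      by_contra hc
      push Not at hc
      have h4 := gf_strict (C := C) d.hM d.hup d.hS d.R zero_le_one hc
      rw [hVe] at h4
      have h5 : 1 / gf C 1 ≤ n := hn₀.trans (by exact_mod_cast (le_max_left _ _).trans hn)
      rw [div_le_iff₀ hg1] at h5
      rw [lt_div_iff₀ hn0] at h4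
      linarith
    have hnV : n * gf C (V z) = 1 := by
      rw [hVe]
      field_simp
    have hξp : 0 < ξ z := div_pos hr0 hVp
    have hVξ : V z = r / ξ z := (hξV z hz0 hz1).symm
    have hnε : 0 < (n : ℝ) ^ ε := Real.rpow_pos_of_pos hn0 _
    refine ⟨?_, ?_, ?_⟩
    · intro x hx
      have h4 := h1 (V z) n hVp hV1 hn1 hnV.le x hx
      refine h4.trans ?_
      apply mul_le_mul_of_nonneg_right _ (Nat.cast_nonneg _)
      apply mul_le_mul (by linarith) _ (Real.exp_pos _).le (by linarith)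
      apply Real.exp_le_exp.2
      have h5 : x / (5 * ξ z) ≤ V z * x / 4 := by
        rw [hVξ, div_mul_eq_mul_div, div_div, div_le_div_iff₀ (by positivity) (by positivity)]
        have h6 : 0 ≤ x * ξ z := by positivity
        nlinarith
      linarith
    · have h4 := h2 (V z) n hVp hV1 hn1 hnV.le
      refine h4.trans ?_
      have h5 : K2 * (n : ℝ) ^ ε / V z ^ 2 = K2 * (n : ℝ) ^ ε * ξ z ^ 2 / r ^ 2 := by
        rw [hVξ]
        field_simp
      rw [h5, div_le_iff₀ (by positivity)]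
      have h6 : 1 ≤ 2 * r ^ 2 := by nlinarith
      have h7 : 0 ≤ (n : ℝ) ^ ε * ξ z ^ 2 := by positivity
      have h8 : K2 ≤ (K1 + 2 * K2 + K3) * r ^ 2 := by nlinarith
      calc K2 * (n : ℝ) ^ ε * ξ z ^ 2 = K2 * ((n : ℝ) ^ ε * ξ z ^ 2) := by ring
        _ ≤ ((K1 + 2 * K2 + K3) * r ^ 2) * ((n : ℝ) ^ ε * ξ z ^ 2) :=
            mul_le_mul_of_nonneg_right h8 h7
        _ = _ := by ring
    · obtain ⟨N, hN1, hN2, hN3⟩ := h3 (V z) n hVp hV1 hn1 hnV.ge
      refine ⟨N, hN1, ?_, ?_⟩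
      · refine hN2.trans ?_
        have : 0 < (n : ℝ) ^ (1 - ε / 20) := Real.rpow_pos_of_pos hn0 _
        nlinarith
      · have hRN : 0 ≤ R N := s.Rnn N
        rw [div_le_iff₀ (by positivity), Real.rpow_neg hn0.le] at hN3
        -- `ξ ^ 2 = r ^ 2 / V ^ 2 ≤ 1 / V ^ 2`
        have h5 : ξ z ^ 2 * V z ^ 2 ≤ 1 := by
          rw [hVξ]
          have : ξ z ^ 2 * (r / ξ z) ^ 2 = r ^ 2 := by field_simp
          rw [this]
          nlinarith
        have h6 : 1 ≤ K3 * (n : ℝ) ^ ε * R N * V z ^ 2 := by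
          have h7 := mul_le_mul_of_nonneg_left hN3 hnε.le
          rw [mul_inv_cancel₀ hnε.ne'] at h7
          calc (1 : ℝ) ≤ (n : ℝ) ^ ε * (R N * (K3 * V z ^ 2)) := h7
            _ = _ := by ring
        have h7 : ξ z ^ 2 ≤ K3 * (n : ℝ) ^ ε * R N := by
          have hV2 : 0 < V z ^ 2 := by positivity
          have h8 : ξ z ^ 2 * V z ^ 2 ≤ K3 * (n : ℝ) ^ ε * R N * V z ^ 2 := h5.trans h6
          exact le_of_mul_le_mul_right h8 hV2
        refine h7.trans ?_
        have h8 : 0 ≤ (n : ℝ) ^ ε * R N := by positivity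
        have h9 : K3 ≤ K1 + 2 * K2 + K3 := by linarith
        have h10 := mul_le_mul_of_nonneg_right h9 h8
        linarith
  · rw [c.limsup_eq s]
    exact s.limsup_eq.1
  · rw [c.limsup_eq s]
    exact s.limsup_eq.2
  · intro ν h
    have hbd : (𝓝[>] (0 : ℝ)).IsBoundedUnder (· ≤ ·)
        (fun v : ℝ => Real.log v / Real.log (gf C v)) :=
      ⟨1, eventually_map.2 (s.ratio.mono fun v hv => hv.2)⟩
    have hL4 : (1 : ℝ) / 4 ≤ limsup (fun v : ℝ => Real.log v / Real.log (gf C v)) (𝓝[>] 0) :=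
      le_limsup_of_frequently_le (s.ratio.frequently.mono fun v hv => hv.1) hbd
    rcases h with h | h
    · have h1 := h.limsup_eq
      rw [s.limsup_eq.1] at h1
      exact c.tendsto s (s.tendsto_ratio (by linarith) h)
    · have h1 := h.limsup_eq
      rw [s.limsup_eq.2] at h1
      -- the structure with `M` in the place of `R`
      have s' : Sc (gf C) M M :=
        { pos := s.pos
          mono := s.mono
          le := s.le
          poly := s.poly
          RM := fun n => le_rfl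
          Rnn := fun n => (s.Rnn n).trans (s.RM n)
          Mle := s.Mle
          up := s.up
          low := by
            intro ε hε hε1
            obtain ⟨K, hK, h⟩ := s.low ε hε hε1
            refine ⟨K, hK, fun v n hv hv1 hn hg => ?_⟩
            obtain ⟨N, a1, a2, a3⟩ := h v n hv hv1 hn hg
            exact ⟨N, a1, a2, a3.trans (s.RM N)⟩ }
      exact c.tendsto s' (s'.tendsto_ratio (by linarith) h)

end SawNu.SF
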