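import Pool.Agent.SawF.Insert

/-!
SAWF I1: insertion of a first passage bridge at the first cut.
-/

set_option autoImplicit false

open Classical Filter

namespace SawNu.SF

open SawNu.SB

variable {C : CL}

/-- insertion of `b` into `w` at the time `t` -/
def ins (w b : List Pt) (t : ℕ) : List Pt := w.take t ++ (b ++ w.drop t)

lemma ins_length {w : List Pt} (b : List Pt) {t : ℕ} (ht : t ≤ w.length) :
    (ins w b t).length = w.length + b.length := by
  simp only [ins, List.length_append, List.length_take, List.length_drop]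
  omega

lemma ps_ins_left {w : List Pt} (b : List Pt) {t i : ℕ} (ht : t ≤ w.length) (hi : i ≤ t) :
    ps (ins w b t) i = ps w i := by
  rw [ins, ps_append_left (by rw [List.length_take, min_eq_left ht]; exact hi), ps_take,
    min_eq_left hi]

lemma ps_ins_mid {w b : List Pt} {t i : ℕ} (ht : t ≤ w.length) (hi : i ≤ b.length) :
    ps (ins w b t) (t + i) = ps w t + ps b i := by
  have h := ps_append_right (w.take t) (b ++ w.drop t) i
  rw [List.length_take, min_eq_left ht, ps_append_left hi] at h
  exact h

lemma ps_ins_right {w : List Pt} (b : List Pt) {t : ℕ} (i : ℕ) (ht : t ≤ w.length) :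
    ps (ins w b t) (t + (b.length + i)) = ps w (t + i) + b.sum := by
  have h := ps_append_right (w.take t) (b ++ w.drop t) (b.length + i)
  rw [List.length_take, min_eq_left ht, ps_append_right, ps_drop _ _ ht] at h
  rw [ins, h]
  have : (w.take t).sum = ps w t := rfl
  rw [this]; abel

/-- the first cut time -/
def FC (w : List Pt) (t : ℕ) : Prop := CutT w t ∧ ∀ i < t, ¬ CutT w i

lemma FC.unique {w : List Pt} {t t' : ℕ} (h : FC w t) (h' : FC w t') : t = t' := by
  rcases lt_trichotomy t t' with h1 | h1 | h1
  · exact absurd h.1 (h'.2 t h1)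
  · exact h1
  · exact absurd h'.1 (h.2 t' h1)

lemma exists_FC {w : List Pt} (h : ∃ t, CutT w t) : ∃ t, FC w t :=
  ⟨Nat.find h, Nat.find_spec h, fun _ hi => Nat.find_min h hi⟩

lemma up_drop {w : List Pt} {t : ℕ} (h : CutT w t) : Up (w.drop t) := by
  intro i h1 h2
  rw [List.length_drop] at h2
  rw [ps_drop _ _ h.le, Prod.snd_sub]
  have := h.aft (t + i) (by omega) (by omega)
  omega

lemma wdn_take {w : List Pt} {t : ℕ} (h : CutT w t) : WDn (w.take t) := by
  intro i hi
  rw [List.length_take, min_eq_left h.le] at hi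
  rw [ps_take, min_eq_left hi]
  exact h.bef i hi

lemma ins_cut0 {w b : List Pt} {t : ℕ} (h : CutT w t) (hb : Up b) : CutT (ins w b t) t := by
  refine ⟨by rw [ins_length b h.le]; have := h.le; omega, ?_, ?_⟩
  · intro i hi
    rw [ps_ins_left b h.le hi, ps_ins_left b h.le le_rfl]
    exact h.bef i hi
  · intro i h1 h2
    rw [ins_length b h.le] at h2
    rw [ps_ins_left b h.le le_rfl]
    obtain ⟨j, rfl⟩ := Nat.exists_eq_add_of_lt h1
    rcases le_or_gt (j + 1) b.length with hj | hj
    · rw [add_assoc, ps_ins_mid h.le hj, Prod.snd_add]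
      have := hb (j + 1) (by omega) hj
      omega
    · obtain ⟨k, hk⟩ := Nat.exists_eq_add_of_lt hj
      rw [add_assoc, hk, add_assoc b.length k 1, ps_ins_right b (k + 1) h.le, Prod.snd_add]
      have h3 := h.aft (t + (k + 1)) (by omega) (by omega)
      have h4 : 0 ≤ b.sum.2 := hb.ht_nonneg
      omega

lemma ins_FC {w b : List Pt} {t : ℕ} (h : FC w t) (hb : Up b) : FC (ins w b t) t := by
  refine ⟨ins_cut0 h.1 hb, fun i hi hc => h.2 i hi ?_⟩
  have hle := h.1.le
  refine ⟨by omega, ?_, ?_⟩
  · intro j hj
    have := hc.bef j hj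
    rwa [ps_ins_left b hle (by omega), ps_ins_left b hle hi.le] at this
  · intro j h1 h2
    have h3 := hc.aft t hi (by rw [ins_length b hle]; omega)
    rw [ps_ins_left b hle hi.le, ps_ins_left b hle le_rfl] at h3
    rcases le_or_gt j t with hj | hj
    · have := hc.aft j h1 (by rw [ins_length b hle]; omega)
      rwa [ps_ins_left b hle (by omega), ps_ins_left b hle hj] at this
    · have := h.1.aft j hj h2
      omega

lemma ins_cut1 {w b : List Pt} {t : ℕ} (h : CutT w t) (hb : Up b) (hd : WDn b) :
    CutT (ins w b t) (t + b.length) := by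
  have e : ps (ins w b t) (t + b.length) = ps w t + b.sum := by
    have := ps_ins_right b 0 h.le
    simpa using this
  have hb0 : 0 ≤ b.sum.2 := hb.ht_nonneg
  refine ⟨by rw [ins_length b h.le]; have := h.le; omega, ?_, ?_⟩
  · intro i hi
    rw [e, Prod.snd_add]
    rcases le_or_gt i t with h1 | h1
    · rw [ps_ins_left b h.le h1]
      have := h.bef i h1
      omega
    · obtain ⟨j, rfl⟩ := Nat.exists_eq_add_of_lt h1
      rw [add_assoc, ps_ins_mid h.le (by omega), Prod.snd_add]
      have := hd (j + 1) (by omega)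
      omega
  · intro i h1 h2
    rw [ins_length b h.le] at h2
    obtain ⟨k, rfl⟩ := Nat.exists_eq_add_of_lt h1
    have e2 : t + b.length + k + 1 = t + (b.length + (k + 1)) := by omega
    rw [e, e2, ps_ins_right b (k + 1) h.le, Prod.snd_add, Prod.snd_add]
    have := h.aft (t + (k + 1)) (by omega) (by omega)
    omega

/-- the second marked cut: the first cut at a level at least `s` above the first one -/
lemma ins_first {w b : List Pt} {s t i : ℕ} (h : FC w t) (hb : FP C s b) (hi : i < t + b.length)
    (hc : CutT (ins w b t) i) : (ps (ins w b t) i).2 < (ps w t).2 + s := by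
  rcases lt_or_ge i t with h1 | h1
  · exact absurd hc ((ins_FC h hb.1.up).2 i h1)
  · obtain ⟨j, rfl⟩ := Nat.exists_eq_add_of_le h1
    have hj : j < b.length := by omega
    rw [ps_ins_mid h.1.le hj.le, Prod.snd_add]
    have hcb : CutT b j := by
      refine ⟨hj.le, ?_, ?_⟩
      · intro k hk
        have := hc.bef (t + k) (by omega)
        rw [ps_ins_mid h.1.le (by omega), ps_ins_mid h.1.le hj.le, Prod.snd_add,
          Prod.snd_add] at this
        omega
      · intro k h2 h3
        have := hc.aft (t + k) (by omega) (by rw [ins_length b h.1.le]; have := h.1.le; omega)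
        rw [ps_ins_mid h.1.le h3, ps_ins_mid h.1.le hj.le, Prod.snd_add,
          Prod.snd_add] at this
        omega
    have := hb.2.2 j hcb hj
    omega

/-- the insertion determines everything -/
lemma ins_inj {w w' b b' : List Pt} {s t t' : ℕ} (h : FC w t) (h' : FC w' t') (hb : FP C s b)
    (hb' : FP C s b') (he : ins w b t = ins w' b' t') : w = w' ∧ b = b' := by
  have ht : t = t' := by
    have h1 := ins_FC h hb.1.up
    rw [he] at h1
    exact h1.unique (ins_FC h' hb'.1.up)
  subst ht
  have hw : ps w t = ps w' t := by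
    rw [← ps_ins_left b h.1.le le_rfl, he, ps_ins_left b' h'.1.le le_rfl]
  have e : ps (ins w b t) (t + b.length) = ps w t + b.sum := by
    have := ps_ins_right b 0 h.1.le
    simpa using this
  have e' : ps (ins w' b' t) (t + b'.length) = ps w' t + b'.sum := by
    have := ps_ins_right b' 0 h'.1.le
    simpa using this
  have hs : (s : ℤ) ≤ b.sum.2 := hb.2.1
  have hs' : (s : ℤ) ≤ b'.sum.2 := hb'.2.1
  have hl : b.length = b'.length := by
    rcases lt_trichotomy b.length b'.length with h1 | h1 | h1
    · have c1 := ins_cut1 h.1 hb.1.up hb.1.dn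
      rw [he] at c1 e
      have := ins_first h' hb' (by omega) c1
      rw [e, Prod.snd_add, ← hw] at this
      omega
    · exact h1
    · have c1 := ins_cut1 h'.1 hb'.1.up hb'.1.dn
      rw [← he] at c1 e'
      have := ins_first h hb (by omega) c1
      rw [e', Prod.snd_add, ← hw] at this
      omega
  have hlt : (w.take t).length = (w'.take t).length := by
    rw [List.length_take, List.length_take, min_eq_left h.1.le, min_eq_left h'.1.le]
  obtain ⟨a1, a2⟩ := List.append_inj he hlt
  obtain ⟨a3, a4⟩ := List.append_inj a2 hl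
  refine ⟨?_, a3⟩
  rw [← List.take_append_drop t w, ← List.take_append_drop t w', a1, a4]

/-- the first cut time as a function -/
noncomputable def fct (w : List Pt) : ℕ := if h : ∃ t, FC w t then h.choose else 0

lemma fct_spec {w : List Pt} (h : ∃ t, CutT w t) : FC w (fct w) := by
  have h1 := exists_FC h
  rw [fct, dif_pos h1]
  exact h1.choose_spec

lemma ins_tall {w b : List Pt} {s n k t : ℕ} (hk : k ≤ n) (hw : w ∈ sas C (n - k))
    (hb : b ∈ fps C s k) (h : CutT w t) : ins w b t ∈ tall C s n := by
  rw [fps, Finset.mem_filter, mem_brs] at hb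
  rw [mem_sas] at hw
  obtain ⟨⟨hbl, hbr⟩, -, hbs, -⟩ := hb
  obtain ⟨hwl, hwd, hsa⟩ := hw
  have hle := h.le
  rw [tall, Finset.mem_filter, mem_sas]
  refine ⟨⟨?_, ?_, ?_⟩, t, t + b.length, ?_, ?_, ?_⟩
  · rw [ins_length b hle]; omega
  · exact (hwd.take t).append (hbr.wd.append (hwd.drop t))
  · have h1 : SA (w.take t) := by
      rw [← List.take_append_drop t w] at hsa
      exact hsa.left
    have h2 : SA (w.drop t) := by
      rw [← List.take_append_drop t w] at hsa
      exact hsa.right
    exact h1.append_of_wdn (hbr.sa.append_of_wdn h2 hbr.dn (up_drop h)) (wdn_take h)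
      (hbr.up.append (up_drop h))
  · rw [ins_length b hle]; omega
  · rw [ins_length b hle]; omega
  · have e : ps (ins w b t) (t + b.length) = ps w t + b.sum := by
      have := ps_ins_right b 0 hle
      simpa using this
    rw [e, ps_ins_left b hle le_rfl, Prod.snd_add]
    have : (s : ℤ) ≤ b.sum.2 := hbs
    omega

/-- the insertion is injective -/
theorem insert_count (s n m : ℕ) : ∑ k ∈ (Finset.range (m + 1)).filter (fun k => k ≤ n),
    (hc C (n - k)).card * (fps C s k).card ≤ (tall C s n).card := by
  have e : ∑ k ∈ (Finset.range (m + 1)).filter (fun k => k ≤ n),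
      (hc C (n - k)).card * (fps C s k).card =
      (((Finset.range (m + 1)).filter (fun k => k ≤ n)).sigma
        (fun k => hc C (n - k) ×ˢ fps C s k)).card := by
    rw [Finset.card_sigma]
    exact Finset.sum_congr rfl fun k _ => (Finset.card_product _ _).symm
  rw [e]
  refine Finset.card_le_card_of_injOn (fun x => ins x.2.1 x.2.2 (fct x.2.1)) ?_ ?_
  · rintro ⟨k, w, b⟩ hx
    rw [Finset.mem_coe, Finset.mem_sigma, Finset.mem_filter, Finset.mem_product] at hx
    obtain ⟨⟨-, hk⟩, hw, hb⟩ := hx
    simp only at hk hw hb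
    rw [hc, Finset.mem_filter] at hw
    exact ins_tall hk hw.1 hb (fct_spec hw.2).1
  · rintro ⟨k, w, b⟩ hx ⟨k', w', b'⟩ hx' he
    rw [Finset.mem_coe, Finset.mem_sigma, Finset.mem_filter, Finset.mem_product] at hx hx'
    obtain ⟨-, hw, hb⟩ := hx
    obtain ⟨-, hw', hb'⟩ := hx'
    simp only at hw hb hw' hb' he
    rw [hc, Finset.mem_filter] at hw hw'
    rw [fps, Finset.mem_filter, mem_brs] at hb hb'
    obtain ⟨h1, h2⟩ := ins_inj (fct_spec hw.2) (fct_spec hw'.2) hb.2 hb'.2 he
    subst h1 h2
    have : k = k' := by rw [← hb.1.1, ← hb'.1.1]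
    subst this
    rfl

end SawNu.SF
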