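import Pool.Agent.SawF.Insert

/-!
SAWF I2: from the extent to the maximal level.
-/

set_option autoImplicit false

open Classical Filter

namespace SawNu.SF

open SawNu.SB

variable {C : CL}

theorem InsB_mem {n : ℕ} {l : List Pt} (h : l ∈ sas C n) : l.map rhoH ∈ sas C n := by
  rw [mem_sas] at h ⊢
  exact ⟨by rw [List.length_map]; exact h.1, h.2.1.rho, h.2.2.map (fun _ _ => rhoH_inj)⟩

theorem InsB_rho (l : List Pt) : (l.map rhoH).map rhoH = l := by
  rw [List.map_map]
  conv_rhs => rw [← List.map_id l]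
  refine List.map_congr_left fun x _ => ?_
  exact rhoH_rhoH x

/-- from the extent to the maximal level -/
theorem card_tall_le (s n : ℕ) :
    (tall C s n).card ≤ 2 * ((sas C n).filter (fun l => (s : ℤ) ≤ 2 * mx l)).card := by
  have hsub : tall C s n ⊆ ((sas C n).filter (fun l => (s : ℤ) ≤ 2 * mx l)) ∪
      ((sas C n).filter (fun l => (s : ℤ) ≤ 2 * mx l)).image (fun l => l.map rhoH) := by
    intro l hl
    rw [tall, Finset.mem_filter] at hl
    obtain ⟨hl, i, j, hi, hj, hs⟩ := hl
    rw [Finset.mem_union]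
    have h1 : (ps l j).2 ≤ mx l := le_mx l hj
    have h2 : (ps (l.map rhoH) i).2 ≤ mx (l.map rhoH) := le_mx _ (by rw [List.length_map]; exact hi)
    rw [ps_map_rho, rhoH_snd] at h2
    by_cases h : (s : ℤ) ≤ 2 * mx l
    · exact Or.inl (Finset.mem_filter.2 ⟨hl, h⟩)
    · right
      rw [Finset.mem_image]
      refine ⟨l.map rhoH, Finset.mem_filter.2 ⟨InsB_mem hl, by omega⟩, InsB_rho l⟩
  refine (Finset.card_le_card hsub).trans ((Finset.card_union_le _ _).trans ?_)
  have h3 := Finset.card_image_le (s := (sas C n).filter (fun l => (s : ℤ) ≤ 2 * mx l)) (f := fun l => l.map rhoH)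
  omega

end SawNu.SF
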