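import Pool.Agent.SawF.FP

/-!
SAWF I: walks with a cut, tall walks, definitions.
-/

set_option autoImplicit false

open Classical Filter

namespace SawNu.SF

open SawNu.SB

/-- walks with a cut time -/
noncomputable def hc (C : CL) (n : ℕ) : Finset (List Pt) := (sas C n).filter (fun l => ∃ t, CutT l t)

/-- walks of vertical extent at least `s` -/
noncomputable def tall (C : CL) (s n : ℕ) : Finset (List Pt) :=
  (sas C n).filter (fun l => ∃ i j, i ≤ l.length ∧ j ≤ l.length ∧ (s : ℤ) ≤ (ps l j).2 - (ps l i).2)

end SawNu.SF
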