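import Mathlib

/-!
SAWF Bw: window regularity, numeric part (helper89).
-/

set_option autoImplicit false

open Classical Filter

namespace SawNu.SF

/-- the sum over the shifted block -/
lemma Window_blk {h f t : ℕ → ℝ} (hh : ∀ N, 0 ≤ h N) (hf : ∀ k, 0 ≤ f k) {m : ℕ}
    (ht : ∀ N, ∑ k ∈ (Finset.range (m + 1)).filter (fun k => k ≤ N), h (N - k) * f k ≤ t N) (a : ℕ) :
    (∑ i ∈ Finset.range m, h (a + i)) * ∑ k ∈ Finset.range (m + 1), f k ≤
      ∑ i ∈ Finset.range (m + m), t (a + i) := by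
  calc (∑ i ∈ Finset.range m, h (a + i)) * ∑ k ∈ Finset.range (m + 1), f k
      = ∑ k ∈ Finset.range (m + 1), (∑ i ∈ Finset.range m, h (a + i)) * f k := by rw [Finset.mul_sum]
    _ ≤ ∑ k ∈ Finset.range (m + 1), ∑ i ∈ Finset.range (m + m), if k ≤ a + i then h (a + i - k) * f k else 0 := by
        refine Finset.sum_le_sum fun k hk => ?_
        rw [Finset.mem_range] at hk
        rw [Finset.sum_mul]
        have h1 : ∑ i ∈ Finset.range m, h (a + i) * f k =
            ∑ j ∈ (Finset.range m).image (fun i => i + k),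
              if k ≤ a + j then h (a + j - k) * f k else 0 := by
          rw [Finset.sum_image (fun x _ y _ hxy => by
            have hxy' : x + k = y + k := hxy
            omega)]
          refine Finset.sum_congr rfl fun i _ => ?_
          rw [if_pos (by omega)]
          congr 2
          omega
        rw [h1]
        refine Finset.sum_le_sum_of_subset_of_nonneg ?_ ?_
        · intro j hj
          rw [Finset.mem_image] at hj
          obtain ⟨i, hi, rfl⟩ := hj
          rw [Finset.mem_range] at hi ⊢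
          omega
        · intro j _ _
          split_ifs
          · exact mul_nonneg (hh _) (hf _)
          · exact le_rfl
    _ = ∑ i ∈ Finset.range (m + m), ∑ k ∈ Finset.range (m + 1), if k ≤ a + i then h (a + i - k) * f k else 0 :=
        Finset.sum_comm
    _ ≤ ∑ i ∈ Finset.range (m + m), t (a + i) := by
        refine Finset.sum_le_sum fun i _ => ?_
        rw [← Finset.sum_filter]
        exact ht _

/-- numeric form of the window regularity -/
lemma Window_num {d K : ℝ} (hd : 0 < d) (hd1 : d < 1 / 4) (hK : 1 ≤ K) (n1 : ℕ) :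
    ∃ n0 : ℕ, 1 ≤ n0 ∧ ∀ n : ℕ, n0 ≤ n → ∀ (m : ℕ) (Φ : ℝ) (c h f t : ℕ → ℝ), 1 ≤ m → m ≤ n → 0 < Φ →
      (∀ N, 1 ≤ c N) → (∀ N, c N ≤ K * Real.exp ((N : ℝ) ^ (d / 2))) → (∀ N, 0 ≤ h N) → (∀ k, 0 ≤ f k) →
      (∀ N, n1 ≤ N → c N ≤ (N : ℝ) ^ (d / 2) * h N) →
      (∀ N, ∑ k ∈ (Finset.range (m + 1)).filter (fun k => k ≤ N), h (N - k) * f k ≤ t N) →
      Φ ≤ ∑ k ∈ Finset.range (m + 1), f k →
      ∃ N : ℕ, n ≤ N ∧ (N : ℝ) ≤ n + m * (n : ℝ) ^ (2 * d) ∧ Φ * (n : ℝ) ^ (-(2 * d)) * c N ≤ t N := by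
  have htend : Tendsto (fun n : ℕ => (n : ℝ) ^ d) atTop atTop :=
    (tendsto_rpow_atTop hd).comp tendsto_natCast_atTop_atTop
  obtain ⟨n2, hn2⟩ := eventually_atTop.1 (htend.eventually_ge_atTop (10 + Real.log K))
  refine ⟨max 1 (max n1 n2), le_max_left _ _, ?_⟩
  intro n hn m Φ c h f t hm hmn hΦ hc hc' hh hf hch ht hΦf
  by_contra hcon
  push Not at hcon
  have hn1 : 1 ≤ n := le_trans (le_max_left _ _) hn
  have hn1' : n1 ≤ n := le_trans (le_trans (le_max_left _ _) (le_max_right _ _)) hn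
  have hn2' : n2 ≤ n := le_trans (le_trans (le_max_right _ _) (le_max_right _ _)) hn
  set X : ℝ := (n : ℝ) ^ d with hX
  have hXb : 10 + Real.log K ≤ X := hn2 n hn2'
  have hlogK : 0 ≤ Real.log K := Real.log_nonneg hK
  have hX10 : 10 ≤ X := by linarith
  have hX0 : 0 < X := by linarith
  have hnR : (1 : ℝ) ≤ n := by exact_mod_cast hn1
  have hn0 : (0 : ℝ) < n := by linarith
  have hX2 : (n : ℝ) ^ (2 * d) = X ^ 2 := by
    rw [hX, ← Real.rpow_natCast, ← Real.rpow_mul hn0.le]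
    congr 1
    push_cast
    ring
  have hXm : (n : ℝ) ^ (-(2 * d)) = (X ^ 2)⁻¹ := by
    rw [Real.rpow_neg hn0.le, hX2]
  -- bound on N ^ (d / 2)
  have hNb : ∀ N : ℕ, (N : ℝ) ≤ n + m * (n : ℝ) ^ (2 * d) → (N : ℝ) ^ (d / 2) ≤ 2 * X := by
    intro N hN
    have h1 : (n : ℝ) ^ (2 * d) ≤ n := by
      calc (n : ℝ) ^ (2 * d) ≤ (n : ℝ) ^ (1 : ℝ) := Real.rpow_le_rpow_of_exponent_le hnR (by linarith)
        _ = n := Real.rpow_one _
    have hmR : (m : ℝ) ≤ n := by exact_mod_cast hmn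
    have h2 : (N : ℝ) ≤ 2 * (n : ℝ) ^ 2 := by
      have h3 : (m : ℝ) * (n : ℝ) ^ (2 * d) ≤ n * n :=
        mul_le_mul hmR h1 (Real.rpow_nonneg hn0.le _) hn0.le
      nlinarith
    have h4 : (N : ℝ) ^ (d / 2) ≤ (2 * (n : ℝ) ^ 2) ^ (d / 2) :=
      Real.rpow_le_rpow (Nat.cast_nonneg _) h2 (by linarith)
    have h5 : (2 * (n : ℝ) ^ 2) ^ (d / 2) = 2 ^ (d / 2) * X := by
      rw [Real.mul_rpow (by norm_num) (by positivity), hX, ← Real.rpow_natCast, ← Real.rpow_mul hn0.le]
      congr 2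
      push_cast
      ring
    have h6 : (2 : ℝ) ^ (d / 2) ≤ 2 := by
      calc (2 : ℝ) ^ (d / 2) ≤ 2 ^ (1 : ℝ) := Real.rpow_le_rpow_of_exponent_le (by norm_num) (by linarith)
        _ = 2 := Real.rpow_one _
    rw [h5] at h4
    nlinarith
  -- blocks
  set S : ℕ → ℝ := fun j => ∑ i ∈ Finset.range m, c (n + j * m + i) with hS
  have hS0 : ∀ j, (m : ℝ) ≤ S j := by
    intro j
    calc (m : ℝ) = ∑ i ∈ Finset.range m, (1 : ℝ) := by simp
      _ ≤ S j := Finset.sum_le_sum fun i _ => hc _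
  have hmpos : (0 : ℝ) < m := by exact_mod_cast hm
  set J : ℕ := ⌊X ^ 2⌋₊ - 1 with hJ
  have hfl : 1 ≤ ⌊X ^ 2⌋₊ := by
    rw [Nat.one_le_floor_iff]
    nlinarith
  have hJ1 : ((J : ℝ) + 1) ≤ X ^ 2 := by
    have h1 : ((⌊X ^ 2⌋₊ : ℕ) : ℝ) ≤ X ^ 2 := Nat.floor_le (by positivity)
    have h2 : ((J + 1 : ℕ) : ℝ) = ((⌊X ^ 2⌋₊ : ℕ) : ℝ) := by
      congr 1
      omega
    push_cast at h2
    linarith
  have hJ2 : X ^ 2 - 2 < (J : ℝ) := by
    have h1 : X ^ 2 < ((⌊X ^ 2⌋₊ : ℕ) : ℝ) + 1 := Nat.lt_floor_add_one _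
    have h2 : ((J + 1 : ℕ) : ℝ) = ((⌊X ^ 2⌋₊ : ℕ) : ℝ) := by
      congr 1
      omega
    push_cast at h2
    linarith
  have hrange : ∀ j i : ℕ, j ≤ J → i < m → ((n + j * m + i : ℕ) : ℝ) ≤ n + m * (n : ℝ) ^ (2 * d) := by
    intro j i hj hi
    rw [hX2]
    have h1 : ((n + j * m + i : ℕ) : ℝ) ≤ ((n + (J + 1) * m : ℕ) : ℝ) := by
      have : n + j * m + i ≤ n + (J + 1) * m := by
        have h2 : j * m ≤ J * m := Nat.mul_le_mul_right _ hj
        have h3 : (J + 1) * m = J * m + m := by ring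
        omega
      exact_mod_cast this
    push_cast at h1
    push_cast
    nlinarith
  have hstep : ∀ j, j + 1 ≤ J → 2 * S j ≤ S (j + 1) := by
    intro j hj
    have h1 := Window_blk hh hf ht (n + j * m)
    have h2 : S j ≤ 2 * X * ∑ i ∈ Finset.range m, h (n + j * m + i) := by
      rw [hS, Finset.mul_sum]
      refine Finset.sum_le_sum fun i hi => ?_
      rw [Finset.mem_range] at hi
      calc c (n + j * m + i) ≤ ((n + j * m + i : ℕ) : ℝ) ^ (d / 2) * h (n + j * m + i) :=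
            hch _ (by omega)
        _ ≤ 2 * X * h (n + j * m + i) :=
            mul_le_mul_of_nonneg_right (hNb _ (hrange j i (by omega) hi)) (hh _)
    have h3 : ∑ i ∈ Finset.range (m + m), t (n + j * m + i) ≤ Φ * (X ^ 2)⁻¹ * (S j + S (j + 1)) := by
      have h4 : S j + S (j + 1) = ∑ i ∈ Finset.range (m + m), c (n + j * m + i) := by
        rw [Finset.sum_range_add]
        congr 1
        refine Finset.sum_congr rfl fun i _ => ?_
        congr 1
        ring
      rw [h4, Finset.mul_sum]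
      refine Finset.sum_le_sum fun i hi => ?_
      rw [Finset.mem_range] at hi
      have h5 : ((n + j * m + i : ℕ) : ℝ) ≤ n + m * (n : ℝ) ^ (2 * d) := by
        rcases lt_or_ge i m with h6 | h6
        · exact hrange j i (by omega) h6
        · have h7 := hrange (j + 1) (i - m) hj (by omega)
          have h8 : n + (j + 1) * m + (i - m) = n + j * m + i := by
            have h9 : (j + 1) * m = j * m + m := by ring
            omega
          rwa [h8] at h7
      have h6 := hcon (n + j * m + i) (by omega) h5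
      rw [hXm] at h6
      exact h6.le
    have h4 : 0 ≤ ∑ i ∈ Finset.range m, h (n + j * m + i) := Finset.sum_nonneg fun i _ => hh _
    have h5 : Φ * ∑ i ∈ Finset.range m, h (n + j * m + i) ≤
        (∑ i ∈ Finset.range m, h (n + j * m + i)) * ∑ k ∈ Finset.range (m + 1), f k := by
      rw [mul_comm Φ]
      exact mul_le_mul_of_nonneg_left hΦf h4
    have h6 : Φ * ∑ i ∈ Finset.range m, h (n + j * m + i) ≤ Φ * ((X ^ 2)⁻¹ * (S j + S (j + 1))) := by
      calc _ ≤ _ := h5
        _ ≤ _ := h1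
        _ ≤ _ := h3
        _ = _ := by ring
    have h7 : ∑ i ∈ Finset.range m, h (n + j * m + i) ≤ (X ^ 2)⁻¹ * (S j + S (j + 1)) :=
      le_of_mul_le_mul_left h6 hΦ
    have h8 : S j ≤ 2 * X * ((X ^ 2)⁻¹ * (S j + S (j + 1))) :=
      h2.trans (mul_le_mul_of_nonneg_left h7 (by linarith))
    have h9 : 2 * X * ((X ^ 2)⁻¹ * (S j + S (j + 1))) = 2 / X * (S j + S (j + 1)) := by
      field_simp
    rw [h9] at h8
    have h10 : X * S j ≤ 2 * (S j + S (j + 1)) := by
      have h11 := mul_le_mul_of_nonneg_left h8 hX0.le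
      have h12 : X * (2 / X * (S j + S (j + 1))) = 2 * (S j + S (j + 1)) := by
        field_simp
      rwa [h12] at h11
    have h13 := hS0 j
    nlinarith
  have hgrow : ∀ j, j ≤ J → (2 : ℝ) ^ j * m ≤ S j := by
    intro j
    induction j with
    | zero => intro _; rw [pow_zero, one_mul]; exact hS0 0
    | succ j ih =>
      intro hj
      have h1 := ih (by omega)
      have h2 := hstep j hj
      rw [pow_succ]
      nlinarith
  have hSJ : S J ≤ m * (K * Real.exp (2 * X)) := by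
    calc S J ≤ ∑ i ∈ Finset.range m, K * Real.exp (2 * X) := by
          refine Finset.sum_le_sum fun i hi => ?_
          rw [Finset.mem_range] at hi
          refine (hc' _).trans (mul_le_mul_of_nonneg_left (Real.exp_le_exp.2 ?_) (by linarith))
          exact hNb _ (hrange J i le_rfl hi)
      _ = m * (K * Real.exp (2 * X)) := by rw [Finset.sum_const, Finset.card_range, nsmul_eq_mul]
  have h1 : (2 : ℝ) ^ J * m ≤ m * (K * Real.exp (2 * X)) := (hgrow J le_rfl).trans hSJ
  have h2 : (2 : ℝ) ^ J ≤ K * Real.exp (2 * X) := by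
    have h3 : (2 : ℝ) ^ J * m ≤ (K * Real.exp (2 * X)) * m := by linarith
    exact le_of_mul_le_mul_right h3 hmpos
  have h3 : (J : ℝ) * Real.log 2 ≤ Real.log K + 2 * X := by
    have h4 := Real.log_le_log (by positivity) h2
    rw [Real.log_pow, Real.log_mul (by linarith) (Real.exp_pos _).ne', Real.log_exp] at h4
    exact h4
  have h4 : (0.69 : ℝ) < Real.log 2 := by
    have := Real.log_two_gt_d9
    linarith
  have h5 : (X ^ 2 - 2) * 0.69 ≤ (J : ℝ) * Real.log 2 := by
    have h6 : 0 ≤ X ^ 2 - 2 := by nlinarith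
    calc (X ^ 2 - 2) * 0.69 ≤ (X ^ 2 - 2) * Real.log 2 := mul_le_mul_of_nonneg_left h4.le h6
      _ ≤ (J : ℝ) * Real.log 2 := mul_le_mul_of_nonneg_right hJ2.le (by linarith)
  nlinarith

end SawNu.SF
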