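import Pool.Agent.SawF.InsA
import Pool.Agent.SawF.CutEx
import Pool.Agent.SawF.WindowNum
import Pool.Agent.SawFlat.Mass
import Pool.Agent.Saw39.SB.Final

/-!
SAWF Bw: window regularity.
-/

set_option autoImplicit false

open Classical Filter

namespace SawNu.SF

open SawNu.SB SawNu.SBR Pool.Agent.Lib.SAW.HW Pool.Agent.SawBr38

variable {C : CL} {L : RLat}

/-- window regularity: some `N` in `[n, n + m n^(2d)]` has many tall walks -/
theorem window (hM : Mirrored L) (hup : ∀ b, ∃ u ∈ L.S b, u.2 = 1)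
    (hS : ∀ b, L.S b = C.S) {d : ℝ} (hd : 0 < d) (hd1 : d < 1 / 4) :
    ∃ n0 : ℕ, 1 ≤ n0 ∧ ∀ n : ℕ, n0 ≤ n → ∀ (s m : ℕ) (Φ : ℝ), 1 ≤ m → m ≤ n → 0 < Φ → Φ ≤ 1 →
      Φ ≤ ∑ k ∈ Finset.range (m + 1), ((fps C s k).card : ℝ) * Real.exp (-(G C 0 0 * k)) →
      ∃ N : ℕ, n ≤ N ∧ (N : ℝ) ≤ n + m * (n : ℝ) ^ (2 * d) ∧
        Φ * (n : ℝ) ^ (-(2 * d)) * ((sas C N).card : ℝ) ≤ ((tall C s N).card : ℝ) := by
  obtain ⟨K, hK1, hK⟩ := exists_card_sas_le hM hup hS (δ := d / 2) (by linarith)
  obtain ⟨n1, hn1⟩ := cut_exists (C := C) hS (d := d / 2) (by linarith)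
  obtain ⟨n0, hn0, hnum⟩ := Window_num hd hd1 hK1 n1
  refine ⟨n0, hn0, fun n hn s m Φ hm hmn hΦ _ hf => ?_⟩
  set g : ℝ := G C 0 0 with hg
  have hpos : ∀ N : ℕ, 0 < Real.exp (-(g * N)) := fun N => Real.exp_pos _
  obtain ⟨N, h1, h2, h3⟩ := hnum n hn m Φ (fun N => ((sas C N).card : ℝ) * Real.exp (-(g * N)))
    (fun N => ((hc C N).card : ℝ) * Real.exp (-(g * N)))
    (fun k => ((fps C s k).card : ℝ) * Real.exp (-(g * k)))
    (fun N => ((tall C s N).card : ℝ) * Real.exp (-(g * N))) hm hmn hΦ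
    (fun N => by
      have h := card_ge (C := C) N
      rw [← hg] at h
      calc (1 : ℝ) = Real.exp (g * N) * Real.exp (-(g * N)) := by
            rw [← Real.exp_add, add_neg_cancel, Real.exp_zero]
        _ ≤ _ := mul_le_mul_of_nonneg_right h (hpos N).le)
    (fun N => by
      have h := hK N N le_rfl
      calc ((sas C N).card : ℝ) * Real.exp (-(g * N)) ≤
            K * Real.exp (g * N + (N : ℝ) ^ (d / 2)) * Real.exp (-(g * N)) :=
            mul_le_mul_of_nonneg_right h (hpos N).le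
        _ = K * Real.exp ((N : ℝ) ^ (d / 2)) := by
            rw [mul_assoc, ← Real.exp_add]
            congr 2
            ring)
    (fun N => mul_nonneg (Nat.cast_nonneg _) (hpos N).le)
    (fun k => mul_nonneg (Nat.cast_nonneg _) (hpos k).le)
    (fun N hN => by
      have h := hn1 N hN
      calc ((sas C N).card : ℝ) * Real.exp (-(g * N)) ≤
            (N : ℝ) ^ (d / 2) * ((hc C N).card : ℝ) * Real.exp (-(g * N)) :=
            mul_le_mul_of_nonneg_right h (hpos N).le
        _ = _ := by ring)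
    (fun N => by
      have h := insert_count (C := C) s N m
      have h' : (∑ k ∈ (Finset.range (m + 1)).filter (fun k => k ≤ N),
          ((hc C (N - k)).card : ℝ) * ((fps C s k).card : ℝ)) ≤ ((tall C s N).card : ℝ) := by
        exact_mod_cast h
      calc ∑ k ∈ (Finset.range (m + 1)).filter (fun k => k ≤ N),
            ((hc C (N - k)).card : ℝ) * Real.exp (-(g * (N - k : ℕ))) *
              (((fps C s k).card : ℝ) * Real.exp (-(g * k)))
          = ∑ k ∈ (Finset.range (m + 1)).filter (fun k => k ≤ N),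
            ((hc C (N - k)).card : ℝ) * ((fps C s k).card : ℝ) * Real.exp (-(g * N)) := by
            refine Finset.sum_congr rfl fun k hk => ?_
            rw [Finset.mem_filter] at hk
            have hkN : ((N - k : ℕ) : ℝ) = (N : ℝ) - k := by
              rw [Nat.cast_sub hk.2]
            have he : Real.exp (-(g * N)) = Real.exp (-(g * (N - k : ℕ))) * Real.exp (-(g * k)) := by
              rw [← Real.exp_add, hkN]
              congr 1
              ring
            rw [he]
            ring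
        _ = (∑ k ∈ (Finset.range (m + 1)).filter (fun k => k ≤ N),
            ((hc C (N - k)).card : ℝ) * ((fps C s k).card : ℝ)) * Real.exp (-(g * N)) := by
            rw [Finset.sum_mul]
        _ ≤ _ := mul_le_mul_of_nonneg_right h' (hpos N).le)
    hf
  refine ⟨N, h1, h2, ?_⟩
  have h4 : Φ * (n : ℝ) ^ (-(2 * d)) * ((sas C N).card : ℝ) * Real.exp (-(g * N)) ≤
      ((tall C s N).card : ℝ) * Real.exp (-(g * N)) := by
    rw [mul_assoc]
    exact h3
  exact le_of_mul_le_mul_right h4 (hpos N)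

end SawNu.SF
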