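import Pool.Agent.SawF.FPb
import Pool.Agent.SawF.Window
import Pool.Agent.SawF.InsB
import Pool.Agent.SawF.EndPt

/-!
SAWF B for words.
-/

set_option autoImplicit false

open Classical Filter

namespace SawNu.SF

open SawNu.SB SawNu.SBR Pool.Agent.Lib.SAW.HW Pool.Agent.SawBr38

variable {C : CL} {L : RLat}

namespace Low

/-- the walks of `N` steps are not flat -/
lemma flat (hS : ∀ b, L.S b = C.S) (R : Rot L) {d : ℝ} (hd : 0 < d) :
    ∃ (c : ℝ) (n0 : ℕ), 0 < c ∧ ∀ n : ℕ, n0 ≤ n →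
      c * (n : ℝ) ^ (-d) * ((sas C n).card : ℝ) ≤ ∑ l ∈ sas C n, (ht l : ℝ) ^ 2 := by
  obtain ⟨c, n0, hc, h⟩ := end_of_max (C := C) hS hd
  refine ⟨c, max n0 8, hc, fun n hn => ?_⟩
  have h1 := R.packing n 1 (by omega)
  rw [WS_eq_sas hS] at h1
  have h2 : (sas C n).filter (fun l => ((1 : ℕ) : ℤ) ≤ mx l) ⊆
      (sas C n).filter (fun l => ((2 : ℕ) : ℤ) ≤ 2 * mx l) := by
    intro l hl
    rw [Finset.mem_filter] at hl ⊢
    refine ⟨hl.1, ?_⟩
    have := hl.2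
    push_cast at this ⊢
    omega
  have h3 := Finset.card_le_card h2
  have h4 : (sas C n).card ≤ 4 * ((sas C n).filter (fun l => ((2 : ℕ) : ℤ) ≤ 2 * mx l)).card :=
    h1.trans (Nat.mul_le_mul_left 4 h3)
  have h5 : ((sas C n).card : ℝ) ≤
      4 * (((sas C n).filter (fun l => ((2 : ℕ) : ℤ) ≤ 2 * mx l)).card : ℝ) := by
    exact_mod_cast h4
  have h6 := h n (by omega) 2 (1 / 4) (by norm_num) (by norm_num) (by
    generalize (((sas C n).filter (fun l => ((2 : ℕ) : ℤ) ≤ 2 * mx l)).card : ℝ) = X at h5 ⊢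
    linarith)
  have h7 : c * (1 / 4) * (n : ℝ) ^ (-d) * ((2 : ℕ) : ℝ) ^ 2 * ((sas C n).card : ℝ) =
      c * (n : ℝ) ^ (-d) * ((sas C n).card : ℝ) := by
    push_cast; ring
  rw [h7] at h6
  exact h6

/-- the case of a small force -/
lemma small (hM : Mirrored L) (hup : ∀ b, ∃ u ∈ L.S b, u.2 = 1)
    (hS : ∀ b, L.S b = C.S) (R : Rot L) {ε : ℝ} (hε : 0 < ε) (hε1 : ε ≤ 1) :
    ∃ (K v0 : ℝ) (n1 : ℕ), 1 ≤ K ∧ 0 < v0 ∧ ∀ (v : ℝ) (n : ℕ), 0 < v → n1 ≤ n → 1 ≤ n →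
      1 ≤ n * gf C v → v * (n : ℝ) ^ (ε / 4) ≤ v0 →
      ∃ N : ℕ, n ≤ N ∧ (N : ℝ) ≤ n + K * (n : ℝ) ^ (1 - ε / 20) ∧
        (n : ℝ) ^ (-ε) / (K * v ^ 2) * ((sas C N).card : ℝ) ≤ ∑ l ∈ sas C N, (ht l : ℝ) ^ 2 := by
  set d := ε / 32 with hd
  have hd0 : 0 < d := by positivity
  have hd1 : d < 1 / 4 := by rw [hd]; linarith
  obtain ⟨v0, hv0, hv01, hF⟩ := fp_lower (C := C) hM hup hS R hd0 (by linarith)
  obtain ⟨na, hna, hW⟩ := window (C := C) hM hup hS hd0 hd1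
  obtain ⟨c, ne, hc, hE⟩ := end_of_max (C := C) hS hd0
  have hev : ∀ᶠ n : ℕ in atTop, (2 : ℝ) ≤ (n : ℝ) ^ (7 * d) :=
    ((tendsto_rpow_atTop (show 0 < 7 * d by linarith)).comp
      tendsto_natCast_atTop_atTop).eventually_ge_atTop 2
  obtain ⟨nb, hnb⟩ := eventually_atTop.1 hev
  refine ⟨max 2 (48 / c), v0, max na (max ne nb), le_trans (by norm_num) (le_max_left _ _), hv0, ?_⟩
  intro v n hv hn hn1 hg hw
  have hna' : na ≤ n := le_trans (le_max_left _ _) hn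
  have hne' : ne ≤ n := le_trans (le_trans (le_max_left _ _) (le_max_right _ _)) hn
  have hnb' : nb ≤ n := le_trans (le_trans (le_max_right _ _) (le_max_right _ _)) hn
  have h2 := hnb n hnb'
  set x : ℝ := (n : ℝ) with hx
  have hx1 : 1 ≤ x := by rw [hx]; exact_mod_cast hn1
  have hx0 : 0 < x := by linarith
  set w := v * x ^ (ε / 4) with hwdef
  have hxe : 1 ≤ x ^ (ε / 4) := Real.one_le_rpow hx1 (by positivity)
  have hw0 : 0 < w := by positivity
  have hw1 : w ≤ 1 := hw.trans hv01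
  -- the free energy at `w`
  have hgw : x ^ (ε / 4 - 1) ≤ gf C w := by
    have h3 := gf_mul (C := C) hv.le hxe
    rw [mul_comm (x ^ (ε / 4)) v] at h3
    have h4 : x ^ (ε / 4 - 1) ≤ x ^ (ε / 4) * gf C v := by
      rw [Real.rpow_sub hx0, Real.rpow_one, div_eq_mul_inv]
      refine mul_le_mul_of_nonneg_left ?_ (by positivity)
      rw [inv_le_iff_one_le_mul₀ hx0, mul_comm]
      exact hg
    exact h4.trans h3
  have hwl : x⁻¹ ≤ w := by
    have h3 : x⁻¹ ≤ x ^ (ε / 4 - 1) := by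
      rw [← Real.rpow_neg_one]
      exact Real.rpow_le_rpow_of_exponent_le hx1 (by linarith)
    exact h3.trans (hgw.trans (gf_le hw0.le))
  have hwp : ∀ t : ℝ, 0 ≤ t → x ^ (-t) ≤ w ^ t := by
    intro t ht
    rw [Real.rpow_neg hx0.le, ← Real.inv_rpow hx0.le]
    exact Real.rpow_le_rpow (by positivity) hwl ht
  have hwn : w ^ (-d) ≤ x ^ d := by
    have h3 := hwp d hd0.le
    rw [Real.rpow_neg hx0.le] at h3
    rw [Real.rpow_neg hw0.le]
    exact inv_le_of_inv_le₀ (by positivity) h3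
  -- the length
  set m : ℕ := ⌈x ^ (1 - ε / 4) * w ^ (-d)⌉₊ with hm
  have hm0 : 0 < x ^ (1 - ε / 4) * w ^ (-d) := by positivity
  have hm1 : 1 ≤ m := Nat.one_le_ceil_iff.2 hm0
  have hmle : x ^ (1 - ε / 4) * w ^ (-d) ≤ (m : ℝ) := Nat.le_ceil _
  have hm2 : (m : ℝ) ≤ 2 * x ^ (1 - 7 * d) := by
    have h3 := (Nat.ceil_lt_add_one hm0.le).le
    have h4 : x ^ (1 - ε / 4) * w ^ (-d) ≤ x ^ (1 - 7 * d) := by
      have h5 : x ^ (1 - 7 * d) = x ^ (1 - ε / 4) * x ^ d := by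
        rw [← Real.rpow_add hx0]
        congr 1
        rw [hd]; ring
      rw [h5]
      exact mul_le_mul_of_nonneg_left hwn (by positivity)
    have h6 : 1 ≤ x ^ (1 - 7 * d) := Real.one_le_rpow hx1 (by rw [hd]; linarith)
    linarith
  have hmn : m ≤ n := by
    have h3 : 2 * x ^ (1 - 7 * d) ≤ x := by
      have h4 : x ^ (1 - 7 * d) * x ^ (7 * d) = x := by
        rw [← Real.rpow_add hx0]
        norm_num
      have h5 : 0 < x ^ (1 - 7 * d) := by positivity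
      nlinarith
    have h6 : (m : ℝ) ≤ (n : ℝ) := hm2.trans h3
    exact_mod_cast h6
  have hgm : w ^ (-d) ≤ gf C w * m := by
    have h3 : x ^ (ε / 4 - 1) * (x ^ (1 - ε / 4) * w ^ (-d)) = w ^ (-d) := by
      rw [← mul_assoc, ← Real.rpow_add hx0]
      norm_num
    rw [← h3]
    exact mul_le_mul hgw hmle hm0.le (le_trans (by positivity) hgw)
  -- the height
  set y := w ^ (-(1 - d)) with hy
  have hy1 : 1 ≤ y := Real.one_le_rpow_of_pos_of_le_one_of_nonpos hw0 hw1 (by linarith)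
  set s : ℕ := ⌊y⌋₊ with hs
  have hsy : (s : ℝ) ≤ y := Nat.floor_le (by linarith)
  have hs1 : 1 ≤ s := (Nat.one_le_floor_iff y).2 hy1
  have hs2 : y / 2 ≤ (s : ℝ) := by
    have h3 := Nat.lt_floor_add_one y
    have h4 : (1 : ℝ) ≤ s := by exact_mod_cast hs1
    rw [← hs] at h3
    linarith
  have hΦ := hF w hw0 hw s m hsy hgm
  have hwd1 : w ^ d ≤ 1 := Real.rpow_le_one hw0.le hw1 hd0.le
  have hwd0 : 0 < w ^ d := by positivity
  obtain ⟨N, hN1, hN2, hN3⟩ := hW n hna' s m (w ^ d / 2) hm1 hmn (by linarith) (by linarith) hΦ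
  have hx2d : x ^ (-(2 * d)) ≤ 1 := Real.rpow_le_one_of_one_le_of_nonpos hx1 (by linarith)
  have hx2d0 : 0 < x ^ (-(2 * d)) := by positivity
  set q := w ^ d * x ^ (-(2 * d)) / 4 with hq
  have hq0 : 0 ≤ q := by positivity
  have hq1 : q ≤ 1 := by
    have h3 : w ^ d * x ^ (-(2 * d)) ≤ 1 := mul_le_one₀ hwd1 hx2d0.le hx2d
    rw [hq]; linarith
  have h5 : q * ((sas C N).card : ℝ) ≤
      (((sas C N).filter (fun l => (s : ℤ) ≤ 2 * mx l)).card : ℝ) := by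
    have h6 : ((tall C s N).card : ℝ) ≤
        2 * (((sas C N).filter (fun l => (s : ℤ) ≤ 2 * mx l)).card : ℝ) := by
      exact_mod_cast card_tall_le (C := C) s N
    have h7 : q * ((sas C N).card : ℝ) = w ^ d / 2 * x ^ (-(2 * d)) * ((sas C N).card : ℝ) / 2 := by
      rw [hq]; ring
    linarith
  have h6 := hE N (hne'.trans hN1) s q hq0 hq1 h5
  have hNx : (x : ℝ) ≤ N := by rw [hx]; exact_mod_cast hN1
  have hN0 : (0 : ℝ) < N := by linarith
  -- the bound on `N`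
  have hN4 : (N : ℝ) ≤ x + 2 * x ^ (1 - 5 * d) := by
    have h7 : (m : ℝ) * x ^ (2 * d) ≤ 2 * x ^ (1 - 7 * d) * x ^ (2 * d) :=
      mul_le_mul_of_nonneg_right hm2 (by positivity)
    have h8 : 2 * x ^ (1 - 7 * d) * x ^ (2 * d) = 2 * x ^ (1 - 5 * d) := by
      rw [mul_assoc, ← Real.rpow_add hx0]
      congr 2
      ring
    linarith
  have hN5 : (N : ℝ) ≤ 3 * x := by
    have h7 : x ^ (1 - 5 * d) ≤ x := by
      have h8 := Real.rpow_le_rpow_of_exponent_le hx1 (show 1 - 5 * d ≤ 1 by linarith)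
      rwa [Real.rpow_one] at h8
    linarith
  refine ⟨N, hN1, ?_, ?_⟩
  · have h7 : x ^ (1 - 5 * d) ≤ x ^ (1 - ε / 20) :=
      Real.rpow_le_rpow_of_exponent_le hx1 (by rw [hd]; linarith)
    have h8 : 2 * x ^ (1 - ε / 20) ≤ max 2 (48 / c) * x ^ (1 - ε / 20) :=
      mul_le_mul_of_nonneg_right (le_max_left _ _) (by positivity)
    linarith
  · refine le_trans ?_ h6
    refine mul_le_mul_of_nonneg_right ?_ (Nat.cast_nonneg _)
    have hNd : x ^ (-d) / 3 ≤ (N : ℝ) ^ (-d) := by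
      have h7 : (3 * x) ^ (-d) ≤ (N : ℝ) ^ (-d) :=
        Real.rpow_le_rpow_of_nonpos hN0 hN5 (by linarith)
      have h8 : (3 * x) ^ (-d) = 3 ^ (-d) * x ^ (-d) := Real.mul_rpow (by norm_num) hx0.le
      have h9 : (1 / 3 : ℝ) ≤ 3 ^ (-d) := by
        have h10 : (3 : ℝ) ^ (-1 : ℝ) ≤ 3 ^ (-d) :=
          Real.rpow_le_rpow_of_exponent_le (by norm_num) (by linarith)
        rw [Real.rpow_neg_one] at h10
        linarith
      have h11 : 0 < x ^ (-d) := by positivity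
      rw [h8] at h7
      nlinarith
    have hs3 : w ^ (-2 + 2 * d) / 4 ≤ (s : ℝ) ^ 2 := by
      have h7 : y ^ 2 = w ^ (-2 + 2 * d) := by
        rw [hy, ← Real.rpow_natCast, ← Real.rpow_mul hw0.le]
        congr 1
        push_cast; ring
      have h8 : (y / 2) ^ 2 ≤ (s : ℝ) ^ 2 := by
        apply pow_le_pow_left₀ (by linarith) hs2
      rw [← h7]
      nlinarith
    have hlow : c / 48 * (x ^ (-ε) / v ^ 2) ≤ c * q * (N : ℝ) ^ (-d) * (s : ℝ) ^ 2 := by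
      have h7 : c * q * (x ^ (-d) / 3) * (w ^ (-2 + 2 * d) / 4) ≤
          c * q * (N : ℝ) ^ (-d) * (s : ℝ) ^ 2 := by
        apply mul_le_mul (mul_le_mul_of_nonneg_left hNd (by positivity)) hs3 (by positivity)
          (by positivity)
      refine le_trans ?_ h7
      have h8 : c * q * (x ^ (-d) / 3) * (w ^ (-2 + 2 * d) / 4) =
          c / 48 * ((x ^ (-(2 * d)) * x ^ (-d)) * (w ^ d * w ^ (-2 + 2 * d))) := by
        rw [hq]; ring
      rw [h8]
      refine mul_le_mul_of_nonneg_left ?_ (by positivity)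
      have h9 : x ^ (-(2 * d)) * x ^ (-d) = x ^ (-(3 * d)) := by
        rw [← Real.rpow_add hx0]
        congr 1
        ring
      have h10 : w ^ d * w ^ (-2 + 2 * d) = w ^ (3 * d) * w ^ (-2 : ℝ) := by
        rw [← Real.rpow_add hw0, ← Real.rpow_add hw0]
        congr 1
        ring
      have h11 : w ^ (-2 : ℝ) = x ^ (-(ε / 2)) / v ^ 2 := by
        have hv2 : v ^ (-2 : ℝ) = (v ^ 2)⁻¹ := by
          rw [Real.rpow_neg hv.le, Real.rpow_two]
        have hx2 : (x ^ (ε / 4)) ^ (-2 : ℝ) = x ^ (-(ε / 2)) := by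
          rw [← Real.rpow_mul hx0.le]
          congr 1
          ring
        rw [hwdef, Real.mul_rpow hv.le (by positivity), hv2, hx2, mul_comm]
        exact (div_eq_mul_inv _ _).symm
      rw [h9, h10, h11]
      have h12 : x ^ (-(3 * d)) ≤ w ^ (3 * d) := hwp (3 * d) (by linarith)
      have h13 : x ^ (-ε) ≤ x ^ (-(3 * d)) * (x ^ (-(3 * d)) * x ^ (-(ε / 2))) := by
        rw [← Real.rpow_add hx0, ← Real.rpow_add hx0]
        apply Real.rpow_le_rpow_of_exponent_le hx1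
        rw [hd]; linarith
      have h14 : x ^ (-(3 * d)) * (w ^ (3 * d) * (x ^ (-(ε / 2)) / v ^ 2)) =
          x ^ (-(3 * d)) * (w ^ (3 * d) * x ^ (-(ε / 2))) / v ^ 2 := by ring
      rw [h14]
      apply div_le_div_of_nonneg_right _ (by positivity)
      refine h13.trans ?_
      apply mul_le_mul_of_nonneg_left _ (by positivity)
      exact mul_le_mul_of_nonneg_right h12 (by positivity)
    refine le_trans ?_ hlow
    have hK : 48 / c ≤ max 2 (48 / c) := le_max_right _ _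
    have hK0 : 0 < 48 / c := by positivity
    have h15 : x ^ (-ε) / (max 2 (48 / c) * v ^ 2) ≤ x ^ (-ε) / (48 / c * v ^ 2) := by
      apply div_le_div_of_nonneg_left (by positivity) (by positivity)
      exact mul_le_mul_of_nonneg_right hK (by positivity)
    refine h15.trans (le_of_eq ?_)
    field_simp

end Low

/-- (B) -/
theorem lower_words (hM : Mirrored L) (hup : ∀ b, ∃ u ∈ L.S b, u.2 = 1)
    (hS : ∀ b, L.S b = C.S) (R : Rot L) {ε : ℝ} (hε : 0 < ε) (hε1 : ε ≤ 1) :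
    ∃ K : ℝ, 1 ≤ K ∧ ∀ (v : ℝ) (n : ℕ), 0 < v → v ≤ 1 → 1 ≤ n → 1 ≤ n * gf C v →
      ∃ N : ℕ, n ≤ N ∧ (N : ℝ) ≤ n + K * (n : ℝ) ^ (1 - ε / 20) ∧
        (n : ℝ) ^ (-ε) / (K * v ^ 2) * ((sas C N).card : ℝ) ≤ ∑ l ∈ sas C N, (ht l : ℝ) ^ 2 := by
  obtain ⟨K1, v0, n1, hK1, hv0, h1⟩ := Low.small (C := C) hM hup hS R hε hε1
  obtain ⟨c, n2, hc, h2⟩ := Low.flat (C := C) hS R (show 0 < ε / 2 by positivity)
  set M : ℕ := max n1 (max n2 1) with hMdef
  have hM1 : n1 ≤ M := le_max_left _ _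
  have hM2 : n2 ≤ M := le_trans (le_max_left _ _) (le_max_right _ _)
  have hM3 : 1 ≤ M := le_trans (le_max_right _ _) (le_max_right _ _)
  have hMr : (1 : ℝ) ≤ (M : ℝ) := by exact_mod_cast hM3
  set K : ℝ := K1 + M + 1 / (c * v0 ^ 2) + (M : ℝ) ^ 2 * (M : ℝ) ^ (ε / 2) / c with hK
  have p1 : 0 < 1 / (c * v0 ^ 2) := by positivity
  have p2 : 0 < (M : ℝ) ^ 2 * (M : ℝ) ^ (ε / 2) / c := by positivity
  have hK0 : 0 < K := by rw [hK]; linarith
  refine ⟨K, by rw [hK]; linarith, fun v n hv hv1 hn hg => ?_⟩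
  have hx1 : (1 : ℝ) ≤ (n : ℝ) := by exact_mod_cast hn
  have hx0 : (0 : ℝ) < (n : ℝ) := by linarith
  have hpow1 : 1 ≤ (n : ℝ) ^ (1 - ε / 20) := Real.one_le_rpow hx1 (by linarith)
  by_cases hnM : n < M
  · -- small `n`
    refine ⟨M, hnM.le, ?_, ?_⟩
    · have h3 : (M : ℝ) ≤ K := by rw [hK]; linarith
      have h4 : K ≤ K * (n : ℝ) ^ (1 - ε / 20) := le_mul_of_one_le_right hK0.le hpow1
      linarith
    · refine le_trans ?_ (h2 M hM2)
      refine mul_le_mul_of_nonneg_right ?_ (Nat.cast_nonneg _)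
      have hvn : (M : ℝ)⁻¹ ≤ v := by
        have h3 := gf_le (C := C) hv.le
        have h4 : (1 : ℝ) ≤ M * v := by
          have h5 : (n : ℝ) * gf C v ≤ n * v := mul_le_mul_of_nonneg_left h3 hx0.le
          have h6 : (n : ℝ) ≤ M := by exact_mod_cast hnM.le
          have h7 : (n : ℝ) * v ≤ M * v := mul_le_mul_of_nonneg_right h6 hv.le
          linarith
        rw [inv_le_iff_one_le_mul₀ (by linarith), mul_comm]
        exact h4
      have h3 : (n : ℝ) ^ (-ε) ≤ 1 := Real.rpow_le_one_of_one_le_of_nonpos hx1 (by linarith)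
      have h4 : ((M : ℝ)⁻¹) ^ 2 ≤ v ^ 2 := pow_le_pow_left₀ (by positivity) hvn 2
      have h5 : (M : ℝ) ^ 2 * (M : ℝ) ^ (ε / 2) / c ≤ K := by rw [hK]; linarith
      rw [div_le_iff₀ (by positivity)]
      have h6 : (M : ℝ) ^ 2 * (M : ℝ) ^ (ε / 2) / c * ((M : ℝ)⁻¹) ^ 2 ≤ K * v ^ 2 :=
        mul_le_mul h5 h4 (by positivity) hK0.le
      have h7 : c * (M : ℝ) ^ (-(ε / 2)) *
          ((M : ℝ) ^ 2 * (M : ℝ) ^ (ε / 2) / c * ((M : ℝ)⁻¹) ^ 2) = 1 := by
        rw [Real.rpow_neg (by linarith)]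
        have h8 : (M : ℝ) ^ (ε / 2) ≠ 0 := by positivity
        field_simp
      calc (n : ℝ) ^ (-ε) ≤ 1 := h3
        _ = c * (M : ℝ) ^ (-(ε / 2)) *
          ((M : ℝ) ^ 2 * (M : ℝ) ^ (ε / 2) / c * ((M : ℝ)⁻¹) ^ 2) := h7.symm
        _ ≤ c * (M : ℝ) ^ (-(ε / 2)) * (K * v ^ 2) := mul_le_mul_of_nonneg_left h6 (by positivity)
  · push Not at hnM
    by_cases hw : v * (n : ℝ) ^ (ε / 4) ≤ v0
    · obtain ⟨N, hN1, hN2, hN3⟩ := h1 v n hv (hM1.trans hnM) hn hg hw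
      have hKK : K1 ≤ K := by rw [hK]; linarith
      refine ⟨N, hN1, ?_, ?_⟩
      · have h4 : K1 * (n : ℝ) ^ (1 - ε / 20) ≤ K * (n : ℝ) ^ (1 - ε / 20) :=
          mul_le_mul_of_nonneg_right hKK (by positivity)
        linarith
      · refine le_trans (mul_le_mul_of_nonneg_right ?_ (Nat.cast_nonneg _)) hN3
        apply div_le_div_of_nonneg_left (by positivity) (by positivity)
        exact mul_le_mul_of_nonneg_right hKK (by positivity)
    · push Not at hw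
      refine ⟨n, le_rfl, ?_, ?_⟩
      · have h3 : 0 ≤ K * (n : ℝ) ^ (1 - ε / 20) := by positivity
        linarith
      · refine le_trans (mul_le_mul_of_nonneg_right ?_ (Nat.cast_nonneg _)) (h2 n (hM2.trans hnM))
        rw [div_le_iff₀ (by positivity)]
        have h3 : 1 / (c * v0 ^ 2) ≤ K := by rw [hK]; linarith
        have h4 : v0 ^ 2 ≤ v ^ 2 * (n : ℝ) ^ (ε / 2) := by
          have h5 : v0 ^ 2 ≤ (v * (n : ℝ) ^ (ε / 4)) ^ 2 := pow_le_pow_left₀ hv0.le hw.le 2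
          have h6 : (v * (n : ℝ) ^ (ε / 4)) ^ 2 = v ^ 2 * (n : ℝ) ^ (ε / 2) := by
            rw [mul_pow, ← Real.rpow_natCast ((n : ℝ) ^ (ε / 4)), ← Real.rpow_mul hx0.le]
            congr 2
            push_cast; ring
          rwa [h6] at h5
        have h7 : (1 : ℝ) ≤ c * (K * (v ^ 2 * (n : ℝ) ^ (ε / 2))) := by
          have h8 : 1 / (c * v0 ^ 2) * v0 ^ 2 ≤ K * (v ^ 2 * (n : ℝ) ^ (ε / 2)) :=
            mul_le_mul h3 h4 (by positivity) hK0.le
          have h9 : c * (1 / (c * v0 ^ 2) * v0 ^ 2) = 1 := by field_simp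
          calc (1 : ℝ) = c * (1 / (c * v0 ^ 2) * v0 ^ 2) := h9.symm
            _ ≤ _ := mul_le_mul_of_nonneg_left h8 hc.le
        have h10 : (n : ℝ) ^ (-ε) * (n : ℝ) ^ (ε / 2) = (n : ℝ) ^ (-(ε / 2)) := by
          rw [← Real.rpow_add hx0]
          congr 1
          ring
        calc (n : ℝ) ^ (-ε) = (n : ℝ) ^ (-ε) * 1 := (mul_one _).symm
          _ ≤ (n : ℝ) ^ (-ε) * (c * (K * (v ^ 2 * (n : ℝ) ^ (ε / 2)))) :=
            mul_le_mul_of_nonneg_left h7 (by positivity)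
          _ = c * ((n : ℝ) ^ (-ε) * (n : ℝ) ^ (ε / 2)) * (K * v ^ 2) := by ring
          _ = c * (n : ℝ) ^ (-(ε / 2)) * (K * v ^ 2) := by rw [h10]

end SawNu.SF
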