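import Pool.Agent.SawF.D2

/-!
SAWF M: free energy of the pulled walk.
-/

set_option autoImplicit false

open Classical Filter

namespace SawNu.SF

open SawNu.SB

/-- free energy of the pulled walk -/
noncomputable def gf (C : CL) (v : ℝ) : ℝ := G C 0 v - G C 0 0

end SawNu.SF
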