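import Pool.Agent.SawF.Mass

/-!
SAWF M1: properties of the free energy.
-/

set_option autoImplicit false

open Classical Filter

namespace SawNu.SF

open SawNu.SB Pool.Agent.Lib.SAW.HW Pool.Agent.SawBr38

variable {C : CL} {L : RLat}

lemma gf_nonneg {v : ℝ} (hv : 0 ≤ v) : 0 ≤ gf C v := by
  have h := G_mono_v (C := C) 0 hv
  rw [gf]
  linarith

lemma gf_mono {v w : ℝ} (hvw : v ≤ w) : gf C v ≤ gf C w := by
  have h := G_mono_v (C := C) 0 hvw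
  rw [gf, gf]
  linarith

lemma gf_le {v : ℝ} (hv : 0 ≤ v) : gf C v ≤ v := by
  have h := G_le_add (C := C) hv
  rw [gf]
  linarith

/-- convexity and `g(0) = 0` -/
lemma gf_mul {v a : ℝ} (hv : 0 ≤ v) (ha : 1 ≤ a) : a * gf C v ≤ gf C (a * v) := by
  have ha0 : 0 < a := by linarith
  have h := G_convex (C := C) (s := 1 / a) (u := 0) (v := a * v) (u' := 0) (v' := 0)
    (by positivity) (by rw [div_le_one ha0]; exact ha)
  have e1 : 1 / a * (0 : ℝ) + (1 - 1 / a) * 0 = 0 := by ring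
  have e2 : 1 / a * (a * v) + (1 - 1 / a) * 0 = v := by
    field_simp
    ring
  rw [e1, e2] at h
  rw [gf, gf]
  have h2 : a * G C 0 v ≤ a * (1 / a * G C 0 (a * v) + (1 - 1 / a) * G C 0 0) :=
    mul_le_mul_of_nonneg_left h ha0.le
  have h3 : a * (1 / a * G C 0 (a * v) + (1 - 1 / a) * G C 0 0) =
      G C 0 (a * v) + (a - 1) * G C 0 0 := by
    field_simp
  rw [h3] at h2
  linarith

/-- `g(v) ≥ v^3` for small `v`, from `mass_lower` -/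
theorem gf_poly (hM : Mirrored L) (hup : ∀ b, ∃ u ∈ L.S b, u.2 = 1)
    (hS : ∀ b, L.S b = C.S) (R : Rot L) : ∃ v0 : ℝ, 0 < v0 ∧ v0 ≤ 1 ∧
      ∀ v : ℝ, 0 < v → v ≤ v0 → v ^ 3 ≤ gf C v := by
  have h1 := mass_lower (C := C) hM hup hS R (ε := 1 / 10) (by norm_num)
  obtain ⟨N, hN⟩ := eventually_atTop.1 h1
  refine ⟨min (1 / 4) (1 / ((N : ℝ) + 1)), by positivity, (min_le_left _ _).trans (by norm_num), ?_⟩
  intro v hv hv0
  have hv4 : v ≤ 1 / 4 := hv0.trans (min_le_left _ _)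
  have hvN : v ≤ 1 / ((N : ℝ) + 1) := hv0.trans (min_le_right _ _)
  set x : ℝ := v ^ (-(5 / 2) : ℝ) with hx
  have hx0 : 0 < x := Real.rpow_pos_of_pos hv _
  have hle : x ≤ (⌈x⌉₊ : ℝ) := Nat.le_ceil x
  have hlt : (⌈x⌉₊ : ℝ) < x + 1 := Nat.ceil_lt_add_one hx0.le
  have hn0 : (0 : ℝ) < (⌈x⌉₊ : ℝ) := hx0.trans_le hle
  -- the square root of `1 / v`
  have hxv : v⁻¹ ≤ x := by
    rw [hx, ← Real.rpow_neg_one]
    exact Real.rpow_le_rpow_of_exponent_ge hv (by linarith) (by norm_num)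
  have hNn : N ≤ ⌈x⌉₊ := by
    have h2 : (N : ℝ) + 1 ≤ v⁻¹ := by
      rw [le_inv_comm₀ (by positivity) hv]
      simpa using hvN
    have h3 : (N : ℝ) ≤ (⌈x⌉₊ : ℝ) := by linarith
    exact_mod_cast h3
  have h4 := hN ⌈x⌉₊ hNn
  have h5 : ((⌈x⌉₊ : ℕ) : ℝ) ^ (-(1 / 2) + 1 / 10 : ℝ) ≤ v := by
    have h6 : ((⌈x⌉₊ : ℕ) : ℝ) ^ (-(1 / 2) + 1 / 10 : ℝ) ≤ x ^ (-(1 / 2) + 1 / 10 : ℝ) :=
      Real.rpow_le_rpow_of_nonpos hx0 hle (by norm_num)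
    have h7 : x ^ (-(1 / 2) + 1 / 10 : ℝ) = v := by
      rw [hx, ← Real.rpow_mul hv.le]
      norm_num
    rwa [h7] at h6
  have h8 : gf C (((⌈x⌉₊ : ℕ) : ℝ) ^ (-(1 / 2) + 1 / 10 : ℝ)) ≤ gf C v := gf_mono h5
  have h9 : 1 ≤ gf C v * (⌈x⌉₊ : ℝ) := by
    have h10 : 1 ≤ gf C (((⌈x⌉₊ : ℕ) : ℝ) ^ (-(1 / 2) + 1 / 10 : ℝ)) * (⌈x⌉₊ : ℝ) := h4
    exact h10.trans (mul_le_mul_of_nonneg_right h8 hn0.le)
  -- `⌈x⌉ ≤ v⁻³`
  have h11 : x + 1 ≤ (v ^ 3)⁻¹ := by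
    have h12 : x * v ^ 3 = v ^ (1 / 2 : ℝ) := by
      rw [hx, ← Real.rpow_natCast v 3, ← Real.rpow_add hv]
      norm_num
    have h13 : v ^ (1 / 2 : ℝ) ≤ 1 / 2 := by
      have h14 : v ^ (1 / 2 : ℝ) ≤ (1 / 4 : ℝ) ^ (1 / 2 : ℝ) :=
        Real.rpow_le_rpow hv.le hv4 (by norm_num)
      have h15 : (1 / 4 : ℝ) ^ (1 / 2 : ℝ) = 1 / 2 := by
        rw [← Real.sqrt_eq_rpow, show (1 / 4 : ℝ) = (1 / 2) ^ 2 by norm_num,
          Real.sqrt_sq (by norm_num)]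
      rwa [h15] at h14
    have h16 : v ^ 3 ≤ 1 / 2 := by
      have h17 : v ^ 3 ≤ (1 / 4 : ℝ) ^ 3 := pow_le_pow_left₀ hv.le hv4 3
      have h18 : (1 / 4 : ℝ) ^ 3 ≤ 1 / 2 := by norm_num
      exact h17.trans h18
    rw [← one_div, le_div_iff₀ (by positivity)]
    have h19 : (x + 1) * v ^ 3 = x * v ^ 3 + v ^ 3 := by ring
    rw [h19, h12]
    linarith
  have h20 : (⌈x⌉₊ : ℝ) ≤ (v ^ 3)⁻¹ := by linarith
  have hg : 0 ≤ gf C v := gf_nonneg hv.le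
  have h21 : 1 ≤ gf C v * (v ^ 3)⁻¹ := h9.trans (mul_le_mul_of_nonneg_left h20 hg)
  rw [← div_eq_mul_inv, le_div_iff₀ (by positivity), one_mul] at h21
  exact h21

theorem gf_pos (hM : Mirrored L) (hup : ∀ b, ∃ u ∈ L.S b, u.2 = 1)
    (hS : ∀ b, L.S b = C.S) (R : Rot L) {v : ℝ} (hv : 0 < v) : 0 < gf C v := by
  obtain ⟨v0, h0, -, h⟩ := gf_poly (C := C) hM hup hS R
  have hw : 0 < min v v0 := lt_min hv h0
  have h1 := h (min v v0) hw (min_le_right _ _)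
  have h2 : gf C (min v v0) ≤ gf C v := gf_mono (min_le_left _ _)
  have h3 : 0 < (min v v0) ^ 3 := by positivity
  linarith

end SawNu.SF
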