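import Pool.Agent.SawF.MassA

/-!
SAWF M2: force and decay of the bridges.
-/

set_option autoImplicit false

open Classical Filter

namespace SawNu.SF

open SawNu.SB Pool.Agent.Lib.SAW.HW Pool.Agent.SawBr38

variable {C : CL} {L : RLat}

namespace MassB

/-- words of length `n` that are bridges of height `t` -/
noncomputable def brt (C : CL) (n t : ℕ) : Finset (List Pt) :=
  (wds C n).filter (fun l => Brc C l ∧ ht l = (t : ℤ))

lemma card_brt_le (w : ℝ) (n t : ℕ) :
    ((brt C n t).card : ℝ) ≤ Real.exp (G C 0 w * n - w * t) := by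
  have h1 : ((brt C n t).card : ℝ) * Real.exp (w * t) ≤ Zb C 0 w n := by
    rw [← nsmul_eq_mul, ← Finset.sum_const, Zb]
    calc ∑ _l ∈ brt C n t, Real.exp (w * t) = ∑ l ∈ brt C n t, Real.exp (fw 0 w l) := by
          apply Finset.sum_congr rfl
          intro l hl
          rw [brt, Finset.mem_filter] at hl
          rw [fw, zero_mul, zero_add, hl.2.2]
          norm_cast
      _ ≤ _ := by
          apply Finset.sum_le_sum_of_subset_of_nonneg
          · intro l hl
            rw [brt, Finset.mem_filter] at hl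
            rw [brs, Finset.mem_filter]
            exact ⟨hl.1, hl.2.1⟩
          · exact fun _ _ _ => (Real.exp_pos _).le
  rw [Real.exp_sub, le_div_iff₀ (Real.exp_pos _)]
  exact h1.trans (Zb_le 0 w n)

lemma AE_eq (δ : ℝ) (t : ℕ) : AE C δ t =
    ∑' n : ℕ, ENNReal.ofReal (((brt C n t).card : ℝ) *
      Real.exp (-((G C 0 0 + δ) * n))) := by
  rw [AE, W_length _ (fun l hl => hl.1.wd)]
  apply tsum_congr
  intro n
  convert rfl using 5
  rw [brt]
  ext l
  simp only [Finset.mem_filter]

lemma AE_ne_top {δ : ℝ} (hδ : 0 ≤ δ) (t : ℕ) : AE C δ t ≠ ⊤ :=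
  ((AE_le_one hδ t).trans_lt ENNReal.one_lt_top).ne

lemma aR_le {δ w : ℝ} (hw : G C 0 w < G C 0 0 + δ) (t : ℕ) :
    aR C δ t ≤ Real.exp (-(w * t)) * (1 - Real.exp (-(G C 0 0 + δ - G C 0 w)))⁻¹ := by
  set c : ℝ := G C 0 0 + δ - G C 0 w with hc
  have hc0 : 0 < c := by rw [hc]; linarith
  have hr : Real.exp (-c) < 1 := by rw [Real.exp_lt_one_iff]; linarith
  have hs : Summable (fun n : ℕ => Real.exp (-(w * t)) * Real.exp (-c) ^ n) :=
    (summable_geometric_of_lt_one (Real.exp_pos _).le hr).mul_left _
  have h1 : AE C δ t ≤ ENNReal.ofReal (∑' n : ℕ, Real.exp (-(w * t)) * Real.exp (-c) ^ n) := by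
    rw [AE_eq, ENNReal.ofReal_tsum_of_nonneg (fun n => by positivity) hs]
    apply ENNReal.tsum_le_tsum
    intro n
    apply ENNReal.ofReal_le_ofReal
    calc ((brt C n t).card : ℝ) * Real.exp (-((G C 0 0 + δ) * n))
        ≤ Real.exp (G C 0 w * n - w * t) * Real.exp (-((G C 0 0 + δ) * n)) :=
          mul_le_mul_of_nonneg_right (card_brt_le w n t) (Real.exp_pos _).le
      _ = Real.exp (-(w * t)) * Real.exp (-c) ^ n := by
          rw [← Real.exp_nat_mul, ← Real.exp_add, ← Real.exp_add, hc]
          congr 1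
          ring
  rw [tsum_mul_left, tsum_geometric_of_lt_one (Real.exp_pos _).le hr] at h1
  have h2 : 0 ≤ Real.exp (-(w * t)) * (1 - Real.exp (-c))⁻¹ := by
    have : 0 < 1 - Real.exp (-c) := by linarith
    positivity
  rw [aR]
  exact ENNReal.toReal_le_of_le_ofReal h2 h1

lemma le_aR {δ : ℝ} (hδ : 0 ≤ δ) (n t : ℕ) :
    ((brt C n t).card : ℝ) ≤ Real.exp ((G C 0 0 + δ) * n) * aR C δ t := by
  have h1 : ENNReal.ofReal (((brt C n t).card : ℝ) *
      Real.exp (-((G C 0 0 + δ) * n))) ≤ AE C δ t := by
    rw [AE_eq]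
    exact ENNReal.le_tsum n
  have h2 : ((brt C n t).card : ℝ) * Real.exp (-((G C 0 0 + δ) * n)) ≤ aR C δ t := by
    rw [aR]
    have := ENNReal.toReal_mono (AE_ne_top hδ t) h1
    rwa [ENNReal.toReal_ofReal (by positivity)] at this
  rw [Real.exp_neg, ← div_eq_mul_inv, div_le_iff₀ (Real.exp_pos _)] at h2
  linarith

lemma aR_le_one {δ : ℝ} (hδ : 0 ≤ δ) (t : ℕ) : aR C δ t ≤ 1 := by
  have := ENNReal.toReal_mono ENNReal.one_ne_top (AE_le_one (C := C) hδ t)
  simpa [aR] using this

/-- supermultiplicativity of a renewal sequence -/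
lemma ren_mul {i a : ℕ → ℝ} (h : Ren i a) (s t : ℕ) : a s * a t ≤ a (s + t) := by
  induction s using Nat.strong_induction_on with
  | _ s ih =>
    rcases Nat.eq_zero_or_pos s with hs | hs
    · subst hs
      rw [h.a0, one_mul, Nat.zero_add]
    · have ha : ∀ k, 0 ≤ a k := by
        intro k
        induction k using Nat.strong_induction_on with
        | _ k ik =>
          rcases Nat.eq_zero_or_pos k with hk | hk
          · subst hk
            rw [h.a0]; exact zero_le_one
          · rw [h.req k hk]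
            apply Finset.sum_nonneg
            intro j hj
            rw [Finset.mem_Icc] at hj
            exact mul_nonneg (h.nn j) (ik _ (by omega))
      rw [h.req s hs, h.req (s + t) (by omega), Finset.sum_mul]
      calc ∑ j ∈ Finset.Icc 1 s, i j * a (s - j) * a t
          ≤ ∑ j ∈ Finset.Icc 1 s, i j * a (s + t - j) := by
            apply Finset.sum_le_sum
            intro j hj
            rw [Finset.mem_Icc] at hj
            rw [mul_assoc]
            apply mul_le_mul_of_nonneg_left _ (h.nn j)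
            have h1 := ih (s - j) (by omega)
            have h2 : s - j + t = s + t - j := by omega
            rwa [h2] at h1
        _ ≤ _ := by
            apply Finset.sum_le_sum_of_subset_of_nonneg
            · intro j hj
              rw [Finset.mem_Icc] at hj ⊢
              omega
            · intro j _ _
              exact mul_nonneg (h.nn j) (ha _)

lemma ren_nn {i a : ℕ → ℝ} (h : Ren i a) (k : ℕ) : 0 ≤ a k := by
  induction k using Nat.strong_induction_on with
  | _ k ik =>
    rcases Nat.eq_zero_or_pos k with hk | hk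
    · subst hk
      rw [h.a0]; exact zero_le_one
    · rw [h.req k hk]
      apply Finset.sum_nonneg
      intro j hj
      rw [Finset.mem_Icc] at hj
      exact mul_nonneg (h.nn j) (ik _ (by omega))

lemma ren_pow {i a : ℕ → ℝ} (h : Ren i a) (t k : ℕ) : a t ^ k ≤ a (k * t) := by
  induction k with
  | zero => rw [pow_zero, Nat.zero_mul, h.a0]
  | succ k ih =>
    calc a t ^ (k + 1) = a t ^ k * a t := pow_succ _ _
      _ ≤ a (k * t) * a t := mul_le_mul_of_nonneg_right ih (ren_nn h t)
      _ ≤ a (k * t + t) := ren_mul h _ _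
      _ = a ((k + 1) * t) := by rw [Nat.succ_mul]

/-- a bounded prefactor of all powers can be dropped -/
lemma le_of_pow_le {x y K : ℝ} (hy : 0 < y) (h : ∀ k : ℕ, x ^ k ≤ K * y ^ k) :
    x ≤ y := by
  by_contra hc
  push Not at hc
  have h1 : 1 < x / y := by rwa [one_lt_div hy]
  obtain ⟨k, hk⟩ := pow_unbounded_of_one_lt K h1
  have h2 := h k
  rw [div_pow, lt_div_iff₀ (pow_pos hy k)] at hk
  linarith

end MassB

open MassB in
/-- bridges decay at rate `v / 2` at the tilt `g(v)`. (`g(v/2) ≤ g(v)/2`; the prefactor is removed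
by supermultiplicativity `a(t)^k ≤ a(k t)`.) -/
theorem decay_of_force {v : ℝ} (hv : 0 < v) (hg : 0 < gf C v) (t : ℕ) :
    aR C (gf C v) t ≤ Real.exp (-(v / 2 * t)) := by
  have hR : Ren (iR C (gf C v)) (aR C (gf C v)) := ren hg.le
  have h2 : 2 * gf C (v / 2) ≤ gf C v := by
    have := gf_mul (C := C) (v := v / 2) (a := 2) (by linarith) (by norm_num)
    rwa [show (2 : ℝ) * (v / 2) = v by ring] at this
  have hw : G C 0 (v / 2) < G C 0 0 + gf C v := by
    have h3 : gf C (v / 2) = G C 0 (v / 2) - G C 0 0 := rfl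
    linarith
  apply le_of_pow_le (K := (1 - Real.exp (-(G C 0 0 + gf C v - G C 0 (v / 2))))⁻¹)
    (Real.exp_pos _)
  intro k
  calc aR C (gf C v) t ^ k ≤ aR C (gf C v) (k * t) := ren_pow hR t k
    _ ≤ Real.exp (-(v / 2 * ((k * t : ℕ) : ℝ))) *
        (1 - Real.exp (-(G C 0 0 + gf C v - G C 0 (v / 2))))⁻¹ := aR_le hw (k * t)
    _ = _ := by
        rw [← Real.exp_nat_mul, mul_comm]
        congr 2
        push_cast
        ring

open MassB in
/-- conversely, exponential decay at the tilt `δ` gives `g(v) ≤ δ` below the rate -/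
theorem force_of_decay {δ θ : ℝ} (hδ : 0 < δ) (T0 : ℕ)
    (h : ∀ t : ℕ, T0 ≤ t → aR C δ t ≤ Real.exp (-(θ * t))) {v : ℝ} (hv : 0 ≤ v) (hvθ : v < θ) :
    gf C v ≤ δ := by
  have hb : ∀ t : ℕ, aR C δ t * Real.exp (v * t) ≤ Real.exp (v * T0) := by
    intro t
    rcases lt_or_ge t T0 with ht | ht
    · calc aR C δ t * Real.exp (v * t) ≤ 1 * Real.exp (v * t) :=
            mul_le_mul_of_nonneg_right (aR_le_one hδ.le t) (Real.exp_pos _).le
        _ ≤ Real.exp (v * T0) := by
            rw [one_mul]
            apply Real.exp_le_exp.2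
            apply mul_le_mul_of_nonneg_left _ hv
            exact_mod_cast ht.le
    · calc aR C δ t * Real.exp (v * t) ≤ Real.exp (-(θ * t)) * Real.exp (v * t) :=
            mul_le_mul_of_nonneg_right (h t ht) (Real.exp_pos _).le
        _ = Real.exp (-((θ - v) * t)) := by
            rw [← Real.exp_add]; congr 1; ring
        _ ≤ Real.exp (v * T0) := by
            apply Real.exp_le_exp.2
            have h1 : 0 ≤ (θ - v) * t := mul_nonneg (by linarith) (Nat.cast_nonneg _)
            have h2 : 0 ≤ v * T0 := mul_nonneg hv (Nat.cast_nonneg _)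
            linarith
  have hZ : ∀ n : ℕ, Zb C 0 v n ≤
      Real.exp ((G C 0 0 + δ) * n) * (((n : ℝ) + 1) * Real.exp (v * T0)) := by
    intro n
    have h1 : Zb C 0 v n = ∑ t ∈ Finset.range (n + 1),
        ((brt C n t).card : ℝ) * Real.exp (v * t) := by
      rw [Zb]
      have hmap : ∀ l ∈ brs C n, (ht l).toNat ∈ Finset.range (n + 1) := by
        intro l hl
        rw [mem_brs] at hl
        have h5 := ht_le_length hl.2.wd
        rw [hl.1] at h5
        rw [Finset.mem_range]
        omega
      rw [← Finset.sum_fiberwise_of_maps_to hmap]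
      apply Finset.sum_congr rfl
      intro t _
      have h6 : (brs C n).filter (fun l => (ht l).toNat = t) = brt C n t := by
        ext l
        rw [brt, Finset.mem_filter, Finset.mem_filter, mem_brs, mem_wds]
        constructor
        · rintro ⟨⟨h7, h8⟩, h9⟩
          have := h8.ht_nonneg
          exact ⟨⟨h7, h8.wd⟩, h8, by omega⟩
        · rintro ⟨⟨h7, _⟩, h8, h9⟩
          exact ⟨⟨h7, h8⟩, by omega⟩
      rw [h6, ← nsmul_eq_mul, ← Finset.sum_const]
      apply Finset.sum_congr rfl
      intro l hl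
      rw [brt, Finset.mem_filter] at hl
      rw [fw, zero_mul, zero_add, hl.2.2]
      norm_cast
    rw [h1]
    calc ∑ t ∈ Finset.range (n + 1), ((brt C n t).card : ℝ) * Real.exp (v * t)
        ≤ ∑ t ∈ Finset.range (n + 1), Real.exp ((G C 0 0 + δ) * n) * Real.exp (v * T0) := by
          apply Finset.sum_le_sum
          intro t _
          calc ((brt C n t).card : ℝ) * Real.exp (v * t)
              ≤ (Real.exp ((G C 0 0 + δ) * n) * aR C δ t) * Real.exp (v * t) :=
                mul_le_mul_of_nonneg_right (le_aR hδ.le n t) (Real.exp_pos _).le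
            _ = Real.exp ((G C 0 0 + δ) * n) * (aR C δ t * Real.exp (v * t)) := by ring
            _ ≤ _ := mul_le_mul_of_nonneg_left (hb t) (Real.exp_pos _).le
      _ = _ := by
          rw [Finset.sum_const, Finset.card_range, nsmul_eq_mul]
          push_cast
          ring
  have hG : G C 0 v ≤ G C 0 0 + δ := by
    apply G_le_of
    intro η hη
    set K : ℝ := Real.exp (v * T0) with hK
    have hK0 : 0 < K := Real.exp_pos _
    obtain ⟨N, hN⟩ := exists_nat_ge (4 * K / η ^ 2)
    refine ⟨max N 1, fun n hn => ?_⟩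
    have hn1 : (1 : ℝ) ≤ n := by exact_mod_cast (le_max_right N 1).trans hn
    have hnN : 4 * K / η ^ 2 ≤ n := hN.trans (by exact_mod_cast (le_max_left N 1).trans hn)
    rw [div_le_iff₀ (by positivity)] at hnN
    have h3 : ((n : ℝ) + 1) * K ≤ Real.exp (η * n) := by
      have h4 := Real.quadratic_le_exp_of_nonneg (show 0 ≤ η * n by positivity)
      have h5 : ((n : ℝ) + 1) * K ≤ 2 * n * K := by nlinarith
      have h6 : 2 * n * K ≤ (η * n) ^ 2 / 2 := by nlinarith
      have h7 : 0 ≤ η * n := by positivity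
      linarith
    calc Zb C 0 v n ≤ Real.exp ((G C 0 0 + δ) * n) * (((n : ℝ) + 1) * K) := hZ n
      _ ≤ Real.exp ((G C 0 0 + δ) * n) * Real.exp (η * n) :=
          mul_le_mul_of_nonneg_left h3 (Real.exp_pos _).le
      _ = _ := by rw [← Real.exp_add]; congr 1; ring
  have h3 : gf C v = G C 0 v - G C 0 0 := rfl
  linarith

end SawNu.SF
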