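import Pool.Agent.SawF.Num1

/-!
SAWF N2: few giants (numeric part of P2 of the plan).
-/

set_option autoImplicit false

open Finset

namespace SawNu.SF

/-- standing hypotheses: critical sequences `κ, u` and tilted sequences `i, a` -/
structure Pair (κ u i a : ℕ → ℝ) : Prop where
  hc : Ren κ u
  hs : ∀ N, ∑ j ∈ Finset.Icc 1 N, κ j ≤ 1
  h : Ren i a
  hle : ∀ j, i j ≤ κ j
  hsum : Summable a

/-- total weight -/
noncomputable def Tot (a : ℕ → ℝ) : ℝ := ∑' t, a t

/-- weight of the pieces of height at least `s` -/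
noncomputable def big (i : ℕ → ℝ) (s : ℕ) : ℝ := ∑' j, if s ≤ j then i j else 0

/-- `y(s) = UU * I(≥ s)` -/
noncomputable def ySF (i a : ℕ → ℝ) (s : ℕ) : ℝ := Tot a * big i s

variable {κ u i a : ℕ → ℝ}

lemma summ_ite {f : ℕ → ℝ} (hf : ∀ t, 0 ≤ f t) (hs : Summable f) (s : ℕ) :
    Summable (fun j => if s ≤ j then f j else 0) := by
  apply Summable.of_nonneg_of_le _ _ hs
  · intro j; split_ifs
    · exact hf j
    · exact le_rfl
  · intro j; split_ifs
    · exact le_rfl
    · exact hf j

lemma Pair.isum (h : Pair κ u i a) : Summable i := (h.h.total h.hsum).1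

lemma Pair.big_nn (h : Pair κ u i a) (s : ℕ) : 0 ≤ big i s := by
  apply tsum_nonneg
  intro j; split_ifs
  · exact h.h.nn j
  · exact le_rfl

lemma Pair.big_anti (h : Pair κ u i a) {s t : ℕ} (hst : s ≤ t) : big i t ≤ big i s := by
  apply Summable.tsum_le_tsum _ (summ_ite h.h.nn h.isum t) (summ_ite h.h.nn h.isum s)
  intro j
  split_ifs with h1 h2 h2
  · exact le_rfl
  · omega
  · exact h.h.nn j
  · exact le_rfl

lemma Pair.one_le_Tot (h : Pair κ u i a) : 1 ≤ Tot a := by
  have := h.hsum.sum_le_tsum {0} (fun t _ => h.h.a_nn t)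
  simpa [h.h.a0, Tot] using this

lemma Pair.tot_eq (h : Pair κ u i a) : Tot a * (1 - ∑' j, i j) = 1 := (h.h.total h.hsum).2.2

lemma Pair.defect (h : Pair κ u i a) : 0 < 1 - ∑' j, i j := by
  have := (h.h.total h.hsum).2.1
  linarith

lemma Pair.tot_inv (h : Pair κ u i a) : Tot a = 1 / (1 - ∑' j, i j) := by
  rw [eq_div_iff h.defect.ne']
  exact h.tot_eq

lemma Pair.part (h : Pair κ u i a) (n : ℕ) : ∑ t ∈ range n, i t ≤ 1 - (1 - ∑' j, i j) := by
  have := h.isum.sum_le_tsum (range n) (fun t _ => h.h.nn t)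
  linarith

lemma Pair.hUU (h : Pair κ u i a) {v : ℕ} (hU : Tot a ≤ 5 * Us u v) :
    1 ≤ 5 * (1 - ∑' j, i j) * SAWF.ps0 u v := by
  have h1 := h.defect
  rw [h.tot_inv, div_le_iff₀ h1] at hU
  have : Us u v = SAWF.ps0 u v := rfl
  rw [this] at hU
  linarith

lemma cutoff_eq (v : ℕ) (i : ℕ → ℝ) : (fun j => if j < v then i j else 0) = SAWF.cutoff v i := rfl

/-- tail sums by partial sums -/
lemma tsum_tail_le {f : ℕ → ℝ} (hf : ∀ t, 0 ≤ f t) {H : ℕ} {c : ℝ}
    (hc : ∀ n, ∑ t ∈ Ico H n, f t ≤ c) :
    ∑' t, (if H ≤ t then f t else 0) ≤ c := by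
  have hc0 : 0 ≤ c := by simpa using hc 0
  apply Real.tsum_le_of_sum_range_le
  · intro n; split_ifs
    · exact hf n
    · exact le_rfl
  · intro n
    rw [← sum_filter]
    refine le_trans (le_of_eq ?_) (hc n)
    apply sum_congr _ fun _ _ => rfl
    ext x; simp only [mem_filter, mem_range, mem_Ico]; omega

/-- P2: configurations of height at least `H` all of whose pieces are smaller than `v` -/
theorem few_giants (h : Pair κ u i a) {v : ℕ} (hv : 1 ≤ v) (hU : Tot a ≤ 5 * Us u v)
    {av : ℕ → ℝ} (hav : Ren (fun j => if j < v then i j else 0) av) (H : ℕ) :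
    Summable av ∧ ∑' t, (if H ≤ t then av t else 0) ≤
      2 * Tot a * Real.exp (-((H : ℝ) / (90 * v))) := by
  have hle : ∀ t, av t ≤ a t := fun t => hav.mono h.h (fun j => by
    split_ifs
    · exact le_rfl
    · exact h.h.nn j) t
  refine ⟨Summable.of_nonneg_of_le hav.a_nn hle h.hsum, ?_⟩
  apply tsum_tail_le hav.a_nn
  intro n
  have key := SAWF.few_total h.hc.toR (h.hc.sub h.hs) h.h.nn h.hle h.defect h.part hv (h.hUU hU)
    (a' := av) hav.toR H n
  rw [h.tot_inv]
  have e1 : 2 * (1 / (1 - ∑' j, i j)) = 2 / (1 - ∑' j, i j) := by ring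
  rw [e1]
  exact key

lemma Pair.big_part (h : Pair κ u i a) (v n : ℕ) : ∑ t ∈ Ico v n, i t ≤ big i v := by
  have h1 := (summ_ite h.h.nn h.isum v).sum_le_tsum (Ico v n) (fun t _ => by
    split_ifs
    · exact h.h.nn t
    · exact le_rfl)
  refine le_trans (le_of_eq ?_) h1
  apply sum_congr rfl
  intro t ht
  rw [mem_Ico] at ht
  rw [if_pos ht.1]

/-- COR of P2 -/
theorem tail_le (h : Pair κ u i a) {v : ℕ} (hv : 1 ≤ v) (hU : Tot a ≤ 5 * Us u v) (H : ℕ) :
    ∑' t, (if H ≤ t then a t else 0) ≤
      Tot a * (2 * Real.exp (-((H : ℝ) / (90 * v))) + ySF i a v) := by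
  apply tsum_tail_le h.h.a_nn
  intro n
  have key := SAWF.tail_total h.hc.toR (h.hc.sub h.hs) h.h.toR h.hle h.defect h.part hv (h.hUU hU)
    (h.big_part v) H n
  rw [ySF, h.tot_inv]
  refine key.trans (le_of_eq ?_)
  ring

lemma big_split (h : Pair κ u i a) (v : ℕ) :
    ∑' j, (if j < v then i j else 0) + big i v = ∑' j, i j := by
  have hs1 : Summable (fun j => if j < v then i j else 0) := by
    apply Summable.of_nonneg_of_le _ _ h.isum
    · intro j; split_ifs
      · exact h.h.nn j
      · exact le_rfl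
    · intro j; split_ifs
      · exact le_rfl
      · exact h.h.nn j
  rw [big, ← hs1.tsum_add (summ_ite h.h.nn h.isum v)]
  apply tsum_congr
  intro j
  split_ifs <;> first | omega | simp

/-- total weight of the configurations all of whose pieces are smaller than `v` -/
theorem small_total (h : Pair κ u i a) {v : ℕ}
    {av : ℕ → ℝ} (hav : Ren (fun j => if j < v then i j else 0) av) :
    Summable av ∧ Tot av * (1 + ySF i a v) = Tot a := by
  have hle : ∀ t, av t ≤ a t := fun t => hav.mono h.h (fun j => by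
    split_ifs
    · exact le_rfl
    · exact h.h.nn j) t
  have hsum : Summable av := Summable.of_nonneg_of_le hav.a_nn hle h.hsum
  refine ⟨hsum, ?_⟩
  have h1 := (hav.total hsum).2.2
  have h2 := big_split h v
  have h3 := h.tot_eq
  have h4 : Tot av * (1 - ∑' j, (if j < v then i j else 0)) = 1 := h1
  have h5 : 1 - ∑' j, (if j < v then i j else 0) = (1 - ∑' j, i j) + big i v := by linarith
  rw [h5] at h4
  have h6 : 0 < Tot a := by have := h.one_le_Tot; linarith
  -- multiply h4 by Tot a
  have h7 : Tot av * (Tot a * (1 - ∑' j, i j) + Tot a * big i v) = Tot a := by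
    calc Tot av * (Tot a * (1 - ∑' j, i j) + Tot a * big i v) =
        Tot a * (Tot av * ((1 - ∑' j, i j) + big i v)) := by ring
      _ = Tot a := by rw [h4, mul_one]
  rw [h3] at h7
  exact h7

lemma tot_split (h : Pair κ u i a) (v : ℕ) :
    ∑ t ∈ range v, a t + ∑' t, (if v ≤ t then a t else 0) = Tot a := by
  have hs1 : Summable (fun t => if t < v then a t else 0) := by
    apply Summable.of_nonneg_of_le _ _ h.hsum
    · intro j; split_ifs
      · exact h.h.a_nn j
      · exact le_rfl
    · intro j; split_ifs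
      · exact le_rfl
      · exact h.h.a_nn j
  have h1 : ∑ t ∈ range v, a t = ∑' t, (if t < v then a t else 0) := by
    rw [tsum_eq_sum (s := range v)]
    · apply sum_congr rfl
      intro t ht
      rw [mem_range] at ht
      rw [if_pos ht]
    · intro t ht
      rw [mem_range] at ht
      rw [if_neg ht]
  rw [h1, Tot, ← hs1.tsum_add (summ_ite h.h.a_nn h.hsum v)]
  apply tsum_congr
  intro j
  split_ifs <;> first | omega | simp

/-- tall configurations are not rare when `y` is not small -/
theorem tall_ge (h : Pair κ u i a) (v : ℕ) :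
    Tot a * (ySF i a v / (1 + ySF i a v)) ≤ ∑' t, (if v ≤ t then a t else 0) := by
  obtain ⟨av, hav⟩ := exists_ren (fun j => if j < v then i j else 0) (by
    intro j; split_ifs
    · exact h.h.nn j
    · exact le_rfl) (by
    split_ifs
    · exact h.h.i0
    · rfl)
  obtain ⟨hsum, htot⟩ := small_total h hav
  have hy : 0 ≤ ySF i a v := by
    have h1 := h.one_le_Tot
    exact mul_nonneg (by linarith) (h.big_nn v)
  have h1 : ∑ t ∈ range v, a t ≤ Tot av := by
    have h2 : ∑ t ∈ range v, a t = ∑ t ∈ range v, av t := by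
      apply sum_congr rfl
      intro t ht
      rw [mem_range] at ht
      rw [SAWF.Ren.congr h.h.toR hav.toR (m := t) (by
        intro j hj
        rw [if_pos (by omega)]) t le_rfl]
    rw [h2]
    exact hsum.sum_le_tsum (range v) (fun t _ => hav.a_nn t)
  have h3 := tot_split h v
  have h4 : Tot a * (ySF i a v / (1 + ySF i a v)) = Tot a - Tot av := by
    rw [← htot]
    field_simp
    ring
  rw [h4]
  linarith

/-- tall configurations are not rare when `U(v)` is small -/
theorem tall_ge' (h : Pair κ u i a) {v : ℕ} (hU : 5 * Us u v ≤ Tot a) :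
    (4 / 5) * Tot a ≤ ∑' t, (if v ≤ t then a t else 0) := by
  have h3 := tot_split h v
  have h1 : ∑ t ∈ range v, a t ≤ Us u v := by
    calc ∑ t ∈ range v, a t ≤ ∑ t ∈ range v, u t := sum_le_sum fun t _ => h.h.mono h.hc h.hle t
      _ ≤ Us u v := sum_le_sum_of_subset_of_nonneg (range_mono (by omega)) fun t _ _ => h.hc.a_nn t
  linarith

/-- the initial value of the recursion -/
theorem y_start (h : Pair κ u i a) {s : ℕ} (hs : 1 ≤ s) :
    ySF i a s * Us u (s - 1) ≤ Tot a := by
  have h1 : Us u (s - 1) * big i s ≤ 1 := by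
    have h2 : big i s ≤ SAWF.tl κ (s - 1) := by
      apply tsum_tail_le h.h.nn
      intro n
      have h3 : ∑ t ∈ Ico s n, i t ≤ ∑ t ∈ Ico s n, κ t := sum_le_sum fun t _ => h.hle t
      have h4 : ∑ t ∈ Ico s n, κ t + ∑ t ∈ range s, κ t ≤ 1 := by
        have h5 := SAWF.sub_sum_le (h.hc.sub h.hs) (max s n)
        have h6 : ∑ t ∈ Ico s n, κ t + ∑ t ∈ range s, κ t ≤ ∑ t ∈ range (max s n + 1), κ t := by
          rw [add_comm, ← sum_union]
          · apply sum_le_sum_of_subset_of_nonneg
            · intro x hx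
              rw [mem_union, mem_range, mem_Ico] at hx
              rw [mem_range]; omega
            · intro x _ _; exact h.hc.nn x
          · rw [disjoint_left]
            intro x hx hx'
            rw [mem_range] at hx
            rw [mem_Ico] at hx'
            omega
        linarith
      rw [SAWF.tl, show s - 1 + 1 = s by omega]
      linarith
    exact (mul_le_mul_of_nonneg_left h2 (h.hc.toR.ps_nonneg _)).trans (h.hc.toR.ps_tl (s - 1))
  have h2 : 0 ≤ Tot a := by have := h.one_le_Tot; linarith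
  calc ySF i a s * Us u (s - 1) = Tot a * (Us u (s - 1) * big i s) := by rw [ySF]; ring
    _ ≤ Tot a * 1 := mul_le_mul_of_nonneg_left h1 h2
    _ = Tot a := mul_one _

/-- the tilted pieces at the decay rate have total weight at most one -/
lemma tilt_sub (h : Ren i a) {θ : ℝ} (hdec : ∀ t : ℕ, a t ≤ Real.exp (-(θ * t))) :
    SAWF.Sub (fun t => i t * Real.exp (θ * t)) := by
  -- below the decay rate
  have key : ∀ θ' : ℝ, θ' < θ → ∀ k : ℕ, ∑ j ∈ range (k + 1), i j * Real.exp (θ' * j) ≤ 1 := by
    intro θ' hθ' k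
    have ht := h.tilt θ'
    have hsum : Summable (fun t : ℕ => a t * Real.exp (θ' * t)) := by
      apply Summable.of_nonneg_of_le (fun t => mul_nonneg (h.a_nn t) (Real.exp_pos _).le) _
        (summable_geometric_of_lt_one (Real.exp_pos (-(θ - θ'))).le
          (by rw [Real.exp_lt_one_iff]; linarith))
      intro t
      calc a t * Real.exp (θ' * t) ≤ Real.exp (-(θ * t)) * Real.exp (θ' * t) :=
            mul_le_mul_of_nonneg_right (hdec t) (Real.exp_pos _).le
        _ = Real.exp (-(θ - θ')) ^ t := by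
            rw [← Real.exp_add, ← Real.exp_nat_mul]
            congr 1
            ring
    obtain ⟨h1, h2, -⟩ := ht.total hsum
    have h3 := h1.sum_le_tsum (range (k + 1)) (fun t _ => ht.nn t)
    linarith
  intro k
  rw [SAWF.tl]
  have hcont : Filter.Tendsto (fun θ' : ℝ => ∑ j ∈ range (k + 1), i j * Real.exp (θ' * j))
      (nhdsWithin θ (Set.Iio θ)) (nhds (∑ j ∈ range (k + 1), i j * Real.exp (θ * j))) := by
    apply Filter.Tendsto.mono_left _ nhdsWithin_le_nhds
    apply Continuous.tendsto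
    fun_prop
  have h1 : ∑ j ∈ range (k + 1), i j * Real.exp (θ * j) ≤ 1 := by
    apply le_of_tendsto hcont
    filter_upwards [self_mem_nhdsWithin] with θ' hθ'
    exact key θ' hθ' k
  linarith

/-- if `a t ≤ exp(-θ t)` then the total weight is at most `5 U(⌈1/θ⌉)` (T3 of the plan) -/
theorem tot_le (h : Pair κ u i a) {θ : ℝ} (hθ : 0 < θ) (hdec : ∀ t : ℕ, a t ≤ Real.exp (-(θ * t)))
    {M : ℕ} (hM1 : (M : ℝ) * θ ≤ 1) (hM2 : 1 ≤ ((M : ℝ) + 1) * θ) :
    Tot a ≤ 5 * Us u M := by
  have hsub := tilt_sub h.h hdec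
  have hb := h.h.toR.tilt θ
  have hau : ∀ t, a t ≤ u t := fun t => h.h.mono h.hc h.hle t
  -- first window
  have hU : SAWF.ps0 (fun t => a t * Real.exp (θ * t)) M ≤ Real.exp 1 * Us u M := by
    rw [SAWF.ps0, Us, mul_sum]
    apply sum_le_sum
    intro t ht
    rw [mem_range] at ht
    have h1 : (t : ℝ) ≤ M := by exact_mod_cast (by omega : t ≤ M)
    have h2 : Real.exp (θ * t) ≤ Real.exp 1 := by
      apply Real.exp_le_exp.2
      have := mul_le_mul_of_nonneg_right h1 hθ.le
      linarith
    calc a t * Real.exp (θ * t) ≤ u t * Real.exp 1 :=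
          mul_le_mul (hau t) h2 (Real.exp_pos _).le (h.hc.a_nn t)
      _ = Real.exp 1 * u t := mul_comm _ _
  have hU0 : 0 ≤ Us u M := sum_nonneg fun j _ => h.hc.a_nn j
  have hwin : ∀ m, ∑ t ∈ range (m * (M + 1)), a t ≤
      (∑ j ∈ range m, (Real.exp (-1)) ^ j) * (Real.exp 1 * Us u M) := by
    intro m
    induction m with
    | zero => simp
    | succ m ih =>
      rw [show (m + 1) * (M + 1) = m * (M + 1) + (M + 1) by ring, sum_range_add,
        sum_range_succ _ m, add_mul]
      have h3 : ∑ t ∈ range (M + 1), a (m * (M + 1) + t) ≤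
          (Real.exp (-1)) ^ m * (Real.exp 1 * Us u M) := by
        have h4 := hb.window hsub M (m * (M + 1))
        have h5 : ∑ t ∈ range (M + 1), a (m * (M + 1) + t) ≤ (Real.exp (-1)) ^ m *
            ∑ t ∈ range (M + 1), a (m * (M + 1) + t) *
              Real.exp (θ * ((m * (M + 1) + t : ℕ) : ℝ)) := by
          rw [mul_sum]
          apply sum_le_sum
          intro t _
          have h6 : 1 ≤ (Real.exp (-1)) ^ m * Real.exp (θ * ((m * (M + 1) + t : ℕ) : ℝ)) := by
            rw [← Real.exp_nat_mul, ← Real.exp_add]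
            apply Real.one_le_exp
            have h7 : (m : ℝ) ≤ θ * ((m * (M + 1) + t : ℕ) : ℝ) := by
              push_cast
              have h8 : (m : ℝ) * 1 ≤ m * (((M : ℝ) + 1) * θ) :=
                mul_le_mul_of_nonneg_left hM2 (Nat.cast_nonneg m)
              have h9 : (0 : ℝ) ≤ θ * t := mul_nonneg hθ.le (Nat.cast_nonneg t)
              linarith
            linarith
          calc a (m * (M + 1) + t) ≤ a (m * (M + 1) + t) *
                ((Real.exp (-1)) ^ m * Real.exp (θ * ((m * (M + 1) + t : ℕ) : ℝ))) :=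
                le_mul_of_one_le_right (h.h.a_nn _) h6
            _ = _ := by ring
        refine h5.trans ?_
        apply mul_le_mul_of_nonneg_left _ (by positivity)
        exact h4.trans hU
      linarith
  have hgeo : ∀ m, ∑ j ∈ range m, (Real.exp (-1)) ^ j ≤ 1 / (1 - Real.exp (-1)) := by
    intro m
    have h1 : Real.exp (-1) < 1 := by
      rw [Real.exp_lt_one_iff]; norm_num
    rw [geom_sum_eq h1.ne, ← neg_div_neg_eq]
    apply div_le_div₀ (by norm_num) _ (by linarith) (by linarith)
    have : 0 ≤ Real.exp (-1) ^ m := by positivity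
    linarith
  have hconst : 1 / (1 - Real.exp (-1)) * Real.exp 1 ≤ 5 := by
    have h1 := Real.exp_one_gt_d9
    have h2 := Real.exp_one_lt_d9
    have h3 : Real.exp (-1) = 1 / Real.exp 1 := by rw [Real.exp_neg]; ring
    have h4 : 0 < Real.exp 1 := Real.exp_pos 1
    rw [h3]
    have h5 : 1 - 1 / Real.exp 1 = (Real.exp 1 - 1) / Real.exp 1 := by field_simp
    rw [h5, one_div_div, div_mul_eq_mul_div, div_le_iff₀ (by linarith)]
    nlinarith
  apply Real.tsum_le_of_sum_range_le h.h.a_nn
  intro n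
  have h1 : ∑ t ∈ range n, a t ≤ ∑ t ∈ range (n * (M + 1)), a t :=
    sum_le_sum_of_subset_of_nonneg (range_mono (Nat.le_mul_of_pos_right n (by omega)))
      fun t _ _ => h.h.a_nn t
  calc ∑ t ∈ range n, a t ≤ ∑ t ∈ range (n * (M + 1)), a t := h1
    _ ≤ (∑ j ∈ range n, (Real.exp (-1)) ^ j) * (Real.exp 1 * Us u M) := hwin n
    _ ≤ 1 / (1 - Real.exp (-1)) * (Real.exp 1 * Us u M) :=
        mul_le_mul_of_nonneg_right (hgeo n) (mul_nonneg (Real.exp_pos _).le hU0)
    _ = (1 / (1 - Real.exp (-1)) * Real.exp 1) * Us u M := by ring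
    _ ≤ 5 * Us u M := mul_le_mul_of_nonneg_right hconst hU0

end SawNu.SF
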