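import Pool.Agent.SawF.Num3

/-!
SAWF N3b: exponential rate (P7 of the plan).
-/

set_option autoImplicit false

open Finset

namespace SawNu.SF

namespace Num3b

lemma step {a : ℕ → ℝ} (ha : ∀ t, 0 ≤ a t)
    (hun : ∀ S : ℕ, 2 ≤ S → a S ≤ ∑ M ∈ Finset.Icc (S / 2) S, ∑ M' ∈ Finset.Icc (S - S / 2) S,
      a M * a M')
    {T : ℕ} (hT : 100 ≤ T) {e : ℝ} (he : 0 ≤ e)
    (h : ∀ S : ℕ, T ≤ S → 5 * (S : ℝ) ^ 2 * a S ≤ e) :
    ∀ S : ℕ, 2 * T ≤ S → 5 * (S : ℝ) ^ 2 * a S ≤ e ^ 2 := by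
  intro S hS
  have hS200 : (200 : ℝ) ≤ S := by exact_mod_cast (by omega : 200 ≤ S)
  have hm1 : (0 : ℝ) < ((S : ℝ) - 1) ^ 2 := by
    have : (0 : ℝ) < (S : ℝ) - 1 := by linarith
    positivity
  set c : ℝ := 4 * e / (5 * ((S : ℝ) - 1) ^ 2) with hc
  have hc0 : 0 ≤ c := by positivity
  have hb : ∀ M : ℕ, T ≤ M → (S : ℝ) - 1 ≤ 2 * M → a M ≤ c := by
    intro M h1 h2
    have h3 := h M h1
    have h4 : ((S : ℝ) - 1) ^ 2 ≤ 4 * (M : ℝ) ^ 2 := by nlinarith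
    rw [hc, le_div_iff₀ (by positivity)]
    have h5 := ha M
    nlinarith [mul_le_mul_of_nonneg_left h4 h5]
  have h1 : a S ≤ ((Finset.Icc (S / 2) S).card : ℝ) * (((Finset.Icc (S - S / 2) S).card : ℝ) *
      (c * c)) := by
    refine (hun S (by omega)).trans ?_
    rw [← nsmul_eq_mul]
    apply Finset.sum_le_card_nsmul
    intro M hM
    rw [← nsmul_eq_mul]
    apply Finset.sum_le_card_nsmul
    intro M' hM'
    rw [Finset.mem_Icc] at hM hM'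
    have e1 : (S : ℝ) - 1 ≤ 2 * M := by
      have : S ≤ 2 * M + 1 := by omega
      have : (S : ℝ) ≤ 2 * M + 1 := by exact_mod_cast this
      linarith
    have e2 : (S : ℝ) - 1 ≤ 2 * M' := by
      have : S ≤ 2 * M' + 1 := by omega
      have : (S : ℝ) ≤ 2 * M' + 1 := by exact_mod_cast this
      linarith
    exact mul_le_mul (hb M (by omega) e1) (hb M' (by omega) e2) (ha M') hc0
  rw [Nat.card_Icc, Nat.card_Icc] at h1
  have k1 : ((S + 1 - S / 2 : ℕ) : ℝ) ≤ ((S : ℝ) + 3) / 2 := by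
    have : 2 * (S + 1 - S / 2) ≤ S + 3 := by omega
    have : (2 : ℝ) * ((S + 1 - S / 2 : ℕ) : ℝ) ≤ S + 3 := by exact_mod_cast this
    linarith
  have k2 : ((S + 1 - (S - S / 2) : ℕ) : ℝ) ≤ ((S : ℝ) + 3) / 2 := by
    have : 2 * (S + 1 - (S - S / 2)) ≤ S + 3 := by omega
    have : (2 : ℝ) * ((S + 1 - (S - S / 2) : ℕ) : ℝ) ≤ S + 3 := by exact_mod_cast this
    linarith
  have h2 : a S ≤ (((S : ℝ) + 3) / 2) * ((((S : ℝ) + 3) / 2) * (c * c)) := by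
    refine h1.trans ?_
    apply mul_le_mul k1 _ (by positivity) (by positivity)
    exact mul_le_mul_of_nonneg_right k2 (by positivity)
  have h3 : (S : ℝ) * (S + 3) ≤ 11 / 10 * ((S : ℝ) - 1) ^ 2 := by nlinarith
  have h4 : ((S : ℝ) * (S + 3)) ^ 2 ≤ 5 / 4 * (((S : ℝ) - 1) ^ 2) ^ 2 := by
    have h5 : 0 ≤ (S : ℝ) * (S + 3) := by positivity
    have h6 := mul_self_le_mul_self h5 h3
    nlinarith
  have h5 : 5 * (S : ℝ) ^ 2 * a S ≤ 5 * (S : ℝ) ^ 2 *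
      ((((S : ℝ) + 3) / 2) * ((((S : ℝ) + 3) / 2) * (c * c))) :=
    mul_le_mul_of_nonneg_left h2 (by positivity)
  refine h5.trans ?_
  have h6 : 5 * (S : ℝ) ^ 2 * ((((S : ℝ) + 3) / 2) * ((((S : ℝ) + 3) / 2) * (c * c))) =
      4 / 5 * e ^ 2 * (((S : ℝ) * (S + 3)) ^ 2 / (((S : ℝ) - 1) ^ 2) ^ 2) := by
    rw [hc]
    field_simp
    ring
  rw [h6]
  have h7 : ((S : ℝ) * (S + 3)) ^ 2 / (((S : ℝ) - 1) ^ 2) ^ 2 ≤ 5 / 4 := by
    rw [div_le_iff₀ (by positivity)]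
    exact h4
  have h8 : 0 ≤ 4 / 5 * e ^ 2 := by positivity
  calc 4 / 5 * e ^ 2 * (((S : ℝ) * (S + 3)) ^ 2 / (((S : ℝ) - 1) ^ 2) ^ 2)
      ≤ 4 / 5 * e ^ 2 * (5 / 4) := mul_le_mul_of_nonneg_left h7 h8
    _ = e ^ 2 := by ring

end Num3b

/-- exponential rate (P7) -/
theorem rate {a : ℕ → ℝ} (ha : ∀ t, 0 ≤ a t)
    (hun : ∀ S : ℕ, 2 ≤ S → a S ≤ ∑ M ∈ Finset.Icc (S / 2) S, ∑ M' ∈ Finset.Icc (S - S / 2) S,
      a M * a M')
    {T0 : ℕ} (h34 : 100 ≤ T0) (hsm : ∀ S : ℕ, T0 ≤ S → 5 * (S : ℝ) ^ 2 * a S ≤ Real.exp (-1)) :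
    ∀ S : ℕ, T0 ≤ S → a S ≤ Real.exp (-((S : ℝ) / (2 * T0))) := by
  have key : ∀ k : ℕ, ∀ S : ℕ, 2 ^ k * T0 ≤ S → 5 * (S : ℝ) ^ 2 * a S ≤
      Real.exp (-(2 : ℝ) ^ k) := by
    intro k
    induction k with
    | zero =>
      intro S hS
      have := hsm S (by simpa using hS)
      simpa using this
    | succ k ih =>
      intro S hS
      have h1 : 100 ≤ 2 ^ k * T0 := by
        have : 1 ≤ 2 ^ k := Nat.one_le_two_pow
        nlinarith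
      have h2 := Num3b.step ha hun h1 (Real.exp_pos (-(2 : ℝ) ^ k)).le ih S (by
        rw [pow_succ] at hS
        nlinarith)
      have h3 : Real.exp (-(2 : ℝ) ^ k) ^ 2 = Real.exp (-(2 : ℝ) ^ (k + 1)) := by
        rw [← Real.exp_nat_mul]
        congr 1
        push_cast
        ring
      rw [h3] at h2
      exact h2
  intro S hS
  have hT0 : 0 < T0 := by omega
  set k := Nat.log 2 (S / T0) with hk
  have hq : S / T0 ≠ 0 := by
    have := Nat.div_pos hS hT0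
    omega
  have h1 : 2 ^ k ≤ S / T0 := Nat.pow_log_le_self 2 hq
  have h2 : S / T0 < 2 ^ (k + 1) := Nat.lt_pow_succ_log_self (by norm_num) _
  have h3 : 2 ^ k * T0 ≤ S := by
    calc 2 ^ k * T0 ≤ S / T0 * T0 := Nat.mul_le_mul_right _ h1
      _ ≤ S := Nat.div_mul_le_self _ _
  have h4 : S < 2 ^ (k + 1) * T0 := (Nat.div_lt_iff_lt_mul hT0).1 h2
  have h5 := key k S h3
  have hS1 : (1 : ℝ) ≤ S := by exact_mod_cast (by omega : 1 ≤ S)
  have h6 : a S ≤ 5 * (S : ℝ) ^ 2 * a S := by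
    have h7 : (1 : ℝ) ≤ 5 * (S : ℝ) ^ 2 := by nlinarith
    calc a S = 1 * a S := by ring
      _ ≤ _ := mul_le_mul_of_nonneg_right h7 (ha S)
  refine (h6.trans h5).trans ?_
  apply Real.exp_le_exp.2
  have hT0R : (0 : ℝ) < T0 := by exact_mod_cast hT0
  have h8 : (S : ℝ) < 2 ^ (k + 1) * T0 := by exact_mod_cast h4
  have h9 : (S : ℝ) / (2 * T0) ≤ 2 ^ k := by
    rw [div_le_iff₀ (by positivity)]
    rw [pow_succ] at h8
    linarith
  linarith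

end SawNu.SF
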