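import Pool.Agent.SawF.D2
import Pool.Agent.SawF.Num2

/-!
SAWF W0: bridges with and without big pieces, definitions.
-/

set_option autoImplicit false

open Classical
open scoped ENNReal

namespace SawNu.SF

open SawNu.SB

/-- the bridge contains an irreducible piece of height at least `v` -/
def HasBig (C : CL) (v : ℕ) (l : List Pt) : Prop :=
  ∃ b1 p b2, l = b1 ++ (p ++ b2) ∧ Brc C b1 ∧ Irr C p ∧ (v : ℤ) ≤ ht p ∧ Brc C b2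

/-- three big pieces -/
def HasBig3 (C : CL) (v : ℕ) (l : List Pt) : Prop :=
  ∃ b1 p1 b2 p2 b3 p3 b4, l = b1 ++ (p1 ++ (b2 ++ (p2 ++ (b3 ++ (p3 ++ b4))))) ∧
    Brc C b1 ∧ Irr C p1 ∧ (v : ℤ) ≤ ht p1 ∧ Brc C b2 ∧ Irr C p2 ∧ (v : ℤ) ≤ ht p2 ∧
    Brc C b3 ∧ Irr C p3 ∧ (v : ℤ) ≤ ht p3 ∧ Brc C b4

/-- first and last piece are big -/
def HasEnds (C : CL) (v : ℕ) (l : List Pt) : Prop :=
  ∃ p1 b p2, l = p1 ++ (b ++ p2) ∧ Irr C p1 ∧ (v : ℤ) ≤ ht p1 ∧ Brc C b ∧ Irr C p2 ∧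
    (v : ℤ) ≤ ht p2

end SawNu.SF
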