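import Pool.Agent.SawF.D2

/-!
SAWF P0: unfolding of all bridges at the middle level.
-/

set_option autoImplicit false

open Classical
open scoped ENNReal

namespace SawNu.SF

open SawNu.SB

variable {C : CL}

namespace PropA

/-- finite union bound -/
lemma W_iUnion {δ : ℝ} {ι : Type} (s : Finset ι) (P : ι → List Pt → Prop) {Q : List Pt → Prop}
    (h : ∀ l, Q l → ∃ i ∈ s, P i l) : W C δ Q ≤ ∑ i ∈ s, W C δ (P i) := by
  have h1 : ∀ i, W C δ (P i) = ∑' l : List Pt, if P i l then wx C δ l else 0 := by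
    intro i
    refine (tsum_subtype {l | P i l} (wx C δ)).trans (tsum_congr fun l => ?_)
    simp [Set.indicator_apply]
  have h2 : W C δ Q = ∑' l : List Pt, if Q l then wx C δ l else 0 := by
    refine (tsum_subtype {l | Q l} (wx C δ)).trans (tsum_congr fun l => ?_)
    simp [Set.indicator_apply]
  rw [h2, Finset.sum_congr rfl (fun i _ => h1 i), ← Summable.tsum_finsetSum (fun _ _ => ENNReal.summable)]
  apply ENNReal.tsum_le_tsum
  intro l
  by_cases hl : Q l
  · obtain ⟨i, hi, hi2⟩ := h l hl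
    rw [if_pos hl]
    calc wx C δ l = if P i l then wx C δ l else 0 := by rw [if_pos hi2]
      _ ≤ _ := Finset.single_le_sum (f := fun i => if P i l then wx C δ l else 0)
          (fun _ _ => zero_le) hi
  · rw [if_neg hl]; exact zero_le

/-- three factors, with the middle one reflected -/
lemma W_le_mul3 {δ : ℝ} {Q P1 P2 P3 : List Pt → Prop}
    (h : ∀ l, Q l → ∃ E B R, P1 E ∧ P2 B ∧ P3 R ∧ l = E ++ (B.map rhoH ++ R)) :
    W C δ Q ≤ W C δ P1 * (W C δ P2 * W C δ P3) := by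
  have e1 : W C δ P1 * (W C δ P2 * W C δ P3) =
      ∑' x : {l : List Pt // P1 l} × ({l : List Pt // P2 l} × {l : List Pt // P3 l}),
        wx C δ x.1.1 * (wx C δ x.2.1.1 * wx C δ x.2.2.1) := by
    rw [ENNReal.tsum_prod (f := fun (a : {l : List Pt // P1 l})
      (y : {l : List Pt // P2 l} × {l : List Pt // P3 l}) =>
        wx C δ a.1 * (wx C δ y.1.1 * wx C δ y.2.1)), W, ← ENNReal.tsum_mul_right]
    apply tsum_congr
    intro a
    rw [ENNReal.tsum_mul_left]
    congr 1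
    rw [ENNReal.tsum_prod (f := fun (b : {l : List Pt // P2 l}) (c : {l : List Pt // P3 l}) =>
        wx C δ b.1 * wx C δ c.1), W, W, ← ENNReal.tsum_mul_right]
    apply tsum_congr
    intro b
    rw [ENNReal.tsum_mul_left]
  rw [e1]
  choose E B R h1 h2 h3 h4 using h
  have e2 : W C δ Q = ∑' l : {l : List Pt // Q l}, (fun x :
      {l : List Pt // P1 l} × ({l : List Pt // P2 l} × {l : List Pt // P3 l}) =>
        wx C δ x.1.1 * (wx C δ x.2.1.1 * wx C δ x.2.2.1))
      ((⟨E l.1 l.2, h1 l.1 l.2⟩, (⟨B l.1 l.2, h2 l.1 l.2⟩, ⟨R l.1 l.2, h3 l.1 l.2⟩)) :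
      {l : List Pt // P1 l} × ({l : List Pt // P2 l} × {l : List Pt // P3 l})) := by
    rw [W]
    apply tsum_congr
    intro l
    simp only
    have e3 : wx C δ ((B l.1 l.2).map rhoH) = wx C δ (B l.1 l.2) := by simp [wx]
    rw [← e3, ← wx_append, ← wx_append, ← h4 l.1 l.2]
  rw [e2]
  apply ENNReal.tsum_comp_le_tsum_of_injective
  intro l l' hl
  simp only [Prod.mk.injEq, Subtype.mk.injEq] at hl
  obtain ⟨g1, g2, g3⟩ := hl
  apply Subtype.ext
  rw [h4 l.1 l.2, h4 l'.1 l'.2, g1, g2, g3]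

/-- the decomposition at the middle level -/
lemma decomp (S : ℕ) (hS : 2 ≤ S) (l : List Pt) (hl : Brc C l) (hh : ht l = (S : ℤ)) :
    ∃ M ∈ Finset.Icc (S / 2) S, ∃ M' ∈ Finset.Icc (S - S / 2) S,
      ∃ E B R, (Brc C E ∧ ht E = (M : ℤ)) ∧ (Brc C B ∧ ht B = ((M + M' - S : ℕ) : ℤ)) ∧
        (Brc C R ∧ ht R = (M' : ℤ)) ∧ l = E ++ (B.map rhoH ++ R) := by
  by_cases hc : ∃ t, CutT l t ∧ (ps l t).2 = ((S / 2 : ℕ) : ℤ)
  · obtain ⟨t, ht1, ht2⟩ := hc
    refine ⟨S / 2, by rw [Finset.mem_Icc]; omega, S - S / 2, by rw [Finset.mem_Icc]; omega,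
      l.take t, [], l.drop t, ⟨hl.take_cut ht1, ?_⟩, ⟨Brc.nil, ?_⟩, ⟨hl.drop_cut ht1, ?_⟩, ?_⟩
    · rw [← ht2]; rfl
    · have : S / 2 + (S - S / 2) - S = 0 := by omega
      rw [this]; simp [ht]
    · have h5 : ht (l.drop t) = ht l - (ps l t).2 := by
        simp only [ht, sum_drop, Prod.snd_sub]
      rw [h5, hh, ht2]; omega
    · simp
  · push Not at hc
    obtain ⟨s, t, hst, h1, h2⟩ := exists_ST hl (m := ((S / 2 : ℕ) : ℤ)) (by positivity)
      (by rw [hh]; omega) hc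
    obtain ⟨a1, a2, a3, a4, a5⟩ := ST_split hl hst
    have hlt := hst.lt
    have hle := hst.le
    have hx : 1 ≤ (ps l t).2 := hl.up t (by omega) hle
    have hM : (ps l s).2 ≤ S := by
      have := hl.dn s (by omega)
      rw [← hh]
      exact this
    refine ⟨(ps l s).2.toNat, by rw [Finset.mem_Icc]; omega, (S - (ps l t).2).toNat,
      by rw [Finset.mem_Icc]; omega, l.take s, ((l.take t).drop s).map rhoH, l.drop t,
      ⟨a1, ?_⟩, ⟨a2, ?_⟩, ⟨a3, ?_⟩, ?_⟩
    · show (ps l s).2 = _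
      omega
    · rw [a5]; omega
    · have h5 : ht (l.drop t) = ht l - (ps l t).2 := by
        simp only [ht, sum_drop, Prod.snd_sub]
      rw [h5, hh]; omega
    · rw [← List.append_assoc]; exact a4

end PropA

/-- unfolding of all bridges at the middle level, without avoidance (input of `rate`) -/
theorem unfold_mid {δ : ℝ} (hδ : 0 < δ) (S : ℕ) (hS : 2 ≤ S) :
    aR C δ S ≤ ∑ M ∈ Finset.Icc (S / 2) S, ∑ M' ∈ Finset.Icc (S - S / 2) S,
      aR C δ M * aR C δ M' := by
  have hfin : ∀ t, AE C δ t ≠ ⊤ := fun t =>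
    ne_top_of_le_ne_top ENNReal.one_ne_top (AE_le_one hδ.le t)
  have key : AE C δ S ≤ ∑ M ∈ Finset.Icc (S / 2) S, ∑ M' ∈ Finset.Icc (S - S / 2) S,
      AE C δ M * AE C δ M' := by
    calc AE C δ S ≤ ∑ x ∈ Finset.Icc (S / 2) S ×ˢ Finset.Icc (S - S / 2) S,
        W C δ (fun l => ∃ E B R, (Brc C E ∧ ht E = (x.1 : ℤ)) ∧
          (Brc C B ∧ ht B = ((x.1 + x.2 - S : ℕ) : ℤ)) ∧
          (Brc C R ∧ ht R = (x.2 : ℤ)) ∧ l = E ++ (B.map rhoH ++ R)) := by
          apply PropA.W_iUnion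
          rintro l ⟨hl, hh⟩
          obtain ⟨M, hM, M', hM', h⟩ := PropA.decomp S hS l hl hh
          exact ⟨(M, M'), Finset.mem_product.2 ⟨hM, hM'⟩, h⟩
      _ ≤ ∑ x ∈ Finset.Icc (S / 2) S ×ˢ Finset.Icc (S - S / 2) S,
          AE C δ x.1 * AE C δ x.2 := by
          apply Finset.sum_le_sum
          intro x _
          calc _ ≤ AE C δ x.1 * (AE C δ (x.1 + x.2 - S) * AE C δ x.2) :=
                PropA.W_le_mul3 (fun l hl => hl)
            _ ≤ AE C δ x.1 * (1 * AE C δ x.2) := by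
                gcongr
                exact AE_le_one hδ.le _
            _ = _ := by rw [one_mul]
      _ = _ := by rw [Finset.sum_product]
  have h1 := ENNReal.toReal_mono (by
    apply ne_of_lt
    rw [ENNReal.sum_lt_top]
    intro M _
    rw [ENNReal.sum_lt_top]
    intro M' _
    exact ENNReal.mul_lt_top (hfin M).lt_top (hfin M').lt_top) key
  rw [ENNReal.toReal_sum (by
    intro M _
    apply ne_of_lt
    rw [ENNReal.sum_lt_top]
    intro M' _
    exact ENNReal.mul_lt_top (hfin M).lt_top (hfin M').lt_top)] at h1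
  refine h1.trans (le_of_eq ?_)
  apply Finset.sum_congr rfl
  intro M _
  rw [ENNReal.toReal_sum (by
    intro M' _
    exact ENNReal.mul_ne_top (hfin M) (hfin M'))]
  apply Finset.sum_congr rfl
  intro M' _
  rw [ENNReal.toReal_mul]
  rfl

end SawNu.SF
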