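import Pool.Agent.SawF.Rec
import Pool.Agent.SawF.PropA
import Pool.Agent.SawF.Num3a
import Pool.Agent.SawF.Num3b
import Pool.Agent.Saw39.SB.LemmaSw

/-!
SAWF P: Proposition P'. If `y(s) ≤ s^-ε` and `UU ≤ 5 U(s)` at tilt `δ ≥ s^-C0`, then the bridges
decay exponentially at the scale `s (log s)^K`.
-/

set_option autoImplicit false

open Classical

namespace SawNu.SF

open SawNu.SB SawNu.SBR

variable {C : CL}

/-- growth facts: everything needed about large `s` -/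
lemma propP_growth (C0 C2 : ℝ) (hC0 : 0 < C0) (hC2 : 1 ≤ C2) :
    ∃ s0 : ℕ, ∀ s : ℕ, s0 ≤ s →
      Real.exp 200 ≤ s ∧ 1 ≤ Real.log s ∧
      100 ≤ s ∧
      200 ≤ Real.log s ∧
      ((⌈C2 * Real.log s⌉₊ : ℝ) ≤ (Real.log s) ^ 2) ∧
      ((⌈360 * (C0 + 2) * Real.log s⌉₊ : ℝ) ≤ (Real.log s) ^ 2) ∧
      1000 ≤ (s : ℝ) := by
  obtain ⟨n1, hn1⟩ := exists_nat_ge (Real.exp 200)
  obtain ⟨n2, hn2⟩ := exists_nat_ge (Real.exp (C2 + 1))
  obtain ⟨n3, hn3⟩ := exists_nat_ge (Real.exp (360 * (C0 + 2) + 1))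
  refine ⟨n1 + n2 + n3 + 1000, ?_⟩
  intro s hs
  have hsR : ((n1 + n2 + n3 + 1000 : ℕ) : ℝ) ≤ s := by exact_mod_cast hs
  push_cast at hsR
  have hn1' : (0 : ℝ) ≤ n1 := Nat.cast_nonneg _
  have hn2' : (0 : ℝ) ≤ n2 := Nat.cast_nonneg _
  have hn3' : (0 : ℝ) ≤ n3 := Nat.cast_nonneg _
  have hspos : (0 : ℝ) < s := by linarith
  have l1 : 200 ≤ Real.log s := by
    rw [Real.le_log_iff_exp_le hspos]; linarith
  have l2 : C2 + 1 ≤ Real.log s := by
    rw [Real.le_log_iff_exp_le hspos]; linarith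
  have l3 : 360 * (C0 + 2) + 1 ≤ Real.log s := by
    rw [Real.le_log_iff_exp_le hspos]; linarith
  refine ⟨by linarith, by linarith, by omega, l1, ?_, ?_, by linarith⟩
  · have h1 : (⌈C2 * Real.log s⌉₊ : ℝ) < C2 * Real.log s + 1 :=
      Nat.ceil_lt_add_one (by nlinarith)
    nlinarith
  · have h1 : (⌈360 * (C0 + 2) * Real.log s⌉₊ : ℝ) < 360 * (C0 + 2) * Real.log s + 1 :=
      Nat.ceil_lt_add_one (by nlinarith)
    nlinarith

/-- exponentials beat powers -/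
lemma propP_exp (C0 : ℝ) (hC0 : 0 < C0) :
    ∃ X : ℝ, ∀ x : ℝ, X ≤ x → 5 * x ^ (2 : ℝ) * Real.exp (-(x ^ (1 / (C0 + 1)))) ≤
      Real.exp (-1) := by
  have hp : 0 < 1 / (C0 + 1) := by positivity
  have h1 : Filter.Tendsto (fun x : ℝ => x ^ (1 / (C0 + 1))) Filter.atTop Filter.atTop :=
    tendsto_rpow_atTop hp
  have h2 : Filter.Tendsto (fun y : ℝ => y ^ (2 * (C0 + 1)) * Real.exp (-1 * y)) Filter.atTop
      (nhds 0) := tendsto_rpow_mul_exp_neg_mul_atTop_nhds_zero _ _ one_pos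
  have h3 := h2.comp h1
  have h4 : ∀ᶠ x : ℝ in Filter.atTop, ((fun y : ℝ => y ^ (2 * (C0 + 1)) * Real.exp (-1 * y)) ∘
      (fun x : ℝ => x ^ (1 / (C0 + 1)))) x < Real.exp (-1) / 5 :=
    h3.eventually (gt_mem_nhds (by positivity))
  obtain ⟨X, hX⟩ := Filter.eventually_atTop.1 (h4.and (Filter.eventually_ge_atTop 1))
  refine ⟨X, fun x hx => ?_⟩
  obtain ⟨h5, h6⟩ := hX x hx
  simp only [Function.comp] at h5
  have h7 : (x ^ (1 / (C0 + 1))) ^ (2 * (C0 + 1)) = x ^ (2 : ℝ) := by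
    rw [← Real.rpow_mul (by linarith)]
    congr 1
    field_simp
  rw [h7] at h5
  have h8 : (-1 * x ^ (1 / (C0 + 1))) = -(x ^ (1 / (C0 + 1))) := by ring
  rw [h8] at h5
  linarith

theorem propP (L : RLat) (hS : ∀ b, L.S b = C.S) (ε C0 : ℝ) (hε : 0 < ε) (hC0 : 0 < C0) :
    ∃ (K : ℝ) (s0 : ℕ), 1 ≤ K ∧ 2 ≤ s0 ∧ ∀ s : ℕ, s0 ≤ s → ∀ δ : ℝ, (s : ℝ) ^ (-C0) ≤ δ → δ ≤ 1 →
      Tot (aR C δ) ≤ 5 * Us (aR C 0) s → ySF (iR C δ) (aR C δ) s ≤ (s : ℝ) ^ (-ε) →
      ∀ t : ℕ, (s : ℝ) * (Real.log s) ^ K ≤ t →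
        aR C δ t ≤ Real.exp (-((t : ℝ) / (2 * (s * (Real.log s) ^ K)))) := by
  obtain ⟨d, p, C1, C2, J, s1, hd, hC1, hC2, hJ, hs1, hiter⟩ :=
    iterate_num ε C0 (4 * (C0 + 2)) hε hC0 (by positivity)
  obtain ⟨s2, hs2⟩ := propP_growth C0 C2 hC0 hC2
  obtain ⟨X, hX⟩ := propP_exp C0 hC0
  obtain ⟨s3, hs3⟩ := exists_nat_ge X
  obtain ⟨N0, hN0⟩ := lemmaSw L C hS d hd p
  refine ⟨((2 * J + 2 : ℕ) : ℝ), s1 + s2 + s3 + N0 + 2, by push_cast; linarith [(Nat.cast_nonneg J : (0 : ℝ) ≤ J)], by omega, ?_⟩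
  intro s hs δ hδs hδ1 hU hy t ht
  obtain ⟨g1, g2, g3, g4, g5, g6, g7⟩ := hs2 s (by omega)
  have hspos : (0 : ℝ) < s := by linarith
  have hs1' : (1 : ℝ) ≤ s := by linarith
  have hδ : 0 < δ := lt_of_lt_of_le (Real.rpow_pos_of_pos hspos _) hδs
  have hP := pair (C := C) hδ
  have hren0 := hP.hc
  set T := Tot (aR C δ) with hT
  have hT1 : 1 ≤ T := hP.one_le_Tot
  have hT2 : T ≤ 2 / δ := by rw [hT, Tot_eq hδ]; exact W_brc_le hδ hδ1
  set N := ⌈(s : ℝ) ^ C1⌉₊ with hN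
  have hNs : (s : ℝ) ≤ N := by
    refine le_trans ?_ (Nat.le_ceil _)
    calc (s : ℝ) = (s : ℝ) ^ (1 : ℝ) := (Real.rpow_one _).symm
      _ ≤ (s : ℝ) ^ C1 := Real.rpow_le_rpow_of_exponent_le hs1' hC1
  have hNs' : s ≤ N := by exact_mod_cast hNs
  have hSw : SwAt C d p N := hN0 N (by omega)
  set l := ⌈C2 * Real.log s⌉₊ with hl
  have hl200 : 200 ≤ l := by
    have h1 : (200 : ℝ) ≤ l := by
      refine le_trans ?_ (Nat.le_ceil _)
      nlinarith
    exact_mod_cast h1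
  have hanti : Antitone (ySF (iR C δ) (aR C δ)) := by
    intro a b hab
    unfold ySF
    exact mul_le_mul_of_nonneg_left (hP.big_anti hab) (by linarith)
  have hynn : ∀ n, 0 ≤ ySF (iR C δ) (aR C δ) n := by
    intro n
    exact mul_nonneg (by linarith) (hP.big_nn n)
  have hA := hiter s (by omega) T δ (ySF (iR C δ) (aR C δ)) hδs hδ1 hT1 hT2 hanti hynn hy (by
    intro v hv1 hv2 hyv
    refine rec_y L hS hd (by omega) hSw hδ (by omega) hl200 ?_ hyv
    refine hU.trans ?_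
    exact mul_le_mul_of_nonneg_left (hren0.Us_mono hv1) (by norm_num))
  rw [← hl] at hA
  -- the final scale
  set v := l ^ J * s with hv
  set m := ⌈360 * (C0 + 2) * Real.log s⌉₊ with hm
  have hlJ : 1 ≤ l ^ J := Nat.one_le_pow _ _ (by omega)
  have hvs : s ≤ v := by
    calc s = 1 * s := (one_mul s).symm
      _ ≤ l ^ J * s := Nat.mul_le_mul_right s hlJ
  have hv1 : 1 ≤ v := by omega
  have hUv : Tot (aR C δ) ≤ 5 * Us (aR C 0) v :=
    hU.trans (mul_le_mul_of_nonneg_left (hren0.Us_mono hvs) (by norm_num))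
  have hm1 : 360 * (C0 + 2) * Real.log s ≤ m := Nat.le_ceil _
  have hm0 : (1 : ℝ) ≤ m := by
    refine le_trans ?_ hm1
    nlinarith
  have hm0' : 1 ≤ m := by exact_mod_cast hm0
  set T0 := m * v with hT0
  have hT0v : v ≤ T0 := by
    calc v = 1 * v := (one_mul v).symm
      _ ≤ m * v := Nat.mul_le_mul_right v hm0'
  have hT0s : s ≤ T0 := by omega
  have hT0100 : 100 ≤ T0 := by omega
  have hvpos : (0 : ℝ) < v := by exact_mod_cast hv1
  -- T0 is at most s (log s)^K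
  have hT0K : (T0 : ℝ) ≤ s * (Real.log s) ^ ((2 * J + 2 : ℕ) : ℝ) := by
    rw [hT0, hv, Real.rpow_natCast]
    push_cast
    have h1 : (l : ℝ) ^ J ≤ ((Real.log s) ^ 2) ^ J := pow_le_pow_left₀ (Nat.cast_nonneg _) g5 J
    have h2 : (m : ℝ) * (l : ℝ) ^ J ≤ (Real.log s) ^ 2 * ((Real.log s) ^ 2) ^ J :=
      mul_le_mul g6 h1 (by positivity) (by positivity)
    calc (m : ℝ) * ((l : ℝ) ^ J * s) = s * (m * (l : ℝ) ^ J) := by ring
      _ ≤ s * ((Real.log s) ^ 2 * ((Real.log s) ^ 2) ^ J) := mul_le_mul_of_nonneg_left h2 hspos.le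
      _ = s * (Real.log s) ^ (2 * J + 2) := by ring
  -- upper bounds on a
  have hann : ∀ n, 0 ≤ aR C δ n := fun n => ENNReal.toReal_nonneg
  have hTs : T ≤ 2 * (s : ℝ) ^ C0 := by
    refine hT2.trans ?_
    rw [div_le_iff₀ hδ]
    have h1 : (s : ℝ) ^ C0 * (s : ℝ) ^ (-C0) = 1 := by
      rw [← Real.rpow_add hspos]; simp
    have h2 : (s : ℝ) ^ C0 * (s : ℝ) ^ (-C0) ≤ (s : ℝ) ^ C0 * δ :=
      mul_le_mul_of_nonneg_left hδs (by positivity)
    nlinarith
  have hsm : ∀ S : ℕ, T0 ≤ S → 5 * (S : ℝ) ^ 2 * aR C δ S ≤ Real.exp (-1) := by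
    intro S hS0
    have hSpos : (0 : ℝ) < S := by
      have : 0 < S := by omega
      exact_mod_cast this
    by_cases hbig : (s : ℝ) ^ (C0 + 1) ≤ S
    · -- heights are at most lengths
      have h1 : aR C δ S ≤ Real.exp (-(δ * S)) := by
        have h2 := AE_le_exp (C := C) hδ.le S
        have h3 := ENNReal.toReal_mono ENNReal.ofReal_ne_top h2
        rwa [ENNReal.toReal_ofReal (Real.exp_pos _).le] at h3
      have h4 : (S : ℝ) ^ (1 / (C0 + 1)) ≤ δ * S := by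
        have h5 : (s : ℝ) ≤ (S : ℝ) ^ (1 / (C0 + 1)) := by
          have h6 := Real.rpow_le_rpow (by positivity) hbig (by positivity : 0 ≤ 1 / (C0 + 1))
          rw [← Real.rpow_mul hspos.le] at h6
          have h7 : (C0 + 1) * (1 / (C0 + 1)) = 1 := by field_simp
          rwa [h7, Real.rpow_one] at h6
        -- S = (S^(1/(C0+1)))^(C0+1) = S^(1/(C0+1)) * (S^(1/(C0+1)))^C0
        have h8 : (S : ℝ) = (S : ℝ) ^ (1 / (C0 + 1)) * ((S : ℝ) ^ (1 / (C0 + 1))) ^ C0 := by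
          rw [← Real.rpow_mul hSpos.le, ← Real.rpow_add hSpos]
          have : 1 / (C0 + 1) + 1 / (C0 + 1) * C0 = 1 := by field_simp; ring
          rw [this, Real.rpow_one]
        have h9 : (s : ℝ) ^ C0 ≤ ((S : ℝ) ^ (1 / (C0 + 1))) ^ C0 :=
          Real.rpow_le_rpow hspos.le h5 hC0.le
        have h10 : 1 ≤ δ * ((S : ℝ) ^ (1 / (C0 + 1))) ^ C0 := by
          have h11 : (s : ℝ) ^ (-C0) * (s : ℝ) ^ C0 = 1 := by
            rw [← Real.rpow_add hspos]; simp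
          calc (1 : ℝ) = (s : ℝ) ^ (-C0) * (s : ℝ) ^ C0 := h11.symm
            _ ≤ δ * ((S : ℝ) ^ (1 / (C0 + 1))) ^ C0 :=
              mul_le_mul hδs h9 (by positivity) hδ.le
        have hpos : 0 < (S : ℝ) ^ (1 / (C0 + 1)) := by positivity
        calc (S : ℝ) ^ (1 / (C0 + 1)) = (S : ℝ) ^ (1 / (C0 + 1)) * 1 := (mul_one _).symm
          _ ≤ (S : ℝ) ^ (1 / (C0 + 1)) * (δ * ((S : ℝ) ^ (1 / (C0 + 1))) ^ C0) :=
            mul_le_mul_of_nonneg_left h10 hpos.le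
          _ = δ * ((S : ℝ) ^ (1 / (C0 + 1)) * ((S : ℝ) ^ (1 / (C0 + 1))) ^ C0) := by ring
          _ = δ * S := by rw [← h8]
      have h12 : aR C δ S ≤ Real.exp (-((S : ℝ) ^ (1 / (C0 + 1)))) :=
        h1.trans (Real.exp_le_exp.2 (by linarith))
      have h13 := hX (S : ℝ) (by
        have : s3 ≤ S := by omega
        have h14 : (s3 : ℝ) ≤ S := by exact_mod_cast this
        linarith)
      have h15 : (S : ℝ) ^ (2 : ℝ) = (S : ℝ) ^ 2 := by
        rw [show (2 : ℝ) = ((2 : ℕ) : ℝ) by norm_num, Real.rpow_natCast]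
      rw [h15] at h13
      refine le_trans ?_ h13
      exact mul_le_mul_of_nonneg_left h12 (by positivity)
    · rw [not_le] at hbig
      -- the tail bound
      have h1 := tail_le hP hv1 hUv S
      have h2 : aR C δ S ≤ ∑' t, (if S ≤ t then aR C δ t else 0) := by
        have hsum : Summable (fun t => if S ≤ t then aR C δ t else 0) := by
          refine Summable.of_nonneg_of_le (fun t => ?_) (fun t => ?_) hP.hsum
          · split_ifs
            · exact hann t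
            · exact le_refl _
          · split_ifs
            · exact le_refl _
            · exact hann t
        have h3 := hsum.le_tsum S (fun t _ => by
          split_ifs
          · exact hann t
          · exact le_refl _)
        simpa using h3
      have h3 : Real.exp (-((S : ℝ) / (90 * v))) ≤ (s : ℝ) ^ (-(4 * (C0 + 2))) := by
        rw [Real.rpow_def_of_pos hspos]
        apply Real.exp_le_exp.2
        have h4 : (T0 : ℝ) ≤ S := by exact_mod_cast hS0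
        have h5 : 4 * (C0 + 2) * Real.log s ≤ (S : ℝ) / (90 * v) := by
          rw [le_div_iff₀ (by positivity)]
          have h6 : (T0 : ℝ) = m * v := by rw [hT0]; push_cast; ring
          calc 4 * (C0 + 2) * Real.log s * (90 * v) = (360 * (C0 + 2) * Real.log s) * v := by ring
            _ ≤ m * v := mul_le_mul_of_nonneg_right hm1 hvpos.le
            _ ≤ S := by rw [← h6]; exact h4
        linarith
      have h4 : aR C δ S ≤ T * (3 * (s : ℝ) ^ (-(4 * (C0 + 2)))) := by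
        refine h2.trans (h1.trans ?_)
        apply mul_le_mul_of_nonneg_left _ (by linarith)
        linarith
      have hApos : 0 < (s : ℝ) ^ (-(4 * (C0 + 2))) := by positivity
      have h5 : (S : ℝ) ^ 2 ≤ (s : ℝ) ^ (2 * (C0 + 1)) := by
        have h6 : (S : ℝ) ^ 2 ≤ ((s : ℝ) ^ (C0 + 1)) ^ 2 :=
          pow_le_pow_left₀ hSpos.le hbig.le 2
        have h7 : ((s : ℝ) ^ (C0 + 1)) ^ 2 = (s : ℝ) ^ (2 * (C0 + 1)) := by
          rw [← Real.rpow_natCast, ← Real.rpow_mul hspos.le]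
          congr 1
          push_cast; ring
        rw [← h7]; exact h6
      have h8 : 5 * (S : ℝ) ^ 2 * aR C δ S ≤
          5 * (s : ℝ) ^ (2 * (C0 + 1)) * (2 * (s : ℝ) ^ C0 * (3 * (s : ℝ) ^ (-(4 * (C0 + 2))))) := by
        have h9 : aR C δ S ≤ 2 * (s : ℝ) ^ C0 * (3 * (s : ℝ) ^ (-(4 * (C0 + 2)))) :=
          h4.trans (mul_le_mul_of_nonneg_right hTs (by positivity))
        apply mul_le_mul _ h9 (hann S) (by positivity)
        linarith
      have h10 : 5 * (s : ℝ) ^ (2 * (C0 + 1)) *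
          (2 * (s : ℝ) ^ C0 * (3 * (s : ℝ) ^ (-(4 * (C0 + 2))))) =
          30 * (s : ℝ) ^ (-(C0 + 6)) := by
        have h11 : (s : ℝ) ^ (2 * (C0 + 1)) * (s : ℝ) ^ C0 * (s : ℝ) ^ (-(4 * (C0 + 2))) =
            (s : ℝ) ^ (-(C0 + 6)) := by
          rw [← Real.rpow_add hspos, ← Real.rpow_add hspos]
          congr 1; ring
        calc _ = 30 * ((s : ℝ) ^ (2 * (C0 + 1)) * (s : ℝ) ^ C0 * (s : ℝ) ^ (-(4 * (C0 + 2)))) := by
              ring
          _ = _ := by rw [h11]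
      have h12 : (s : ℝ) ^ (-(C0 + 6)) ≤ (s : ℝ) ^ (-(1 : ℝ)) :=
        Real.rpow_le_rpow_of_exponent_le hs1' (by linarith)
      have h13 : (s : ℝ) ^ (-(1 : ℝ)) ≤ 1 / 1000 := by
        rw [Real.rpow_neg_one, inv_eq_one_div]
        exact one_div_le_one_div_of_le (by norm_num) g7
      have h14 : (3 : ℝ) / 100 ≤ Real.exp (-1) := by
        have := Real.exp_neg_one_gt_d9
        linarith
      rw [h10] at h8
      linarith
  have hfin := rate hann (fun S hS2 => unfold_mid (C := C) hδ S hS2) hT0100 hsm t (by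
    have h1 : (T0 : ℝ) ≤ t := hT0K.trans ht
    exact_mod_cast h1)
  refine hfin.trans (Real.exp_le_exp.2 ?_)
  have hT0pos : (0 : ℝ) < T0 := by
    have : 0 < T0 := by omega
    exact_mod_cast this
  have htnn : (0 : ℝ) ≤ t := Nat.cast_nonneg _
  have h1 : (t : ℝ) / (2 * (s * (Real.log s) ^ ((2 * J + 2 : ℕ) : ℝ))) ≤ (t : ℝ) / (2 * T0) :=
    div_le_div_of_nonneg_left htnn (by positivity) (by linarith)
  linarith

end SawNu.SF
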