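import Pool.Agent.SawF.CaseA
import Pool.Agent.SawF.CaseB1
import Pool.Agent.SawF.CaseB2
import Pool.Agent.SawF.PcsB

/-!
SAWF W5: the recursion for `y(s) = UU I(≥ s)`.
-/

set_option autoImplicit false

open Classical
open scoped ENNReal

namespace SawNu.SF

open SawNu.SB SawNu.SBR

variable {C : CL} {δ : ℝ}

lemma rec_fin (hδ : 0 < δ) {P : List Pt → Prop} (h : ∀ l, P l → Brc C l) : W C δ P ≠ ⊤ :=
  ne_top_of_le_ne_top (W_brc_ne_top hδ) (W_mono h)

lemma rec_TL_nn (N : ℕ) (δ : ℝ) : 0 ≤ TL N δ := by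
  unfold TL
  refine tsum_nonneg fun q => ?_
  split_ifs
  · positivity
  · exact le_rfl

lemma rec_Err_nn (N p : ℕ) (δ : ℝ) : 0 ≤ Err N p δ := by
  unfold Err
  have := rec_TL_nn N δ
  positivity

/-- the weight of a block of heights -/
lemma rec_irr (hδ : 0 < δ) (S : ℕ) :
    ∑ j ∈ Finset.Ico S (2 * S), iR C δ j =
      (W C δ (fun l => Irr C l ∧ (S : ℤ) ≤ ht l ∧ ht l < 2 * (S : ℤ))).toReal := by
  have h1 : (fun l : List Pt => Irr C l ∧ (S : ℤ) ≤ ht l ∧ ht l < 2 * (S : ℤ)) =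
      (fun l => Irr C l ∧ (S ≤ (ht l).toNat ∧ (ht l).toNat < 2 * S)) := by
    funext l
    apply propext
    constructor
    · rintro ⟨h, h1, h2⟩
      have h3 := h.br.ht_nonneg
      exact ⟨h, by omega, by omega⟩
    · rintro ⟨h, h1, h2⟩
      have h3 := h.br.ht_nonneg
      exact ⟨h, by omega, by omega⟩
  rw [h1, W_irr_ht hδ (fun t => S ≤ t ∧ t < 2 * S), tsum_eq_sum (s := Finset.Ico S (2 * S))]
  · refine Finset.sum_congr rfl fun j hj => ?_
    rw [if_pos (Finset.mem_Ico.1 hj)]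
  · intro j hj
    rw [if_neg (fun h => hj (Finset.mem_Ico.2 h))]

/-- real form of an inequality of weights -/
lemma rec_real {X Y : ℝ≥0∞} {a e : ℝ} (ha : 0 ≤ a) (he : 0 ≤ e) (hY : Y ≠ ⊤)
    (h : X ≤ ENNReal.ofReal a * Y + ENNReal.ofReal e) : X.toReal ≤ a * Y.toReal + e := by
  have h1 : ENNReal.ofReal a * Y ≠ ⊤ := ENNReal.mul_ne_top ENNReal.ofReal_ne_top hY
  have h2 := ENNReal.toReal_mono (ENNReal.add_ne_top.2 ⟨h1, ENNReal.ofReal_ne_top⟩) h
  rwa [ENNReal.toReal_add h1 ENNReal.ofReal_ne_top, ENNReal.toReal_mul, ENNReal.toReal_ofReal ha,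
    ENNReal.toReal_ofReal he] at h2

/-- one dyadic block of heights -/
theorem rec_block (L : RLat) (hS : ∀ b, L.S b = C.S) {d : ℝ} {p N : ℕ} (hd : 0 < d) (hN : 1 ≤ N)
    (hSw : SwAt C d p N) (hδ : 0 < δ) {S v : ℕ} (h16 : 16 ≤ S) (hv : 1 ≤ v) (hvS : 8 * v ≤ 3 * S)
    (hU : Tot (aR C δ) ≤ 5 * Us (aR C 0) v) (hy : ySF (iR C δ) (aR C δ) v ≤ 1 / 8)
    (hexp : Real.exp (-((S : ℝ) / (90 * v))) ≤ 3 / 16) :
    Tot (aR C δ) * ∑ j ∈ Finset.Ico S (2 * S), iR C δ j ≤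
      Rhs N p d δ (Tot (aR C δ)) (ySF (iR C δ) (aR C δ) v) ((S : ℝ) / v) := by
  have hp := pair (C := C) hδ
  have hT1 : 1 ≤ Tot (aR C δ) := hp.one_le_Tot
  have hb0 : 0 ≤ big (iR C δ) v := hp.big_nn v
  have hTW : (W C δ (Brc C)).toReal = Tot (aR C δ) := (Tot_eq hδ).symm
  have hbW : (W C δ (fun l => Irr C l ∧ (v : ℤ) ≤ ht l)).toReal = big (iR C δ) v := (big_eq hδ v).symm
  have hWB := W_brc_ne_top (C := C) hδ
  have hWI : W C δ (fun l => Irr C l ∧ (v : ℤ) ≤ ht l) ≠ ⊤ := rec_fin hδ fun l h => h.1.br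
  have hE0 := rec_Err_nn N p δ
  have hK0 : 0 ≤ Kc N d ^ 2 := sq_nonneg _
  rw [rec_irr hδ S]
  set T := Tot (aR C δ) with hTdef
  set b := big (iR C δ) v with hbdef
  have hyb : ySF (iR C δ) (aR C δ) v = T * b := rfl
  rw [hyb] at hy ⊢
  -- case (a)
  have hA := rec_real hK0 hE0 (ENNReal.mul_ne_top hWB (ENNReal.pow_ne_top hWI))
    (caseA (C := C) L hS hd hN hSw hδ h16 hvS)
  rw [ENNReal.toReal_mul, ENNReal.toReal_pow, hTW, hbW] at hA
  -- case (b), big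
  have hB := rec_real hK0 hE0 (ENNReal.mul_ne_top (ENNReal.pow_ne_top hWB) (ENNReal.pow_ne_top hWI))
    (le_trans (mul_le_mul_left (pow_le_pow_left' (W_short_ge (C := C) hδ (S := S) hv hU hy hexp) 2) _)
      (caseB_big (C := C) L hS hd hN hSw hδ (v := v) h16))
  rw [ENNReal.toReal_mul, ENNReal.toReal_mul, ENNReal.toReal_pow, ENNReal.toReal_pow, ENNReal.toReal_pow,
    hTW, hbW, ENNReal.toReal_ofReal (by positivity)] at hB
  -- case (b), small
  have hC1 : W C δ (fun l => (Irr C l ∧ (S : ℤ) ≤ ht l ∧ ht l < 2 * (S : ℤ) ∧ ht l ≤ 8 * ht (sB C l)) ∧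
        ¬ (HasBig C v (sE C l) ∧ HasBig C v (sB C l) ∧ HasBig C v (sR C l))) ≤
      3 * (W C δ (Brc C) ^ 2 * ENNReal.ofReal (2 * T * Real.exp (-(((S / 8 : ℕ) : ℝ) / (90 * v))))) := by
    refine le_trans (caseB_small h16) ?_
    gcongr
    exact W_small_le hδ hv hU (S / 8)
  have hC := ENNReal.toReal_mono (ENNReal.mul_ne_top (by norm_num)
    (ENNReal.mul_ne_top (ENNReal.pow_ne_top hWB) ENNReal.ofReal_ne_top)) hC1
  rw [ENNReal.toReal_mul, ENNReal.toReal_mul, ENNReal.toReal_pow, hTW,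
    ENNReal.toReal_ofReal (by positivity), ENNReal.toReal_ofNat] at hC
  -- the sum
  set Ia := W C δ (fun l => Irr C l ∧ (S : ℤ) ≤ ht l ∧ ht l < 2 * (S : ℤ) ∧ 8 * ht (sB C l) < ht l) with hIa
  set Ibb := W C δ (fun l => (Irr C l ∧ (S : ℤ) ≤ ht l ∧ ht l < 2 * (S : ℤ) ∧ ht l ≤ 8 * ht (sB C l)) ∧
        HasBig C v (sE C l) ∧ HasBig C v (sB C l) ∧ HasBig C v (sR C l)) with hIbb
  set Ibs := W C δ (fun l => (Irr C l ∧ (S : ℤ) ≤ ht l ∧ ht l < 2 * (S : ℤ) ∧ ht l ≤ 8 * ht (sB C l)) ∧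
        ¬ (HasBig C v (sE C l) ∧ HasBig C v (sB C l) ∧ HasBig C v (sR C l))) with hIbs
  have fA : Ia ≠ ⊤ := rec_fin hδ fun l h => h.1.br
  have fB : Ibb ≠ ⊤ := rec_fin hδ fun l h => h.1.1.br
  have fC : Ibs ≠ ⊤ := rec_fin hδ fun l h => h.1.1.br
  have hsum : W C δ (fun l => Irr C l ∧ (S : ℤ) ≤ ht l ∧ ht l < 2 * (S : ℤ)) ≤ Ia + (Ibb + Ibs) := by
    refine le_trans (W_mono (Q := fun l => (Irr C l ∧ (S : ℤ) ≤ ht l ∧ ht l < 2 * (S : ℤ) ∧ 8 * ht (sB C l) < ht l) ∨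
      (((Irr C l ∧ (S : ℤ) ≤ ht l ∧ ht l < 2 * (S : ℤ) ∧ ht l ≤ 8 * ht (sB C l)) ∧
        HasBig C v (sE C l) ∧ HasBig C v (sB C l) ∧ HasBig C v (sR C l)) ∨
       ((Irr C l ∧ (S : ℤ) ≤ ht l ∧ ht l < 2 * (S : ℤ) ∧ ht l ≤ 8 * ht (sB C l)) ∧
        ¬ (HasBig C v (sE C l) ∧ HasBig C v (sB C l) ∧ HasBig C v (sR C l))))) ?_) ?_
    · rintro l ⟨h1, h2, h3⟩
      by_cases h4 : 8 * ht (sB C l) < ht l
      · exact Or.inl ⟨h1, h2, h3, h4⟩
      · right
        by_cases h5 : HasBig C v (sE C l) ∧ HasBig C v (sB C l) ∧ HasBig C v (sR C l)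
        · exact Or.inl ⟨⟨h1, h2, h3, not_lt.1 h4⟩, h5⟩
        · exact Or.inr ⟨⟨h1, h2, h3, not_lt.1 h4⟩, h5⟩
    · refine le_trans W_or ?_
      gcongr
      exact W_or
  have hsumR := ENNReal.toReal_mono (ENNReal.add_ne_top.2 ⟨fA, ENNReal.add_ne_top.2 ⟨fB, fC⟩⟩) hsum
  rw [ENNReal.toReal_add fA (ENNReal.add_ne_top.2 ⟨fB, fC⟩), ENNReal.toReal_add fB fC] at hsumR
  -- the exponential
  have hvR : (0 : ℝ) < v := by exact_mod_cast hv
  have h8 : (S : ℝ) / 16 ≤ ((S / 8 : ℕ) : ℝ) := by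
    have h1 : S ≤ 16 * (S / 8) := by omega
    have h2 : (S : ℝ) ≤ 16 * ((S / 8 : ℕ) : ℝ) := by exact_mod_cast h1
    linarith
  have hex : Real.exp (-(((S / 8 : ℕ) : ℝ) / (90 * v))) ≤ Real.exp (-((S : ℝ) / v / 1440)) := by
    apply Real.exp_le_exp.2
    have h1 : (S : ℝ) / v / 1440 = ((S : ℝ) / 16) / (90 * v) := by
      field_simp
      norm_num
    rw [h1, neg_le_neg_iff]
    gcongr
  have hT0 : 0 < T := by linarith
  have hIbb0 : 0 ≤ Ibb.toReal := ENNReal.toReal_nonneg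
  have hy0 : 0 ≤ T * b := by positivity
  -- T * Ibb
  have hTB : T * Ibb.toReal ≤ 4 * Kc N d ^ 2 * (T * b) ^ 3 + 4 * Err N p δ * T := by
    apply le_of_mul_le_mul_left _ hT0
    have h1 : T * (T * Ibb.toReal) = 4 * ((T / 2) ^ 2 * Ibb.toReal) := by ring
    rw [h1]
    have h2 : 4 * Err N p δ ≤ T * (4 * Err N p δ * T) := by
      have h3 : 1 ≤ T * T := by nlinarith
      nlinarith
    have h4 : T * (4 * Kc N d ^ 2 * (T * b) ^ 3 + 4 * Err N p δ * T) =
      4 * (Kc N d ^ 2 * (T ^ 4 * b ^ 3)) + T * (4 * Err N p δ * T) := by ring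
    rw [h4]
    linarith
  have hy3 : (T * b) ^ 3 ≤ (T * b) ^ 2 := by
    have h1 : T * b ≤ 1 := by linarith
    have h2 : (T * b) ^ 3 = (T * b) ^ 2 * (T * b) := by ring
    rw [h2]
    exact mul_le_of_le_one_right (sq_nonneg _) h1
  have hTA : T * Ia.toReal ≤ Kc N d ^ 2 * (T * b) ^ 2 + T * Err N p δ := by
    have h1 := mul_le_mul_of_nonneg_left hA hT0.le
    have h2 : T * (Kc N d ^ 2 * (T * b ^ 2) + Err N p δ) = Kc N d ^ 2 * (T * b) ^ 2 + T * Err N p δ := by ring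
    rwa [h2] at h1
  have hTC : T * Ibs.toReal ≤ 6 * T ^ 4 * Real.exp (-((S : ℝ) / v / 1440)) := by
    have h1 := mul_le_mul_of_nonneg_left hC hT0.le
    refine h1.trans ?_
    have h2 : T * (3 * (T ^ 2 * (2 * T * Real.exp (-(((S / 8 : ℕ) : ℝ) / (90 * v)))))) =
      6 * T ^ 4 * Real.exp (-(((S / 8 : ℕ) : ℝ) / (90 * v))) := by ring
    rw [h2]
    gcongr
  have hfin := mul_le_mul_of_nonneg_left hsumR hT0.le
  refine hfin.trans ?_
  unfold Rhs
  have hE1 : 0 ≤ T * Err N p δ := mul_nonneg hT0.le hE0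
  have hK3 : Kc N d ^ 2 * (T * b) ^ 3 ≤ Kc N d ^ 2 * (T * b) ^ 2 := mul_le_mul_of_nonneg_left hy3 hK0
  rw [mul_add, mul_add]
  nlinarith

lemma rec_i_le (hδ : 0 < δ) (j : ℕ) : iR C δ j ≤ Real.exp (-(δ * j)) := by
  have h1 : IE C δ j ≤ ENNReal.ofReal (Real.exp (-(δ * j))) := (IE_le_AE j).trans (AE_le_exp hδ.le j)
  have h2 := ENNReal.toReal_mono ENNReal.ofReal_ne_top h1
  rwa [ENNReal.toReal_ofReal (Real.exp_pos _).le] at h2

lemma rec_i_nn (j : ℕ) : 0 ≤ iR C δ j := ENNReal.toReal_nonneg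

lemma rec_summ (hδ : 0 < δ) : Summable fun q : ℕ => ((q : ℝ) + 1) ^ 2 * Real.exp (-(δ * q)) := by
  have h2 := Real.summable_pow_mul_exp_neg_nat_mul 2 hδ
  have h1 := Real.summable_pow_mul_exp_neg_nat_mul 1 hδ
  have h0 := Real.summable_pow_mul_exp_neg_nat_mul 0 hδ
  refine ((h2.add (h1.mul_left 2)).add h0).congr fun q => ?_
  have h3 : Real.exp (-(δ * q)) = Real.exp (-δ * q) := by rw [neg_mul]
  rw [h3]
  ring

/-- the heights above `N` -/
lemma rec_tail (hδ : 0 < δ) (N : ℕ) : ∑' j, (if N < j then iR C δ j else 0) ≤ TL N δ := by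
  have hle : ∀ q : ℕ, (if N < q then iR C δ q else 0) ≤
      (if N < q then ((q : ℝ) + 1) ^ 2 * Real.exp (-(δ * q)) else 0) := by
    intro q
    split_ifs
    · refine (rec_i_le hδ q).trans ?_
      have h1 : (1 : ℝ) ≤ ((q : ℝ) + 1) ^ 2 := by
        have h2 : (0 : ℝ) ≤ q := Nat.cast_nonneg q
        nlinarith
      exact le_mul_of_one_le_left (Real.exp_pos _).le h1
    · exact le_rfl
  have hs : Summable fun q : ℕ => (if N < q then ((q : ℝ) + 1) ^ 2 * Real.exp (-(δ * q)) else 0) := by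
    refine Summable.of_nonneg_of_le (fun q => ?_) (fun q => ?_) (rec_summ hδ)
    · split_ifs
      · positivity
      · exact le_rfl
    · split_ifs
      · exact le_rfl
      · positivity
  unfold TL
  refine Summable.tsum_le_tsum hle ?_ hs
  refine Summable.of_nonneg_of_le (fun q => ?_) hle hs
  split_ifs
  · exact rec_i_nn q
  · exact le_rfl

/-- all heights from `L v` on -/
theorem rec_y (L : RLat) (hS : ∀ b, L.S b = C.S) {d : ℝ} {p N : ℕ} (hd : 0 < d) (hN : 1 ≤ N)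
    (hSw : SwAt C d p N) (hδ : 0 < δ) {v l : ℕ} (hv : 1 ≤ v) (hl : 200 ≤ l)
    (hU : Tot (aR C δ) ≤ 5 * Us (aR C 0) v) (hy : ySF (iR C δ) (aR C δ) v ≤ 1 / 8) :
    ySF (iR C δ) (aR C δ) (l * v) ≤ ((Nat.log 2 N : ℝ) + 1) *
      Rhs N p d δ (Tot (aR C δ)) (ySF (iR C δ) (aR C δ) v) l + Tot (aR C δ) * TL N δ := by
  have hp := pair (C := C) hδ
  have hT1 : 1 ≤ Tot (aR C δ) := hp.one_le_Tot
  have hT0 : 0 < Tot (aR C δ) := by linarith
  have hsi : Summable (iR C δ) := ((ren hδ.le).total (aR_summable hδ)).1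
  have hlv : 200 ≤ l * v := le_trans hl (Nat.le_mul_of_pos_right l hv)
  -- summability of restricted sums
  have hsP : ∀ (P : ℕ → Prop) [DecidablePred P], Summable fun j => if P j then iR C δ j else 0 := by
    intro P _
    refine Summable.of_nonneg_of_le (fun q => ?_) (fun q => ?_) hsi
    · split_ifs
      · exact rec_i_nn q
      · exact le_rfl
    · split_ifs
      · exact le_rfl
      · exact rec_i_nn q
  -- blocks
  have hpt : ∀ j : ℕ, (if l * v ≤ j then iR C δ j else 0) ≤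
      (∑ k ∈ Finset.range (Nat.log 2 N + 1),
        (if 2 ^ k * (l * v) ≤ j ∧ j < 2 * (2 ^ k * (l * v)) then iR C δ j else 0)) +
        (if N < j then iR C δ j else 0) := by
    intro j
    have hnn : ∀ k ∈ Finset.range (Nat.log 2 N + 1), 0 ≤
        (if 2 ^ k * (l * v) ≤ j ∧ j < 2 * (2 ^ k * (l * v)) then iR C δ j else 0) := by
      intro k _
      split_ifs
      · exact rec_i_nn j
      · exact le_rfl
    by_cases h1 : l * v ≤ j
    · rw [if_pos h1]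
      by_cases h2 : N < j
      · rw [if_pos h2]
        have := Finset.sum_nonneg hnn
        linarith
      · rw [if_neg h2, add_zero]
        have hq : j / (l * v) ≠ 0 := (Nat.div_pos h1 (by omega)).ne'
        have h3 : 2 ^ Nat.log 2 (j / (l * v)) * (l * v) ≤ j :=
          le_trans (Nat.mul_le_mul_right _ (Nat.pow_log_le_self 2 hq)) (Nat.div_mul_le_self j _)
        have h4 : j < 2 * (2 ^ Nat.log 2 (j / (l * v)) * (l * v)) := by
          have h5 : j / (l * v) < 2 ^ (Nat.log 2 (j / (l * v)) + 1) :=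
            Nat.lt_pow_succ_log_self (by norm_num) _
          have h6 := (Nat.div_lt_iff_lt_mul (by omega : 0 < l * v)).1 h5
          rw [pow_succ'] at h6
          rwa [mul_assoc] at h6
        have h7 : Nat.log 2 (j / (l * v)) ∈ Finset.range (Nat.log 2 N + 1) := by
          rw [Finset.mem_range, Nat.lt_succ_iff]
          exact Nat.log_mono_right ((Nat.div_le_self _ _).trans (not_lt.1 h2))
        have h8 := Finset.single_le_sum hnn h7
        rw [if_pos ⟨h3, h4⟩] at h8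
        exact h8
    · rw [if_neg h1]
      have := Finset.sum_nonneg hnn
      have h3 : 0 ≤ (if N < j then iR C δ j else 0) := by
        split_ifs
        · exact rec_i_nn j
        · exact le_rfl
      linarith
  have hblk : ∀ k : ℕ, ∑' j, (if 2 ^ k * (l * v) ≤ j ∧ j < 2 * (2 ^ k * (l * v)) then iR C δ j else 0) =
      ∑ j ∈ Finset.Ico (2 ^ k * (l * v)) (2 * (2 ^ k * (l * v))), iR C δ j := by
    intro k
    rw [tsum_eq_sum (s := Finset.Ico (2 ^ k * (l * v)) (2 * (2 ^ k * (l * v))))]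
    · refine Finset.sum_congr rfl fun j hj => ?_
      rw [if_pos (Finset.mem_Ico.1 hj)]
    · intro j hj
      rw [if_neg (fun h => hj (Finset.mem_Ico.2 h))]
  have hbig : big (iR C δ) (l * v) ≤ (∑ k ∈ Finset.range (Nat.log 2 N + 1),
      ∑ j ∈ Finset.Ico (2 ^ k * (l * v)) (2 * (2 ^ k * (l * v))), iR C δ j) + TL N δ := by
    unfold big
    have hs0 : Summable fun j : ℕ => if l * v ≤ j then iR C δ j else 0 := hsP (fun j => l * v ≤ j)
    have hs2 : Summable fun j : ℕ => if N < j then iR C δ j else 0 := hsP (fun j => N < j)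
    have hsk : ∀ k ∈ Finset.range (Nat.log 2 N + 1), Summable fun j : ℕ =>
        if 2 ^ k * (l * v) ≤ j ∧ j < 2 * (2 ^ k * (l * v)) then iR C δ j else 0 := fun k _ =>
      hsP (fun j => 2 ^ k * (l * v) ≤ j ∧ j < 2 * (2 ^ k * (l * v)))
    have hs1 : Summable fun j : ℕ => ∑ k ∈ Finset.range (Nat.log 2 N + 1),
        (if 2 ^ k * (l * v) ≤ j ∧ j < 2 * (2 ^ k * (l * v)) then iR C δ j else 0) :=
      summable_sum hsk
    refine (Summable.tsum_le_tsum hpt hs0 (hs1.add hs2)).trans ?_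
    rw [Summable.tsum_add hs1 hs2, Summable.tsum_finsetSum hsk,
      Finset.sum_congr rfl fun k _ => hblk k]
    have := rec_tail (C := C) hδ N
    linarith
  -- one block
  have hvR : (0 : ℝ) < v := by exact_mod_cast hv
  have hone : ∀ k : ℕ, Tot (aR C δ) * ∑ j ∈ Finset.Ico (2 ^ k * (l * v)) (2 * (2 ^ k * (l * v))), iR C δ j ≤
      Rhs N p d δ (Tot (aR C δ)) (ySF (iR C δ) (aR C δ) v) l := by
    intro k
    have h1k : 1 ≤ 2 ^ k := Nat.one_le_two_pow
    have hSl : l * v ≤ 2 ^ k * (l * v) := Nat.le_mul_of_pos_left _ h1k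
    have h200v : 200 * v ≤ l * v := Nat.mul_le_mul_right v hl
    have hquo : (l : ℝ) ≤ ((2 ^ k * (l * v) : ℕ) : ℝ) / v := by
      rw [le_div_iff₀ hvR]
      have h2 : l * v ≤ 2 ^ k * (l * v) := hSl
      exact_mod_cast h2
    have hexp : Real.exp (-(((2 ^ k * (l * v) : ℕ) : ℝ) / (90 * v))) ≤ 3 / 16 := by
      have h3 : (20 / 9 : ℝ) ≤ ((2 ^ k * (l * v) : ℕ) : ℝ) / (90 * v) := by
        have h4 : ((2 ^ k * (l * v) : ℕ) : ℝ) / (90 * v) = ((2 ^ k * (l * v) : ℕ) : ℝ) / v / 90 := by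
          rw [div_div, mul_comm (90 : ℝ) (v : ℝ)]
        rw [h4]
        have h5 : (200 : ℝ) ≤ l := by exact_mod_cast hl
        rw [le_div_iff₀ (by norm_num)]
        linarith
      have h6 : Real.exp (-(((2 ^ k * (l * v) : ℕ) : ℝ) / (90 * v))) ≤ Real.exp (-2) :=
        Real.exp_le_exp.2 (by linarith)
      refine h6.trans ?_
      have h7 : Real.exp (-2) = (Real.exp 1 ^ 2)⁻¹ := by
        rw [Real.exp_neg, ← Real.exp_nat_mul]
        norm_num
      rw [h7]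
      have h8 : (2.7 : ℝ) < Real.exp 1 := by
        have := Real.exp_one_gt_d9
        linarith
      have h9 : (2.7 : ℝ) ^ 2 ≤ Real.exp 1 ^ 2 := by gcongr
      have h10 : (Real.exp 1 ^ 2)⁻¹ ≤ ((2.7 : ℝ) ^ 2)⁻¹ := by gcongr
      refine h10.trans ?_
      norm_num
    have hb := rec_block (C := C) L hS hd hN hSw hδ (S := 2 ^ k * (l * v)) (by omega) hv (by omega) hU hy hexp
    refine hb.trans ?_
    unfold Rhs
    have h11 : Real.exp (-(((2 ^ k * (l * v) : ℕ) : ℝ) / v / 1440)) ≤ Real.exp (-((l : ℝ) / 1440)) := by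
      apply Real.exp_le_exp.2
      linarith [div_le_div_of_nonneg_right hquo (by norm_num : (0 : ℝ) ≤ 1440)]
    have h12 : 6 * Tot (aR C δ) ^ 4 * Real.exp (-(((2 ^ k * (l * v) : ℕ) : ℝ) / v / 1440)) ≤
        6 * Tot (aR C δ) ^ 4 * Real.exp (-((l : ℝ) / 1440)) := by
      gcongr
    linarith
  have hy1 : ySF (iR C δ) (aR C δ) (l * v) = Tot (aR C δ) * big (iR C δ) (l * v) := rfl
  rw [hy1]
  refine (mul_le_mul_of_nonneg_left hbig hT0.le).trans ?_
  rw [mul_add, Finset.mul_sum]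
  have hsumle := Finset.sum_le_sum fun k (_ : k ∈ Finset.range (Nat.log 2 N + 1)) => hone k
  rw [Finset.sum_const, Finset.card_range, nsmul_eq_mul, Nat.cast_add, Nat.cast_one] at hsumle
  linarith

end SawNu.SF
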