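import Pool.Agent.SawF.Pcs

/-!
SAWF W1: the S-section of an irreducible bridge at the middle level, definitions.
-/

set_option autoImplicit false

open Classical

namespace SawNu.SF

open SawNu.SB Pool.Agent.Lib.SAW

/-- section at the middle level: `p = E rho(B) R` -/
structure Sec (C : CL) (p E B R : List Pt) : Prop where
  eq : p = E ++ (B.map rhoH ++ R)
  bE : Brc C E
  bB : Brc C B
  bR : Brc C R
  hB : 0 < ht B
  hx0 : 0 < ht E - ht B
  hx : 2 * (ht E - ht B) ≤ ht p
  hm : ht p < 2 * ht E
  hmp : ht E ≤ ht p
  hR : ht R = ht p - (ht E - ht B)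
  noE : ∀ t, CutT E t → 0 < t → ht E - ht B ≤ (ps E t).2
  noR : ∀ t, CutT R t → t < R.length → (ps R t).2 < ht B

/-- chosen section -/
noncomputable def sec (C : CL) (p : List Pt) : List Pt × (List Pt × List Pt) :=
  if h : ∃ x : List Pt × (List Pt × List Pt), Sec C p x.1 x.2.1 x.2.2 then Classical.choose h
  else ([], ([], []))

noncomputable def sE (C : CL) (p : List Pt) : List Pt := (sec C p).1
noncomputable def sB (C : CL) (p : List Pt) : List Pt := (sec C p).2.1
noncomputable def sR (C : CL) (p : List Pt) : List Pt := (sec C p).2.2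

/-- the unfolded word, with a bridge below and a bridge above -/
def unfG (G E B R G' : List Pt) : List Pt := G ++ (E ++ (B ++ (R ++ G')))

end SawNu.SF
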