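import Pool.Agent.SawF.Sec

/-!
SAWF W1a: existence of the section.
-/

set_option autoImplicit false

open Classical

namespace SawNu.SF

open SawNu.SB Pool.Agent.Lib.SAW

variable {C : CL} {p E B R G G' : List Pt}

lemma SecA_ht_take {l : List Pt} {s : ℕ} : ht (l.take s) = (ps l s).2 := by
  simp only [ht, ps]

lemma SecA_ht_drop {l : List Pt} {s : ℕ} : ht (l.drop s) = ht l - (ps l s).2 := by
  simp only [ht, sum_drop, Prod.snd_sub]

theorem exists_sec (hp : Irr C p) (h2 : 2 ≤ ht p) : ∃ E B R, Sec C p E B R := by
  have hb := hp.br
  have hnc : ∀ t, CutT p t → (ps p t).2 ≠ ht p / 2 := by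
    intro t ht1 ht2
    rcases Nat.eq_zero_or_pos t with h | h
    · rw [h, ps_zero] at ht2
      simp only [Prod.snd_zero] at ht2
      omega
    · rcases Nat.lt_or_ge t p.length with h3 | h3
      · exact hp.2.2 t h h3 ht1
      · rw [ps_of_le h3] at ht2
        simp only [ht] at h2 ht2
        omega
  obtain ⟨s, t, hst, h3, h4⟩ := exists_ST hb (m := ht p / 2) (by omega) (by omega) hnc
  obtain ⟨a1, a2, a3, a4, a5⟩ := ST_split hb hst
  have hlt := hst.lt
  have hle := hst.le
  have hx : 0 < (ps p t).2 := hb.up t (by omega) hle
  have hsn : (ps p s).2 ≤ ht p := hb.dn s (by omega)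
  have htl : t < p.length := by
    rcases Nat.lt_or_ge t p.length with h5 | h5
    · exact h5
    · rw [ps_of_le h5] at h3
      simp only [ht] at h2 h3
      omega
  have hE : ht (p.take s) = (ps p s).2 := SecA_ht_take
  have hR : ht (p.drop t) = ht p - (ps p t).2 := SecA_ht_drop
  have eB : ht (p.take s) - ht (((p.take t).drop s).map rhoH) = (ps p t).2 := by
    rw [hE, a5]
    ring
  refine ⟨p.take s, ((p.take t).drop s).map rhoH, p.drop t,
    { eq := ?_, bE := a1, bB := a2, bR := a3, hB := ?_, hx0 := ?_, hx := ?_, hm := ?_, hmp := ?_,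
      hR := ?_, noE := ?_, noR := ?_ }⟩
  · rw [← List.append_assoc]
    exact a4
  · rw [a5]
    omega
  · rw [eB]
    exact hx
  · rw [eB]
    omega
  · rw [hE]
    omega
  · rw [hE]
    exact hsn
  · rw [eB, hR]
  · intro r hr hr0
    rw [eB]
    have hrs : r ≤ s := by
      have := hr.le
      rw [List.length_take] at this
      omega
    have e1 : (ps (p.take s) r).2 = (ps p r).2 := by rw [ps_take, min_eq_left hrs]
    rw [e1]
    by_contra hc
    push Not at hc
    apply hp.2.2 r hr0 (by omega)
    refine ⟨by omega, ?_, ?_⟩
    · intro i hi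
      have := hr.bef i hi
      rwa [ps_take, ps_take, min_eq_left hrs, min_eq_left (by omega)] at this
    · intro i h5 h6
      rcases le_or_gt i s with h7 | h7
      · have := hr.aft i h5 (by rw [List.length_take]; omega)
        rwa [ps_take, ps_take, min_eq_left hrs, min_eq_left h7] at this
      · rcases le_or_gt i t with h8 | h8
        · have := (hst.mid i h7 h8).2
          omega
        · have := hst.aft i h8 h6
          omega
  · intro r hr hr0
    rw [a5]
    rw [List.length_drop] at hr0
    have e1 : ∀ i, (ps (p.drop t) i).2 = (ps p (t + i)).2 - (ps p t).2 := by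
      intro i
      rw [ps_drop _ _ hle, Prod.snd_sub]
    rw [e1]
    by_contra hc
    push Not at hc
    apply hp.2.2 (t + r) (by omega) (by omega)
    refine ⟨by omega, ?_, ?_⟩
    · intro i hi
      rcases le_or_gt i s with h7 | h7
      · have := hst.bef i h7
        omega
      · rcases le_or_gt i t with h8 | h8
        · have := (hst.mid i h7 h8).1
          omega
        · have := hr.bef (i - t) (by omega)
          rw [e1, e1, show t + (i - t) = i by omega] at this
          omega
    · intro i h5 h6
      have := hr.aft (i - t) (by omega) (by rw [List.length_drop]; omega)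
      rw [e1, e1, show t + (i - t) = i by omega] at this
      omega

theorem sec_spec (hp : Irr C p) (h2 : 2 ≤ ht p) :
    Sec C p (sE C p) (sB C p) (sR C p) := by
  have h : ∃ x : List Pt × (List Pt × List Pt), Sec C p x.1 x.2.1 x.2.2 := by
    obtain ⟨E, B, R, h⟩ := exists_sec hp h2
    exact ⟨(E, (B, R)), h⟩
  unfold sE sB sR sec
  rw [dif_pos h]
  exact Classical.choose_spec h

lemma brc_unfG (h : Sec C p E B R) (hG : Brc C G) (hG' : Brc C G') :
    Brc C (unfG G E B R G') :=
  hG.append (h.bE.append (h.bB.append (h.bR.append hG')))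

lemma length_unfG (h : Sec C p E B R) : (unfG G E B R G').length = G.length + p.length + G'.length := by
  have h1 := congrArg List.length h.eq
  simp only [List.length_append, List.length_map] at h1
  simp only [unfG, List.length_append]
  omega

lemma ht_unfG (h : Sec C p E B R) : ht (unfG G E B R G') = ht G + (ht p + 2 * ht B) + ht G' := by
  have h1 := h.hR
  simp only [unfG, ht, List.sum_append, Prod.snd_add] at h1 ⊢
  omega

end SawNu.SF
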