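import Pool.Agent.SawF.SecA

/-!
SAWF W1b: the junctions are good cuts.
-/

set_option autoImplicit false

open Classical

namespace SawNu.SF

open SawNu.SB Pool.Agent.Lib.SAW

variable {C : CL} {p E B R G G' : List Pt}

/-- the two junctions are cut times, `r`-good, with levels `ht G + ht E` and that plus `ht B` -/
theorem junctions (L : RLat) (hS : ∀ b, L.S b = C.S) (hp : Irr C p) (h : Sec C p E B R)
    (hG : Brc C G) (hG' : Brc C G') :
    (CutT (unfG G E B R G') (G.length + E.length) ∧
      (ps (unfG G E B R G') (G.length + E.length)).2 = ht G + ht E ∧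
      RGood (unfG G E B R G').length (ps (unfG G E B R G')) (ht G + ht E) (ht B)
        (G.length + E.length) ∧
      ∃ s, Sg s (ps (unfG G E B R G')) (G.length + E.length)) ∧
    (CutT (unfG G E B R G') (G.length + E.length + B.length) ∧
      (ps (unfG G E B R G') (G.length + E.length + B.length)).2 = ht G + ht E + ht B ∧
      RGood (unfG G E B R G').length (ps (unfG G E B R G')) (ht G + ht E + ht B) (ht B)
        (G.length + E.length + B.length) ∧
      ∃ s, Sg s (ps (unfG G E B R G')) (G.length + E.length + B.length)) := by
  have hB0 := h.hB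
  have hx0 := h.hx0
  have hRR := h.hR
  have hmp := h.hmp
  have hLS : L.S = fun _ => C.S := funext hS
  have hGE : Brc C (G ++ E) := hG.append h.bE
  have hRG : Brc C (R ++ G') := h.bR.append hG'
  have hw : Brc C (unfG G E B R G') := hG.append (h.bE.append (h.bB.append hRG))
  have htw : TW L.S false (unfG G E B R G') := by rw [hLS, TW_const]; exact hw.wd
  have hsa : SA ((G ++ E) ++ (B.map rhoH ++ R)) := by
    rw [List.append_assoc, ← h.eq]
    exact (hG.append hp.br).sa
  obtain ⟨r1, r2⟩ := good_pair hGE h.bB h.bR hG' hsa (by omega)
  have hw2 : (G ++ E) ++ (B ++ (R ++ G')) = unfG G E B R G' := by rw [unfG, List.append_assoc]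
  have hw3 : ((G ++ E) ++ B) ++ (R ++ G') = unfG G E B R G' := by rw [← hw2, List.append_assoc]
  have hht : ht (G ++ E) = ht G + ht E := by
    simp only [ht, List.sum_append, Prod.snd_add]
  have hht2 : ht ((G ++ E) ++ B) = ht G + ht E + ht B := by
    simp only [ht, List.sum_append, Prod.snd_add]
  rw [hw2, hht, List.length_append] at r1 r2
  have hEl : 0 < E.length := by
    rcases Nat.eq_zero_or_pos E.length with h0 | h0
    · rw [List.length_eq_zero_iff] at h0
      rw [h0] at hx0
      simp only [ht, List.sum_nil, Prod.snd_zero] at hx0 hB0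
      omega
    · exact h0
  have hRl : 0 < R.length := by
    rcases Nat.eq_zero_or_pos R.length with h0 | h0
    · rw [List.length_eq_zero_iff] at h0
      rw [h0] at hRR
      simp only [ht, List.sum_nil, Prod.snd_zero] at hRR hB0 hmp
      omega
    · exact h0
  have hlen : (unfG G E B R G').length = G.length + (E.length + (B.length + (R.length + G'.length))) := by
    simp only [unfG, List.length_append]
  have c1 : CutT (unfG G E B R G') (G.length + E.length) := by
    have := cut_junction hGE (h.bB.append hRG)
    rwa [hw2, List.length_append] at this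
  have c2 : CutT (unfG G E B R G') (G.length + E.length + B.length) := by
    have := cut_junction (hGE.append h.bB) hRG
    rwa [hw3, List.length_append, List.length_append] at this
  have e1 : (ps (unfG G E B R G') (G.length + E.length)).2 = ht G + ht E := by
    rw [← hw2, ← List.length_append, ps_append_left le_rfl, ps_length, ← hht]
  have e2 : (ps (unfG G E B R G') (G.length + E.length + B.length)).2 = ht G + ht E + ht B := by
    rw [← hw3, ← List.length_append, ← List.length_append, ps_append_left le_rfl, ps_length, ← hht2]
  have sgn : ∀ τ, CutT (unfG G E B R G') τ →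
      RGood (unfG G E B R G').length (ps (unfG G E B R G')) (ps (unfG G E B R G') τ).2 (ht B) τ →
      0 < τ → τ < (unfG G E B R G').length → ∃ s, Sg s (ps (unfG G E B R G')) τ := by
    intro τ hc hg ht0 htn
    rcases sign_of_good L.latE (isSAW_ps htw hw.sa) hc.isCut (hg.mono (by omega)) ht0 htn with
      h7 | h7
    · exact ⟨true, h7⟩
    · exact ⟨false, h7⟩
  refine ⟨⟨c1, e1, r1, ?_⟩, ⟨c2, e2, r2, ?_⟩⟩
  · exact sgn _ c1 (by rw [e1]; exact r1) (by omega) (by omega)
  · exact sgn _ c2 (by rw [e2]; exact r2) (by omega) (by omega)

end SawNu.SF
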