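import Pool.Agent.SawF.MassA

/-!
SAWF A for words.
-/

set_option autoImplicit false

open Classical Filter

namespace SawNu.SF

open SawNu.SB SawNu.SBR Pool.Agent.Lib.SAW.HW Pool.Agent.SawBr38

variable {C : CL} {L : RLat}

/-- elementary inequality for the stretched exponential factor -/
lemma Upper.num {ε : ℝ} (hε : 0 < ε) : ∃ c : ℝ, 0 ≤ c ∧ ∀ n : ℕ, 1 ≤ n →
    2 * Real.log ((n : ℝ) + 1) + 2 * (n : ℝ) ^ (ε / 2) ≤ (n : ℝ) ^ ε + c := by
  refine ⟨max 0 (2 * Real.log 2 + 2 + 2 / ε * (-1 - Real.log (ε / 4))), le_max_left _ _, ?_⟩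
  intro n hn
  have hn1 : (1 : ℝ) ≤ n := by exact_mod_cast hn
  have hn0 : (0 : ℝ) < n := by linarith
  set y : ℝ := (n : ℝ) ^ (ε / 2) with hy
  have hyy : (n : ℝ) ^ ε = y * y := by
    rw [hy, ← Real.rpow_add hn0]
    congr 1
    ring
  have h1 : Real.log ((n : ℝ) + 1) ≤ Real.log 2 + Real.log n := by
    rw [← Real.log_mul (by norm_num) hn0.ne']
    exact Real.log_le_log (by linarith) (by linarith)
  have h2 : 2 * y ≤ y * y / 2 + 2 := by nlinarith [sq_nonneg (y - 2)]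
  have hx0 : 0 < (n : ℝ) ^ ε := Real.rpow_pos_of_pos hn0 _
  have h3 : Real.log ((n : ℝ) ^ ε) ≤ ε / 4 * (n : ℝ) ^ ε - 1 - Real.log (ε / 4) := by
    have h := Real.log_le_sub_one_of_pos (show 0 < ε / 4 * (n : ℝ) ^ ε by positivity)
    rw [Real.log_mul (by positivity) hx0.ne'] at h
    linarith
  rw [Real.log_rpow hn0] at h3
  have h4 : 2 * Real.log n ≤ (n : ℝ) ^ ε / 2 + 2 / ε * (-1 - Real.log (ε / 4)) := by
    have h5 := mul_le_mul_of_nonneg_left h3 (show 0 ≤ 2 / ε by positivity)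
    have e1 : 2 / ε * (ε * Real.log n) = 2 * Real.log n := by field_simp
    have e2 : 2 / ε * (ε / 4 * (n : ℝ) ^ ε - 1 - Real.log (ε / 4)) =
        (n : ℝ) ^ ε / 2 + 2 / ε * (-1 - Real.log (ε / 4)) := by field_simp; ring
    rw [e1, e2] at h5
    exact h5
  have h6 := le_max_right 0 (2 * Real.log 2 + 2 + 2 / ε * (-1 - Real.log (ε / 4)))
  rw [← hyy] at h2
  linarith

/-- (A) tail of the maximal level -/
theorem upper_words (hM : Mirrored L) (hup : ∀ b, ∃ u ∈ L.S b, u.2 = 1)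
    (hS : ∀ b, L.S b = C.S) {ε : ℝ} (hε : 0 < ε) :
    ∃ K : ℝ, 1 ≤ K ∧ ∀ (v : ℝ) (n : ℕ), 0 < v → v ≤ 1 → 1 ≤ n → n * gf C v ≤ 1 → ∀ x : ℕ,
      (((sas C n).filter (fun l => (x : ℤ) ≤ mx l)).card : ℝ) ≤
        K * Real.exp ((n : ℝ) ^ ε - v * x) * ((sas C n).card : ℝ) := by
  obtain ⟨K, hK1, hK⟩ := exists_card_sas_le hM hup hS (δ := ε / 2) (by linarith)
  obtain ⟨c, hc0, hc⟩ := Upper.num hε
  have hK0 : 0 ≤ K := by linarith
  refine ⟨K ^ 2 * Real.exp (c + 1), ?_, ?_⟩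
  · have h1 : 1 ≤ Real.exp (c + 1) := Real.one_le_exp (by linarith)
    nlinarith [one_le_pow₀ hK1 (n := 2)]
  intro v n hv hv1 hn hg x
  have hl : 0 ≤ G C 0 v - G C 0 0 := sub_nonneg.2 (G_mono_v 0 hv.le)
  have hg' : (G C 0 v - G C 0 0) * n ≤ 1 := by rw [gf] at hg; linarith
  set l := G C 0 v - G C 0 0 with hldef
  have h2 := card_reach_le (C := C) n x
  have h3 : ∑ z ∈ ixs n,
        ((sas C z.1).card : ℝ) * (brx C z.2 x).card * (sas C (n - z.1 - z.2)).card ≤
      (ixs n).card •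
        (K ^ 2 * Real.exp (G C 0 0 * n + (2 * (n : ℝ) ^ (ε / 2) + l * n - v * x))) := by
    apply Finset.sum_le_card_nsmul
    rintro ⟨i, j⟩ hz
    rw [ixs, Finset.mem_filter, Finset.mem_product, Finset.mem_range, Finset.mem_range] at hz
    obtain ⟨⟨hi, hj⟩, hij⟩ := hz
    simp only at hi hj hij ⊢
    have a1 := hK i n (by omega)
    have a2 := card_brx_le (C := C) hv.le j x
    have a3 := hK (n - i - j) n (by omega)
    calc ((sas C i).card : ℝ) * (brx C j x).card * (sas C (n - i - j)).card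
        ≤ (K * Real.exp (G C 0 0 * i + (n : ℝ) ^ (ε / 2))) * Real.exp (G C 0 v * j - v * x) *
          (K * Real.exp (G C 0 0 * (n - i - j : ℕ) + (n : ℝ) ^ (ε / 2))) := by
          apply mul_le_mul _ a3 (Nat.cast_nonneg _) (by positivity)
          exact mul_le_mul a1 a2 (Nat.cast_nonneg _) (by positivity)
      _ = K ^ 2 * (Real.exp (G C 0 0 * i + (n : ℝ) ^ (ε / 2)) * Real.exp (G C 0 v * j - v * x) *
          Real.exp (G C 0 0 * (n - i - j : ℕ) + (n : ℝ) ^ (ε / 2))) := by ring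
      _ = K ^ 2 * Real.exp ((G C 0 0 * i + (n : ℝ) ^ (ε / 2)) + (G C 0 v * j - v * x) +
          (G C 0 0 * (n - i - j : ℕ) + (n : ℝ) ^ (ε / 2))) := by
          rw [← Real.exp_add, ← Real.exp_add]
      _ ≤ _ := by
          apply mul_le_mul_of_nonneg_left _ (by positivity)
          apply Real.exp_le_exp.2
          have e1 : ((n - i - j : ℕ) : ℝ) = n - i - j := by
            rw [Nat.cast_sub (by omega), Nat.cast_sub (by omega)]
          have e2 : (j : ℝ) ≤ n := by exact_mod_cast (by omega : j ≤ n)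
          have e3 : l * j ≤ l * n := mul_le_mul_of_nonneg_left e2 hl
          rw [e1]
          have e4 : G C 0 v = G C 0 0 + l := by rw [hldef]; ring
          rw [e4]
          nlinarith
  rw [nsmul_eq_mul] at h3
  have h4 : Real.exp (G C 0 0 * n) ≤ ((sas C n).card : ℝ) := by
    have h := exp_G_le_Zw' (C := C) 0 0 n
    rwa [Zw_zero_zero] at h
  have h5 : ((ixs n).card : ℝ) *
        (K ^ 2 * Real.exp (G C 0 0 * n + (2 * (n : ℝ) ^ (ε / 2) + l * n - v * x))) ≤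
      ((n : ℝ) + 1) ^ 2 *
        (K ^ 2 * Real.exp (G C 0 0 * n + (2 * (n : ℝ) ^ (ε / 2) + l * n - v * x))) :=
    mul_le_mul_of_nonneg_right (card_ixs_le n) (by positivity)
  have hn1 : (0 : ℝ) < (n : ℝ) + 1 := by positivity
  have h6 : ((n : ℝ) + 1) ^ 2 = Real.exp (2 * Real.log ((n : ℝ) + 1)) := by
    rw [two_mul, Real.exp_add, Real.exp_log hn1]; ring
  have h7 := hc n hn
  calc (((sas C n).filter (fun l => (x : ℤ) ≤ mx l)).card : ℝ)
      ≤ ((n : ℝ) + 1) ^ 2 *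
        (K ^ 2 * Real.exp (G C 0 0 * n + (2 * (n : ℝ) ^ (ε / 2) + l * n - v * x))) :=
        (h2.trans h3).trans h5
    _ = K ^ 2 * Real.exp ((2 * Real.log ((n : ℝ) + 1) + 2 * (n : ℝ) ^ (ε / 2)) + l * n - v * x) *
        Real.exp (G C 0 0 * n) := by
        rw [h6, mul_left_comm, ← Real.exp_add, mul_assoc, ← Real.exp_add]
        congr 2
        ring
    _ ≤ K ^ 2 * Real.exp (((n : ℝ) ^ ε + c) + 1 - v * x) * ((sas C n).card : ℝ) := by
        apply mul_le_mul _ h4 (Real.exp_pos _).le (by positivity)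
        apply mul_le_mul_of_nonneg_left _ (by positivity)
        apply Real.exp_le_exp.2
        linarith
    _ = K ^ 2 * Real.exp (c + 1) * Real.exp ((n : ℝ) ^ ε - v * x) * ((sas C n).card : ℝ) := by
        rw [mul_assoc (K ^ 2) (Real.exp (c + 1)), ← Real.exp_add]
        congr 3
        ring

end SawNu.SF
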